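import Pool.Agent.BCore.Defs

/-!
# Counting pairs with a given gcd
-/

namespace Pool.Agent.Disp

open Finset Pool.Agent.BCore

lemma card_mult_le (U e : ℕ) :
    (((Ioc U (2 * U)).filter (fun u => e ∣ u)).card : ℝ) ≤ 2 * (U : ℝ) / e := by
  have h1 : (Ioc U (2 * U)).filter (fun u => e ∣ u) ⊆ (Ioc 0 (2 * U)).filter (fun u => e ∣ u) := by
    intro x hx
    rw [mem_filter, mem_Ioc] at hx ⊢
    exact ⟨⟨by omega, hx.1.2⟩, hx.2⟩
  have h2 := card_le_card h1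
  rw [Nat.Ioc_filter_dvd_card_eq_div] at h2
  calc (((Ioc U (2 * U)).filter (fun u => e ∣ u)).card : ℝ) ≤ ((2 * U / e : ℕ) : ℝ) := by
        exact_mod_cast h2
    _ ≤ ((2 * U : ℕ) : ℝ) / e := Nat.cast_div_le
    _ = 2 * (U : ℝ) / e := by push_cast; ring

lemma card_multI_le (U e : ℕ) (hU : 1 ≤ U) :
    (((Icc U (2 * U)).filter (fun u => e ∣ u)).card : ℝ) ≤ 2 * (U : ℝ) / e := by
  have h1 : (Icc U (2 * U)).filter (fun u => e ∣ u) ⊆ (Ioc 0 (2 * U)).filter (fun u => e ∣ u) := by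
    intro x hx
    rw [mem_filter, mem_Icc] at hx
    rw [mem_filter, mem_Ioc]
    exact ⟨⟨by omega, hx.1.2⟩, hx.2⟩
  have h2 := card_le_card h1
  rw [Nat.Ioc_filter_dvd_card_eq_div] at h2
  calc (((Icc U (2 * U)).filter (fun u => e ∣ u)).card : ℝ) ≤ ((2 * U / e : ℕ) : ℝ) := by
        exact_mod_cast h2
    _ ≤ ((2 * U : ℕ) : ℝ) / e := Nat.cast_div_le
    _ = 2 * (U : ℝ) / e := by push_cast; ring

/-- The pairs `(u, v)`. -/
def J (U V : ℕ) : Finset (ℕ × ℕ) := Icc U (2 * U) ×ˢ Ioc V (2 * V)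

lemma mem_J {U V : ℕ} {j : ℕ × ℕ} : j ∈ J U V ↔
    (U ≤ j.1 ∧ j.1 ≤ 2 * U) ∧ (V < j.2 ∧ j.2 ≤ 2 * V) := by
  unfold J
  rw [mem_product, mem_Icc, mem_Ioc]

lemma card_J (U V : ℕ) (hU : 1 ≤ U) : (J U V).card ≤ 2 * U * V := by
  unfold J
  rw [card_product, Nat.card_Icc, Nat.card_Ioc]
  exact Nat.mul_le_mul (by omega) (by omega)

theorem card_pairs (U V g : ℕ) (hU : 1 ≤ U) (hg : 1 ≤ g) :
    (((J U V).filter (fun j => g ∣ j.1 * j.2)).card : ℝ) ≤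
      (tau g : ℝ) * (4 * (U : ℝ) * V / g) := by
  have h1 : (J U V).filter (fun j => g ∣ j.1 * j.2) ⊆
      g.divisors.biUnion fun e => ((Icc U (2 * U)).filter (fun u => e ∣ u)) ×ˢ
        ((Ioc V (2 * V)).filter (fun v => g / e ∣ v)) := by
    intro j hj
    rw [mem_filter] at hj
    obtain ⟨hj1, hj2⟩ := hj
    unfold J at hj1
    rw [mem_product] at hj1
    rw [mem_biUnion]
    refine ⟨Nat.gcd g j.1, ?_, ?_⟩
    · rw [Nat.mem_divisors]
      exact ⟨Nat.gcd_dvd_left _ _, by omega⟩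
    · rw [mem_product, mem_filter, mem_filter]
      refine ⟨⟨hj1.1, Nat.gcd_dvd_right _ _⟩, hj1.2, ?_⟩
      have hpos : 0 < Nat.gcd g j.1 := Nat.gcd_pos_of_pos_left _ (by omega)
      have hcop : Nat.Coprime (g / Nat.gcd g j.1) (j.1 / Nat.gcd g j.1) :=
        Nat.coprime_div_gcd_div_gcd hpos
      refine hcop.dvd_of_dvd_mul_left ?_
      have : Nat.gcd g j.1 * (g / Nat.gcd g j.1) ∣
          Nat.gcd g j.1 * (j.1 / Nat.gcd g j.1 * j.2) := by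
        rw [Nat.mul_div_cancel' (Nat.gcd_dvd_left _ _), ← mul_assoc,
          Nat.mul_div_cancel' (Nat.gcd_dvd_right _ _)]
        exact hj2
      exact Nat.dvd_of_mul_dvd_mul_left hpos this
  have h2 : (((J U V).filter (fun j => g ∣ j.1 * j.2)).card : ℝ) ≤
      ∑ e ∈ g.divisors, ((((Icc U (2 * U)).filter (fun u => e ∣ u)) ×ˢ
        ((Ioc V (2 * V)).filter (fun v => g / e ∣ v))).card : ℝ) := by
    have := (card_le_card h1).trans card_biUnion_le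
    exact_mod_cast this
  refine h2.trans ?_
  have h3 : ∀ e ∈ g.divisors, ((((Icc U (2 * U)).filter (fun u => e ∣ u)) ×ˢ
        ((Ioc V (2 * V)).filter (fun v => g / e ∣ v))).card : ℝ) ≤ 4 * (U : ℝ) * V / g := by
    intro e he
    have hed : e ∣ g := Nat.dvd_of_mem_divisors he
    have he1 : 1 ≤ e := Nat.pos_of_mem_divisors he
    have hge : 1 ≤ g / e := Nat.div_pos (Nat.le_of_dvd (by omega) hed) he1
    rw [card_product]
    push_cast
    calc (((Icc U (2 * U)).filter (fun u => e ∣ u)).card : ℝ) *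
          (((Ioc V (2 * V)).filter (fun v => g / e ∣ v)).card : ℝ)
        ≤ (2 * (U : ℝ) / e) * (2 * (V : ℝ) / ((g / e : ℕ) : ℝ)) := by
          refine mul_le_mul (card_multI_le U e hU) (card_mult_le V (g / e)) (by positivity)
            (by positivity)
      _ = 4 * (U : ℝ) * V / g := by
          have h5 : (g : ℝ) = e * ((g / e : ℕ) : ℝ) := by
            exact_mod_cast (Nat.mul_div_cancel' hed).symm
          have h6 : (e : ℝ) ≠ 0 := by positivity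
          have h7 : (((g / e : ℕ) : ℝ)) ≠ 0 := by positivity
          rw [h5]
          field_simp
          ring
  refine (sum_le_sum h3).trans (le_of_eq ?_)
  rw [sum_const, nsmul_eq_mul]
  rfl

/-- Sums over pairs of pairs, by the gcd. -/
theorem gcd_sum (U V D0 : ℕ) (hU : 1 ≤ U) (F : ℕ → ℝ) (hF : ∀ g, 0 ≤ F g) :
    ∑ i ∈ J U V, ∑ j ∈ J U V,
      (if D0 < Nat.gcd (i.1 * i.2) (j.1 * j.2) then F (Nat.gcd (i.1 * i.2) (j.1 * j.2)) else 0) ≤
      ∑ g ∈ Ioc D0 (4 * U * V), F g * ((tau g : ℝ) * (4 * (U : ℝ) * V / g)) ^ 2 := by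
  have h1 : ∀ i ∈ J U V, ∀ j ∈ J U V,
      (if D0 < Nat.gcd (i.1 * i.2) (j.1 * j.2) then F (Nat.gcd (i.1 * i.2) (j.1 * j.2)) else 0) ≤
      ∑ g ∈ Ioc D0 (4 * U * V), F g * ((if g ∣ i.1 * i.2 then 1 else 0) *
        (if g ∣ j.1 * j.2 then 1 else 0)) := by
    intro i hi j _
    rw [mem_J] at hi
    have hnn : ∀ g ∈ Ioc D0 (4 * U * V), 0 ≤ F g * ((if g ∣ i.1 * i.2 then (1 : ℝ) else 0) *
        (if g ∣ j.1 * j.2 then 1 else 0)) := by
      intro g _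
      refine mul_nonneg (hF g) (mul_nonneg ?_ ?_) <;> split_ifs <;> norm_num
    split_ifs with h
    · set g := Nat.gcd (i.1 * i.2) (j.1 * j.2) with hg
      have hmem : g ∈ Ioc D0 (4 * U * V) := by
        rw [mem_Ioc]
        refine ⟨h, ?_⟩
        have h3 : g ≤ i.1 * i.2 := Nat.le_of_dvd
          (Nat.mul_pos (by omega) (by omega)) (Nat.gcd_dvd_left _ _)
        have h4 : i.1 * i.2 ≤ (2 * U) * (2 * V) := Nat.mul_le_mul hi.1.2 hi.2.2
        calc g ≤ (2 * U) * (2 * V) := h3.trans h4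
          _ = 4 * U * V := by ring
      refine le_trans (le_of_eq ?_) (single_le_sum hnn hmem)
      rw [if_pos (Nat.gcd_dvd_left _ _), if_pos (Nat.gcd_dvd_right _ _)]
      ring
    · exact sum_nonneg hnn
  refine (sum_le_sum fun i hi => sum_le_sum fun j hj => h1 i hi j hj).trans ?_
  have h2 : ∑ i ∈ J U V, ∑ j ∈ J U V, ∑ g ∈ Ioc D0 (4 * U * V),
      F g * ((if g ∣ i.1 * i.2 then (1 : ℝ) else 0) * (if g ∣ j.1 * j.2 then 1 else 0)) =
      ∑ g ∈ Ioc D0 (4 * U * V), F g * ((((J U V).filter (fun j => g ∣ j.1 * j.2)).card : ℝ)) ^ 2 := by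
    rw [sum_congr rfl fun i _ => sum_comm, sum_comm]
    refine sum_congr rfl fun g _ => ?_
    rw [card_filter]
    push_cast
    rw [sq, sum_mul_sum, mul_sum]
    refine sum_congr rfl fun i _ => ?_
    rw [mul_sum]
  rw [h2]
  refine sum_le_sum fun g hg => ?_
  refine mul_le_mul_of_nonneg_left ?_ (hF g)
  rw [mem_Ioc] at hg
  exact pow_le_pow_left₀ (by positivity) (card_pairs U V g hU (by omega)) 2

theorem sum_inv_le (n : ℕ) : ∑ g ∈ Ioc 0 n, (1 : ℝ) / g ≤ 1 + Real.log n := by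
  have h := harmonic_le_one_add_log n
  have h2 : ((harmonic n : ℚ) : ℝ) = ∑ g ∈ Ioc 0 n, (1 : ℝ) / g := by
    rw [harmonic_eq_sum_Icc]
    push_cast
    rw [show Ioc 0 n = Icc 1 n by ext x; simp [Nat.succ_le_iff]]
    exact sum_congr rfl fun x _ => by rw [one_div]
  rw [← h2]
  exact h

/-- The sum of all gcds. -/
theorem gcd_sum_total (U V : ℕ) (hU : 1 ≤ U) (T : ℝ) (hT : ∀ g : ℕ, 1 ≤ g → g ≤ 4 * U * V → (tau g : ℝ) ≤ T)
    (hT1 : 1 + Real.log ((4 * U * V : ℕ) : ℝ) ≤ T) (hT0 : 1 ≤ T) :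
    ∑ i ∈ J U V, ∑ j ∈ J U V, ((Nat.gcd (i.1 * i.2) (j.1 * j.2) : ℕ) : ℝ) ≤
      16 * T ^ 3 * ((U : ℝ) * V) ^ 2 := by
  have h1 := gcd_sum U V 0 hU (fun g => (g : ℝ)) (fun g => by positivity)
  have h2 : ∑ i ∈ J U V, ∑ j ∈ J U V, ((Nat.gcd (i.1 * i.2) (j.1 * j.2) : ℕ) : ℝ) =
      ∑ i ∈ J U V, ∑ j ∈ J U V, (if 0 < Nat.gcd (i.1 * i.2) (j.1 * j.2) then
        ((Nat.gcd (i.1 * i.2) (j.1 * j.2) : ℕ) : ℝ) else 0) := by
    refine sum_congr rfl fun i _ => sum_congr rfl fun j _ => ?_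
    split_ifs with h
    · rfl
    · have : Nat.gcd (i.1 * i.2) (j.1 * j.2) = 0 := by omega
      rw [this]; norm_num
  rw [h2]
  refine h1.trans ?_
  have h3 : ∀ g ∈ Ioc 0 (4 * U * V), (g : ℝ) * ((tau g : ℝ) * (4 * (U : ℝ) * V / g)) ^ 2 ≤
      16 * T ^ 2 * ((U : ℝ) * V) ^ 2 * (1 / g) := by
    intro g hg
    rw [mem_Ioc] at hg
    have hg0 : (0 : ℝ) < g := by exact_mod_cast hg.1
    have ht := hT g hg.1 hg.2
    have : (g : ℝ) * ((tau g : ℝ) * (4 * (U : ℝ) * V / g)) ^ 2 =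
        16 * (tau g : ℝ) ^ 2 * ((U : ℝ) * V) ^ 2 * (1 / g) := by
      field_simp
      ring
    rw [this]
    have h5 : (tau g : ℝ) ^ 2 ≤ T ^ 2 := pow_le_pow_left₀ (by positivity) ht 2
    gcongr
  refine (sum_le_sum h3).trans ?_
  rw [← mul_sum]
  have h4 := (sum_inv_le (4 * U * V)).trans hT1
  calc 16 * T ^ 2 * ((U : ℝ) * V) ^ 2 * ∑ g ∈ Ioc 0 (4 * U * V), (1 : ℝ) / g
      ≤ 16 * T ^ 2 * ((U : ℝ) * V) ^ 2 * T := by gcongr
    _ = 16 * T ^ 3 * ((U : ℝ) * V) ^ 2 := by ring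

end Pool.Agent.Disp
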