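import Pool.Agent.BCore.Defs

/-!
# DISP module TAU: the divisor bound and two consequences

HINT for tau_eps: `tau n = ∏ (a_p + 1)`; for `p ≥ 2^(1/ε)` one has `a + 1 ≤ 2^a ≤ p^(ε a)`, for
the finitely many smaller `p` one has `a + 1 ≤ C_ε 2^(ε a) ≤ C_ε p^(ε a)`, `C_ε = 1 + 1/(ε log 2)`
(or: induction on `n` via `Nat.recOnPosPrimePosCoprime`; or from helper45's
`Pool.Agent.BV.tau_le_small`). tau_sq_tail: `tau_eps` with `ε = 1/8`, `g^(-7/4) ≤ D0^(-1/2) g^(-5/4)`.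
tau_sup: `ε' = ε / 20`.
-/

set_option autoImplicit false

namespace Pool.Agent.Disp

open Finset Pool.Agent.BCore

private theorem TAU_prime (ε : ℝ) (hε : 0 < ε) (p a : ℕ) (hp : 2 ≤ p) :
    ((a + 1 : ℕ) : ℝ) ≤ (if p < ⌈(2 : ℝ) ^ (1 / ε)⌉₊ then 1 + 1 / (ε * Real.log 2) else 1) *
      ((p : ℝ) ^ a) ^ ε := by
  have hp0 : (0 : ℝ) < p := by positivity
  have hp2 : (2 : ℝ) ≤ p := by exact_mod_cast hp
  have hl2 : 0 < Real.log 2 := Real.log_pos (by norm_num)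
  have hpow : ((p : ℝ) ^ a) ^ ε = ((p : ℝ) ^ ε) ^ a := by
    rw [← Real.rpow_natCast, ← Real.rpow_natCast, ← Real.rpow_mul hp0.le,
      ← Real.rpow_mul hp0.le, mul_comm]
  split_ifs with h
  · have h1 : (2 : ℝ) ^ (ε * a) ≤ ((p : ℝ) ^ a) ^ ε := by
      rw [← Real.rpow_natCast, ← Real.rpow_mul hp0.le, mul_comm ε]
      exact Real.rpow_le_rpow (by norm_num) hp2 (by positivity)
    have h2 : 1 + ε * Real.log 2 * a ≤ (2 : ℝ) ^ (ε * a) := by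
      rw [Real.rpow_def_of_pos (by norm_num)]
      have := Real.add_one_le_exp (Real.log 2 * (ε * a))
      linarith
    have h3 : (0 : ℝ) < ε * Real.log 2 := by positivity
    have h4 : (a + 1 : ℝ) ≤ (1 + 1 / (ε * Real.log 2)) * (1 + ε * Real.log 2 * a) := by
      have h5 : (1 + 1 / (ε * Real.log 2)) * (1 + ε * Real.log 2 * a) =
          1 + ε * Real.log 2 * a + 1 / (ε * Real.log 2) + a := by
        field_simp
        ring
      rw [h5]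
      have h6 : 0 ≤ ε * Real.log 2 * a := by positivity
      have h7 : 0 ≤ 1 / (ε * Real.log 2) := by positivity
      linarith
    push_cast
    refine h4.trans ?_
    exact mul_le_mul_of_nonneg_left (h2.trans h1) (by positivity)
  · push Not at h
    rw [one_mul, hpow]
    have h1 : (2 : ℝ) ^ (1 / ε) ≤ p := (Nat.le_ceil _).trans (by exact_mod_cast h)
    have h2 : (2 : ℝ) ≤ (p : ℝ) ^ ε := by
      calc (2 : ℝ) = ((2 : ℝ) ^ (1 / ε)) ^ ε := by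
            rw [← Real.rpow_mul (by norm_num), one_div, inv_mul_cancel₀ hε.ne', Real.rpow_one]
        _ ≤ (p : ℝ) ^ ε := Real.rpow_le_rpow (by positivity) h1 hε.le
    have h3 : ((a + 1 : ℕ) : ℝ) ≤ 2 ^ a := by
      exact_mod_cast Nat.lt_two_pow_self (n := a)
    exact h3.trans (pow_le_pow_left₀ (by norm_num) h2 a)

theorem tau_eps (ε : ℝ) (hε : 0 < ε) :
    ∃ C : ℝ, 1 ≤ C ∧ ∀ n : ℕ, 1 ≤ n → (n.divisors.card : ℝ) ≤ C * (n : ℝ) ^ ε := by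
  classical
  set K : ℕ := ⌈(2 : ℝ) ^ (1 / ε)⌉₊ with hK
  have hl2 : 0 < Real.log 2 := Real.log_pos (by norm_num)
  set E : ℝ := 1 + 1 / (ε * Real.log 2) with hE
  have hE1 : 1 ≤ E := by
    have : 0 ≤ 1 / (ε * Real.log 2) := by positivity
    linarith
  refine ⟨E ^ K, one_le_pow₀ hE1, fun n hn => ?_⟩
  have hn0 : n ≠ 0 := by omega
  have h1 : (n.divisors.card : ℝ) = ∏ p ∈ n.primeFactors, ((n.factorization p + 1 : ℕ) : ℝ) := by
    rw [Nat.card_divisors hn0]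
    push_cast
    rfl
  have h2 : (n : ℝ) ^ ε = ∏ p ∈ n.primeFactors, ((p : ℝ) ^ (n.factorization p)) ^ ε := by
    rw [Real.finsetProd_rpow _ _ (fun p _ => by positivity)]
    congr 1
    have h3 := Nat.prod_factorization_pow_eq_self hn0
    conv_lhs => rw [← h3]
    rw [Finsupp.prod, Nat.support_factorization]
    push_cast
    rfl
  have h4 : ∏ p ∈ n.primeFactors, (if p < K then E else 1) ≤ E ^ K := by
    rw [Finset.prod_ite, Finset.prod_const, Finset.prod_const_one, mul_one]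
    refine pow_le_pow_right₀ hE1 ?_
    calc (n.primeFactors.filter fun p => p < K).card ≤ (Finset.range K).card :=
          Finset.card_le_card fun p hp => Finset.mem_range.2 (Finset.mem_filter.1 hp).2
      _ = K := Finset.card_range K
  rw [h1, h2]
  calc ∏ p ∈ n.primeFactors, ((n.factorization p + 1 : ℕ) : ℝ)
      ≤ ∏ p ∈ n.primeFactors, ((if p < K then E else 1) *
          ((p : ℝ) ^ (n.factorization p)) ^ ε) :=
        Finset.prod_le_prod (fun p _ => by positivity) fun p hp =>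
          TAU_prime ε hε p _ (Nat.prime_of_mem_primeFactors hp).two_le
    _ = (∏ p ∈ n.primeFactors, (if p < K then E else 1)) *
          ∏ p ∈ n.primeFactors, ((p : ℝ) ^ (n.factorization p)) ^ ε := Finset.prod_mul_distrib
    _ ≤ E ^ K * ∏ p ∈ n.primeFactors, ((p : ℝ) ^ (n.factorization p)) ^ ε :=
        mul_le_mul_of_nonneg_right h4 (Finset.prod_nonneg fun p _ => by positivity)

theorem tau_sq_tail : ∃ C : ℝ, 0 < C ∧ ∀ D0 G : ℕ, 1 ≤ D0 →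
    ∑ g ∈ Ioc D0 G, (tau g : ℝ) ^ 2 / (g : ℝ) ^ 2 ≤ C / Real.sqrt D0 := by
  obtain ⟨C, hC, h⟩ := tau_eps (1 / 8) (by norm_num)
  have hsum : Summable fun n : ℕ => 1 / (n : ℝ) ^ (5 / 4 : ℝ) :=
    Real.summable_one_div_nat_rpow.2 (by norm_num)
  have hT : 0 ≤ ∑' n : ℕ, 1 / (n : ℝ) ^ (5 / 4 : ℝ) := tsum_nonneg fun n => by positivity
  refine ⟨C ^ 2 * ((∑' n : ℕ, 1 / (n : ℝ) ^ (5 / 4 : ℝ)) + 1), by positivity, ?_⟩
  intro D0 G hD
  have hD' : (0 : ℝ) < D0 := by exact_mod_cast hD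
  have hsq : 0 < Real.sqrt D0 := Real.sqrt_pos.2 hD'
  have h1 : ∀ g ∈ Ioc D0 G, (tau g : ℝ) ^ 2 / (g : ℝ) ^ 2 ≤
      C ^ 2 / Real.sqrt D0 * (1 / (g : ℝ) ^ (5 / 4 : ℝ)) := by
    intro g hg
    rw [Finset.mem_Ioc] at hg
    have hg1 : 1 ≤ g := by omega
    have hg0 : (0 : ℝ) < g := by exact_mod_cast hg1
    have h2 : (tau g : ℝ) ≤ C * (g : ℝ) ^ (1 / 8 : ℝ) := h g hg1
    have h3 : (tau g : ℝ) ^ 2 ≤ C ^ 2 * (g : ℝ) ^ (1 / 4 : ℝ) := by
      calc (tau g : ℝ) ^ 2 ≤ (C * (g : ℝ) ^ (1 / 8 : ℝ)) ^ 2 :=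
            pow_le_pow_left₀ (Nat.cast_nonneg _) h2 2
        _ = C ^ 2 * (g : ℝ) ^ (1 / 4 : ℝ) := by
            rw [mul_pow, ← Real.rpow_natCast ((g : ℝ) ^ (1 / 8 : ℝ)) 2, ← Real.rpow_mul hg0.le]
            norm_num
    have h4 : Real.sqrt D0 * ((g : ℝ) ^ (1 / 4 : ℝ) * (g : ℝ) ^ (5 / 4 : ℝ)) ≤ (g : ℝ) ^ 2 := by
      have h5 : Real.sqrt D0 ≤ (g : ℝ) ^ (1 / 2 : ℝ) := by
        rw [Real.sqrt_eq_rpow]
        exact Real.rpow_le_rpow hD'.le (by exact_mod_cast hg.1.le) (by norm_num)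
      calc Real.sqrt D0 * ((g : ℝ) ^ (1 / 4 : ℝ) * (g : ℝ) ^ (5 / 4 : ℝ))
          ≤ (g : ℝ) ^ (1 / 2 : ℝ) * ((g : ℝ) ^ (1 / 4 : ℝ) * (g : ℝ) ^ (5 / 4 : ℝ)) :=
            mul_le_mul_of_nonneg_right h5 (by positivity)
        _ = (g : ℝ) ^ 2 := by
            rw [← Real.rpow_add hg0, ← Real.rpow_add hg0, ← Real.rpow_natCast]
            norm_num
    have h6 : 0 < (g : ℝ) ^ (5 / 4 : ℝ) := by positivity
    rw [div_mul_div_comm, mul_one, div_le_div_iff₀ (by positivity) (by positivity)]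
    calc (tau g : ℝ) ^ 2 * (Real.sqrt D0 * (g : ℝ) ^ (5 / 4 : ℝ))
        ≤ (C ^ 2 * (g : ℝ) ^ (1 / 4 : ℝ)) * (Real.sqrt D0 * (g : ℝ) ^ (5 / 4 : ℝ)) :=
          mul_le_mul_of_nonneg_right h3 (by positivity)
      _ = C ^ 2 * (Real.sqrt D0 * ((g : ℝ) ^ (1 / 4 : ℝ) * (g : ℝ) ^ (5 / 4 : ℝ))) := by ring
      _ ≤ C ^ 2 * (g : ℝ) ^ 2 := mul_le_mul_of_nonneg_left h4 (by positivity)
  calc ∑ g ∈ Ioc D0 G, (tau g : ℝ) ^ 2 / (g : ℝ) ^ 2
      ≤ ∑ g ∈ Ioc D0 G, C ^ 2 / Real.sqrt D0 * (1 / (g : ℝ) ^ (5 / 4 : ℝ)) :=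
        Finset.sum_le_sum h1
    _ = C ^ 2 / Real.sqrt D0 * ∑ g ∈ Ioc D0 G, (1 / (g : ℝ) ^ (5 / 4 : ℝ)) := by
        rw [Finset.mul_sum]
    _ ≤ C ^ 2 / Real.sqrt D0 * ((∑' n : ℕ, 1 / (n : ℝ) ^ (5 / 4 : ℝ)) + 1) := by
        refine mul_le_mul_of_nonneg_left ?_ (by positivity)
        have := hsum.sum_le_tsum (Ioc D0 G) (fun n _ => by positivity)
        linarith
    _ = C ^ 2 * ((∑' n : ℕ, 1 / (n : ℝ) ^ (5 / 4 : ℝ)) + 1) / Real.sqrt D0 := by ring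

/-- `sup of tau up to x^20` and `log` are at most `x^ε`. -/
theorem tau_sup (ε : ℝ) (hε : 0 < ε) : ∃ x0 : ℝ, 2 ≤ x0 ∧ ∀ x : ℝ, x0 ≤ x →
    (∀ m : ℕ, 1 ≤ m → (m : ℝ) ≤ x ^ (20 : ℕ) → (tau m : ℝ) ≤ x ^ ε) ∧
      1 + Real.log (x ^ (20 : ℕ)) ≤ x ^ ε := by
  obtain ⟨C, hC, h⟩ := tau_eps (ε / 40) (by positivity)
  have e1 : ∀ᶠ x : ℝ in Filter.atTop, C ≤ x ^ (ε / 2) :=
    (tendsto_rpow_atTop (by positivity)).eventually_ge_atTop C
  have e2 : ∀ᶠ x : ℝ in Filter.atTop, ‖Real.log x‖ ≤ (1 / 40) * ‖x ^ ε‖ :=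
    (isLittleO_log_rpow_atTop hε).bound (by norm_num)
  have e3 : ∀ᶠ x : ℝ in Filter.atTop, 2 ≤ x ^ ε :=
    (tendsto_rpow_atTop hε).eventually_ge_atTop 2
  obtain ⟨x0, hx0⟩ := Filter.eventually_atTop.1 (e1.and (e2.and e3))
  refine ⟨max x0 2, le_max_right _ _, fun x hx => ?_⟩
  obtain ⟨g1, g2, g3⟩ := hx0 x ((le_max_left _ _).trans hx)
  have hx2 : 2 ≤ x := (le_max_right _ _).trans hx
  have hxpos : 0 < x := by linarith
  constructor
  · intro m hm hmx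
    have h1 : (tau m : ℝ) ≤ C * (m : ℝ) ^ (ε / 40) := h m hm
    have h2 : (m : ℝ) ^ (ε / 40) ≤ x ^ (ε / 2) := by
      calc (m : ℝ) ^ (ε / 40) ≤ (x ^ (20 : ℕ)) ^ (ε / 40) :=
            Real.rpow_le_rpow (Nat.cast_nonneg _) hmx (by positivity)
        _ = x ^ (ε / 2) := by
            rw [← Real.rpow_natCast, ← Real.rpow_mul hxpos.le]
            congr 1
            push_cast
            ring
    calc (tau m : ℝ) ≤ C * (m : ℝ) ^ (ε / 40) := h1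
      _ ≤ x ^ (ε / 2) * x ^ (ε / 2) :=
          mul_le_mul g1 h2 (by positivity) (by positivity)
      _ = x ^ ε := by
          rw [← Real.rpow_add hxpos]
          congr 1
          ring
  · have hlog : 0 ≤ Real.log x := Real.log_nonneg (by linarith)
    have hxε : 0 < x ^ ε := Real.rpow_pos_of_pos hxpos _
    rw [Real.norm_of_nonneg hlog, Real.norm_of_nonneg hxε.le] at g2
    rw [Real.log_pow]
    push_cast
    linarith

end Pool.Agent.Disp
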