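import Pool.Agent.Disp.Off

/-!
# The diagonal
-/

namespace Pool.Agent.Disp

open Finset Pool.Agent.BCore

lemma card_class_le (P : ℕ) (hP : 0 < P) (Q : ℕ) (S : Finset ℤ) (hS : ∀ k ∈ S, |k| ≤ Q)
    (hc : ∀ k ∈ S, ∀ k' ∈ S, (P : ℤ) ∣ k - k') : (S.card : ℝ) ≤ 2 * (Q : ℝ) / P + 2 := by
  rcases S.eq_empty_or_nonempty with h | ⟨k0, hk0⟩
  · rw [h, card_empty]
    have : (0 : ℝ) ≤ 2 * (Q : ℝ) / P := by positivity
    push_cast
    linarith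
  have hPr : (0 : ℝ) < P := by exact_mod_cast hP
  have hsub : S ⊆ (Ioc (-(Q : ℤ) - 1) Q).filter (fun x => x ≡ k0 [ZMOD (P : ℤ)]) := by
    intro k hk
    rw [mem_filter, mem_Ioc]
    have h1 := abs_le.mp (hS k hk)
    refine ⟨⟨by omega, h1.2⟩, ?_⟩
    exact Int.modEq_iff_dvd.mpr (hc k0 hk0 k hk)
  have h2 := card_le_card hsub
  have h3 := Int.Ioc_filter_modEq_card (-(Q : ℤ) - 1) Q (r := (P : ℤ)) (by exact_mod_cast hP) k0
  have h4 : (S.card : ℤ) ≤ max (⌊(((Q : ℤ) - k0 : ℤ) : ℚ) / ((P : ℤ) : ℚ)⌋ -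
      ⌊((-(Q : ℤ) - 1 - k0 : ℤ) : ℚ) / ((P : ℤ) : ℚ)⌋) 0 := by
    have h5 : (S.card : ℤ) ≤ (((Ioc (-(Q : ℤ) - 1) Q).filter
      (fun x => x ≡ k0 [ZMOD (P : ℤ)])).card : ℤ) := by exact_mod_cast h2
    refine h5.trans (le_of_eq ?_)
    rw [h3]
    push_cast
    rfl
  have hPq : (0 : ℚ) < P := by exact_mod_cast hP
  have h6 : ((⌊(((Q : ℤ) - k0 : ℤ) : ℚ) / ((P : ℤ) : ℚ)⌋ -
      ⌊((-(Q : ℤ) - 1 - k0 : ℤ) : ℚ) / ((P : ℤ) : ℚ)⌋ : ℤ) : ℚ) ≤ 2 * (Q : ℚ) / P + 2 := by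
    push_cast
    have e1 := Int.floor_le ((((Q : ℚ) - k0)) / (P : ℚ))
    have e2 := Int.sub_one_lt_floor (((-(Q : ℚ) - 1 - k0)) / (P : ℚ))
    have e3 : ((Q : ℚ) - k0) / P - (-(Q : ℚ) - 1 - k0) / P = 2 * (Q : ℚ) / P + 1 / P := by
      field_simp
      ring
    have e4 : (1 : ℚ) / P ≤ 1 := by
      rw [div_le_one hPq]
      exact_mod_cast hP
    linarith
  have h7 : ((max (⌊(((Q : ℤ) - k0 : ℤ) : ℚ) / ((P : ℤ) : ℚ)⌋ -
      ⌊((-(Q : ℤ) - 1 - k0 : ℤ) : ℚ) / ((P : ℤ) : ℚ)⌋) 0 : ℤ) : ℚ) ≤ 2 * (Q : ℚ) / P + 2 := by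
    rw [Int.cast_max]
    refine max_le h6 ?_
    push_cast
    positivity
  have h8 : ((S.card : ℕ) : ℚ) ≤ 2 * (Q : ℚ) / P + 2 := by
    have : (((S.card : ℕ) : ℤ) : ℚ) ≤ _ := (Int.cast_le (R := ℚ)).mpr h4
    push_cast at this h7 ⊢
    linarith
  have h9 : (((S.card : ℕ) : ℚ) : ℝ) ≤ ((2 * (Q : ℚ) / P + 2 : ℚ) : ℝ) := by exact_mod_cast h8
  push_cast at h9
  exact h9

open Classical in
lemma Gs_le {M : ℕ} {Z : ℝ} (hM : 0 < M) (hZ : 1 ≤ Z) (a b1 b2 : ℤ) (r : ℕ) (l : ℤ) (d1 d2 : ℕ)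
    (n : ℤ) :
    ‖Gs M a b1 b2 r l d1 d2 n‖ ≤
      (((Icc (-(⌊(M : ℝ) * Z⌋₊ : ℤ)) ⌊(M : ℝ) * Z⌋₊).filter
        (fun m => Cls a b1 b2 r l d1 d2 n m)).card : ℝ) + tailC * Real.exp (-Z) * (M : ℝ) ^ 2 := by
  have hMr : (0 : ℝ) < (M : ℝ) := by exact_mod_cast hM
  set Q0 : ℕ := ⌊(M : ℝ) * Z⌋₊ with hQ0
  set I : Finset ℤ := Icc (-(Q0 : ℤ)) Q0 with hI
  have hterm : ∀ m : ℤ, ‖((gau M m : ℝ) : ℂ) * ci a b1 b2 r l d1 d2 n m‖ ≤
      (if m ∈ I then (if Cls a b1 b2 r l d1 d2 n m then (1 : ℝ) else 0) else 0) +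
      (if m ∈ ({m : ℤ | m ∉ I} : Set ℤ) then gau M m else 0) := by
    intro m
    rw [norm_mul, Complex.norm_real, Real.norm_of_nonneg (gau_pos _ _).le]
    by_cases hm : m ∈ I
    · rw [if_pos hm, if_neg (show ¬ (m ∈ ({m : ℤ | m ∉ I} : Set ℤ)) from fun h => h hm), add_zero]
      unfold ci
      split_ifs with hc
      · rw [norm_one, mul_one]
        exact gau_le_one _ _
      · rw [norm_zero, mul_zero]
    · rw [if_neg hm, if_pos (show m ∈ ({m : ℤ | m ∉ I} : Set ℤ) from hm), zero_add]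
      calc gau M m * ‖ci a b1 b2 r l d1 d2 n m‖ ≤ gau M m * 1 :=
            mul_le_mul_of_nonneg_left (ci_norm_le _ _ _ _ _ _ _ _ _) (gau_pos _ _).le
        _ = gau M m := mul_one _
  have hs1 : Summable fun m : ℤ =>
      (if m ∈ I then (if Cls a b1 b2 r l d1 d2 n m then (1 : ℝ) else 0) else 0) :=
    summable_of_ne_finset_zero (s := I) (fun h hh => if_neg hh)
  have hs2 := summable_ind_gau hMr ({m : ℤ | m ∉ I} : Set ℤ)
  have h1 := tsum_of_norm_bounded (hs1.add hs2).hasSum hterm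
  rw [hs1.tsum_add hs2] at h1
  have h2 : ∑' m : ℤ, (if m ∈ I then (if Cls a b1 b2 r l d1 d2 n m then (1 : ℝ) else 0) else 0) =
      ((I.filter (fun m => Cls a b1 b2 r l d1 d2 n m)).card : ℝ) := by
    rw [tsum_eq_sum (s := I) (fun h hh => if_neg hh), card_filter]
    push_cast
    exact sum_congr rfl fun h hh => if_pos hh
  have h3 : ∀ h ∈ ({m : ℤ | m ∉ I} : Set ℤ), Z * (M : ℝ) ≤ |((h : ℤ) : ℝ)| := by
    intro h hh
    have hh' : h ∉ I := hh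
    rw [hI, mem_Icc, ← abs_le] at hh'
    push Not at hh'
    have h5 : ((Q0 : ℕ) : ℤ) + 1 ≤ |h| := by omega
    have h6 : ((Q0 : ℕ) : ℝ) + 1 ≤ |(h : ℝ)| := by exact_mod_cast h5
    have h7 := Nat.lt_floor_add_one ((M : ℝ) * Z)
    rw [← hQ0] at h7
    linarith
  have h4 := tail_bound hMr hZ _ h3
  unfold Gs
  refine h1.trans ?_
  rw [h2]
  exact add_le_add_right h4 _

open Classical in
theorem diag_count {M N : ℕ} {Z T : ℝ} (a b1 b2 : ℤ) (r d1 d2 : ℕ) (hr : 2 ≤ r)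
    (hP : 0 < Pm r d1 d2) (hcop : Nat.Coprime r (Nat.lcm d1 d2))
    (ha : IsCoprime (r : ℤ) a) (hZ : 1 ≤ Z) (hT0 : 0 ≤ T)
    (hT : ∀ m : ℕ, 1 ≤ m → (m : ℝ) ≤ M * N * Z → (tau m : ℝ) ≤ T) :
    ∑ n ∈ Icc (1 : ℤ) N, (((Icc (-(⌊(M : ℝ) * Z⌋₊ : ℤ)) ⌊(M : ℝ) * Z⌋₊).filter
        (fun m => Cls a b1 b2 r 0 d1 d2 n m)).card : ℝ) ≤
      T * (2 * ((M : ℝ) * N * Z) / (Pm r d1 d2 : ℕ) + 2) := by
  set Q0 : ℕ := ⌊(M : ℝ) * Z⌋₊ with hQ0
  set I : Finset ℤ := Icc (-(Q0 : ℤ)) Q0 with hI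
  set E : Finset (ℤ × ℤ) := (Icc (1 : ℤ) N ×ˢ I).filter
    (fun x => Cls a b1 b2 r 0 d1 d2 x.1 x.2) with hE
  have h1 : ∑ n ∈ Icc (1 : ℤ) N, ((I.filter (fun m => Cls a b1 b2 r 0 d1 d2 n m)).card : ℝ) =
      (E.card : ℝ) := by
    rw [hE, card_filter, sum_product]
    push_cast
    refine sum_congr rfl fun n _ => ?_
    rw [card_filter]
    push_cast
    rfl
  rw [h1]
  set f : ℤ × ℤ → ℤ := fun x => x.2 * x.1 with hf
  have hQ0le : (Q0 : ℝ) ≤ M * Z := Nat.floor_le (by positivity)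
  have hmem : ∀ x ∈ E, (1 ≤ x.1 ∧ x.1 ≤ N) ∧ |x.2| ≤ Q0 ∧ Cls a b1 b2 r 0 d1 d2 x.1 x.2 := by
    intro x hx
    rw [hE, mem_filter, mem_product, mem_Icc, hI, mem_Icc] at hx
    exact ⟨hx.1.1, abs_le.mpr hx.1.2, hx.2⟩
  have hk0 : ∀ x ∈ E, f x ≠ 0 := by
    intro x hx h0
    have h2 := (hmem x hx).2.2.1
    have h3 : x.2 * x.1 = 0 := h0
    rw [h3, zero_sub] at h2
    have h4 : (r : ℤ) ∣ a := by simpa using h2
    have h5 : IsUnit (r : ℤ) := ha.isUnit_of_dvd' (dvd_refl _) h4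
    rw [Int.isUnit_iff] at h5
    omega
  have hkabs : ∀ x ∈ E, |f x| ≤ ((Q0 * N : ℕ) : ℤ) := by
    intro x hx
    obtain ⟨⟨h2, h3⟩, h4, -⟩ := hmem x hx
    rw [hf]
    simp only
    rw [abs_mul, abs_of_pos (show (0 : ℤ) < x.1 by omega)]
    push_cast
    exact mul_le_mul h4 h3 (by omega) (by positivity)
  have hfib : ∀ k ∈ E.image f, (((E.filter fun x => f x = k).card : ℕ) : ℝ) ≤ T := by
    intro k hk
    rw [mem_image] at hk
    obtain ⟨y, hy, hyk⟩ := hk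
    have hkne : k ≠ 0 := hyk ▸ hk0 y hy
    have hkb : |k| ≤ ((Q0 * N : ℕ) : ℤ) := hyk ▸ hkabs y hy
    have hcard : (E.filter fun x => f x = k).card ≤ k.natAbs.divisors.card := by
      refine card_le_card_of_injOn (fun x => x.1.natAbs) ?_ ?_
      · intro x hx
        have hx' : x ∈ E.filter fun x => f x = k := hx
        rw [mem_filter] at hx'
        obtain ⟨hxE, hxk⟩ := hx'
        have : (x.1.natAbs : ℕ) ∈ k.natAbs.divisors := by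
          rw [Nat.mem_divisors]
          refine ⟨Int.natAbs_dvd_natAbs.mpr ⟨x.2, ?_⟩, by simpa using hkne⟩
          rw [← hxk, hf]
          simp only
          ring
        exact this
      · intro x hx y hy hxy
        have hx' : x ∈ E.filter fun x => f x = k := hx
        have hy' : y ∈ E.filter fun x => f x = k := hy
        rw [mem_filter] at hx' hy'
        have h2 := (hmem x hx'.1).1
        have h3 := (hmem y hy'.1).1
        have h4 : x.1 = y.1 := by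
          have : (x.1.natAbs : ℤ) = y.1.natAbs := by exact_mod_cast hxy
          rw [Int.natAbs_of_nonneg (by omega), Int.natAbs_of_nonneg (by omega)] at this
          exact this
        have h5 : x.2 * x.1 = y.2 * y.1 := hx'.2.trans hy'.2.symm
        rw [h4] at h5
        have h6 : x.2 = y.2 := mul_right_cancel₀ (by omega) h5
        exact Prod.ext h4 h6
    have h2 : ((k.natAbs.divisors.card : ℕ) : ℝ) ≤ T := by
      refine hT k.natAbs (Int.natAbs_pos.mpr hkne) ?_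
      have h3 : (k.natAbs : ℤ) ≤ ((Q0 * N : ℕ) : ℤ) := by
        rw [Int.natCast_natAbs]
        exact hkb
      have h4 : ((k.natAbs : ℕ) : ℝ) ≤ ((Q0 * N : ℕ) : ℝ) := by exact_mod_cast h3
      push_cast at h4
      calc ((k.natAbs : ℕ) : ℝ) ≤ (Q0 : ℝ) * N := h4
        _ ≤ ((M : ℝ) * Z) * N := mul_le_mul_of_nonneg_right hQ0le (by positivity)
        _ = M * N * Z := by ring
    exact le_trans (by exact_mod_cast hcard) h2
  have hcardE : (E.card : ℝ) ≤ T * ((E.image f).card : ℝ) := by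
    have h2 : E.card = ∑ k ∈ E.image f, (E.filter fun x => f x = k).card :=
      card_eq_sum_card_image f E
    rw [h2]
    push_cast
    calc ∑ k ∈ E.image f, (((E.filter fun x => f x = k).card : ℕ) : ℝ)
        ≤ ∑ k ∈ E.image f, T := sum_le_sum hfib
      _ = T * ((E.image f).card : ℝ) := by rw [sum_const, nsmul_eq_mul, mul_comm]
  have himg : ((E.image f).card : ℝ) ≤ 2 * ((Q0 * N : ℕ) : ℝ) / (Pm r d1 d2 : ℕ) + 2 := by
    refine card_class_le (Pm r d1 d2) hP (Q0 * N) _ ?_ ?_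
    · intro k hk
      rw [mem_image] at hk
      obtain ⟨y, hy, rfl⟩ := hk
      exact hkabs y hy
    · intro k hk k' hk'
      rw [mem_image] at hk hk'
      obtain ⟨y, hy, rfl⟩ := hk
      obtain ⟨y', hy', rfl⟩ := hk'
      obtain ⟨e1, e2, e3⟩ := (hmem y hy).2.2
      obtain ⟨e1', e2', e3'⟩ := (hmem y' hy').2.2
      rw [zero_mul, add_zero] at e3 e3'
      have g1 : (r : ℤ) ∣ f y - f y' := by
        have := dvd_sub e1 e1'
        rwa [sub_sub_sub_cancel_right] at this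
      have g2 : (d1 : ℤ) ∣ f y - f y' := by
        have := dvd_sub e2 e2'
        rwa [sub_sub_sub_cancel_right] at this
      have g3 : (d2 : ℤ) ∣ f y - f y' := by
        have := dvd_sub e3 e3'
        rwa [sub_sub_sub_cancel_right] at this
      have g4 : ((Nat.lcm d1 d2 : ℕ) : ℤ) ∣ f y - f y' := by
        rw [Int.natCast_dvd]
        exact Nat.lcm_dvd (Int.natCast_dvd.mp g2) (Int.natCast_dvd.mp g3)
      unfold Pm
      push_cast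
      exact (Nat.isCoprime_iff_coprime.mpr hcop).mul_dvd g1 g4
  have hfinal : 2 * ((Q0 * N : ℕ) : ℝ) / (Pm r d1 d2 : ℕ) + 2 ≤
      2 * ((M : ℝ) * N * Z) / (Pm r d1 d2 : ℕ) + 2 := by
    have h2 : ((Q0 * N : ℕ) : ℝ) ≤ (M : ℝ) * N * Z := by
      push_cast
      calc (Q0 : ℝ) * N ≤ ((M : ℝ) * Z) * N := mul_le_mul_of_nonneg_right hQ0le (by positivity)
        _ = M * N * Z := by ring
    gcongr
  calc (E.card : ℝ) ≤ T * ((E.image f).card : ℝ) := hcardE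
    _ ≤ T * (2 * ((M : ℝ) * N * Z) / (Pm r d1 d2 : ℕ) + 2) :=
        mul_le_mul_of_nonneg_left (himg.trans hfinal) hT0

theorem diag_bound {M N : ℕ} {Z T : ℝ} (hM : 0 < M) (a b1 b2 : ℤ) (r d1 d2 : ℕ) (hr : 2 ≤ r)
    (hP : 0 < Pm r d1 d2) (hcop : Nat.Coprime r (Nat.lcm d1 d2))
    (ha : IsCoprime (r : ℤ) a) (hZ : 1 ≤ Z) (hT0 : 0 ≤ T)
    (hT : ∀ m : ℕ, 1 ≤ m → (m : ℝ) ≤ M * N * Z → (tau m : ℝ) ≤ T)
    (w : ℤ → ℂ) (hw : ∀ n, ‖w n‖ ≤ 1) :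
    ‖∑ n ∈ Icc (1 : ℤ) N, w n * Gs M a b1 b2 r 0 d1 d2 n‖ ≤
      T * (2 * ((M : ℝ) * N * Z) / (Pm r d1 d2 : ℕ) + 2) +
        N * (tailC * Real.exp (-Z) * (M : ℝ) ^ 2) := by
  classical
  refine (norm_sum_le _ _).trans ?_
  have h1 : ∀ n ∈ Icc (1 : ℤ) N, ‖w n * Gs M a b1 b2 r 0 d1 d2 n‖ ≤
      (((Icc (-(⌊(M : ℝ) * Z⌋₊ : ℤ)) ⌊(M : ℝ) * Z⌋₊).filter
        (fun m => Cls a b1 b2 r 0 d1 d2 n m)).card : ℝ) + tailC * Real.exp (-Z) * (M : ℝ) ^ 2 := by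
    intro n _
    rw [norm_mul]
    calc ‖w n‖ * ‖Gs M a b1 b2 r 0 d1 d2 n‖ ≤ 1 * ‖Gs M a b1 b2 r 0 d1 d2 n‖ :=
          mul_le_mul_of_nonneg_right (hw n) (norm_nonneg _)
      _ = ‖Gs M a b1 b2 r 0 d1 d2 n‖ := one_mul _
      _ ≤ _ := Gs_le hM hZ a b1 b2 r 0 d1 d2 n
  refine (sum_le_sum h1).trans ?_
  rw [sum_add_distrib, sum_const, nsmul_eq_mul, Int.card_Icc]
  have h2 := diag_count (M := M) (N := N) a b1 b2 r d1 d2 hr hP hcop ha hZ hT0 hT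
  have h3 : ((((N : ℤ) + 1 - 1).toNat : ℕ) : ℝ) = N := by
    simp
  rw [h3]
  exact add_le_add_left h2 _

end Pool.Agent.Disp
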