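import Pool.Agent.Disp.Off

/-!
# DISP: the bilinear sum, Cauchy-Schwarz and expansion
-/

set_option autoImplicit false

namespace Pool.Agent.Disp

open Finset Pool.Agent.BCore

open Classical in
/-- Indicator of `x = a (r)`, `x = b (d)`. -/
noncomputable def chi (a b : ℤ) (r d : ℕ) (x : ℤ) : ℂ :=
  if (r : ℤ) ∣ x - a ∧ (d : ℤ) ∣ x - b then 1 else 0

/-- The bilinear sum with the difference of two classes. -/
noncomputable def BS (M N R U V : ℕ) (α β : ℤ → ℂ) (a b b' : ℤ) (c : ℕ → ℕ → ℕ → ℂ) : ℂ :=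
  ∑ r ∈ Ioc R (2 * R), ∑ u ∈ Icc U (2 * U), ∑ v ∈ Ioc V (2 * V), c r u v *
    ∑ m ∈ Icc (1 : ℤ) M, ∑ n ∈ Icc (1 : ℤ) N, α m * β n *
      (chi a b r (u * v) (m * n) - chi a b' r (u * v) (m * n))

lemma chi_norm_le (a b : ℤ) (r d : ℕ) (x : ℤ) : ‖chi a b r d x‖ ≤ 1 := by
  unfold chi
  split_ifs <;> simp

lemma chi_conj (a b : ℤ) (r d : ℕ) (x : ℤ) : (starRingEnd ℂ) (chi a b r d x) = chi a b r d x := by
  unfold chi
  split_ifs <;> simp

lemma chi_mul_eq (a b1 b2 : ℤ) (r : ℕ) (l : ℤ) (d1 d2 : ℕ) (n m : ℤ) :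
    chi a b1 r d1 (m * n) * chi a b2 r d2 (m * (n + l * r)) = ci a b1 b2 r l d1 d2 n m := by
  unfold chi ci Cls
  have hiff : (r : ℤ) ∣ m * (n + l * r) - a ↔ (r : ℤ) ∣ m * n - a := by
    have : m * (n + l * r) - a = (m * n - a) + r * (m * l) := by ring
    rw [this]
    exact (Int.dvd_add_left (dvd_mul_right _ _))
  by_cases h1 : (r : ℤ) ∣ m * n - a
  · by_cases h2 : (d1 : ℤ) ∣ m * n - b1
    · by_cases h3 : (d2 : ℤ) ∣ m * (n + l * r) - b2
      · simp [h1, h2, h3, hiff]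
      · simp [h1, h2, h3]
    · simp [h1, h2]
  · simp [h1]

lemma chi_mul_zero {a : ℤ} (b1 b2 : ℤ) {r : ℕ} (d1 d2 : ℕ) (n1 n2 m : ℤ)
    (ha : IsCoprime (r : ℤ) a) (h : ¬ (r : ℤ) ∣ n2 - n1) :
    chi a b1 r d1 (m * n1) * chi a b2 r d2 (m * n2) = 0 := by
  unfold chi
  by_cases h1 : (r : ℤ) ∣ m * n1 - a
  · by_cases h2 : (r : ℤ) ∣ m * n2 - a
    · exfalso
      apply h
      have h3 : (r : ℤ) ∣ m * (n2 - n1) := by
        have := dvd_sub h2 h1
        have e : m * n2 - a - (m * n1 - a) = m * (n2 - n1) := by ring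
        rwa [e] at this
      have h4 : IsCoprime (r : ℤ) m := by
        obtain ⟨k, hk⟩ := h1
        have h5 : IsCoprime (r : ℤ) (m * n1) := by
          have : m * n1 = a + r * k := by linear_combination hk
          rw [this]
          exact ha.add_mul_left_right k
        exact h5.of_mul_right_left
      exact h4.dvd_of_dvd_mul_left h3
    · simp [h2]
  · simp [h1]

/-- Splitting a sum over `n = n1 (r)`. -/
lemma sum_split_r {N r : ℕ} (hr : 1 ≤ r) (n1 : ℤ) (hn1 : n1 ∈ Icc (1 : ℤ) N) (φ : ℤ → ℂ)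
    (h0 : ∀ n, n ∉ Icc (1 : ℤ) N → φ n = 0) (h1 : ∀ n, ¬ (r : ℤ) ∣ n - n1 → φ n = 0) :
    ∑ n ∈ Icc (1 : ℤ) N, φ n = φ n1 + ∑ l ∈ Lr N r, φ (n1 + l * r) := by
  rw [← add_sum_erase _ _ hn1]
  congr 1
  symm
  refine sum_bij_ne_zero (fun l _ _ => n1 + l * r) ?_ ?_ ?_ ?_
  · intro l hl hne
    rw [mem_erase]
    constructor
    · intro h
      unfold Lr at hl
      rw [mem_filter] at hl
      have h2 : l * (r : ℤ) = 0 := by linarith
      rcases mul_eq_zero.mp h2 with h3 | h3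
      · exact hl.2.1 h3
      · omega
    · by_contra h
      exact hne (h0 _ h)
  · intro l1 _ _ l2 _ _ h
    have h2 : l1 * (r : ℤ) = l2 * r := by linarith
    exact mul_right_cancel₀ (by omega) h2
  · intro n hn hne
    rw [mem_erase, mem_Icc] at hn
    have hd : (r : ℤ) ∣ n - n1 := by
      by_contra h
      exact hne (h1 n h)
    obtain ⟨l, hl⟩ := hd
    rw [mem_Icc] at hn1
    have hl0 : l ≠ 0 := by
      rintro rfl
      rw [mul_zero] at hl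
      exact hn.1 (by linarith)
    have habs : |l| * r ≤ N := by
      have h3 : |l| * (r : ℤ) = |n - n1| := by
        rw [hl, abs_mul, abs_of_nonneg (show (0 : ℤ) ≤ r by positivity)]
        ring
      rw [h3, abs_le]
      constructor <;> omega
    have hlN : |l| ≤ N := by
      have : |l| * 1 ≤ |l| * (r : ℤ) :=
        mul_le_mul_of_nonneg_left (by exact_mod_cast hr) (abs_nonneg _)
      linarith
    refine ⟨l, ?_, ?_, ?_⟩
    · unfold Lr
      rw [mem_filter, mem_Icc]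
      exact ⟨abs_le.mp hlN, hl0, habs⟩
    · have : n1 + l * r = n := by linarith
      rw [this]
      exact hne
    · linarith
  · intro l _ _
    rfl

/-- The Gaussian correlation of two indicators. -/
noncomputable def Gc (M : ℕ) (a b1 b2 : ℤ) (r d1 d2 : ℕ) (n1 n2 : ℤ) : ℂ :=
  ∑' m : ℤ, ((gau M m : ℝ) : ℂ) * (chi a b1 r d1 (m * n1) * chi a b2 r d2 (m * n2))

lemma Gc_eq (M : ℕ) (a b1 b2 : ℤ) (r : ℕ) (l : ℤ) (d1 d2 : ℕ) (n : ℤ) :
    Gc M a b1 b2 r d1 d2 n (n + l * r) = Gs M a b1 b2 r l d1 d2 n := by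
  unfold Gc Gs
  refine tsum_congr fun m => ?_
  rw [chi_mul_eq]

lemma Gc_zero (M : ℕ) {a : ℤ} (b1 b2 : ℤ) {r : ℕ} (d1 d2 : ℕ) (n1 n2 : ℤ)
    (ha : IsCoprime (r : ℤ) a) (h : ¬ (r : ℤ) ∣ n2 - n1) : Gc M a b1 b2 r d1 d2 n1 n2 = 0 := by
  unfold Gc
  rw [← tsum_zero (α := ℂ) (β := ℤ)]
  refine tsum_congr fun m => ?_
  rw [chi_mul_zero b1 b2 d1 d2 n1 n2 m ha h, mul_zero]

/-- The quadratic form for fixed moduli. -/
noncomputable def Qf (M N : ℕ) (β : ℤ → ℂ) (a b1 b2 : ℤ) (r d1 d2 : ℕ) : ℂ :=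
  ∑ n1 ∈ Icc (1 : ℤ) N, ∑ n2 ∈ Icc (1 : ℤ) N, β n1 * (starRingEnd ℂ) (β n2) *
    Gc M a b1 b2 r d1 d2 n1 n2

lemma Qf_split {M N : ℕ} {β : ℤ → ℂ} {a : ℤ} (b1 b2 : ℤ) {r : ℕ} (d1 d2 : ℕ) (hr : 1 ≤ r)
    (ha : IsCoprime (r : ℤ) a) (hβ : ∀ n, β n ≠ 0 → 1 ≤ n ∧ n ≤ N) :
    Qf M N β a b1 b2 r d1 d2 =
      (∑ n ∈ Icc (1 : ℤ) N, β n * (starRingEnd ℂ) (β n) * Gs M a b1 b2 r 0 d1 d2 n) +
      ∑ l ∈ Lr N r, ∑ n ∈ Icc (1 : ℤ) N,
        β n * (starRingEnd ℂ) (β (n + l * r)) * Gs M a b1 b2 r l d1 d2 n := by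
  unfold Qf
  rw [sum_comm (s := Lr N r), ← sum_add_distrib]
  refine sum_congr rfl fun n hn => ?_
  rw [sum_split_r hr n hn (fun n2 => β n * (starRingEnd ℂ) (β n2) * Gc M a b1 b2 r d1 d2 n n2)]
  · congr 1
    · have := Gc_eq M a b1 b2 r 0 d1 d2 n
      rw [zero_mul, add_zero] at this
      rw [this]
    · refine sum_congr rfl fun l _ => ?_
      rw [Gc_eq]
  · intro n2 hn2
    have : β n2 = 0 := by
      by_contra h
      exact hn2 (mem_Icc.mpr (hβ n2 h))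
    simp only [this, map_zero, mul_zero, zero_mul]
  · intro n2 hn2
    simp only [Gc_zero M b1 b2 d1 d2 n n2 ha hn2, mul_zero]

/-- General expansion of a square. -/
lemma quad_expand {ι : Type*} (s : Finset ι) (z : ι → ℂ) (X : ι → ℤ → ℂ) (g : ℤ → ℝ)
    (hg : Summable g) (hg0 : ∀ m, 0 ≤ g m) (hX : ∀ i m, ‖X i m‖ ≤ 1)
    (hXc : ∀ i m, (starRingEnd ℂ) (X i m) = X i m) :
    ((∑' m : ℤ, g m * ‖∑ i ∈ s, z i * X i m‖ ^ 2 : ℝ) : ℂ) =
      ∑ i ∈ s, ∑ j ∈ s, z i * (starRingEnd ℂ) (z j) * ∑' m : ℤ, (g m : ℂ) * (X i m * X j m) := by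
  have hs : ∀ i j, Summable fun m : ℤ => (g m : ℂ) * (X i m * X j m) := by
    intro i j
    refine Summable.of_norm_bounded hg fun m => ?_
    rw [norm_mul, norm_mul, Complex.norm_real, Real.norm_of_nonneg (hg0 m)]
    calc g m * (‖X i m‖ * ‖X j m‖) ≤ g m * (1 * 1) := by
          refine mul_le_mul_of_nonneg_left ?_ (hg0 m)
          exact mul_le_mul (hX i m) (hX j m) (norm_nonneg _) zero_le_one
      _ = g m := by ring
  rw [Complex.ofReal_tsum]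
  have h1 : ∀ m : ℤ, ((g m * ‖∑ i ∈ s, z i * X i m‖ ^ 2 : ℝ) : ℂ) =
      ∑ i ∈ s, ∑ j ∈ s, z i * (starRingEnd ℂ) (z j) * ((g m : ℂ) * (X i m * X j m)) := by
    intro m
    push_cast
    rw [← Complex.mul_conj', map_sum, sum_mul_sum, mul_sum]
    refine sum_congr rfl fun i _ => ?_
    rw [mul_sum]
    refine sum_congr rfl fun j _ => ?_
    rw [map_mul, hXc]
    ring
  rw [tsum_congr h1, Summable.tsum_finsetSum]
  · refine sum_congr rfl fun i _ => ?_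
    rw [Summable.tsum_finsetSum]
    · refine sum_congr rfl fun j _ => ?_
      rw [tsum_mul_left]
    · intro j _
      exact (hs i j).mul_left _
  · intro i _
    exact summable_sum fun j _ => (hs i j).mul_left _

end Pool.Agent.Disp
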