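import Pool.Agent.Disp.Exp
import Pool.Agent.Disp.Count

/-!
# DISP: Cauchy-Schwarz and the four parts
-/

set_option autoImplicit false

namespace Pool.Agent.Disp

open Finset Pool.Agent.BCore

/-- The two classes. -/
def cl (b b' : ℤ) (s : Bool) : ℤ := if s then b else b'

/-- The sign. -/
def sg (s : Bool) : ℂ := if s then 1 else -1

lemma sg_norm (s : Bool) : ‖sg s‖ = 1 := by
  unfold sg
  split_ifs <;> simp

lemma sg_conj (s : Bool) : (starRingEnd ℂ) (sg s) = sg s := by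
  unfold sg
  split_ifs <;> simp

/-- Index set of moduli and signs. -/
def TT (U V : ℕ) : Finset ((ℕ × ℕ) × Bool) := J U V ×ˢ (univ : Finset Bool)

/-- Coefficients. -/
noncomputable def zz (c : ℕ → ℕ → ℕ → ℂ) (r : ℕ) (t : (ℕ × ℕ) × Bool) : ℂ :=
  sg t.2 * c r t.1.1 t.1.2

/-- The inner sum. -/
noncomputable def Fm (N U V : ℕ) (β : ℤ → ℂ) (a b b' : ℤ) (c : ℕ → ℕ → ℕ → ℂ) (r : ℕ) (m : ℤ) : ℂ :=
  ∑ i ∈ TT U V ×ˢ Icc (1 : ℤ) N, (zz c r i.1 * β i.2) *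
    chi a (cl b b' i.1.2) r (i.1.1.1 * i.1.1.2) (m * i.2)

lemma BS_eq (M N R U V : ℕ) (α β : ℤ → ℂ) (a b b' : ℤ) (c : ℕ → ℕ → ℕ → ℂ) :
    BS M N R U V α β a b b' c =
      ∑ r ∈ Ioc R (2 * R), ∑ m ∈ Icc (1 : ℤ) M, α m * Fm N U V β a b b' c r m := by
  unfold BS Fm
  refine sum_congr rfl fun r _ => ?_
  have h1 : ∀ m : ℤ, (∑ i ∈ TT U V ×ˢ Icc (1 : ℤ) N, (zz c r i.1 * β i.2) *
      chi a (cl b b' i.1.2) r (i.1.1.1 * i.1.1.2) (m * i.2)) =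
      ∑ u ∈ Icc U (2 * U), ∑ v ∈ Ioc V (2 * V), c r u v * ∑ n ∈ Icc (1 : ℤ) N, β n *
        (chi a b r (u * v) (m * n) - chi a b' r (u * v) (m * n)) := by
    intro m
    rw [sum_product]
    unfold TT
    rw [sum_product]
    unfold J
    rw [sum_product]
    refine sum_congr rfl fun u _ => sum_congr rfl fun v _ => ?_
    rw [Fintype.sum_bool]
    dsimp only
    rw [← sum_add_distrib, mul_sum]
    refine sum_congr rfl fun n _ => ?_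
    simp only [zz, sg, cl, if_true, Bool.false_eq_true, if_false]
    ring
  simp only [h1, mul_sum]
  refine ((sum_congr rfl fun u _ => sum_comm).trans sum_comm).trans ?_
  refine sum_congr rfl fun m _ => sum_congr rfl fun u _ => sum_congr rfl fun v _ =>
    sum_congr rfl fun n _ => ?_
  ring

/-- The Gaussian square of the inner sum. -/
noncomputable def Vr (M N U V : ℕ) (β : ℤ → ℂ) (a b b' : ℤ) (c : ℕ → ℕ → ℕ → ℂ) (r : ℕ) : ℝ :=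
  ∑' m : ℤ, gau M m * ‖Fm N U V β a b b' c r m‖ ^ 2

lemma Fm_bound (N U V : ℕ) (β : ℤ → ℂ) (a b b' : ℤ) (c : ℕ → ℕ → ℕ → ℂ) (r : ℕ) (m : ℤ) :
    ‖Fm N U V β a b b' c r m‖ ≤ ∑ i ∈ TT U V ×ˢ Icc (1 : ℤ) N, ‖zz c r i.1 * β i.2‖ := by
  unfold Fm
  refine (norm_sum_le _ _).trans (sum_le_sum fun i _ => ?_)
  rw [norm_mul]
  calc _ ≤ ‖zz c r i.1 * β i.2‖ * 1 :=
        mul_le_mul_of_nonneg_left (chi_norm_le _ _ _ _ _) (norm_nonneg _)
    _ = _ := mul_one _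

lemma summable_Vr {M : ℕ} (hM : 1 ≤ M) (N U V : ℕ) (β : ℤ → ℂ) (a b b' : ℤ)
    (c : ℕ → ℕ → ℕ → ℂ) (r : ℕ) :
    Summable fun m : ℤ => gau M m * ‖Fm N U V β a b b' c r m‖ ^ 2 := by
  have hM0 : (0 : ℝ) < M := by exact_mod_cast hM
  refine Summable.of_nonneg_of_le (fun m => mul_nonneg (gau_pos _ _).le (by positivity)) (fun m => ?_)
    ((summable_gau M hM0).mul_right
      ((∑ i ∈ TT U V ×ˢ Icc (1 : ℤ) N, ‖zz c r i.1 * β i.2‖) ^ 2))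
  exact mul_le_mul_of_nonneg_left (pow_le_pow_left₀ (norm_nonneg _)
    (Fm_bound N U V β a b b' c r m) 2) (gau_pos _ _).le

lemma cauchy {M : ℕ} (hM : 1 ≤ M) (N R U V : ℕ) (α β : ℤ → ℂ) (a b b' : ℤ)
    (c : ℕ → ℕ → ℕ → ℂ) :
    ‖BS M N R U V α β a b b' c‖ ^ 2 ≤
      (∑ m ∈ Icc (1 : ℤ) M, ‖α m‖ ^ 2) * R *
        (Real.exp Real.pi * ∑ r ∈ Ioc R (2 * R), Vr M N U V β a b b' c r) := by
  have hM0 : (0 : ℝ) < M := by exact_mod_cast hM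
  rw [BS_eq]
  have h1 : ‖∑ r ∈ Ioc R (2 * R), ∑ m ∈ Icc (1 : ℤ) M, α m * Fm N U V β a b b' c r m‖ ≤
      ∑ x ∈ Ioc R (2 * R) ×ˢ Icc (1 : ℤ) M, ‖α x.2‖ * ‖Fm N U V β a b b' c x.1 x.2‖ := by
    rw [← sum_product']
    refine (norm_sum_le _ _).trans (sum_le_sum fun x _ => ?_)
    rw [norm_mul]
  have h2 := sum_mul_sq_le_sq_mul_sq (Ioc R (2 * R) ×ˢ Icc (1 : ℤ) M) (fun x => ‖α x.2‖)
    (fun x => ‖Fm N U V β a b b' c x.1 x.2‖)
  have h3 : ∑ x ∈ Ioc R (2 * R) ×ˢ Icc (1 : ℤ) M, ‖α x.2‖ ^ 2 =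
      (∑ m ∈ Icc (1 : ℤ) M, ‖α m‖ ^ 2) * R := by
    rw [sum_product]
    dsimp only
    rw [sum_const, Nat.card_Ioc, nsmul_eq_mul, show 2 * R - R = R by omega]
    ring
  have h4 : ∑ x ∈ Ioc R (2 * R) ×ˢ Icc (1 : ℤ) M, ‖Fm N U V β a b b' c x.1 x.2‖ ^ 2 ≤
      Real.exp Real.pi * ∑ r ∈ Ioc R (2 * R), Vr M N U V β a b b' c r := by
    rw [sum_product, mul_sum]
    refine sum_le_sum fun r _ => ?_
    have h5 : ∑ m ∈ Icc (1 : ℤ) M, gau M m * ‖Fm N U V β a b b' c r m‖ ^ 2 ≤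
        Vr M N U V β a b b' c r :=
      (summable_Vr hM N U V β a b b' c r).sum_le_tsum _
        (fun m _ => mul_nonneg (gau_pos _ _).le (by positivity))
    refine le_trans ?_ (mul_le_mul_of_nonneg_left h5 (Real.exp_pos _).le)
    rw [mul_sum]
    refine sum_le_sum fun m hm => ?_
    rw [mem_Icc] at hm
    have h6 : 1 ≤ Real.exp Real.pi * gau M m := by
      unfold gau
      rw [← Real.exp_add, ← Real.exp_zero]
      apply Real.exp_le_exp.mpr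
      have h7 : ((m : ℝ) / M) ^ 2 ≤ 1 := by
        have h8 : (m : ℝ) ≤ M := by exact_mod_cast hm.2
        have h9 : (1 : ℝ) ≤ m := by exact_mod_cast hm.1
        have h10 : (m : ℝ) / M ≤ 1 := (div_le_one hM0).mpr h8
        exact pow_le_one₀ (by positivity) h10
      nlinarith [Real.pi_pos]
    calc ‖Fm N U V β a b b' c r m‖ ^ 2 ≤ (Real.exp Real.pi * gau M m) *
          ‖Fm N U V β a b b' c r m‖ ^ 2 := le_mul_of_one_le_left (by positivity) h6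
      _ = _ := by ring
  calc _ ≤ (∑ x ∈ Ioc R (2 * R) ×ˢ Icc (1 : ℤ) M, ‖α x.2‖ * ‖Fm N U V β a b b' c x.1 x.2‖) ^ 2 :=
        pow_le_pow_left₀ (norm_nonneg _) h1 2
    _ ≤ _ := h2
    _ ≤ _ := by
        rw [h3]
        exact mul_le_mul_of_nonneg_left h4 (by positivity)

lemma Vr_eq {M : ℕ} (hM : 1 ≤ M) (N U V : ℕ) (β : ℤ → ℂ) (a b b' : ℤ)
    (c : ℕ → ℕ → ℕ → ℂ) (r : ℕ) :
    ((Vr M N U V β a b b' c r : ℝ) : ℂ) = ∑ t1 ∈ TT U V, ∑ t2 ∈ TT U V,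
      zz c r t1 * (starRingEnd ℂ) (zz c r t2) *
        Qf M N β a (cl b b' t1.2) (cl b b' t2.2) r (t1.1.1 * t1.1.2) (t2.1.1 * t2.1.2) := by
  have hM0 : (0 : ℝ) < M := by exact_mod_cast hM
  unfold Vr Fm
  rw [quad_expand (TT U V ×ˢ Icc (1 : ℤ) N) (fun i => zz c r i.1 * β i.2)
    (fun i m => chi a (cl b b' i.1.2) r (i.1.1.1 * i.1.1.2) (m * i.2)) (fun m => gau M m)
    (summable_gau M hM0) (fun m => (gau_pos _ _).le) (fun i m => chi_norm_le _ _ _ _ _)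
    (fun i m => chi_conj _ _ _ _ _)]
  rw [sum_product]
  refine sum_congr rfl fun t1 _ => ?_
  have : ∀ n1 : ℤ, (∑ j ∈ TT U V ×ˢ Icc (1 : ℤ) N, (zz c r t1 * β n1) *
      (starRingEnd ℂ) (zz c r j.1 * β j.2) * ∑' m : ℤ, ((gau M m : ℝ) : ℂ) *
        (chi a (cl b b' t1.2) r (t1.1.1 * t1.1.2) (m * n1) *
          chi a (cl b b' j.1.2) r (j.1.1.1 * j.1.1.2) (m * j.2))) =
      ∑ t2 ∈ TT U V, ∑ n2 ∈ Icc (1 : ℤ) N, zz c r t1 * (starRingEnd ℂ) (zz c r t2) *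
        (β n1 * (starRingEnd ℂ) (β n2) * Gc M a (cl b b' t1.2) (cl b b' t2.2) r
          (t1.1.1 * t1.1.2) (t2.1.1 * t2.1.2) n1 n2) := by
    intro n1
    rw [sum_product]
    refine sum_congr rfl fun t2 _ => sum_congr rfl fun n2 _ => ?_
    unfold Gc
    rw [map_mul]
    ring
  rw [sum_congr rfl fun n1 _ => this n1, sum_comm]
  refine sum_congr rfl fun t2 _ => ?_
  unfold Qf
  simp only [mul_sum]

end Pool.Agent.Disp
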