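import Pool.Agent.BCore.Cnt

/-!
# The zero frequency
-/

namespace Pool.Agent.Disp

open Finset Pool.Agent.BCore

open Classical in
lemma W_zero_eq {a b1 b2 : ℤ} {r : ℕ} {l : ℤ} {d1 d2 : ℕ} {n : ℤ}
    (hsq : Squarefree (Pm r d1 d2))
    (ha : IsCoprime (r : ℤ) a) (h1 : IsCoprime (d1 : ℤ) b1) (h2 : IsCoprime (d2 : ℤ) b2) :
    W a b1 b2 r l d1 d2 0 n = if (∃ c, Cls a b1 b2 r l d1 d2 n c) then 1 else 0 := by
  by_cases h : ∃ c, Cls a b1 b2 r l d1 d2 n c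
  · rw [if_pos h]
    obtain ⟨c, hc⟩ := h
    rw [W_eq hsq ha h1 h2 hc, zero_mul, eN_zero]
  · rw [if_neg h, W_eq_zero h]

lemma crt_int {m n : ℤ} (h : IsCoprime m n) (x y : ℤ) : ∃ z : ℤ, m ∣ z - x ∧ n ∣ z - y := by
  obtain ⟨u, v, huv⟩ := h
  refine ⟨x * (v * n) + y * (u * m), ⟨(y - x) * u, ?_⟩, ⟨(x - y) * v, ?_⟩⟩
  · linear_combination (x : ℤ) * huv
  · linear_combination (y : ℤ) * huv

lemma solve_lin {m n s : ℤ} (h : IsCoprime n m) : ∃ x : ℤ, m ∣ x * n - s := by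
  obtain ⟨u, v, huv⟩ := h
  exact ⟨s * u, ⟨-(s * v), by linear_combination s * huv⟩⟩

lemma coprime_of_dvd {m n s x : ℤ} (hs : IsCoprime m s) (h : m ∣ x * n - s) : IsCoprime n m := by
  obtain ⟨k, hk⟩ := h
  have h1 : IsCoprime m (x * n) := by
    have : x * n = s + m * k := by linear_combination hk
    rw [this]
    exact hs.add_mul_left_right k
  exact (h1.of_mul_right_right).symm

theorem exists_cls_iff {a b1 b2 : ℤ} {r : ℕ} {l : ℤ} {d1 d2 : ℕ} {n : ℤ}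
    (ha : IsCoprime (r : ℤ) a) (h1 : IsCoprime (d1 : ℤ) b1) (h2 : IsCoprime (d2 : ℤ) b2)
    (hr1 : IsCoprime (r : ℤ) d1) (hr2 : IsCoprime (r : ℤ) d2) (h12 : IsCoprime (d1 : ℤ) d2) :
    (∃ c, Cls a b1 b2 r l d1 d2 n c) ↔
      IsCoprime n r ∧ IsCoprime n d1 ∧ IsCoprime (n + l * r) d2 := by
  constructor
  · rintro ⟨c, hc1, hc2, hc3⟩
    exact ⟨coprime_of_dvd ha hc1, coprime_of_dvd h1 hc2, coprime_of_dvd h2 hc3⟩
  · rintro ⟨e1, e2, e3⟩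
    obtain ⟨x1, hx1⟩ := solve_lin (s := a) e1
    obtain ⟨x2, hx2⟩ := solve_lin (s := b1) e2
    obtain ⟨x3, hx3⟩ := solve_lin (s := b2) e3
    obtain ⟨y, hy1, hy2⟩ := crt_int h12 x2 x3
    obtain ⟨z, hz1, hz2⟩ := crt_int (IsCoprime.mul_right hr1 hr2) x1 y
    have hz3 : (d1 : ℤ) ∣ z - x2 := by
      have := dvd_add ((dvd_mul_right (d1 : ℤ) d2).trans hz2) hy1
      rwa [sub_add_sub_cancel] at this
    have hz4 : (d2 : ℤ) ∣ z - x3 := by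
      have := dvd_add ((dvd_mul_left (d2 : ℤ) d1).trans hz2) hy2
      rwa [sub_add_sub_cancel] at this
    refine ⟨z, ?_, ?_, ?_⟩
    · have := dvd_add (hz1.mul_right n) hx1
      have e : (z - x1) * n + (x1 * n - a) = z * n - a := by ring
      rwa [e] at this
    · have := dvd_add (hz3.mul_right n) hx2
      have e : (z - x2) * n + (x2 * n - b1) = z * n - b1 := by ring
      rwa [e] at this
    · have := dvd_add (hz4.mul_right (n + l * r)) hx3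
      have e : (z - x3) * (n + l * r) + (x3 * (n + l * r) - b2) = z * (n + l * r) - b2 := by ring
      rwa [e] at this

/-- For coprime `d1, d2` the zero frequency does not depend on the classes. -/
theorem W_zero_indep {a b1 b2 c1 c2 : ℤ} {r : ℕ} {l : ℤ} {d1 d2 : ℕ} {n : ℤ}
    (hsq : Squarefree (Pm r d1 d2))
    (ha : IsCoprime (r : ℤ) a) (h1 : IsCoprime (d1 : ℤ) b1) (h2 : IsCoprime (d2 : ℤ) b2)
    (h1' : IsCoprime (d1 : ℤ) c1) (h2' : IsCoprime (d2 : ℤ) c2)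
    (hr1 : IsCoprime (r : ℤ) d1) (hr2 : IsCoprime (r : ℤ) d2) (h12 : IsCoprime (d1 : ℤ) d2) :
    W a b1 b2 r l d1 d2 0 n = W a c1 c2 r l d1 d2 0 n := by
  classical
  rw [W_zero_eq hsq ha h1 h2, W_zero_eq hsq ha h1' h2']
  have := (exists_cls_iff (l := l) (n := n) ha h1 h2 hr1 hr2 h12).trans
    (exists_cls_iff (l := l) (n := n) ha h1' h2' hr1 hr2 h12).symm
  by_cases h : ∃ c, Cls a b1 b2 r l d1 d2 n c
  · rw [if_pos h, if_pos (this.mp h)]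
  · rw [if_neg h, if_neg (fun h' => h (this.mpr h'))]

/-- The zero frequency for general `d1, d2`. -/
theorem zero_bound {a b1 b2 : ℤ} {r N : ℕ} {d1 d2 : ℕ}
    (hsq : Squarefree (Pm r d1 d2)) (hr : 1 ≤ r)
    (ha : IsCoprime (r : ℤ) a) (h1 : IsCoprime (d1 : ℤ) b1) (h2 : IsCoprime (d2 : ℤ) b2)
    (hrg : Nat.Coprime r (Nat.gcd d1 d2)) (hg1 : 1 ≤ Nat.gcd d1 d2) (hgN : Nat.gcd d1 d2 ≤ N)
    (z : ℤ → ℤ → ℂ) (hz : ∀ l n, ‖z l n‖ ≤ 1) :
    ‖∑ l ∈ Lr N r, ∑ n ∈ Icc (1 : ℤ) N, z l n * W a b1 b2 r l d1 d2 0 n‖ ≤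
      4 * (N : ℝ) ^ 2 / (r * (Nat.gcd d1 d2 : ℕ)) := by
  classical
  have hcg1 : IsCoprime ((Nat.gcd d1 d2 : ℕ) : ℤ) b1 :=
    h1.of_isCoprime_of_dvd_left (by exact_mod_cast Nat.gcd_dvd_left d1 d2)
  have hcg2 : IsCoprime ((Nat.gcd d1 d2 : ℕ) : ℤ) b2 :=
    h2.of_isCoprime_of_dvd_left (by exact_mod_cast Nat.gcd_dvd_right d1 d2)
  refine le_trans ?_ (cnt hg1 hr hgN hcg1 hcg2 hrg)
  refine (norm_sum_le _ _).trans (sum_le_sum fun l _ => ?_)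
  refine (norm_sum_le _ _).trans ?_
  rw [card_filter]
  push_cast
  refine sum_le_sum fun n _ => ?_
  rw [norm_mul]
  split_ifs with hc
  · calc ‖z l n‖ * ‖W a b1 b2 r l d1 d2 0 n‖ ≤ 1 * 1 :=
        mul_le_mul (hz l n) (W_norm_le hsq ha h1 h2 0) (norm_nonneg _) zero_le_one
      _ = 1 := one_mul 1
  · have : W a b1 b2 r l d1 d2 0 n = 0 := by
      by_contra hne
      exact hc (comp_of_W rfl hne)
    rw [this, norm_zero, mul_zero]

end Pool.Agent.Disp
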