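import Pool.Agent.Disp.Exp2
import Pool.Agent.Disp.Diag
import Pool.Agent.Disp.Zero

/-!
# DISP: the four parts of the quadratic form
-/

set_option autoImplicit false

namespace Pool.Agent.Disp

open Finset Pool.Agent.BCore

lemma sqf_lcm {m n : ℕ} (hm : Squarefree m) (hn : Squarefree n) :
    Squarefree (Nat.lcm m n) := by
  have h0 : Nat.lcm m n ≠ 0 := Nat.lcm_ne_zero hm.ne_zero hn.ne_zero
  rw [Nat.squarefree_iff_factorization_le_one h0]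
  intro p
  rw [Nat.factorization_lcm hm.ne_zero hn.ne_zero]
  have h1 := (Nat.squarefree_iff_factorization_le_one hm.ne_zero).mp hm p
  have h2 := (Nat.squarefree_iff_factorization_le_one hn.ne_zero).mp hn p
  simpa using ⟨h1, h2⟩

/-- Arithmetic of a pair of moduli. -/
structure PF (r d1 d2 : ℕ) : Prop where
  sq : Squarefree (Pm r d1 d2)
  cl : Nat.Coprime r (Nat.lcm d1 d2)
  c1 : Nat.Coprime r d1
  c2 : Nat.Coprime r d2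
  mul : Pm r d1 d2 * Nat.gcd d1 d2 = r * d1 * d2
  g1 : 1 ≤ Nat.gcd d1 d2
  P1 : 1 ≤ Pm r d1 d2

lemma pair_facts {r d1 d2 : ℕ} (h1 : Squarefree (r * d1)) (h2 : Squarefree (r * d2)) :
    PF r d1 d2 := by
  have hc1 : Nat.Coprime r d1 := (Nat.squarefree_mul_iff.mp h1).1
  have hc2 : Nat.Coprime r d2 := (Nat.squarefree_mul_iff.mp h2).1
  have hd1 : Squarefree d1 := (Nat.squarefree_mul_iff.mp h1).2.2
  have hd2 : Squarefree d2 := (Nat.squarefree_mul_iff.mp h2).2.2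
  have hrs : Squarefree r := (Nat.squarefree_mul_iff.mp h1).2.1
  have hl : Nat.Coprime r (Nat.lcm d1 d2) :=
    Nat.Coprime.coprime_dvd_right (Nat.lcm_dvd_mul d1 d2) (Nat.Coprime.mul_right hc1 hc2)
  have hsq : Squarefree (Pm r d1 d2) :=
    (Nat.squarefree_mul_iff).mpr ⟨hl, hrs, sqf_lcm hd1 hd2⟩
  refine ⟨hsq, hl, hc1, hc2, ?_, ?_, Nat.pos_of_ne_zero hsq.ne_zero⟩
  · unfold Pm
    rw [mul_assoc, mul_comm (Nat.lcm d1 d2), Nat.gcd_mul_lcm, mul_assoc]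
  · exact Nat.gcd_pos_of_pos_left _ (Nat.pos_of_ne_zero hd1.ne_zero)

/-- Diagonal part. -/
noncomputable def Dg (M N : ℕ) (β : ℤ → ℂ) (a b1 b2 : ℤ) (r d1 d2 : ℕ) : ℂ :=
  ∑ n ∈ Icc (1 : ℤ) N, β n * (starRingEnd ℂ) (β n) * Gs M a b1 b2 r 0 d1 d2 n

/-- Zero frequency. -/
noncomputable def Zs (M N : ℕ) (β : ℤ → ℂ) (a b1 b2 : ℤ) (r d1 d2 : ℕ) : ℂ :=
  (((M : ℝ) / (Pm r d1 d2 : ℕ) : ℝ) : ℂ) * ∑ l ∈ Lr N r, ∑ n ∈ Icc (1 : ℤ) N,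
    β n * (starRingEnd ℂ) (β (n + l * r)) * W a b1 b2 r l d1 d2 0 n

/-- Core part. -/
noncomputable def Cs (M N H : ℕ) (β : ℤ → ℂ) (a b1 b2 : ℤ) (r d1 d2 : ℕ) : ℂ :=
  (((M : ℝ) / (Pm r d1 d2 : ℕ) : ℝ) : ℂ) * ∑ l ∈ Lr N r, ∑ h ∈ Hr H (Nat.gcd d1 d2),
    ((gau ((Pm r d1 d2 : ℕ) / M) h : ℝ) : ℂ) * SN N β a b1 b2 r l d1 d2 h

lemma card_Lr_le {N r : ℕ} (hN : 1 ≤ N) : ((Lr N r).card : ℝ) ≤ 3 * N := by
  have h1 : (Lr N r).card ≤ (Icc (-(N : ℤ)) N).card := card_le_card (filter_subset _ _)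
  rw [Int.card_Icc] at h1
  have h2 : ((N : ℤ) + 1 - -(N : ℤ)).toNat = 2 * N + 1 := by omega
  rw [h2] at h1
  have h3 : ((Lr N r).card : ℝ) ≤ ((2 * N + 1 : ℕ) : ℝ) := by exact_mod_cast h1
  have h4 : (1 : ℝ) ≤ N := by exact_mod_cast hN
  push_cast at h3
  linarith

lemma mul_conj_norm_le {β : ℤ → ℂ} (hβ : ∀ n, ‖β n‖ ≤ 1) (n m : ℤ) :
    ‖β n * (starRingEnd ℂ) (β m)‖ ≤ 1 := by
  rw [norm_mul, Complex.norm_conj]
  calc ‖β n‖ * ‖β m‖ ≤ 1 * 1 := mul_le_mul (hβ n) (hβ m) (norm_nonneg _) zero_le_one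
    _ = 1 := one_mul 1

theorem Er_bound {M N H : ℕ} {Z : ℝ} {β : ℤ → ℂ} {a b1 b2 : ℤ} {r d1 d2 : ℕ} (hM : 1 ≤ M)
    (hN : 1 ≤ N) (hr : 1 ≤ r) (hZ : 1 ≤ Z) (hβ : ∀ n, ‖β n‖ ≤ 1)
    (hβs : ∀ n, β n ≠ 0 → 1 ≤ n ∧ n ≤ N) (hPF : PF r d1 d2)
    (ha : IsCoprime (r : ℤ) a) (h1 : IsCoprime (d1 : ℤ) b1) (h2 : IsCoprime (d2 : ℤ) b2)
    (hH : Z * ((r : ℝ) * d1 * d2) ≤ H * M) :
    ‖Qf M N β a b1 b2 r d1 d2 - Dg M N β a b1 b2 r d1 d2 - Zs M N β a b1 b2 r d1 d2 -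
      Cs M N H β a b1 b2 r d1 d2‖ ≤
      3 * N * (N * (tailC * Real.exp (-Z) * ((Pm r d1 d2 : ℕ) / M))) := by
  have hmul : ((Pm r d1 d2 : ℕ) : ℝ) * (Nat.gcd d1 d2 : ℕ) = (r : ℝ) * d1 * d2 := by
    exact_mod_cast hPF.mul
  have hH' : Z * (((Pm r d1 d2 : ℕ) : ℝ) * (Nat.gcd d1 d2 : ℕ)) ≤ H * M := by
    rw [hmul]; exact hH
  have hcomm : ∀ l : ℤ, (∑ h ∈ Hr H (Nat.gcd d1 d2), ((gau ((Pm r d1 d2 : ℕ) / M) h : ℝ) : ℂ) *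
      SN N β a b1 b2 r l d1 d2 h) = ∑ n ∈ Icc (1 : ℤ) N, β n * (starRingEnd ℂ) (β (n + l * r)) *
        ∑ h ∈ Hr H (Nat.gcd d1 d2), ((gau ((Pm r d1 d2 : ℕ) / M) h : ℝ) : ℂ) *
          W a b1 b2 r l d1 d2 h n := by
    intro l
    unfold SN
    simp only [mul_sum]
    rw [sum_comm]
    refine sum_congr rfl fun n _ => sum_congr rfl fun h _ => ?_
    ring
  have hE : Qf M N β a b1 b2 r d1 d2 - Dg M N β a b1 b2 r d1 d2 - Zs M N β a b1 b2 r d1 d2 -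
      Cs M N H β a b1 b2 r d1 d2 = ∑ l ∈ Lr N r, ∑ n ∈ Icc (1 : ℤ) N,
        β n * (starRingEnd ℂ) (β (n + l * r)) * (Gs M a b1 b2 r l d1 d2 n -
          (((M : ℝ) / (Pm r d1 d2 : ℕ) : ℝ) : ℂ) * (W a b1 b2 r l d1 d2 0 n +
            ∑ h ∈ Hr H (Nat.gcd d1 d2), ((gau ((Pm r d1 d2 : ℕ) / M) h : ℝ) : ℂ) *
              W a b1 b2 r l d1 d2 h n)) := by
    rw [Qf_split b1 b2 d1 d2 hr ha hβs]
    unfold Dg Zs Cs
    rw [add_sub_cancel_left, sum_congr rfl fun l _ => hcomm l]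
    simp only [mul_sum (Lr N r)]
    rw [← sum_sub_distrib, ← sum_sub_distrib]
    refine sum_congr rfl fun l _ => ?_
    rw [mul_sum, mul_sum, ← sum_sub_distrib, ← sum_sub_distrib]
    refine sum_congr rfl fun n _ => ?_
    ring
  rw [hE]
  have hterm : ∀ l ∈ Lr N r, ‖∑ n ∈ Icc (1 : ℤ) N,
        β n * (starRingEnd ℂ) (β (n + l * r)) * (Gs M a b1 b2 r l d1 d2 n -
          (((M : ℝ) / (Pm r d1 d2 : ℕ) : ℝ) : ℂ) * (W a b1 b2 r l d1 d2 0 n +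
            ∑ h ∈ Hr H (Nat.gcd d1 d2), ((gau ((Pm r d1 d2 : ℕ) / M) h : ℝ) : ℂ) *
              W a b1 b2 r l d1 d2 h n))‖ ≤
      N * (tailC * Real.exp (-Z) * ((Pm r d1 d2 : ℕ) / M)) := by
    intro l _
    refine (norm_sum_le _ _).trans ?_
    have h3 : ∀ n ∈ Icc (1 : ℤ) N, ‖β n * (starRingEnd ℂ) (β (n + l * r)) *
        (Gs M a b1 b2 r l d1 d2 n -
          (((M : ℝ) / (Pm r d1 d2 : ℕ) : ℝ) : ℂ) * (W a b1 b2 r l d1 d2 0 n +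
            ∑ h ∈ Hr H (Nat.gcd d1 d2), ((gau ((Pm r d1 d2 : ℕ) / M) h : ℝ) : ℂ) *
              W a b1 b2 r l d1 d2 h n))‖ ≤ tailC * Real.exp (-Z) * ((Pm r d1 d2 : ℕ) / M) := by
      intro n _
      rw [norm_mul]
      have h4 := off_split (H := H) (g := Nat.gcd d1 d2) (Z := Z) hM a b1 b2 r l d1 d2 n hPF.sq
        ha h1 h2 hZ hPF.g1 hH'
      calc _ ≤ 1 * (tailC * Real.exp (-Z) * ((Pm r d1 d2 : ℕ) / M)) :=
            mul_le_mul (mul_conj_norm_le hβ _ _) h4 (norm_nonneg _) zero_le_one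
        _ = _ := one_mul _
    refine (sum_le_sum h3).trans (le_of_eq ?_)
    rw [sum_const, nsmul_eq_mul, Int.card_Icc]
    congr 1
    simp
  refine (norm_sum_le _ _).trans ((sum_le_sum hterm).trans ?_)
  rw [sum_const, nsmul_eq_mul]
  refine mul_le_mul_of_nonneg_right (card_Lr_le hN) ?_
  have := tailC_pos
  positivity

end Pool.Agent.Disp
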