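import Pool.Agent.Disp.Exp3

/-!
# DISP: sums of the four parts
-/

set_option autoImplicit false

namespace Pool.Agent.Disp

open Finset Pool.Agent.BCore

/-- The hypotheses of `disp` without the core bound. -/
structure Hyp (M N R U V H D0 : ℕ) (Z T : ℝ) (a b b' : ℤ) (β : ℤ → ℂ)
    (c : ℕ → ℕ → ℕ → ℂ) : Prop where
  hM : 1 ≤ M
  hR : 1 ≤ R
  hU : 1 ≤ U
  hV : 1 ≤ V
  hD0 : 1 ≤ D0
  hZ : 1 ≤ Z
  hT : 1 ≤ T
  hUV : 4 * U * V ≤ N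
  hH : 32 * Z * (R * ((U : ℝ) * V) ^ 2) ≤ H * M
  htau : ∀ m : ℕ, 1 ≤ m → (m : ℝ) ≤ M * N * Z → (tau m : ℝ) ≤ T
  hlog : 1 + Real.log N ≤ T
  hβ : ∀ n, ‖β n‖ ≤ 1
  hβs : ∀ n, β n ≠ 0 → 1 ≤ n ∧ n ≤ N
  hc : ∀ r u v, ‖c r u v‖ ≤ 1
  hcs : ∀ r u v, c r u v ≠ 0 → Squarefree (r * (u * v)) ∧ IsCoprime (r : ℤ) a ∧
      IsCoprime ((u * v : ℕ) : ℤ) b ∧ IsCoprime ((u * v : ℕ) : ℤ) b' ∧
      ∀ p : ℕ, p.Prime → p ∣ u * v → D0 < p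

variable {M N R U V H D0 : ℕ} {Z T : ℝ} {a b b' : ℤ} {β : ℤ → ℂ} {c : ℕ → ℕ → ℕ → ℂ}

lemma sum_TT (f : (ℕ × ℕ) → (ℕ × ℕ) → ℝ) :
    ∑ t1 ∈ TT U V, ∑ t2 ∈ TT U V, f t1.1 t2.1 = 4 * ∑ j1 ∈ J U V, ∑ j2 ∈ J U V, f j1 j2 := by
  have h : ∀ g : (ℕ × ℕ) → ℝ, ∑ t ∈ TT U V, g t.1 = 2 * ∑ j ∈ J U V, g j := by
    intro g
    unfold TT
    rw [sum_product, mul_sum]
    refine sum_congr rfl fun j _ => ?_
    rw [Fintype.sum_bool]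
    ring
  rw [h fun j1 => ∑ t2 ∈ TT U V, f j1 t2.1, mul_sum, mul_sum]
  refine sum_congr rfl fun j1 _ => ?_
  rw [h fun j2 => f j1 j2]
  ring

lemma zz_norm_le (hc : ∀ r u v, ‖c r u v‖ ≤ 1) (r : ℕ) (t : (ℕ × ℕ) × Bool) :
    ‖zz c r t‖ ≤ 1 := by
  unfold zz
  rw [norm_mul, sg_norm, one_mul]
  exact hc _ _ _

lemma zz_ne {r : ℕ} {t : (ℕ × ℕ) × Bool} (h : zz c r t ≠ 0) : c r t.1.1 t.1.2 ≠ 0 := by
  intro h0
  apply h
  unfold zz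
  rw [h0, mul_zero]

lemma cl_coprime {d : ℕ} (h1 : IsCoprime (d : ℤ) b) (h2 : IsCoprime (d : ℤ) b') (s : Bool) :
    IsCoprime (d : ℤ) (cl b b' s) := by
  unfold cl
  split_ifs
  · exact h1
  · exact h2

/-- Size facts. -/
lemma sizes {r : ℕ} {j1 j2 : ℕ × ℕ} (hr : r ∈ Ioc R (2 * R)) (h1 : j1 ∈ J U V) (h2 : j2 ∈ J U V) :
    (R : ℝ) * ((U : ℝ) * V) ^ 2 ≤ (r : ℝ) * ((j1.1 * j1.2 : ℕ) : ℝ) * ((j2.1 * j2.2 : ℕ) : ℝ) ∧
    (r : ℝ) * ((j1.1 * j1.2 : ℕ) : ℝ) * ((j2.1 * j2.2 : ℕ) : ℝ) ≤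
      32 * ((R : ℝ) * ((U : ℝ) * V) ^ 2) := by
  rw [mem_Ioc] at hr
  rw [mem_J] at h1 h2
  have e1 : (R : ℝ) ≤ r := by exact_mod_cast hr.1.le
  have e2 : (r : ℝ) ≤ 2 * R := by exact_mod_cast hr.2
  have key : ∀ j : ℕ × ℕ, ((U ≤ j.1 ∧ j.1 ≤ 2 * U) ∧ (V < j.2 ∧ j.2 ≤ 2 * V)) →
      (U : ℝ) * V ≤ ((j.1 * j.2 : ℕ) : ℝ) ∧ ((j.1 * j.2 : ℕ) : ℝ) ≤ 4 * ((U : ℝ) * V) := by
    intro j hj
    constructor
    · have : U * V ≤ j.1 * j.2 := Nat.mul_le_mul hj.1.1 hj.2.1.le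
      exact_mod_cast this
    · have : j.1 * j.2 ≤ (2 * U) * (2 * V) := Nat.mul_le_mul hj.1.2 hj.2.2
      have h3 : ((j.1 * j.2 : ℕ) : ℝ) ≤ (((2 * U) * (2 * V) : ℕ) : ℝ) := by exact_mod_cast this
      push_cast at h3 ⊢
      linarith
  obtain ⟨f1, f2⟩ := key j1 h1
  obtain ⟨f3, f4⟩ := key j2 h2
  have g0 : (0 : ℝ) ≤ (U : ℝ) * V := by positivity
  constructor
  · calc (R : ℝ) * ((U : ℝ) * V) ^ 2 = (R : ℝ) * ((U : ℝ) * V) * ((U : ℝ) * V) := by ring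
      _ ≤ (r : ℝ) * ((j1.1 * j1.2 : ℕ) : ℝ) * ((j2.1 * j2.2 : ℕ) : ℝ) := by
          refine mul_le_mul (mul_le_mul e1 f1 g0 (by positivity)) f3 g0 (by positivity)
  · calc (r : ℝ) * ((j1.1 * j1.2 : ℕ) : ℝ) * ((j2.1 * j2.2 : ℕ) : ℝ) ≤
        (2 * R) * (4 * ((U : ℝ) * V)) * (4 * ((U : ℝ) * V)) := by
          refine mul_le_mul (mul_le_mul e2 f2 (by positivity) (by positivity)) f4 (by positivity)
            (by positivity)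
      _ = _ := by ring

lemma tau_le_of_hyp (h : Hyp M N R U V H D0 Z T a b b' β c) :
    ∀ g : ℕ, 1 ≤ g → g ≤ 4 * U * V → (tau g : ℝ) ≤ T := by
  intro g h1 h2
  refine h.htau g h1 ?_
  have e1 : (g : ℝ) ≤ N := by exact_mod_cast h2.trans h.hUV
  have e2 : (1 : ℝ) ≤ M := by exact_mod_cast h.hM
  have e3 := h.hZ
  have e4 : (0 : ℝ) ≤ N := by positivity
  calc (g : ℝ) ≤ 1 * N * 1 := by linarith
    _ ≤ M * N * Z := by
        refine mul_le_mul (mul_le_mul_of_nonneg_right e2 e4) e3 zero_le_one (by positivity)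

lemma hN_of_hyp (h : Hyp M N R U V H D0 Z T a b b' β c) : 1 ≤ N := by
  have := h.hUV
  have h2 : 1 ≤ U * V := Nat.mul_pos h.hU h.hV
  have h3 : 4 * U * V = 4 * (U * V) := by ring
  omega

lemma card_J_sq (hU : 1 ≤ U) : ((J U V).card : ℝ) * ((J U V).card : ℝ) ≤ 4 * ((U : ℝ) * V) ^ 2 := by
  have h : ((J U V).card : ℝ) ≤ 2 * ((U : ℝ) * V) := by
    have := card_J U V hU
    have h2 : ((J U V).card : ℝ) ≤ ((2 * U * V : ℕ) : ℝ) := by exact_mod_cast this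
    push_cast at h2
    linarith
  calc _ ≤ (2 * ((U : ℝ) * V)) * (2 * ((U : ℝ) * V)) :=
        mul_le_mul h h (by positivity) (by positivity)
    _ = _ := by ring

theorem sum_Dg (h : Hyp M N R U V H D0 Z T a b b' β c) :
    ‖∑ r ∈ Ioc R (2 * R), ∑ t1 ∈ TT U V, ∑ t2 ∈ TT U V,
      zz c r t1 * (starRingEnd ℂ) (zz c r t2) *
        Dg M N β a (cl b b' t1.2) (cl b b' t2.2) r (t1.1.1 * t1.1.2) (t2.1.1 * t2.1.2)‖ ≤
      128 * (T ^ 4 * Z * (M * N)) + 32 * (T * R * ((U : ℝ) * V) ^ 2) +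
        16 * (tailC * (Real.exp (-Z) * (R * ((U : ℝ) * V) ^ 2 * N * M ^ 2))) := by
  have hR0 : (0 : ℝ) < R := by exact_mod_cast h.hR
  have hU0 : (0 : ℝ) < U := by exact_mod_cast h.hU
  have hV0 : (0 : ℝ) < V := by exact_mod_cast h.hV
  have hT0 : 0 < T := lt_of_lt_of_le one_pos h.hT
  have hZ0 : 0 < Z := lt_of_lt_of_le one_pos h.hZ
  have htC := tailC_pos
  set E : ℝ := N * (tailC * Real.exp (-Z) * (M : ℝ) ^ 2) with hE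
  have hE0 : 0 ≤ E := by positivity
  set G : ℝ := 2 * ((M : ℝ) * N * Z) / (R * ((U : ℝ) * V) ^ 2) with hG
  have hG0 : 0 ≤ G := by positivity
  have hterm : ∀ r ∈ Ioc R (2 * R), ∀ t1 ∈ TT U V, ∀ t2 ∈ TT U V,
      ‖zz c r t1 * (starRingEnd ℂ) (zz c r t2) *
        Dg M N β a (cl b b' t1.2) (cl b b' t2.2) r (t1.1.1 * t1.1.2) (t2.1.1 * t2.1.2)‖ ≤
      T * (G * ((Nat.gcd (t1.1.1 * t1.1.2) (t2.1.1 * t2.1.2) : ℕ) : ℝ) + 2) + E := by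
    intro r hr t1 ht1 t2 ht2
    have hnn : 0 ≤ T * (G * ((Nat.gcd (t1.1.1 * t1.1.2) (t2.1.1 * t2.1.2) : ℕ) : ℝ) + 2) + E := by
      positivity
    by_cases hz1 : zz c r t1 = 0
    · rw [hz1, zero_mul, zero_mul, norm_zero]; exact hnn
    by_cases hz2 : zz c r t2 = 0
    · rw [hz2, map_zero, mul_zero, zero_mul, norm_zero]; exact hnn
    obtain ⟨s1, ha, -, -, -⟩ := h.hcs _ _ _ (zz_ne hz1)
    obtain ⟨s2, -, -, -, -⟩ := h.hcs _ _ _ (zz_ne hz2)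
    have hPF := pair_facts s1 s2
    have hj1 : t1.1 ∈ J U V := (mem_product.mp ht1).1
    have hj2 : t2.1 ∈ J U V := (mem_product.mp ht2).1
    have hsz := (sizes hr hj1 hj2).1
    rw [mem_Ioc] at hr
    have hr2 : 2 ≤ r := by have := h.hR; omega
    have h5 := diag_bound (N := N) (Z := Z) (T := T) h.hM a (cl b b' t1.2) (cl b b' t2.2) r
      (t1.1.1 * t1.1.2) (t2.1.1 * t2.1.2) hr2 hPF.P1 hPF.cl ha h.hZ hT0.le h.htau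
      (fun n => β n * (starRingEnd ℂ) (β n)) (fun n => mul_conj_norm_le h.hβ n n)
    rw [norm_mul, norm_mul, Complex.norm_conj]
    have h6 : ‖zz c r t1‖ * ‖zz c r t2‖ ≤ 1 := by
      calc _ ≤ (1 : ℝ) * 1 := mul_le_mul (zz_norm_le h.hc _ _) (zz_norm_le h.hc _ _)
            (norm_nonneg _) zero_le_one
        _ = 1 := one_mul 1
    have h7 : 2 * ((M : ℝ) * N * Z) / (Pm r (t1.1.1 * t1.1.2) (t2.1.1 * t2.1.2) : ℕ) ≤
        G * ((Nat.gcd (t1.1.1 * t1.1.2) (t2.1.1 * t2.1.2) : ℕ) : ℝ) := by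
      have hP0 : (0 : ℝ) < (Pm r (t1.1.1 * t1.1.2) (t2.1.1 * t2.1.2) : ℕ) := by
        exact_mod_cast hPF.P1
      have hmul : ((Pm r (t1.1.1 * t1.1.2) (t2.1.1 * t2.1.2) : ℕ) : ℝ) *
          (Nat.gcd (t1.1.1 * t1.1.2) (t2.1.1 * t2.1.2) : ℕ) =
          (r : ℝ) * ((t1.1.1 * t1.1.2 : ℕ) : ℝ) * ((t2.1.1 * t2.1.2 : ℕ) : ℝ) := by
        exact_mod_cast hPF.mul
      rw [hG, div_mul_eq_mul_div, div_le_div_iff₀ hP0 (by positivity)]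
      rw [← hmul] at hsz
      calc 2 * ((M : ℝ) * N * Z) * (R * ((U : ℝ) * V) ^ 2) ≤
          2 * ((M : ℝ) * N * Z) * (((Pm r (t1.1.1 * t1.1.2) (t2.1.1 * t2.1.2) : ℕ) : ℝ) *
            (Nat.gcd (t1.1.1 * t1.1.2) (t2.1.1 * t2.1.2) : ℕ)) :=
            mul_le_mul_of_nonneg_left hsz (by positivity)
        _ = _ := by ring
    calc _ ≤ 1 * (T * (2 * ((M : ℝ) * N * Z) /
            (Pm r (t1.1.1 * t1.1.2) (t2.1.1 * t2.1.2) : ℕ) + 2) + E) :=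
          mul_le_mul h6 h5 (norm_nonneg _) zero_le_one
      _ ≤ _ := by
          rw [one_mul]
          have := mul_le_mul_of_nonneg_left (add_le_add_left h7 2) hT0.le
          linarith
  have hsum : ‖∑ r ∈ Ioc R (2 * R), ∑ t1 ∈ TT U V, ∑ t2 ∈ TT U V,
      zz c r t1 * (starRingEnd ℂ) (zz c r t2) *
        Dg M N β a (cl b b' t1.2) (cl b b' t2.2) r (t1.1.1 * t1.1.2) (t2.1.1 * t2.1.2)‖ ≤
      ∑ r ∈ Ioc R (2 * R), ∑ t1 ∈ TT U V, ∑ t2 ∈ TT U V,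
        (T * (G * ((Nat.gcd (t1.1.1 * t1.1.2) (t2.1.1 * t2.1.2) : ℕ) : ℝ) + 2) + E) := by
    refine (norm_sum_le _ _).trans (sum_le_sum fun r hr => ?_)
    refine (norm_sum_le _ _).trans (sum_le_sum fun t1 ht1 => ?_)
    refine (norm_sum_le _ _).trans (sum_le_sum fun t2 ht2 => ?_)
    exact hterm r hr t1 ht1 t2 ht2
  refine hsum.trans ?_
  rw [sum_const, Nat.card_Ioc, nsmul_eq_mul, show 2 * R - R = R by omega,
    sum_TT (fun j1 j2 => T * (G * ((Nat.gcd (j1.1 * j1.2) (j2.1 * j2.2) : ℕ) : ℝ) + 2) + E)]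
  have h8 : ∑ j1 ∈ J U V, ∑ j2 ∈ J U V,
      (T * (G * ((Nat.gcd (j1.1 * j1.2) (j2.1 * j2.2) : ℕ) : ℝ) + 2) + E) =
      T * G * (∑ j1 ∈ J U V, ∑ j2 ∈ J U V, ((Nat.gcd (j1.1 * j1.2) (j2.1 * j2.2) : ℕ) : ℝ)) +
        (((J U V).card : ℝ) * ((J U V).card : ℝ)) * (2 * T + E) := by
    rw [mul_sum]
    have : ∀ j1 ∈ J U V, ∑ j2 ∈ J U V,
      (T * (G * ((Nat.gcd (j1.1 * j1.2) (j2.1 * j2.2) : ℕ) : ℝ) + 2) + E) =
      T * G * (∑ j2 ∈ J U V, ((Nat.gcd (j1.1 * j1.2) (j2.1 * j2.2) : ℕ) : ℝ)) +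
        ((J U V).card : ℝ) * (2 * T + E) := by
      intro j1 _
      rw [mul_sum, ← nsmul_eq_mul, ← sum_const, ← sum_add_distrib]
      refine sum_congr rfl fun j2 _ => ?_
      ring
    rw [sum_congr rfl this, sum_add_distrib, sum_const, nsmul_eq_mul]
    ring
  rw [h8]
  have hlogUV : 1 + Real.log ((4 * U * V : ℕ) : ℝ) ≤ T := by
    refine le_trans ?_ h.hlog
    have h9 : ((4 * U * V : ℕ) : ℝ) ≤ N := by exact_mod_cast h.hUV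
    have h10 : (0 : ℝ) < ((4 * U * V : ℕ) : ℝ) := by push_cast; positivity
    linarith [Real.log_le_log h10 h9]
  have h11 := gcd_sum_total U V h.hU T (tau_le_of_hyp h) hlogUV h.hT
  have h12 := card_J_sq (U := U) (V := V) h.hU
  have h13 : T * G * (∑ j1 ∈ J U V, ∑ j2 ∈ J U V,
      ((Nat.gcd (j1.1 * j1.2) (j2.1 * j2.2) : ℕ) : ℝ)) ≤
      T * G * (16 * T ^ 3 * ((U : ℝ) * V) ^ 2) := mul_le_mul_of_nonneg_left h11 (by positivity)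
  have h14 : (((J U V).card : ℝ) * ((J U V).card : ℝ)) * (2 * T + E) ≤
      4 * ((U : ℝ) * V) ^ 2 * (2 * T + E) := mul_le_mul_of_nonneg_right h12 (by positivity)
  calc (R : ℝ) * (4 * (T * G * (∑ j1 ∈ J U V, ∑ j2 ∈ J U V,
        ((Nat.gcd (j1.1 * j1.2) (j2.1 * j2.2) : ℕ) : ℝ)) +
        (((J U V).card : ℝ) * ((J U V).card : ℝ)) * (2 * T + E)))
      ≤ (R : ℝ) * (4 * (T * G * (16 * T ^ 3 * ((U : ℝ) * V) ^ 2) +
        4 * ((U : ℝ) * V) ^ 2 * (2 * T + E))) := by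
        refine mul_le_mul_of_nonneg_left ?_ hR0.le
        linarith
    _ = 64 * T ^ 4 * (G * (R * ((U : ℝ) * V) ^ 2)) + 32 * (T * R * ((U : ℝ) * V) ^ 2) +
        16 * (R * ((U : ℝ) * V) ^ 2 * E) := by ring
    _ = _ := by
        have : G * (R * ((U : ℝ) * V) ^ 2) = 2 * ((M : ℝ) * N * Z) := by
          rw [hG]
          field_simp
        rw [this, hE]
        ring

theorem sum_Er (h : Hyp M N R U V H D0 Z T a b b' β c) :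
    ‖∑ r ∈ Ioc R (2 * R), ∑ t1 ∈ TT U V, ∑ t2 ∈ TT U V,
      zz c r t1 * (starRingEnd ℂ) (zz c r t2) *
        (Qf M N β a (cl b b' t1.2) (cl b b' t2.2) r (t1.1.1 * t1.1.2) (t2.1.1 * t2.1.2) -
        Dg M N β a (cl b b' t1.2) (cl b b' t2.2) r (t1.1.1 * t1.1.2) (t2.1.1 * t2.1.2) -
        Zs M N β a (cl b b' t1.2) (cl b b' t2.2) r (t1.1.1 * t1.1.2) (t2.1.1 * t2.1.2) -
        Cs M N H β a (cl b b' t1.2) (cl b b' t2.2) r (t1.1.1 * t1.1.2) (t2.1.1 * t2.1.2))‖ ≤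
      1536 * (tailC * (Real.exp (-Z) * ((N : ℝ) ^ 2 * (R * ((U : ℝ) * V) ^ 2) ^ 2))) := by
  have hR0 : (0 : ℝ) < R := by exact_mod_cast h.hR
  have hM1 : (1 : ℝ) ≤ M := by exact_mod_cast h.hM
  have htC := tailC_pos
  have hN := hN_of_hyp h
  set E : ℝ := 3 * N * (N * (tailC * Real.exp (-Z) * (32 * ((R : ℝ) * ((U : ℝ) * V) ^ 2)))) with hE
  have hE0 : 0 ≤ E := by positivity
  have hterm : ∀ r ∈ Ioc R (2 * R), ∀ t1 ∈ TT U V, ∀ t2 ∈ TT U V,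
      ‖zz c r t1 * (starRingEnd ℂ) (zz c r t2) *
        (Qf M N β a (cl b b' t1.2) (cl b b' t2.2) r (t1.1.1 * t1.1.2) (t2.1.1 * t2.1.2) -
        Dg M N β a (cl b b' t1.2) (cl b b' t2.2) r (t1.1.1 * t1.1.2) (t2.1.1 * t2.1.2) -
        Zs M N β a (cl b b' t1.2) (cl b b' t2.2) r (t1.1.1 * t1.1.2) (t2.1.1 * t2.1.2) -
        Cs M N H β a (cl b b' t1.2) (cl b b' t2.2) r (t1.1.1 * t1.1.2) (t2.1.1 * t2.1.2))‖ ≤
      E := by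
    intro r hr t1 ht1 t2 ht2
    by_cases hz1 : zz c r t1 = 0
    · rw [hz1, zero_mul, zero_mul, norm_zero]; exact hE0
    by_cases hz2 : zz c r t2 = 0
    · rw [hz2, map_zero, mul_zero, zero_mul, norm_zero]; exact hE0
    obtain ⟨s1, ha, f1, f2, -⟩ := h.hcs _ _ _ (zz_ne hz1)
    obtain ⟨s2, -, f3, f4, -⟩ := h.hcs _ _ _ (zz_ne hz2)
    have hPF := pair_facts s1 s2
    have hj1 : t1.1 ∈ J U V := (mem_product.mp ht1).1
    have hj2 : t2.1 ∈ J U V := (mem_product.mp ht2).1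
    have hsz := (sizes hr hj1 hj2).2
    rw [mem_Ioc] at hr
    have hr1 : 1 ≤ r := by omega
    have hZH : Z * ((r : ℝ) * ((t1.1.1 * t1.1.2 : ℕ) : ℝ) * ((t2.1.1 * t2.1.2 : ℕ) : ℝ)) ≤
        H * M := by
      refine le_trans ?_ h.hH
      calc _ ≤ Z * (32 * ((R : ℝ) * ((U : ℝ) * V) ^ 2)) :=
            mul_le_mul_of_nonneg_left hsz (le_trans zero_le_one h.hZ)
        _ = _ := by ring
    have h5 := Er_bound (H := H) (Z := Z) (b1 := cl b b' t1.2) (b2 := cl b b' t2.2) h.hM hN hr1 h.hZ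
      h.hβ h.hβs hPF ha (cl_coprime f1 f2 t1.2) (cl_coprime f3 f4 t2.2) hZH
    rw [norm_mul, norm_mul, Complex.norm_conj]
    have h6 : ‖zz c r t1‖ * ‖zz c r t2‖ ≤ 1 := by
      calc _ ≤ (1 : ℝ) * 1 := mul_le_mul (zz_norm_le h.hc _ _) (zz_norm_le h.hc _ _)
            (norm_nonneg _) zero_le_one
        _ = 1 := one_mul 1
    have h7 : ((Pm r (t1.1.1 * t1.1.2) (t2.1.1 * t2.1.2) : ℕ) : ℝ) / M ≤
        32 * ((R : ℝ) * ((U : ℝ) * V) ^ 2) := by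
      have hmul : ((Pm r (t1.1.1 * t1.1.2) (t2.1.1 * t2.1.2) : ℕ) : ℝ) *
          (Nat.gcd (t1.1.1 * t1.1.2) (t2.1.1 * t2.1.2) : ℕ) =
          (r : ℝ) * ((t1.1.1 * t1.1.2 : ℕ) : ℝ) * ((t2.1.1 * t2.1.2 : ℕ) : ℝ) := by
        exact_mod_cast hPF.mul
      have hg1 : (1 : ℝ) ≤ (Nat.gcd (t1.1.1 * t1.1.2) (t2.1.1 * t2.1.2) : ℕ) := by
        exact_mod_cast hPF.g1
      have hP0 : (0 : ℝ) ≤ (Pm r (t1.1.1 * t1.1.2) (t2.1.1 * t2.1.2) : ℕ) := by positivity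
      calc _ ≤ ((Pm r (t1.1.1 * t1.1.2) (t2.1.1 * t2.1.2) : ℕ) : ℝ) := div_le_self hP0 hM1
        _ ≤ ((Pm r (t1.1.1 * t1.1.2) (t2.1.1 * t2.1.2) : ℕ) : ℝ) *
          (Nat.gcd (t1.1.1 * t1.1.2) (t2.1.1 * t2.1.2) : ℕ) := le_mul_of_one_le_right hP0 hg1
        _ ≤ _ := by rw [hmul]; exact hsz
    calc _ ≤ 1 * (3 * N * (N * (tailC * Real.exp (-Z) *
            ((Pm r (t1.1.1 * t1.1.2) (t2.1.1 * t2.1.2) : ℕ) / M)))) :=
          mul_le_mul h6 h5 (norm_nonneg _) zero_le_one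
      _ ≤ E := by
          rw [one_mul, hE]
          gcongr
  have hsum : ‖∑ r ∈ Ioc R (2 * R), ∑ t1 ∈ TT U V, ∑ t2 ∈ TT U V,
      zz c r t1 * (starRingEnd ℂ) (zz c r t2) *
        (Qf M N β a (cl b b' t1.2) (cl b b' t2.2) r (t1.1.1 * t1.1.2) (t2.1.1 * t2.1.2) -
        Dg M N β a (cl b b' t1.2) (cl b b' t2.2) r (t1.1.1 * t1.1.2) (t2.1.1 * t2.1.2) -
        Zs M N β a (cl b b' t1.2) (cl b b' t2.2) r (t1.1.1 * t1.1.2) (t2.1.1 * t2.1.2) -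
        Cs M N H β a (cl b b' t1.2) (cl b b' t2.2) r (t1.1.1 * t1.1.2) (t2.1.1 * t2.1.2))‖ ≤
      ∑ r ∈ Ioc R (2 * R), ∑ t1 ∈ TT U V, ∑ t2 ∈ TT U V, E := by
    refine (norm_sum_le _ _).trans (sum_le_sum fun r hr => ?_)
    refine (norm_sum_le _ _).trans (sum_le_sum fun t1 ht1 => ?_)
    refine (norm_sum_le _ _).trans (sum_le_sum fun t2 ht2 => ?_)
    exact hterm r hr t1 ht1 t2 ht2
  refine hsum.trans ?_
  rw [sum_const, Nat.card_Ioc, nsmul_eq_mul, show 2 * R - R = R by omega, sum_TT (fun _ _ => E),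
    sum_const, sum_const, nsmul_eq_mul, nsmul_eq_mul]
  have h12 := card_J_sq (U := U) (V := V) h.hU
  calc (R : ℝ) * (4 * (((J U V).card : ℝ) * (((J U V).card : ℝ) * E)))
      = (R : ℝ) * (4 * ((((J U V).card : ℝ) * ((J U V).card : ℝ)) * E)) := by ring
    _ ≤ (R : ℝ) * (4 * ((4 * ((U : ℝ) * V) ^ 2) * E)) := by gcongr
    _ = _ := by rw [hE]; ring

end Pool.Agent.Disp
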