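import Pool.Agent.Disp.Exp4

/-!
# DISP: zero frequency and core
-/

set_option autoImplicit false

namespace Pool.Agent.Disp

open Finset Pool.Agent.BCore

variable {M N R U V H D0 : ℕ} {Z T : ℝ} {a b b' : ℤ} {β : ℤ → ℂ} {c : ℕ → ℕ → ℕ → ℂ}

lemma sum_TT' (f : ((ℕ × ℕ) × Bool) → ((ℕ × ℕ) × Bool) → ℂ) :
    ∑ t1 ∈ TT U V, ∑ t2 ∈ TT U V, f t1 t2 = ∑ j1 ∈ J U V, ∑ j2 ∈ J U V,
      (f (j1, true) (j2, true) + f (j1, true) (j2, false) + f (j1, false) (j2, true) +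
        f (j1, false) (j2, false)) := by
  have h : ∀ g : ((ℕ × ℕ) × Bool) → ℂ, ∑ t ∈ TT U V, g t =
      ∑ j ∈ J U V, (g (j, true) + g (j, false)) := by
    intro g
    unfold TT
    rw [sum_product]
    refine sum_congr rfl fun j _ => ?_
    rw [Fintype.sum_bool]
  rw [h]
  refine sum_congr rfl fun j1 _ => ?_
  rw [h, h, ← sum_add_distrib]
  refine sum_congr rfl fun j2 _ => ?_
  ring

lemma gcd_gt {d1 d2 D0 : ℕ} (h : ∀ p : ℕ, p.Prime → p ∣ d1 → D0 < p) (h1 : d1 ≠ 0)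
    (hg : Nat.gcd d1 d2 ≠ 1) : D0 < Nat.gcd d1 d2 := by
  obtain ⟨p, hp, hpd⟩ := Nat.exists_prime_and_dvd hg
  have h2 := h p hp (hpd.trans (Nat.gcd_dvd_left _ _))
  have h3 : p ≤ Nat.gcd d1 d2 := Nat.le_of_dvd (Nat.gcd_pos_of_pos_left _ (by omega)) hpd
  omega

lemma Zs_indep {r d1 d2 : ℕ} {b1 b2 c1 c2 : ℤ} (hPF : PF r d1 d2) (hg : Nat.gcd d1 d2 = 1)
    (ha : IsCoprime (r : ℤ) a) (h1 : IsCoprime (d1 : ℤ) b1) (h2 : IsCoprime (d2 : ℤ) b2)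
    (h1' : IsCoprime (d1 : ℤ) c1) (h2' : IsCoprime (d2 : ℤ) c2) :
    Zs M N β a b1 b2 r d1 d2 = Zs M N β a c1 c2 r d1 d2 := by
  unfold Zs
  congr 1
  refine sum_congr rfl fun l _ => sum_congr rfl fun n _ => ?_
  rw [W_zero_indep (c1 := c1) (c2 := c2) hPF.sq ha h1 h2 h1' h2'
    (Nat.isCoprime_iff_coprime.mpr hPF.c1) (Nat.isCoprime_iff_coprime.mpr hPF.c2)
    (Nat.isCoprime_iff_coprime.mpr hg)]

lemma Zs_bound (hβ : ∀ n, ‖β n‖ ≤ 1) {r : ℕ} {j1 j2 : ℕ × ℕ} {b1 b2 : ℤ} (hM : 1 ≤ M)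
    (hR : 1 ≤ R) (hU : 1 ≤ U) (hV : 1 ≤ V)
    (hr : r ∈ Ioc R (2 * R)) (hj1 : j1 ∈ J U V) (hj2 : j2 ∈ J U V)
    (hPF : PF r (j1.1 * j1.2) (j2.1 * j2.2)) (hgN : Nat.gcd (j1.1 * j1.2) (j2.1 * j2.2) ≤ N)
    (ha : IsCoprime (r : ℤ) a) (h1 : IsCoprime ((j1.1 * j1.2 : ℕ) : ℤ) b1)
    (h2 : IsCoprime ((j2.1 * j2.2 : ℕ) : ℤ) b2) :
    ‖Zs M N β a b1 b2 r (j1.1 * j1.2) (j2.1 * j2.2)‖ ≤
      4 * (M * (N : ℝ) ^ 2) / (R * (R * ((U : ℝ) * V) ^ 2)) := by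
  have hR0 : (0 : ℝ) < R := by exact_mod_cast hR
  have hU0 : (0 : ℝ) < U := by exact_mod_cast hU
  have hV0 : (0 : ℝ) < V := by exact_mod_cast hV
  have hP0 : (0 : ℝ) < (Pm r (j1.1 * j1.2) (j2.1 * j2.2) : ℕ) := by exact_mod_cast hPF.P1
  have hg0 : (0 : ℝ) < (Nat.gcd (j1.1 * j1.2) (j2.1 * j2.2) : ℕ) := by exact_mod_cast hPF.g1
  have hsz := (sizes hr hj1 hj2).1
  rw [mem_Ioc] at hr
  have hr0 : (0 : ℝ) < r := by
    have : 0 < r := by omega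
    exact_mod_cast this
  have hRr : (R : ℝ) ≤ r := by exact_mod_cast hr.1.le
  have hrg : Nat.Coprime r (Nat.gcd (j1.1 * j1.2) (j2.1 * j2.2)) :=
    hPF.c1.coprime_dvd_right (Nat.gcd_dvd_left _ _)
  have h3 := zero_bound (N := N) (b1 := b1) (b2 := b2) hPF.sq (by omega) ha h1 h2 hrg hPF.g1 hgN
    (fun l n => β n * (starRingEnd ℂ) (β (n + l * r))) (fun l n => mul_conj_norm_le hβ _ _)
  unfold Zs
  rw [norm_mul, Complex.norm_real, Real.norm_of_nonneg (by positivity)]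
  have hmul : ((Pm r (j1.1 * j1.2) (j2.1 * j2.2) : ℕ) : ℝ) *
      (Nat.gcd (j1.1 * j1.2) (j2.1 * j2.2) : ℕ) =
      (r : ℝ) * ((j1.1 * j1.2 : ℕ) : ℝ) * ((j2.1 * j2.2 : ℕ) : ℝ) := by
    exact_mod_cast hPF.mul
  rw [← hmul] at hsz
  calc _ ≤ (M : ℝ) / (Pm r (j1.1 * j1.2) (j2.1 * j2.2) : ℕ) *
        (4 * (N : ℝ) ^ 2 / (r * (Nat.gcd (j1.1 * j1.2) (j2.1 * j2.2) : ℕ))) :=
        mul_le_mul_of_nonneg_left h3 (by positivity)
    _ = 4 * (M * (N : ℝ) ^ 2) / (r * (((Pm r (j1.1 * j1.2) (j2.1 * j2.2) : ℕ) : ℝ) *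
      (Nat.gcd (j1.1 * j1.2) (j2.1 * j2.2) : ℕ))) := by
        field_simp
    _ ≤ _ := by
        refine div_le_div_of_nonneg_left (by positivity) (by positivity) ?_
        exact mul_le_mul hRr hsz (by positivity) hr0.le

theorem sum_Zs (h : Hyp M N R U V H D0 Z T a b b' β c) :
    ‖∑ r ∈ Ioc R (2 * R), ∑ t1 ∈ TT U V, ∑ t2 ∈ TT U V,
      zz c r t1 * (starRingEnd ℂ) (zz c r t2) *
        Zs M N β a (cl b b' t1.2) (cl b b' t2.2) r (t1.1.1 * t1.1.2) (t2.1.1 * t2.1.2)‖ ≤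
      256 * (M * (N : ℝ) ^ 2 / R *
        (∑ g ∈ Ioc D0 (4 * U * V), (tau g : ℝ) ^ 2 / (g : ℝ) ^ 2)) := by
  have hR0 : (0 : ℝ) < R := by exact_mod_cast h.hR
  have hU0 : (0 : ℝ) < U := by exact_mod_cast h.hU
  have hV0 : (0 : ℝ) < V := by exact_mod_cast h.hV
  set K0 : ℝ := 4 * (M * (N : ℝ) ^ 2) / (R * (R * ((U : ℝ) * V) ^ 2)) with hK0
  have hK00 : 0 ≤ K0 := by positivity
  have hterm : ∀ r ∈ Ioc R (2 * R), ‖∑ t1 ∈ TT U V, ∑ t2 ∈ TT U V,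
      zz c r t1 * (starRingEnd ℂ) (zz c r t2) *
        Zs M N β a (cl b b' t1.2) (cl b b' t2.2) r (t1.1.1 * t1.1.2) (t2.1.1 * t2.1.2)‖ ≤
      ∑ j1 ∈ J U V, ∑ j2 ∈ J U V, (if D0 < Nat.gcd (j1.1 * j1.2) (j2.1 * j2.2) then 4 * K0 else 0) := by
    intro r hr
    rw [sum_TT']
    refine (norm_sum_le _ _).trans (sum_le_sum fun j1 hj1 => ?_)
    refine (norm_sum_le _ _).trans (sum_le_sum fun j2 hj2 => ?_)
    dsimp only
    have hnn : (0 : ℝ) ≤ (if D0 < Nat.gcd (j1.1 * j1.2) (j2.1 * j2.2) then 4 * K0 else 0) := by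
      split_ifs
      · positivity
      · exact le_rfl
    by_cases hc1 : c r j1.1 j1.2 = 0
    · simp only [zz, hc1, mul_zero, zero_mul, add_zero, norm_zero]
      exact hnn
    by_cases hc2 : c r j2.1 j2.2 = 0
    · simp only [zz, hc2, mul_zero, zero_mul, add_zero, norm_zero, map_zero]
      exact hnn
    obtain ⟨s1, ha, f1, f2, f5⟩ := h.hcs _ _ _ hc1
    obtain ⟨s2, -, f3, f4, -⟩ := h.hcs _ _ _ hc2
    have hPF := pair_facts s1 s2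
    have hcc1 := h.hc r j1.1 j1.2
    have hcc2 := h.hc r j2.1 j2.2
    by_cases hg : Nat.gcd (j1.1 * j1.2) (j2.1 * j2.2) = 1
    · have e : ∀ x y : Bool, Zs M N β a (cl b b' x) (cl b b' y) r (j1.1 * j1.2) (j2.1 * j2.2) =
          Zs M N β a b b r (j1.1 * j1.2) (j2.1 * j2.2) := fun x y =>
        Zs_indep hPF hg ha (cl_coprime f1 f2 x) (cl_coprime f3 f4 y) f1 f3
      rw [e, e, e, e]
      refine le_trans (le_of_eq ?_) hnn
      rw [norm_eq_zero]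
      simp only [zz, sg, if_true, Bool.false_eq_true, if_false, map_mul, map_one, map_neg]
      ring
    · have hgt : D0 < Nat.gcd (j1.1 * j1.2) (j2.1 * j2.2) := by
        refine gcd_gt f5 ?_ hg
        intro h0
        rw [mem_J] at hj1
        have h1 := h.hU
        have h2 : 0 < j1.1 * j1.2 := Nat.mul_pos (by omega) (by omega)
        omega
      rw [if_pos hgt]
      have hgN : Nat.gcd (j1.1 * j1.2) (j2.1 * j2.2) ≤ N := by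
        refine le_trans ?_ h.hUV
        rw [mem_J] at hj1
        have h1 := h.hU
        have h2 : 0 < j1.1 * j1.2 := Nat.mul_pos (by omega) (by omega)
        calc Nat.gcd (j1.1 * j1.2) (j2.1 * j2.2) ≤ j1.1 * j1.2 :=
              Nat.le_of_dvd h2 (Nat.gcd_dvd_left _ _)
          _ ≤ (2 * U) * (2 * V) := Nat.mul_le_mul hj1.1.2 hj1.2.2
          _ = 4 * U * V := by ring
      have e : ∀ x y : Bool, ‖zz c r (j1, x) * (starRingEnd ℂ) (zz c r (j2, y)) *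
          Zs M N β a (cl b b' x) (cl b b' y) r (j1.1 * j1.2) (j2.1 * j2.2)‖ ≤ K0 := by
        intro x y
        rw [norm_mul, norm_mul, Complex.norm_conj]
        have h6 : ‖zz c r (j1, x)‖ * ‖zz c r (j2, y)‖ ≤ 1 := by
          calc _ ≤ (1 : ℝ) * 1 := mul_le_mul (zz_norm_le h.hc _ _) (zz_norm_le h.hc _ _)
                (norm_nonneg _) zero_le_one
            _ = 1 := one_mul 1
        have h7 := Zs_bound (M := M) (b1 := cl b b' x) (b2 := cl b b' y) h.hβ h.hM h.hR h.hU h.hV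
          hr hj1 hj2 hPF hgN ha (cl_coprime f1 f2 x) (cl_coprime f3 f4 y)
        calc _ ≤ 1 * K0 := mul_le_mul h6 h7 (norm_nonneg _) zero_le_one
          _ = K0 := one_mul _
      refine (norm_add_le _ _).trans ?_
      refine (add_le_add_left ((norm_add_le _ _).trans (add_le_add_left (norm_add_le _ _) _)) _).trans ?_
      have e1 := e true true
      have e2 := e true false
      have e3 := e false true
      have e4 := e false false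
      linarith
  refine (norm_sum_le _ _).trans ((sum_le_sum hterm).trans ?_)
  rw [sum_const, Nat.card_Ioc, nsmul_eq_mul, show 2 * R - R = R by omega]
  have h8 := gcd_sum U V D0 h.hU (fun _ => 4 * K0) (fun _ => by positivity)
  refine (mul_le_mul_of_nonneg_left h8 hR0.le).trans (le_of_eq ?_)
  have h9 : ∑ g ∈ Ioc D0 (4 * U * V), 4 * K0 * ((tau g : ℝ) * (4 * (U : ℝ) * V / g)) ^ 2 =
      64 * K0 * ((U : ℝ) * V) ^ 2 *
        ∑ g ∈ Ioc D0 (4 * U * V), (tau g : ℝ) ^ 2 / (g : ℝ) ^ 2 := by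
    rw [mul_sum]
    refine sum_congr rfl fun g hg => ?_
    rw [mem_Ioc] at hg
    have hg0 : (g : ℝ) ≠ 0 := by
      have : 0 < g := by omega
      positivity
    field_simp
    ring
  rw [h9, hK0]
  field_simp
  ring

/-- The weight that turns the core part into `Tot`. -/
noncomputable def wt (M R U V : ℕ) (c : ℕ → ℕ → ℕ → ℂ) (r : ℕ) (_ : ℤ) (u1 v1 u2 v2 : ℕ)
    (h : ℤ) : ℂ :=
  if (r ∈ Ioc R (2 * R) ∧ u1 ∈ Icc U (2 * U) ∧ v1 ∈ Ioc V (2 * V) ∧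
      u2 ∈ Icc U (2 * U) ∧ v2 ∈ Ioc V (2 * V)) then
    c r u1 v1 * (starRingEnd ℂ) (c r u2 v2) *
      ((R * ((U : ℝ) * V) ^ 2 / ((r : ℝ) * ((u1 * v1 : ℕ) : ℝ) * ((u2 * v2 : ℕ) : ℝ)) *
        gau ((Pm r (u1 * v1) (u2 * v2) : ℕ) / M) h : ℝ) : ℂ)
  else 0

lemma wt_norm (hc : ∀ r u v, ‖c r u v‖ ≤ 1) (hR : 1 ≤ R) (hU : 1 ≤ U) (hV : 1 ≤ V) (r : ℕ) (l : ℤ)
    (u1 v1 u2 v2 : ℕ) (h : ℤ) : ‖wt M R U V c r l u1 v1 u2 v2 h‖ ≤ 1 := by
  unfold wt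
  split_ifs with hr
  · obtain ⟨h0, h1, h2, h3, h4⟩ := hr
    have hR0 : (0 : ℝ) < R := by exact_mod_cast hR
    have hU0 : (0 : ℝ) < U := by exact_mod_cast hU
    have hV0 : (0 : ℝ) < V := by exact_mod_cast hV
    have hsz := (sizes (j1 := (u1, v1)) (j2 := (u2, v2)) h0 (mem_product.mpr ⟨h1, h2⟩)
      (mem_product.mpr ⟨h3, h4⟩)).1
    have hpos : (0 : ℝ) < R * ((U : ℝ) * V) ^ 2 := by positivity
    have hpos2 : (0 : ℝ) < (r : ℝ) * ((u1 * v1 : ℕ) : ℝ) * ((u2 * v2 : ℕ) : ℝ) :=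
      lt_of_lt_of_le hpos hsz
    rw [norm_mul, norm_mul, Complex.norm_conj, Complex.norm_real,
      Real.norm_of_nonneg (mul_nonneg (by positivity) (gau_pos _ _).le)]
    have e1 : ‖c r u1 v1‖ * ‖c r u2 v2‖ ≤ 1 := by
      calc _ ≤ (1 : ℝ) * 1 := mul_le_mul (hc _ _ _) (hc _ _ _) (norm_nonneg _) zero_le_one
        _ = 1 := one_mul 1
    have e2 : R * ((U : ℝ) * V) ^ 2 / ((r : ℝ) * ((u1 * v1 : ℕ) : ℝ) * ((u2 * v2 : ℕ) : ℝ)) *
        gau ((Pm r (u1 * v1) (u2 * v2) : ℕ) / M) h ≤ 1 := by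
      calc _ ≤ (1 : ℝ) * 1 := mul_le_mul ((div_le_one hpos2).mpr hsz) (gau_le_one _ _)
            (gau_pos _ _).le zero_le_one
        _ = 1 := one_mul 1
    calc _ ≤ (1 : ℝ) * 1 := mul_le_mul e1 e2 (mul_nonneg (by positivity) (gau_pos _ _).le)
          zero_le_one
      _ = 1 := one_mul 1
  · rw [norm_zero]
    exact zero_le_one

lemma wt_supp {r : ℕ} {l : ℤ} {u1 v1 u2 v2 : ℕ} {h : ℤ} (hw : wt M R U V c r l u1 v1 u2 v2 h ≠ 0) :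
    (r ∈ Ioc R (2 * R) ∧ u1 ∈ Icc U (2 * U) ∧ v1 ∈ Ioc V (2 * V) ∧
      u2 ∈ Icc U (2 * U) ∧ v2 ∈ Ioc V (2 * V)) ∧ c r u1 v1 ≠ 0 ∧ c r u2 v2 ≠ 0 := by
  unfold wt at hw
  split_ifs at hw with hr
  · refine ⟨hr, ?_, ?_⟩
    · intro h0
      apply hw
      rw [h0, zero_mul, zero_mul]
    · intro h0
      apply hw
      rw [h0, map_zero, mul_zero, zero_mul]
  · exact absurd rfl hw

lemma core_eq (hR : 1 ≤ R) (hU : 1 ≤ U) (hV : 1 ≤ V)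
    (hcs : ∀ r u v, c r u v ≠ 0 → Squarefree (r * (u * v))) (b1 b2 : ℤ) :
    ∑ r ∈ Ioc R (2 * R), ∑ j1 ∈ J U V, ∑ j2 ∈ J U V,
      c r j1.1 j1.2 * (starRingEnd ℂ) (c r j2.1 j2.2) *
        Cs M N H β a b1 b2 r (j1.1 * j1.2) (j2.1 * j2.2) =
      (((M : ℝ) / (R * ((U : ℝ) * V) ^ 2) : ℝ) : ℂ) *
        Tot N R U V H β a b1 b2 (wt M R U V c) := by
  have hR0 : (0 : ℝ) < R := by exact_mod_cast hR
  have hU0 : (0 : ℝ) < U := by exact_mod_cast hU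
  have hV0 : (0 : ℝ) < V := by exact_mod_cast hV
  unfold Tot
  rw [mul_sum]
  refine sum_congr rfl fun r hr => ?_
  rw [mul_sum]
  -- left: bring the sum over l outside
  have hL : ∑ j1 ∈ J U V, ∑ j2 ∈ J U V,
      c r j1.1 j1.2 * (starRingEnd ℂ) (c r j2.1 j2.2) *
        Cs M N H β a b1 b2 r (j1.1 * j1.2) (j2.1 * j2.2) =
      ∑ l ∈ Lr N r, ∑ j1 ∈ J U V, ∑ j2 ∈ J U V, ∑ h ∈ Hr H (Nat.gcd (j1.1 * j1.2) (j2.1 * j2.2)),
        c r j1.1 j1.2 * (starRingEnd ℂ) (c r j2.1 j2.2) *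
        ((((M : ℝ) / (Pm r (j1.1 * j1.2) (j2.1 * j2.2) : ℕ) : ℝ) : ℂ) *
        (((gau ((Pm r (j1.1 * j1.2) (j2.1 * j2.2) : ℕ) / M) h : ℝ) : ℂ) *
          SN N β a b1 b2 r l (j1.1 * j1.2) (j2.1 * j2.2) h)) := by
    unfold Cs
    simp only [mul_sum]
    rw [sum_congr rfl fun j1 _ => sum_comm, sum_comm]
  rw [hL]
  refine sum_congr rfl fun l _ => ?_
  rw [mul_sum]
  unfold J
  rw [sum_product]
  refine sum_congr rfl fun u1 hu1 => ?_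
  rw [mul_sum]
  refine sum_congr rfl fun v1 hv1 => ?_
  rw [mul_sum, sum_product]
  refine sum_congr rfl fun u2 hu2 => ?_
  rw [mul_sum]
  refine sum_congr rfl fun v2 hv2 => ?_
  rw [mul_sum]
  refine sum_congr rfl fun h _ => ?_
  dsimp only
  unfold wt
  rw [if_pos ⟨hr, hu1, hv1, hu2, hv2⟩]
  by_cases hc1 : c r u1 v1 = 0
  · rw [hc1]; ring
  by_cases hc2 : c r u2 v2 = 0
  · rw [hc2, map_zero]; ring
  have hPF := pair_facts (hcs _ _ _ hc1) (hcs _ _ _ hc2)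
  have hmul : ((Pm r (u1 * v1) (u2 * v2) : ℕ) : ℝ) * (Nat.gcd (u1 * v1) (u2 * v2) : ℕ) =
      (r : ℝ) * ((u1 * v1 : ℕ) : ℝ) * ((u2 * v2 : ℕ) : ℝ) := by
    exact_mod_cast hPF.mul
  have hP0 : ((Pm r (u1 * v1) (u2 * v2) : ℕ) : ℝ) ≠ 0 := by
    have := hPF.P1
    positivity
  have hg0 : ((Nat.gcd (u1 * v1) (u2 * v2) : ℕ) : ℝ) ≠ 0 := by
    have := hPF.g1
    positivity
  have key : (M : ℝ) / (Pm r (u1 * v1) (u2 * v2) : ℕ) =
      (M : ℝ) / (R * ((U : ℝ) * V) ^ 2) * (R * ((U : ℝ) * V) ^ 2 /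
        ((r : ℝ) * ((u1 * v1 : ℕ) : ℝ) * ((u2 * v2 : ℕ) : ℝ)) *
          (Nat.gcd (u1 * v1) (u2 * v2) : ℕ)) := by
    rw [← hmul]
    field_simp
  rw [key]
  push_cast
  ring

theorem sum_Cs (h : Hyp M N R U V H D0 Z T a b b' β c) {Bd : ℝ}
    (hcore : ∀ b1 ∈ ({b, b'} : Set ℤ), ∀ b2 ∈ ({b, b'} : Set ℤ),
      ‖Tot N R U V H β a b1 b2 (wt M R U V c)‖ ≤ Bd) :
    ‖∑ r ∈ Ioc R (2 * R), ∑ t1 ∈ TT U V, ∑ t2 ∈ TT U V,
      zz c r t1 * (starRingEnd ℂ) (zz c r t2) *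
        Cs M N H β a (cl b b' t1.2) (cl b b' t2.2) r (t1.1.1 * t1.1.2) (t2.1.1 * t2.1.2)‖ ≤
      4 * (M / (R * ((U : ℝ) * V) ^ 2) * Bd) := by
  have hR0 : (0 : ℝ) < R := by exact_mod_cast h.hR
  have hU0 : (0 : ℝ) < U := by exact_mod_cast h.hU
  have hV0 : (0 : ℝ) < V := by exact_mod_cast h.hV
  have hsqf : ∀ r u v, c r u v ≠ 0 → Squarefree (r * (u * v)) := fun r u v hc => (h.hcs r u v hc).1
  have hsplit : ∑ r ∈ Ioc R (2 * R), ∑ t1 ∈ TT U V, ∑ t2 ∈ TT U V,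
      zz c r t1 * (starRingEnd ℂ) (zz c r t2) *
        Cs M N H β a (cl b b' t1.2) (cl b b' t2.2) r (t1.1.1 * t1.1.2) (t2.1.1 * t2.1.2) =
      (((M : ℝ) / (R * ((U : ℝ) * V) ^ 2) : ℝ) : ℂ) *
        Tot N R U V H β a b b (wt M R U V c) -
      (((M : ℝ) / (R * ((U : ℝ) * V) ^ 2) : ℝ) : ℂ) *
        Tot N R U V H β a b b' (wt M R U V c) -
      (((M : ℝ) / (R * ((U : ℝ) * V) ^ 2) : ℝ) : ℂ) *
        Tot N R U V H β a b' b (wt M R U V c) +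
      (((M : ℝ) / (R * ((U : ℝ) * V) ^ 2) : ℝ) : ℂ) *
        Tot N R U V H β a b' b' (wt M R U V c) := by
    rw [← core_eq h.hR h.hU h.hV hsqf b b, ← core_eq h.hR h.hU h.hV hsqf b b',
      ← core_eq h.hR h.hU h.hV hsqf b' b, ← core_eq h.hR h.hU h.hV hsqf b' b']
    rw [← sum_sub_distrib, ← sum_sub_distrib, ← sum_add_distrib]
    refine sum_congr rfl fun r _ => ?_
    rw [sum_TT', ← sum_sub_distrib, ← sum_sub_distrib, ← sum_add_distrib]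
    refine sum_congr rfl fun j1 _ => ?_
    rw [← sum_sub_distrib, ← sum_sub_distrib, ← sum_add_distrib]
    refine sum_congr rfl fun j2 _ => ?_
    simp only [zz, sg, cl, if_true, Bool.false_eq_true, if_false, map_mul, map_one, map_neg]
    ring
  rw [hsplit]
  have e : ∀ b1 ∈ ({b, b'} : Set ℤ), ∀ b2 ∈ ({b, b'} : Set ℤ),
      ‖(((M : ℝ) / (R * ((U : ℝ) * V) ^ 2) : ℝ) : ℂ) *
        Tot N R U V H β a b1 b2 (wt M R U V c)‖ ≤ M / (R * ((U : ℝ) * V) ^ 2) * Bd := by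
    intro b1 hb1 b2 hb2
    rw [norm_mul, Complex.norm_real, Real.norm_of_nonneg (by positivity)]
    exact mul_le_mul_of_nonneg_left (hcore b1 hb1 b2 hb2) (by positivity)
  have hb : b ∈ ({b, b'} : Set ℤ) := Set.mem_insert _ _
  have hb' : b' ∈ ({b, b'} : Set ℤ) := Set.mem_insert_of_mem _ rfl
  have e1 := e b hb b hb
  have e2 := e b hb b' hb'
  have e3 := e b' hb' b hb
  have e4 := e b' hb' b' hb'
  refine (norm_add_le _ _).trans ?_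
  refine (add_le_add_left ((norm_sub_le _ _).trans (add_le_add_left (norm_sub_le _ _) _)) _).trans ?_
  linarith

end Pool.Agent.Disp
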