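import Pool.Agent.Disp.L0

/-!
# DISP module B0: the identity with one integer `b` averaged over the units mod `P`

Proof. For `mn` coprime to `d` the number of `b` in `range P`, coprime to `P`, with
`d ∣ mn - b` is `φ(P) / φ(d)`; for `mn` not coprime to `d` it is `0` (`b` is coprime to `d`).
(`ZMod.unitsMap` surjective with fibres of equal size, or: write `P = d P'`... if `P` is squarefree
then `P'` is coprime to `d` and CRT gives it; `P` is assumed squarefree.)
-/

set_option autoImplicit false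

namespace Pool.Agent.Disp

open Finset Pool.Agent.BGG Pool.Agent.BCore

private theorem B0_count (d P' k : ℕ) (hd : 1 ≤ d) (hP' : 1 ≤ P') (hco : Nat.Coprime d P')
    (hk : Nat.Coprime k d) :
    (((range (d * P')).filter (fun b => Nat.Coprime b (d * P'))).filter
      (fun b => b ≡ k [MOD d])).card = P'.totient := by
  rw [Nat.totient_eq_card_coprime]
  refine Finset.card_bij (fun b _ => b % P') ?_ ?_ ?_
  · intro b hb
    simp only [mem_filter, mem_range] at hb ⊢
    refine ⟨Nat.mod_lt _ (by omega), ?_⟩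
    have h1 : Nat.Coprime b P' := Nat.Coprime.coprime_mul_left_right hb.1.2
    have h2 : Nat.gcd P' (b % P') = Nat.gcd P' b := by
      rw [Nat.gcd_comm P' (b % P'), ← Nat.gcd_rec]
    unfold Nat.Coprime at h1 ⊢
    rw [h2, Nat.gcd_comm]
    exact h1
  · intro b hb b' hb' h
    simp only [mem_filter, mem_range] at hb hb'
    have h1 : b ≡ b' [MOD P'] := h
    have h2 : b ≡ b' [MOD d] := hb.2.trans hb'.2.symm
    have h3 : b ≡ b' [MOD d * P'] := (Nat.modEq_and_modEq_iff_modEq_mul hco).mp ⟨h2, h1⟩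
    have h4 : b % (d * P') = b' % (d * P') := h3
    rwa [Nat.mod_eq_of_lt hb.1.1, Nat.mod_eq_of_lt hb'.1.1] at h4
  · intro c hc
    simp only [mem_filter, mem_range] at hc
    obtain ⟨x, hx1, hx2⟩ := Nat.chineseRemainder hco k c
    refine ⟨x % (d * P'), ?_, ?_⟩
    · simp only [mem_filter, mem_range]
      have hpos : 0 < d * P' := Nat.mul_pos (by omega) (by omega)
      have hxm : x % (d * P') ≡ x [MOD d * P'] := Nat.mod_modEq _ _
      have hxd : x % (d * P') ≡ k [MOD d] :=
        (Nat.ModEq.of_mul_right P' hxm).trans hx1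
      have hxP : x % (d * P') ≡ c [MOD P'] :=
        (Nat.ModEq.of_mul_left d hxm).trans hx2
      refine ⟨⟨Nat.mod_lt _ hpos, ?_⟩, hxd⟩
      refine Nat.Coprime.mul_right ?_ ?_
      · have := hxd.gcd_eq
        unfold Nat.Coprime at hk ⊢
        rw [this]
        exact hk
      · have := hxP.gcd_eq
        unfold Nat.Coprime
        rw [this, Nat.gcd_comm]
        exact hc.2
    · have hxm : x % (d * P') ≡ x [MOD d * P'] := Nat.mod_modEq _ _
      have hxP : x % (d * P') ≡ c [MOD P'] :=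
        (Nat.ModEq.of_mul_left d hxm).trans hx2
      have h4 : x % (d * P') % P' = c % P' := hxP
      show x % (d * P') % P' = c
      rw [h4, Nat.mod_eq_of_lt hc.1]

private theorem B0_sum (d P k : ℕ) (hP : Squarefree P) (hd : d ∣ P) :
    (∑ b ∈ (range P).filter (fun b => Nat.Coprime b P),
      (if (d : ℤ) ∣ (k : ℤ) - ((b : ℕ) : ℤ) then (1 : ℝ) else 0)) =
      (if Nat.Coprime k d then (P.totient : ℝ) / (d.totient : ℝ) else 0) := by
  have hP0 : P ≠ 0 := hP.ne_zero
  obtain ⟨P', rfl⟩ := hd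
  have hd0 : 1 ≤ d := Nat.pos_of_ne_zero (fun h => hP0 (by rw [h, zero_mul]))
  have hP'0 : 1 ≤ P' := Nat.pos_of_ne_zero (fun h => hP0 (by rw [h, mul_zero]))
  have hco : Nat.Coprime d P' := (Nat.squarefree_mul_iff.mp hP).1
  have hiff : ∀ b : ℕ, ((d : ℤ) ∣ (k : ℤ) - ((b : ℕ) : ℤ)) ↔ b ≡ k [MOD d] := by
    intro b
    exact (Nat.modEq_iff_dvd).symm
  rw [← Finset.sum_filter]
  rw [Finset.sum_const, nsmul_eq_mul, mul_one]
  have e : ((range (d * P')).filter (fun b => Nat.Coprime b (d * P'))).filter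
      (fun b => (d : ℤ) ∣ (k : ℤ) - ((b : ℕ) : ℤ)) =
      ((range (d * P')).filter (fun b => Nat.Coprime b (d * P'))).filter
      (fun b => b ≡ k [MOD d]) := by
    refine Finset.filter_congr fun b _ => hiff b
  rw [e]
  by_cases hk : Nat.Coprime k d
  · rw [if_pos hk, B0_count d P' k hd0 hP'0 hco hk, Nat.totient_mul hco]
    have : (d.totient : ℝ) ≠ 0 := by
      have := Nat.totient_pos.mpr hd0
      positivity
    push_cast
    field_simp
  · rw [if_neg hk]
    have : ((range (d * P')).filter (fun b => Nat.Coprime b (d * P'))).filter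
      (fun b => b ≡ k [MOD d]) = ∅ := by
      refine Finset.filter_eq_empty_iff.mpr ?_
      intro b hb hbk
      simp only [mem_filter, mem_range] at hb
      have h1 : Nat.Coprime b d := Nat.Coprime.coprime_mul_right_right hb.2
      apply hk
      unfold Nat.Coprime at h1 ⊢
      rw [← hbk.gcd_eq]
      exact h1
    rw [this]
    simp

theorem b0 (X Y : ℕ) (α β : ℕ → ℝ) (r d P : ℕ) (a : ℤ) (hP : Squarefree P) (hr : 1 ≤ r)
    (hrd : Nat.Coprime r d) (hd : d ∣ P) (ha : IsCoprime a ((r * d : ℕ) : ℤ)) :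
    Dsc2 X Y α β (r * d) a =
      (∑ b ∈ (range P).filter (fun b => Nat.Coprime b P), Dif X Y α β r d a (b : ℤ)) /
          (P.totient : ℝ) +
        Dsc2s X Y α β r a d / (d.totient : ℝ) := by
  have hP0 : P ≠ 0 := hP.ne_zero
  have hd0 : 1 ≤ d := Nat.pos_of_dvd_of_pos hd (Nat.pos_of_ne_zero hP0)
  have hφP : (P.totient : ℝ) ≠ 0 := by
    have := Nat.totient_pos.mpr (Nat.pos_of_ne_zero hP0)
    positivity
  have hφd : (d.totient : ℝ) ≠ 0 := by
    have := Nat.totient_pos.mpr hd0
    positivity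
  have hφr : (r.totient : ℝ) ≠ 0 := by
    have := Nat.totient_pos.mpr hr
    positivity
  have hcard : (((range P).filter (fun b => Nat.Coprime b P)).card : ℝ) = P.totient := by
    rw [Nat.totient_eq_card_coprime]
    congr 2
    refine Finset.filter_congr fun b _ => Nat.coprime_comm
  -- the average of `Dif`
  have hdif : (∑ b ∈ (range P).filter (fun b => Nat.Coprime b P), Dif X Y α β r d a (b : ℤ)) =
      ∑ m ∈ Icc 1 X, ∑ n ∈ Icc 1 Y, α m * β n *
        ((P.totient : ℝ) * (if (r : ℤ) ∣ ((m * n : ℕ) : ℤ) - a ∧ (d : ℤ) ∣ ((m * n : ℕ) : ℤ) - a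
          then 1 else 0) -
        (if (r : ℤ) ∣ ((m * n : ℕ) : ℤ) - a then 1 else 0) *
          (if Nat.Coprime (m * n) d then (P.totient : ℝ) / (d.totient : ℝ) else 0)) := by
    unfold Dif
    rw [Finset.sum_comm]
    refine Finset.sum_congr rfl fun m _ => ?_
    rw [Finset.sum_comm]
    refine Finset.sum_congr rfl fun n _ => ?_
    rw [← Finset.mul_sum, Finset.sum_sub_distrib]
    congr 1
    congr 1
    · rw [Finset.sum_const, nsmul_eq_mul, hcard]
    · rw [← B0_sum d P (m * n) hP hd, Finset.mul_sum]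
      refine Finset.sum_congr rfl fun b _ => ?_
      by_cases h1 : (r : ℤ) ∣ ((m * n : ℕ) : ℤ) - a <;>
        by_cases h2 : (d : ℤ) ∣ ((m * n : ℕ) : ℤ) - ((b : ℕ) : ℤ) <;>
        simp only [h1, h2, if_true, if_false, and_true, and_false, and_self, mul_one, mul_zero,
          zero_mul, one_mul]
  rw [hdif]
  unfold Dsc2 Dsc2s
  rw [Nat.totient_mul hrd]
  rw [Finset.sum_div, Finset.sum_div, Finset.sum_div, ← Finset.sum_sub_distrib,
    ← Finset.sum_sub_distrib, Finset.sum_div, ← Finset.sum_add_distrib]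
  refine Finset.sum_congr rfl fun m _ => ?_
  rw [Finset.sum_div, Finset.sum_div, Finset.sum_div, ← Finset.sum_sub_distrib,
    ← Finset.sum_sub_distrib, Finset.sum_div, ← Finset.sum_add_distrib]
  refine Finset.sum_congr rfl fun n _ => ?_
  have hdvd : (((r * d : ℕ) : ℤ) ∣ ((m * n : ℕ) : ℤ) - a) ↔
      ((r : ℤ) ∣ ((m * n : ℕ) : ℤ) - a ∧ (d : ℤ) ∣ ((m * n : ℕ) : ℤ) - a) := by
    constructor
    · intro h
      rw [Nat.cast_mul] at h
      exact ⟨(Dvd.intro _ rfl).trans h, (Dvd.intro_left _ rfl).trans h⟩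
    · rintro ⟨h1, h2⟩
      rw [Nat.cast_mul]
      exact IsCoprime.mul_dvd (Nat.isCoprime_iff_coprime.mpr hrd) h1 h2
  have hcop : Nat.Coprime (m * n) (r * d) ↔ (Nat.Coprime (m * n) r ∧ Nat.Coprime (m * n) d) :=
    Nat.coprime_mul_iff_right
  rcases Classical.propComplete ((r : ℤ) ∣ ((m * n : ℕ) : ℤ) - a) with h1 | h1 <;>
    rcases Classical.propComplete ((d : ℤ) ∣ ((m * n : ℕ) : ℤ) - a) with h2 | h2 <;>
    rcases Classical.propComplete (Nat.Coprime (m * n) r) with h3 | h3 <;>
    rcases Classical.propComplete (Nat.Coprime (m * n) d) with h4 | h4 <;>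
    simp only [hdvd, hcop, h1, h2, h3, h4, if_true, if_false, and_true, true_and, and_false,
      false_and, and_self] <;> push_cast <;> field_simp <;> ring

end Pool.Agent.Disp
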