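import Pool.Agent.Disp.L0

/-!
# DISP module FACT: moving the small primes of `u v` into `r`

Proof. `q = r0 u0 v0` from `FacP`. Let `y = L^B`, `u` = product of the primes `> y` of `u0`, `v` the
same for `v0`, `r = q / (u v)`. `u0 v0 / (u v)` divides `smp y q ≤ x^s`, so `r0 ≤ r ≤ r0 x^s`,
`v ≥ v0 x^(-s)`; `r0 u0 = q / v0` divides `r u = q / v`; `u0 = 1` gives `u = 1`. `v ≥ 2`: either
`v ≥ x^(V0 - s)`, `V0 ≥ 3 e`, `s ≤ e`, or `u = 1` and `v = q / r ≥ x^(1/2-s) / (4 x^(1/2-3e+s)) ≥ 2`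
for large `x`; `r ≥ N x^(-(3e+δ)) ≥ 2` since `ν > 3 e + δ` (by `h1`).
-/

set_option autoImplicit false

namespace Pool.Agent.Disp

open Finset Pool.Agent.BGG Pool.Agent.BCore

open Classical in
theorem FACT_smp_pos (y : ℝ) (n : ℕ) : 1 ≤ smp y n :=
  Finset.prod_pos fun p hp =>
    (Nat.prime_of_mem_primeFactors (Finset.mem_filter.1 hp).1).pos

open Classical in
/-- the smooth part and the rough part of a squarefree number -/
theorem FACT_split (y : ℝ) (m : ℕ) (hm : Squarefree m) :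
    ∃ m' : ℕ, smp y m * m' = m ∧ Rough y m' := by
  refine ⟨∏ p ∈ m.primeFactors.filter (fun p : ℕ => ¬ (p : ℝ) ≤ y), p, ?_, ?_⟩
  · rw [smp, Finset.prod_filter_mul_prod_filter_not]
    exact Nat.prod_primeFactors_of_squarefree hm
  · intro p hp hpd
    rw [Prime.dvd_finsetProd_iff hp.prime] at hpd
    obtain ⟨q, hq, hpq⟩ := hpd
    rw [Finset.mem_filter] at hq
    have h1 : p = q := (Nat.prime_dvd_prime_iff_eq hp (Nat.prime_of_mem_primeFactors hq.1)).1 hpq
    rw [h1]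
    exact not_le.1 hq.2

open Classical in
theorem FACT_smp_mul (y : ℝ) (r u v : ℕ) (h : Squarefree (r * (u * v))) :
    smp y u * smp y v ≤ smp y (r * (u * v)) := by
  have h0 : r * (u * v) ≠ 0 := h.ne_zero
  have huv : Squarefree (u * v) := h.squarefree_of_dvd (Dvd.intro_left r rfl)
  have hcop : Nat.Coprime u v := Nat.coprime_of_squarefree_mul huv
  have hdis : Disjoint (u.primeFactors.filter (fun p : ℕ => (p : ℝ) ≤ y))
      (v.primeFactors.filter (fun p : ℕ => (p : ℝ) ≤ y)) :=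
    Finset.disjoint_filter_filter hcop.disjoint_primeFactors
  rw [smp, smp, smp, ← Finset.prod_union hdis, ← Finset.filter_union]
  refine Finset.prod_le_prod_of_subset_of_one_le' ?_ ?_
  · refine Finset.filter_subset_filter _ ?_
    rw [← hcop.primeFactors_mul]
    exact Nat.primeFactors_mono (Dvd.intro_left r rfl) h0
  · intro p hp _
    exact (Nat.prime_of_mem_primeFactors (Finset.mem_filter.1 hp).1).pos

theorem fact (p : Prm) (hp : p.Ok) (s : ℝ) (hs : 0 < s) (hs2 : s ≤ p.e) (B : ℕ) :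
    ∃ x0 : ℝ, ∀ x : ℝ, x0 ≤ x → ∀ N : ℝ, x ^ p.ν / 4 ≤ N → N ≤ 4 * x ^ (1 / 2 : ℝ) →
      ∀ q : ℕ, FacP p x q → x ^ (1 / 2 - s) ≤ (q : ℝ) → (q : ℝ) ≤ x ^ (1 / 2 + 2 * p.w) →
        (smp (Real.log x ^ B) q : ℝ) ≤ x ^ s →
        ∃ r u v : ℕ, r * (u * v) = q ∧ TriP p s x N r u v ∧ Rough (Real.log x ^ B) (u * v) := by
  have he := hp.he
  have hw := hp.hw
  have hδ := hp.hδ
  have hδ1 := hp.hδ1
  have hν := hp.hν
  have hν2 := hp.hν2
  have hV0 := hp.hV0
  have h1 := hp.h1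
  -- large x
  have e1 : ∀ᶠ x : ℝ in Filter.atTop, 8 ≤ x ^ (p.ν - (3 * p.e + p.δ)) :=
    (tendsto_rpow_atTop (by linarith)).eventually_ge_atTop 8
  have e2 : ∀ᶠ x : ℝ in Filter.atTop, 8 ≤ x ^ p.e :=
    (tendsto_rpow_atTop he).eventually_ge_atTop 8
  obtain ⟨x0, hx0⟩ := Filter.eventually_atTop.1 (e1.and e2)
  refine ⟨max x0 2, fun x hx N hN1 hN2 q hq hq1 hq2 hsm => ?_⟩
  obtain ⟨g1, g2⟩ := hx0 x ((le_max_left _ _).trans hx)
  have hx2 : 2 ≤ x := (le_max_right _ _).trans hx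
  have hxpos : 0 < x := by linarith
  have hx1 : 1 ≤ x := by linarith
  have hNpos : 0 < N := lt_of_lt_of_le (by positivity) hN1
  obtain ⟨hsq, hfac⟩ := hq
  obtain ⟨r0, u0, v0, hmul, hr1, hr2, hv1, hv2, hwin⟩ := hfac N hN1 hN2
  set y : ℝ := Real.log x ^ B with hy
  have hsq' : Squarefree (r0 * (u0 * v0)) := by rw [hmul]; exact hsq
  have huv : Squarefree (u0 * v0) := hsq'.squarefree_of_dvd (Dvd.intro_left r0 rfl)
  have hu : Squarefree u0 := huv.squarefree_of_dvd (Dvd.intro v0 rfl)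
  have hv : Squarefree v0 := huv.squarefree_of_dvd (Dvd.intro_left u0 rfl)
  obtain ⟨u, hu', hur⟩ := FACT_split y u0 hu
  obtain ⟨v, hv', hvr⟩ := FACT_split y v0 hv
  set a : ℕ := smp y u0 with ha
  set b : ℕ := smp y v0 with hb
  have ha1 : 1 ≤ a := FACT_smp_pos y u0
  have hb1 : 1 ≤ b := FACT_smp_pos y v0
  have hab : ((a * b : ℕ) : ℝ) ≤ x ^ s := by
    refine le_trans ?_ hsm
    rw [← hmul]
    exact_mod_cast FACT_smp_mul y r0 u0 v0 hsq'
  have ha1' : (1 : ℝ) ≤ a := by exact_mod_cast ha1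
  have hb1' : (1 : ℝ) ≤ b := by exact_mod_cast hb1
  have hbs : (b : ℝ) ≤ x ^ s := by
    refine le_trans ?_ hab
    push_cast
    nlinarith
  have hxs : 0 < x ^ s := Real.rpow_pos_of_pos hxpos _
  have hprod : r0 * (a * b) * (u * v) = q := by
    rw [← hmul, ← hu', ← hv']
    ring
  have hr0 : (0 : ℝ) ≤ r0 := Nat.cast_nonneg _
  have hv0 : (v0 : ℝ) = b * v := by rw [← hv']; push_cast; ring
  have hvle : (v : ℝ) ≤ v0 := by
    rw [hv0]
    have : (0 : ℝ) ≤ v := Nat.cast_nonneg _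
    nlinarith
  have hvge : (v0 : ℝ) ≤ x ^ s * v := by
    rw [hv0]
    exact mul_le_mul_of_nonneg_right hbs (Nat.cast_nonneg _)
  have hrle : ((r0 * (a * b) : ℕ) : ℝ) ≤ N * x ^ (-(3 * p.e) + s) := by
    push_cast at hab ⊢
    calc (r0 : ℝ) * (a * b) ≤ (N * x ^ (-(3 * p.e))) * x ^ s :=
          mul_le_mul hr2 hab (by positivity) (by positivity)
      _ = N * x ^ (-(3 * p.e) + s) := by
          rw [mul_assoc, ← Real.rpow_add hxpos]
  have hrge : N * x ^ (-(3 * p.e + p.δ)) ≤ ((r0 * (a * b) : ℕ) : ℝ) := by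
    refine hr1.trans ?_
    push_cast
    have : (1 : ℝ) ≤ a * b := by nlinarith
    nlinarith
  have hvlo : x ^ (p.V0 - s) ≤ (v : ℝ) ∨ u = 1 := by
    rcases hv1 with h | h
    · left
      have h2 : x ^ (p.V0 - s) * x ^ s ≤ x ^ s * v := by
        rw [← Real.rpow_add hxpos, sub_add_cancel]
        exact h.trans hvge
      rw [mul_comm (x ^ s)] at h2
      exact le_of_mul_le_mul_right h2 hxs
    · right
      have h2 : a * u = 1 := by rw [hu', h]
      exact Nat.eq_one_of_mul_eq_one_left h2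
  refine ⟨r0 * (a * b), u, v, hprod, ?_, ?_⟩
  · refine { sqf := ?_, qlo := ?_, qhi := ?_, rlo := hrge, rhi := hrle, r2 := ?_, v2 := ?_,
             vlo := hvlo, vhi := hvle.trans hv2, win := ?_ }
    · rw [hprod]; exact hsq
    · rw [hprod]; exact hq1
    · rw [hprod]; exact hq2
    · have h2 : (2 : ℝ) ≤ ((r0 * (a * b) : ℕ) : ℝ) := by
        refine le_trans ?_ hrge
        have h3 : x ^ p.ν / 4 * x ^ (-(3 * p.e + p.δ)) = x ^ (p.ν - (3 * p.e + p.δ)) / 4 := by
          rw [sub_eq_add_neg, Real.rpow_add hxpos]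
          ring
        have h4 : x ^ p.ν / 4 * x ^ (-(3 * p.e + p.δ)) ≤ N * x ^ (-(3 * p.e + p.δ)) :=
          mul_le_mul_of_nonneg_right hN1 (by positivity)
        rw [h3] at h4
        linarith
      exact_mod_cast h2
    · have h2 : (2 : ℝ) ≤ (v : ℝ) := by
        rcases hvlo with h | h
        · refine le_trans ?_ h
          have h3 : x ^ p.e ≤ x ^ (p.V0 - s) :=
            Real.rpow_le_rpow_of_exponent_le hx1 (by linarith)
          linarith
        · have h3 : ((r0 * (a * b) : ℕ) : ℝ) * v = q := by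
            rw [← hprod, h]
            push_cast
            ring
          have h4 : x ^ (1 / 2 - s) ≤ (4 * x ^ (1 / 2 : ℝ)) * x ^ (-(3 * p.e) + s) * v := by
            calc x ^ (1 / 2 - s) ≤ q := hq1
              _ = ((r0 * (a * b) : ℕ) : ℝ) * v := h3.symm
              _ ≤ (N * x ^ (-(3 * p.e) + s)) * v :=
                  mul_le_mul_of_nonneg_right hrle (Nat.cast_nonneg _)
              _ ≤ _ := by gcongr
          have h5 : x ^ (1 / 2 - s) = x ^ (3 * p.e - 2 * s) *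
              (x ^ (1 / 2 : ℝ) * x ^ (-(3 * p.e) + s)) := by
            rw [← Real.rpow_add hxpos, ← Real.rpow_add hxpos]
            congr 1
            ring
          have h6 : 0 < x ^ (1 / 2 : ℝ) * x ^ (-(3 * p.e) + s) := by positivity
          have h7 : x ^ (3 * p.e - 2 * s) * (x ^ (1 / 2 : ℝ) * x ^ (-(3 * p.e) + s)) ≤
              (4 * v) * (x ^ (1 / 2 : ℝ) * x ^ (-(3 * p.e) + s)) := by
            rw [← h5]
            calc x ^ (1 / 2 - s) ≤ _ := h4
              _ = _ := by ring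
          have h8 := le_of_mul_le_mul_right h7 h6
          have h9 : x ^ p.e ≤ x ^ (3 * p.e - 2 * s) :=
            Real.rpow_le_rpow_of_exponent_le hx1 (by linarith)
          linarith
      exact_mod_cast h2
    · intro t ht1 ht2
      obtain ⟨r1, hr1d, h3, h4⟩ := hwin t ht1 ht2
      refine ⟨r1, hr1d.trans ⟨b, ?_⟩, h3, h4⟩
      rw [← hu']
      ring
  · intro l hl hld
    rcases (hl.dvd_mul).1 hld with h | h
    · exact hur l hl h
    · exact hvr l hl h

/-- The form used in the assembly. -/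
theorem fact_DT (p : Prm) (hp : p.Ok) (s : ℝ) (hs : 0 < s) (hs2 : s ≤ p.e) (D : ℝ → Finset ℕ)
    (hD : ∀ x : ℝ, 2 ≤ x → ∀ q ∈ D x, 1 ≤ q ∧ Squarefree q ∧ (q : ℝ) ≤ x ^ (1 / 2 + 2 * p.w) ∧
      ((q : ℝ) ≤ x ^ (1 / 2 - s) ∨ FacP p x q)) :
    DT p s (TriP p s) D := by
  refine ⟨fun x hx q hq => ⟨(hD x hx q hq).1, (hD x hx q hq).2.1, (hD x hx q hq).2.2.1⟩, ?_⟩
  intro B
  obtain ⟨x0, h0⟩ := fact p hp s hs hs2 B
  refine ⟨max x0 2, fun x hx N hN1 hN2 q hq => ?_⟩
  have hx0 : x0 ≤ x := (le_max_left _ _).trans hx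
  have hx2 : 2 ≤ x := (le_max_right _ _).trans hx
  obtain ⟨-, -, h3, h4⟩ := hD x hx2 q hq
  by_cases h5 : (q : ℝ) ≤ x ^ (1 / 2 - s)
  · exact Or.inl h5
  · by_cases h6 : x ^ s < (smp (Real.log x ^ B) q : ℝ)
    · exact Or.inr (Or.inl h6)
    · push Not at h5 h6
      rcases h4 with h4 | h4
      · exact absurd h4 (not_le.mpr h5)
      · exact Or.inr (Or.inr (h0 x hx0 N hN1 hN2 q h4 h5.le h3 h6))

end Pool.Agent.Disp
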