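import Pool.Agent.Disp.L3Smth
import Pool.Agent.Disp.L4B0
import Pool.Agent.Disp.L5Bvt
import Pool.Agent.Disp.L6Fact

/-!
# DISP module ASM: assembly of the bilinear estimate

Proof. Given `A`, `E1` with `A` gives `B`. For `x` large split `D x` (`q` coprime to `a`):
(i) `q ≤ x^(1/2-s)`: `bvt` with `d = 1` (`Dsc2s .. 1 = Dsc2 ..`);
(ii) `smp (L^B) q > x^s`: `smth` (`x^(1/2+2w) ≤ x^(3/4)`);
(iii) the rest: choose the triple of `DT` for every `q`: an injection `q ↦ t` (since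
`t.1 * (t.2.1 * t.2.2) = q`); `P` = product of the primes `≤ x`; every `u v`
divides `P`; `b0` and `E1` for every `b` coprime to `P` (the average is at most the maximum); the
other term is at most `bvt` (`r ≤ N x^(-3e+s) ≤ x^(1/2-e)`, for given `(r, d)` there are at most
`tau d` triples with `u v = d`). Small `x`: `trivDsc`.
-/

set_option autoImplicit false

namespace Pool.Agent.Disp

open Finset Pool.Agent.BGG Pool.Agent.BCore

/-- Small `x`. -/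
theorem asm_small (ν w : ℝ) (hw : w ≤ 1 / 16) (c A : ℕ) (D : ℝ → Finset ℕ)
    (hD : ∀ x : ℝ, 2 ≤ x → ∀ q ∈ D x, 1 ≤ q ∧ (q : ℝ) ≤ x ^ (1 / 2 + 2 * w)) (x0 : ℝ) :
    ∃ C : ℝ, 0 ≤ C ∧ ∀ x : ℝ, 2 ≤ x → x ≤ x0 → ∀ a : ℤ, ∀ M N : ℝ, Siz ν x M N →
      ∀ α β : ℕ → ℝ, CB x c α → CB x c β →
      ∑ q ∈ D x, (if IsCoprime a (q : ℤ) then |Dsc2 ⌊4 * M⌋₊ ⌊4 * N⌋₊ α β q a| else 0)
        ≤ C * x / (Real.log x) ^ A := by
  obtain ⟨Ct, ht⟩ := trivDsc c
  refine ⟨x0 ^ 2 * (Ct * (1 + |Real.log x0|) ^ Ct) * |Real.log x0| ^ A, by positivity, ?_⟩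
  intro x hx hxx0 a M N hsiz α β hα hβ
  obtain ⟨hN1, hN2, hMN1, hMN2⟩ := hsiz
  have hx0 : 0 < x := by linarith
  have hN0 : 0 < N := by
    have : 0 < x ^ ν := Real.rpow_pos_of_pos hx0 _
    linarith
  have hL0 : 0 < Real.log x := Real.log_pos (by linarith)
  have hL1 : Real.log x ≤ |Real.log x0| :=
    (Real.log_le_log hx0 hxx0).trans (le_abs_self _)
  have hsub : D x ⊆ Icc 1 ⌊x0⌋₊ := by
    intro q hq
    obtain ⟨h1, h2⟩ := hD x hx q hq
    rw [mem_Icc]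
    refine ⟨h1, Nat.le_floor ?_⟩
    refine h2.trans (le_trans ?_ hxx0)
    calc x ^ (1 / 2 + 2 * w) ≤ x ^ (1 : ℝ) :=
          Real.rpow_le_rpow_of_exponent_le (by linarith) (by linarith)
      _ = x := Real.rpow_one x
  have hcard : ((D x).card : ℝ) ≤ x0 := by
    have h1 := card_le_card hsub
    rw [Nat.card_Icc, Nat.add_sub_cancel] at h1
    calc ((D x).card : ℝ) ≤ (⌊x0⌋₊ : ℝ) := by exact_mod_cast h1
      _ ≤ x0 := Nat.floor_le (by linarith)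
  have hterm : ∀ q ∈ D x, (if IsCoprime a (q : ℤ) then |Dsc2 ⌊4 * M⌋₊ ⌊4 * N⌋₊ α β q a| else 0) ≤
      x0 * (Ct * (1 + |Real.log x0|) ^ Ct) := by
    intro q hq
    obtain ⟨h1, h2⟩ := hD x hx q hq
    have hx00 : 0 ≤ x0 := by linarith
    split_ifs with hc
    · have h3 : (q : ℝ) ≤ x ^ (3 / 4 : ℝ) :=
        h2.trans (Real.rpow_le_rpow_of_exponent_le (by linarith) (by linarith))
      refine (ht x hx M N hN0 hMN1 hMN2 q h1 h3 a hc α β hα hβ).trans ?_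
      have hq0 : (0 : ℝ) < q := by exact_mod_cast h1
      have hdq : (q.divisors.card : ℝ) ≤ q := by exact_mod_cast Nat.card_divisors_le_self q
      have h4 : (q.divisors.card : ℝ) * (Ct * (1 + Real.log x) ^ Ct * x / q) =
          ((q.divisors.card : ℝ) / q) * (x * (Ct * (1 + Real.log x) ^ Ct)) := by
        field_simp
      rw [h4]
      have h5 : (q.divisors.card : ℝ) / q ≤ 1 := by
        rw [div_le_one hq0]
        exact hdq
      calc ((q.divisors.card : ℝ) / q) * (x * (Ct * (1 + Real.log x) ^ Ct))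
          ≤ 1 * (x0 * (Ct * (1 + |Real.log x0|) ^ Ct)) := by gcongr
        _ = x0 * (Ct * (1 + |Real.log x0|) ^ Ct) := one_mul _
    · positivity
  refine (sum_le_card_nsmul _ _ _ hterm).trans ?_
  rw [nsmul_eq_mul]
  have hx00 : 0 ≤ x0 := by linarith
  rw [le_div_iff₀ (by positivity)]
  calc ((D x).card : ℝ) * (x0 * (Ct * (1 + |Real.log x0|) ^ Ct)) * Real.log x ^ A
      ≤ x0 * (x0 * (Ct * (1 + |Real.log x0|) ^ Ct)) * |Real.log x0| ^ A := by gcongr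
    _ = x0 ^ 2 * (Ct * (1 + |Real.log x0|) ^ Ct) * |Real.log x0| ^ A * 1 := by ring
    _ ≤ x0 ^ 2 * (Ct * (1 + |Real.log x0|) ^ Ct) * |Real.log x0| ^ A * x := by
        gcongr
        linarith

/-- The average over `b` is at most the maximum. -/
theorem asm_avg (X Y : ℕ) (α β : ℕ → ℝ) (a : ℤ) (P : ℕ) (hP : Squarefree P)
    (S : Finset (ℕ × ℕ × ℕ))
    (hS : ∀ t ∈ S, 1 ≤ t.1 ∧ Nat.Coprime t.1 (t.2.1 * t.2.2) ∧ t.2.1 * t.2.2 ∣ P ∧
      IsCoprime a ((t.1 * (t.2.1 * t.2.2) : ℕ) : ℤ)) (Bd : ℝ)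
    (hBd : ∀ b : ℕ, Nat.Coprime b P →
      ∑ t ∈ S, |Dif X Y α β t.1 (t.2.1 * t.2.2) a (b : ℤ)| ≤ Bd) :
    ∑ t ∈ S, |Dsc2 X Y α β (t.1 * (t.2.1 * t.2.2)) a| ≤
      Bd + ∑ t ∈ S, |Dsc2s X Y α β t.1 a (t.2.1 * t.2.2)| / ((t.2.1 * t.2.2).totient : ℝ) := by
  have hP0 : 0 < P := Nat.pos_of_ne_zero hP.ne_zero
  have hφ : (0 : ℝ) < (P.totient : ℝ) := by exact_mod_cast Nat.totient_pos.mpr hP0
  have h1 : ∀ t ∈ S, |Dsc2 X Y α β (t.1 * (t.2.1 * t.2.2)) a| ≤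
      (∑ b ∈ (range P).filter (fun b => Nat.Coprime b P),
        |Dif X Y α β t.1 (t.2.1 * t.2.2) a (b : ℤ)|) / (P.totient : ℝ) +
      |Dsc2s X Y α β t.1 a (t.2.1 * t.2.2)| / ((t.2.1 * t.2.2).totient : ℝ) := by
    intro t ht
    obtain ⟨h1, h2, h3, h4⟩ := hS t ht
    rw [b0 X Y α β t.1 (t.2.1 * t.2.2) P a hP h1 h2 h3 h4]
    refine (abs_add_le _ _).trans ?_
    rw [abs_div, abs_div, Nat.abs_cast, Nat.abs_cast]
    gcongr
    exact abs_sum_le_sum_abs _ _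
  refine (sum_le_sum h1).trans ?_
  rw [sum_add_distrib]
  gcongr
  rw [← sum_div, sum_comm, div_le_iff₀ hφ]
  refine (sum_le_card_nsmul _ _ Bd ?_).trans ?_
  · intro b hb
    exact hBd b (mem_filter.mp hb).2
  · rw [nsmul_eq_mul, mul_comm]
    apply le_of_eq
    congr 1
    rw [Nat.totient_eq_card_coprime]
    congr 2
    ext b
    rw [mem_filter, mem_filter, Nat.coprime_comm]

/-- Summation over triples with given `r` and `d = u v`. -/
theorem asm_second (F : ℕ → ℕ → ℝ) (hF : ∀ r d, 0 ≤ F r d) (S : Finset (ℕ × ℕ × ℕ))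
    (Dx Ry : ℕ) (hS : ∀ t ∈ S, 1 ≤ t.1 ∧ t.1 ≤ Ry ∧ 1 ≤ t.2.1 ∧ 1 ≤ t.2.2 ∧
      t.2.1 * t.2.2 ≤ Dx) :
    ∑ t ∈ S, F t.1 (t.2.1 * t.2.2) ≤
      ∑ d ∈ Icc 1 Dx, (d.divisors.card : ℝ) * ∑ r ∈ Icc 1 Ry, F r d := by
  classical
  set φ : ℕ × ℕ × ℕ → (Σ _ : ℕ, ℕ × ℕ) := fun t => ⟨t.2.1 * t.2.2, (t.2.1, t.1)⟩ with hφ
  have hinj : Set.InjOn φ (S : Set (ℕ × ℕ × ℕ)) := by
    rintro ⟨r, u, v⟩ h1 ⟨r', u', v'⟩ h2 h3
    have h4 := hS _ h1
    simp only [hφ, Sigma.mk.injEq, heq_eq_eq, Prod.mk.injEq] at h3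
    obtain ⟨h5, h6, h7⟩ := h3
    subst h6
    subst h7
    have h8 : v = v' := Nat.eq_of_mul_eq_mul_left (show 0 < u from h4.2.2.1) h5
    rw [h8]
  have h1 : ∑ t ∈ S, F t.1 (t.2.1 * t.2.2) = ∑ z ∈ S.image φ, F z.2.2 z.1 := by
    rw [sum_image hinj]
  have h2 : S.image φ ⊆ (Icc 1 Dx).sigma (fun d => d.divisors ×ˢ Icc 1 Ry) := by
    intro z hz
    obtain ⟨t, ht, rfl⟩ := mem_image.mp hz
    obtain ⟨h3, h4, h5, h6, h7⟩ := hS t ht
    rw [mem_sigma, mem_Icc, mem_product, Nat.mem_divisors, mem_Icc]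
    have h8 : 1 ≤ t.2.1 * t.2.2 := Nat.mul_pos h5 h6
    exact ⟨⟨h8, h7⟩, ⟨⟨t.2.2, rfl⟩, by simp only [hφ]; omega⟩, h3, h4⟩
  rw [h1]
  refine (sum_le_sum_of_subset_of_nonneg h2 (fun z _ _ => hF _ _)).trans ?_
  rw [sum_sigma]
  apply sum_le_sum
  intro d _
  rw [sum_product]
  simp only [sum_const, nsmul_eq_mul]
  exact le_rfl

theorem dsc2s_one (X Y : ℕ) (α β : ℕ → ℝ) (q : ℕ) (a : ℤ) :
    Dsc2s X Y α β q a 1 = Dsc2 X Y α β q a := by
  unfold Dsc2s Dsc2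
  simp

theorem asm (p : Prm) (hp : p.Bas) (s : ℝ) (hs : 0 < s) (hs2 : s ≤ p.e) (c : ℕ) (K : ℕ → ℝ)
    (TP : ℝ → ℝ → ℕ → ℕ → ℕ → Prop) (hTP : ∀ x N r u v, TP x N r u v → TriB p s x N r u v)
    (Bc : ℝ → ℝ → Set (ℕ → ℝ)) (hBc : ∀ x N, Bc x N ⊆ ClSW c K x N) (h1 : E1 p.ν TP c Bc)
    (D : ℝ → Finset ℕ) (hD : DT p s TP D) : BILc p.ν c Bc D := by
  classical
  intro A
  obtain ⟨B, C1, x1, hE1⟩ := h1 A
  obtain ⟨C2, hC2⟩ := smth p.ν s hp.hν hs c A B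
  obtain ⟨C3, hC3⟩ := bvt p.ν s hp.hν hs c A K
  obtain ⟨hDa, hDb⟩ := hD
  obtain ⟨x2, hx2⟩ := hDb B
  have he := hp.he
  set x0 : ℝ := max (max x1 x2) (max 2 ((4 : ℝ) ^ (1 / p.e))) with hx0
  obtain ⟨C4, hC40, hC4⟩ := asm_small p.ν p.w hp.hw2 c A D
    (fun x hx q hq => ⟨(hDa x hx q hq).1, (hDa x hx q hq).2.2⟩) x0
  refine ⟨|C1| + |C2| + |C3| + |C3| + C4, ?_⟩
  intro x hx a M N hsiz α β hα hβ hαc hβc
  obtain ⟨hβ1, -, hβ3⟩ := hBc x N hβc
  have hxp : 0 < x := by linarith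
  have hL0 : 0 < Real.log x := Real.log_pos (by linarith)
  have hmono : ∀ C : ℝ, C ≤ |C1| + |C2| + |C3| + |C3| + C4 →
      C * x / (Real.log x) ^ A ≤ (|C1| + |C2| + |C3| + |C3| + C4) * x / (Real.log x) ^ A := by
    intro C hC
    gcongr
  by_cases hxx : x ≤ x0
  · refine (hC4 x hx hxx a M N hsiz α β hαc hβ1).trans (hmono _ ?_)
    have := abs_nonneg C1
    have := abs_nonneg C2
    have := abs_nonneg C3
    linarith
  push Not at hxx
  have hxx1 : x1 ≤ x := by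
    have : x1 ≤ x0 := (le_max_left _ _).trans (le_max_left _ _)
    linarith
  have hxx2 : x2 ≤ x := by
    have : x2 ≤ x0 := (le_max_right _ _).trans (le_max_left _ _)
    linarith
  have hx4 : (4 : ℝ) ≤ x ^ p.e := by
    have h2 : (4 : ℝ) ^ (1 / p.e) ≤ x := by
      have : (4 : ℝ) ^ (1 / p.e) ≤ x0 := (le_max_right _ _).trans (le_max_right _ _)
      linarith
    calc (4 : ℝ) = ((4 : ℝ) ^ (1 / p.e)) ^ p.e := by
          rw [← Real.rpow_mul (by norm_num), one_div, inv_mul_cancel₀ he.ne', Real.rpow_one]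
      _ ≤ x ^ p.e := Real.rpow_le_rpow (by positivity) h2 he.le
  obtain ⟨hN1, hN2, hMN1, hMN2⟩ := hsiz
  have hsiz : Siz p.ν x M N := ⟨hN1, hN2, hMN1, hMN2⟩
  set X := ⌊4 * M⌋₊ with hX
  set Y := ⌊4 * N⌋₊ with hY
  rw [← sum_filter]
  set D0 := (D x).filter (fun q : ℕ => IsCoprime a (q : ℤ)) with hD0
  -- part (i)
  set Da := D0.filter (fun q : ℕ => (q : ℝ) ≤ x ^ (1 / 2 - s)) with hDa'
  set Dr := D0.filter (fun q : ℕ => ¬ (q : ℝ) ≤ x ^ (1 / 2 - s)) with hDr'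
  set Db := Dr.filter (fun q : ℕ => x ^ s < (smp (Real.log x ^ B) q : ℝ)) with hDb'
  set Dc := Dr.filter (fun q : ℕ => ¬ x ^ s < (smp (Real.log x ^ B) q : ℝ)) with hDc'
  have hsplit : ∑ q ∈ D0, |Dsc2 X Y α β q a| =
      ∑ q ∈ Da, |Dsc2 X Y α β q a| + (∑ q ∈ Db, |Dsc2 X Y α β q a| +
        ∑ q ∈ Dc, |Dsc2 X Y α β q a|) := by
    rw [hDb', hDc', sum_filter_add_sum_filter_not, hDa', hDr', sum_filter_add_sum_filter_not]
  have hbv := hC3 x hx a M N hsiz α β hα hβ hαc hβ1 hβ3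
  rw [← hX, ← hY] at hbv
  have hbvn : ∀ d : ℕ, 0 ≤ ((d.divisors.card : ℝ) / d.totient) *
      ∑ r ∈ Icc 1 ⌊x ^ (1 / 2 - s)⌋₊,
        (if IsCoprime a (r : ℤ) then |Dsc2s X Y α β r a d| else 0) := by
    intro d
    apply mul_nonneg (by positivity)
    apply sum_nonneg
    intro r _
    split_ifs
    · exact abs_nonneg _
    · exact le_rfl
  have hA : ∑ q ∈ Da, |Dsc2 X Y α β q a| ≤ C3 * x / (Real.log x) ^ A := by
    refine le_trans ?_ hbv
    have h1 : 1 ∈ Icc 1 ⌊x⌋₊ := by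
      rw [mem_Icc]
      exact ⟨le_rfl, Nat.le_floor (by push_cast; linarith)⟩
    refine le_trans ?_ (single_le_sum (fun d _ => hbvn d) h1)
    rw [Nat.divisors_one, card_singleton, Nat.totient_one, Nat.cast_one, div_one, one_mul,
      ← sum_filter]
    simp only [dsc2s_one]
    apply sum_le_sum_of_subset_of_nonneg
    · intro q hq
      rw [hDa', mem_filter, hD0, mem_filter] at hq
      rw [mem_filter, mem_Icc]
      exact ⟨⟨(hDa x hx q hq.1.1).1, Nat.le_floor hq.2⟩, hq.1.2⟩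
    · intro q _ _
      exact abs_nonneg _
  have hB : ∑ q ∈ Db, |Dsc2 X Y α β q a| ≤ C2 * x / (Real.log x) ^ A := by
    refine le_trans ?_ (hC2 x hx M N hsiz a α β hαc hβ1)
    apply sum_le_sum_of_subset_of_nonneg
    · intro q hq
      rw [hDb', mem_filter, hDr', mem_filter, hD0, mem_filter] at hq
      rw [mem_filter, mem_Icc]
      obtain ⟨h1, h2, h3⟩ := hDa x hx q hq.1.1.1
      refine ⟨⟨h1, Nat.le_floor (h3.trans ?_)⟩, h2, hq.2, hq.1.1.2⟩
      exact Real.rpow_le_rpow_of_exponent_le (by linarith) (by linarith [hp.hw2])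
    · intro q _ _
      exact abs_nonneg _
  -- part (iii)
  have hex : ∀ q ∈ Dc, ∃ t : ℕ × ℕ × ℕ, t.1 * (t.2.1 * t.2.2) = q ∧ TP x N t.1 t.2.1 t.2.2 ∧
      Rough (Real.log x ^ B) (t.2.1 * t.2.2) := by
    intro q hq
    rw [hDc', mem_filter, hDr', mem_filter, hD0, mem_filter] at hq
    rcases hx2 x hxx2 N hN1 hN2 q hq.1.1.1 with h | h | h
    · exact absurd h hq.1.2
    · exact absurd h hq.2
    · obtain ⟨r, u, v, h1, h2, h3⟩ := h
      exact ⟨(r, u, v), h1, h2, h3⟩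
  choose! f hf1 hf2 hf3 using hex
  set S := Dc.image f with hS
  have hfinj : Set.InjOn f (Dc : Set ℕ) := by
    intro q1 h1 q2 h2 h3
    rw [← hf1 q1 h1, ← hf1 q2 h2, h3]
  have hsumS : ∑ q ∈ Dc, |Dsc2 X Y α β q a| =
      ∑ t ∈ S, |Dsc2 X Y α β (t.1 * (t.2.1 * t.2.2)) a| := by
    rw [hS, sum_image hfinj]
    apply sum_congr rfl
    intro q hq
    rw [hf1 q hq]
  set P : ℕ := primorial ⌊x⌋₊ with hP
  have hPsq : Squarefree P := by
    rw [hP]
    unfold primorial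
    apply Finset.squarefree_prod_of_pairwise_isCoprime
    · intro i hi j hj hij
      rw [mem_coe, mem_filter] at hi hj
      exact Nat.coprime_iff_isRelPrime.mp ((Nat.coprime_primes hi.2 hj.2).mpr hij)
    · intro i hi
      exact (mem_filter.mp hi).2.squarefree
  have hDcprop : ∀ q ∈ Dc, q ∈ D x ∧ IsCoprime a (q : ℤ) := by
    intro q hq
    rw [hDc', mem_filter, hDr', mem_filter, hD0, mem_filter] at hq
    exact hq.1.1
  have hdvdP : ∀ q ∈ D x, q ∣ P := by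
    intro q hq
    obtain ⟨h1, h2, h3⟩ := hDa x hx q hq
    refine h2.dvd_primorial.trans (primorial_dvd_primorial (Nat.le_floor (h3.trans ?_)))
    calc x ^ (1 / 2 + 2 * p.w) ≤ x ^ (1 : ℝ) :=
          Real.rpow_le_rpow_of_exponent_le (by linarith) (by linarith [hp.hw2])
      _ = x := Real.rpow_one x
  have hSprop : ∀ t ∈ S, TP x N t.1 t.2.1 t.2.2 ∧ Rough (Real.log x ^ B) (t.2.1 * t.2.2) ∧
      (t.1 * (t.2.1 * t.2.2)) ∈ D x ∧ IsCoprime a ((t.1 * (t.2.1 * t.2.2) : ℕ) : ℤ) := by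
    intro t ht
    rw [hS] at ht
    obtain ⟨q, hq, rfl⟩ := mem_image.mp ht
    refine ⟨hf2 q hq, hf3 q hq, ?_, ?_⟩
    · rw [hf1 q hq]
      exact (hDcprop q hq).1
    · rw [hf1 q hq]
      exact (hDcprop q hq).2
  have hcop : ∀ t ∈ S, Nat.Coprime t.1 (t.2.1 * t.2.2) := by
    intro t ht
    exact Nat.coprime_of_squarefree_mul (hTP _ _ _ _ _ (hSprop t ht).1).sqf
  have hpos : ∀ t ∈ S, 1 ≤ t.1 ∧ 1 ≤ t.2.1 ∧ 1 ≤ t.2.2 := by
    intro t ht
    have h1 := (hTP _ _ _ _ _ (hSprop t ht).1).sqf.ne_zero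
    refine ⟨Nat.pos_of_ne_zero ?_, Nat.pos_of_ne_zero ?_, Nat.pos_of_ne_zero ?_⟩
    · intro h
      apply h1
      rw [h, zero_mul]
    · intro h
      apply h1
      rw [h, zero_mul, mul_zero]
    · intro h
      apply h1
      rw [h, mul_zero, mul_zero]
  have havg := asm_avg X Y α β a P hPsq S (fun t ht =>
    ⟨(hpos t ht).1, hcop t ht, (Dvd.intro_left _ rfl).trans (hdvdP _ (hSprop t ht).2.2.1),
      (hSprop t ht).2.2.2⟩) (C1 * x / (Real.log x) ^ A) (by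
      intro b hb
      refine hE1 x hxx1 M N hsiz a b α β hα hβ hαc hβc S ⟨?_, ?_, ?_, ?_⟩
      · intro t ht
        exact (hSprop t ht).1
      · intro t ht
        exact (hSprop t ht).2.2.2.symm
      · intro t ht
        rw [Nat.isCoprime_iff_coprime]
        exact Nat.Coprime.coprime_dvd_left
          ((Dvd.intro_left _ rfl).trans (hdvdP _ (hSprop t ht).2.2.1)) hb.symm
      · intro t ht
        exact (hSprop t ht).2.1)
  have hsec : ∑ t ∈ S, |Dsc2s X Y α β t.1 a (t.2.1 * t.2.2)| / ((t.2.1 * t.2.2).totient : ℝ) ≤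
      C3 * x / (Real.log x) ^ A := by
    refine le_trans ?_ hbv
    set F : ℕ → ℕ → ℝ := fun r d =>
      (if IsCoprime a (r : ℤ) then |Dsc2s X Y α β r a d| else 0) / (d.totient : ℝ) with hF
    have hF0 : ∀ r d, 0 ≤ F r d := by
      intro r d
      rw [hF]
      dsimp only
      split_ifs <;> positivity
    have h1 : ∑ t ∈ S, |Dsc2s X Y α β t.1 a (t.2.1 * t.2.2)| / ((t.2.1 * t.2.2).totient : ℝ) =
        ∑ t ∈ S, F t.1 (t.2.1 * t.2.2) := by
      apply sum_congr rfl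
      intro t ht
      rw [hF]
      dsimp only
      rw [if_pos]
      have h2 := (hSprop t ht).2.2.2
      push_cast at h2
      exact IsCoprime.of_mul_right_left h2
    rw [h1]
    refine (asm_second F hF0 S ⌊x⌋₊ ⌊x ^ (1 / 2 - s)⌋₊ ?_).trans ?_
    · intro t ht
      obtain ⟨h2, h3, h4⟩ := hpos t ht
      have h5 := hTP _ _ _ _ _ (hSprop t ht).1
      refine ⟨h2, Nat.le_floor ?_, h3, h4, Nat.le_floor ?_⟩
      · refine h5.rhi.trans ?_
        calc N * x ^ (-(3 * p.e) + s) ≤ (4 * x ^ (1 / 2 : ℝ)) * x ^ (-(3 * p.e) + s) := by gcongr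
          _ ≤ (x ^ p.e * x ^ (1 / 2 : ℝ)) * x ^ (-(3 * p.e) + s) := by gcongr
          _ = x ^ (p.e + 1 / 2 + (-(3 * p.e) + s)) := by
              rw [Real.rpow_add hxp (p.e + 1 / 2) (-(3 * p.e) + s), Real.rpow_add hxp p.e (1 / 2)]
          _ ≤ x ^ (1 / 2 - s) := by
              apply Real.rpow_le_rpow_of_exponent_le (by linarith)
              linarith
      · have h6 : ((t.2.1 * t.2.2 : ℕ) : ℝ) ≤ ((t.1 * (t.2.1 * t.2.2) : ℕ) : ℝ) := by
          exact_mod_cast Nat.le_mul_of_pos_left _ h2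
        refine h6.trans (h5.qhi.trans ?_)
        calc x ^ (1 / 2 + 2 * p.w) ≤ x ^ (1 : ℝ) :=
              Real.rpow_le_rpow_of_exponent_le (by linarith) (by linarith [hp.hw2])
          _ = x := Real.rpow_one x
    · apply le_of_eq
      apply sum_congr rfl
      intro d _
      rw [div_mul_eq_mul_div, mul_div_assoc, sum_div]
  rw [hsplit, hsumS]
  have hfin : (|C1| + |C2| + |C3| + |C3| + C4) * x / (Real.log x) ^ A =
      |C1| * x / (Real.log x) ^ A + |C2| * x / (Real.log x) ^ A + |C3| * x / (Real.log x) ^ A +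
        |C3| * x / (Real.log x) ^ A + C4 * x / (Real.log x) ^ A := by ring
  rw [hfin]
  have habs : ∀ C : ℝ, C * x / (Real.log x) ^ A ≤ |C| * x / (Real.log x) ^ A := by
    intro C
    gcongr
    exact le_abs_self C
  have h41 : 0 ≤ C4 * x / (Real.log x) ^ A := by positivity
  have q1 := habs C1
  have q2 := habs C2
  have q3 := habs C3
  linarith

/-- `BIL` of `Pool.Agent.BGG`. -/
theorem bil_of_bilc (D : ℝ → Finset ℕ) (h : ∀ K : ℕ → ℝ, BILc (1 / 3) 1 (ClSW 1 K) D) : BIL D := by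
  intro A K
  obtain ⟨C, hC⟩ := h K A
  refine ⟨C, ?_⟩
  intro x hx a M N h1 h2 h3 h4 α β hα hβ hα1 hβ1 hSW
  have hL : 0 ≤ Real.log x := Real.log_nonneg (by linarith)
  have hcb : ∀ f : ℕ → ℝ, (f 0 = 0) → (∀ n, |f n| ≤ Real.log x) → CB x 1 f := by
    intro f hf0 hf n
    rw [pow_one]
    rcases Nat.eq_zero_or_pos n with rfl | hn
    · rw [hf0, abs_zero]
      simp
    · refine (hf n).trans ?_
      have h5 : (1 : ℝ) ≤ n.divisors.card := by
        have : 0 < n.divisors.card := Finset.card_pos.mpr ⟨1, Nat.one_mem_divisors.mpr hn.ne'⟩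
        exact_mod_cast this
      calc Real.log x = 1 * Real.log x := (one_mul _).symm
        _ ≤ n.divisors.card * Real.log x := by gcongr
  have hN0 : 0 < N := by
    have : 0 < x ^ (1 / 3 : ℝ) := Real.rpow_pos_of_pos (by linarith) _
    linarith
  have hM0 : 0 < M := by
    have : 0 < M * N := by linarith
    exact (mul_pos_iff_of_pos_right hN0).mp this
  have hα0 : α 0 = 0 := by
    by_contra hne
    have := (hα 0 hne).1
    push_cast at this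
    linarith
  have hβ0 : β 0 = 0 := by
    by_contra hne
    have := (hβ 0 hne).1
    push_cast at this
    linarith
  exact hC x hx a M N ⟨h1, h2, h3, h4⟩ α β hα hβ (hcb α hα0 hα1)
    ⟨hcb β hβ0 hβ1, hβ, hSW⟩

end Pool.Agent.Disp
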