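import Pool.Agent.Disp.L2Triv

/-!
# DISP module E1B: unbounded `β`

e1_tau: `β = β1 + β2`, `β1 = β 1[tau n ≤ L^B1]`; `β1 / L^((B1+1) c)` is in `ClOne`; for `β2` one has
`|β2 n| ≤ L^(-B1) (tau n L)^(c+1)` (`L ≥ 1`), `trivD` with `c + 1` and the sum over the triples of
`1 / (r u v)` is `≤ (1 + log x)^3`.
-/

set_option autoImplicit false

namespace Pool.Agent.Disp

open Finset Pool.Agent.BGG Pool.Agent.BCore

private theorem E1B_add (X Y : ℕ) (α β1 β2 : ℕ → ℝ) (r d : ℕ) (a b : ℤ) :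
    Dif X Y α (fun n => β1 n + β2 n) r d a b = Dif X Y α β1 r d a b + Dif X Y α β2 r d a b := by
  unfold Dif
  rw [← Finset.sum_add_distrib]
  refine Finset.sum_congr rfl fun m _ => ?_
  rw [← Finset.sum_add_distrib]
  exact Finset.sum_congr rfl fun n _ => by ring

private theorem E1B_smul (X Y : ℕ) (α β : ℕ → ℝ) (t : ℝ) (r d : ℕ) (a b : ℤ) :
    Dif X Y α (fun n => t * β n) r d a b = t * Dif X Y α β r d a b := by
  unfold Dif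
  rw [Finset.mul_sum]
  refine Finset.sum_congr rfl fun m _ => ?_
  rw [Finset.mul_sum]
  exact Finset.sum_congr rfl fun n _ => by ring

private theorem E1B_harm (x : ℝ) (hx : 1 ≤ x) :
    ∑ k ∈ Icc 1 ⌊x⌋₊, 1 / (k : ℝ) ≤ 1 + Real.log x := by
  have h1 := harmonic_le_one_add_log ⌊x⌋₊
  have h2 : ((harmonic ⌊x⌋₊ : ℚ) : ℝ) = ∑ k ∈ Icc 1 ⌊x⌋₊, 1 / (k : ℝ) := by
    rw [harmonic_eq_sum_Icc]
    push_cast
    exact Finset.sum_congr rfl fun k _ => (one_div _).symm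
  rw [h2] at h1
  refine h1.trans ?_
  have h3 : (0 : ℝ) < (⌊x⌋₊ : ℝ) := by
    have : 1 ≤ ⌊x⌋₊ := Nat.le_floor (by simpa using hx)
    exact_mod_cast this
  have := Real.log_le_log h3 (Nat.floor_le (by linarith))
  linarith

private theorem E1B_triples (x : ℝ) (hx : 1 ≤ x) (S : Finset (ℕ × ℕ × ℕ))
    (hS : ∀ t ∈ S, 1 ≤ t.1 ∧ 1 ≤ t.2.1 ∧ 1 ≤ t.2.2 ∧ ((t.1 * (t.2.1 * t.2.2) : ℕ) : ℝ) ≤ x) :
    ∑ t ∈ S, 1 / ((t.1 : ℝ) * ((t.2.1 * t.2.2 : ℕ) : ℝ)) ≤ (1 + Real.log x) ^ 3 := by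
  have hsub : S ⊆ (Icc 1 ⌊x⌋₊) ×ˢ ((Icc 1 ⌊x⌋₊) ×ˢ (Icc 1 ⌊x⌋₊)) := by
    intro t ht
    obtain ⟨h1, h2, h3, h4⟩ := hS t ht
    have h5 : t.1 * (t.2.1 * t.2.2) ≤ ⌊x⌋₊ := Nat.le_floor h4
    have h6 : 1 ≤ t.2.1 * t.2.2 := Nat.mul_pos h2 h3
    have h7 : t.1 ≤ t.1 * (t.2.1 * t.2.2) := Nat.le_mul_of_pos_right _ h6
    have h8 : t.2.1 * t.2.2 ≤ t.1 * (t.2.1 * t.2.2) := Nat.le_mul_of_pos_left _ h1
    have h9 : t.2.1 ≤ t.2.1 * t.2.2 := Nat.le_mul_of_pos_right _ h3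
    have h10 : t.2.2 ≤ t.2.1 * t.2.2 := Nat.le_mul_of_pos_left _ h2
    simp only [mem_product, mem_Icc]
    refine ⟨⟨h1, ?_⟩, ⟨h2, ?_⟩, ⟨h3, ?_⟩⟩ <;> omega
  have hnn : ∀ t ∈ (Icc 1 ⌊x⌋₊) ×ˢ ((Icc 1 ⌊x⌋₊) ×ˢ (Icc 1 ⌊x⌋₊)), t ∉ S →
      0 ≤ 1 / ((t.1 : ℝ) * ((t.2.1 * t.2.2 : ℕ) : ℝ)) := fun t _ _ => by positivity
  refine (Finset.sum_le_sum_of_subset_of_nonneg hsub hnn).trans ?_
  have h0 : ∑ t ∈ (Icc 1 ⌊x⌋₊) ×ˢ ((Icc 1 ⌊x⌋₊) ×ˢ (Icc 1 ⌊x⌋₊)),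
      1 / ((t.1 : ℝ) * ((t.2.1 * t.2.2 : ℕ) : ℝ)) = (∑ k ∈ Icc 1 ⌊x⌋₊, 1 / (k : ℝ)) ^ 3 := by
    rw [Finset.sum_product]
    have : ∀ r ∈ Icc 1 ⌊x⌋₊, ∑ y ∈ (Icc 1 ⌊x⌋₊) ×ˢ (Icc 1 ⌊x⌋₊),
        1 / ((r : ℝ) * ((y.1 * y.2 : ℕ) : ℝ)) = 1 / (r : ℝ) * (∑ k ∈ Icc 1 ⌊x⌋₊, 1 / (k : ℝ)) ^ 2 := by
      intro r _
      rw [Finset.sum_product, pow_two, Finset.sum_mul_sum, Finset.mul_sum]
      refine Finset.sum_congr rfl fun u _ => ?_
      rw [Finset.mul_sum]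
      refine Finset.sum_congr rfl fun v _ => ?_
      push_cast
      rw [one_div, one_div, one_div, one_div, mul_inv, mul_inv]
    rw [Finset.sum_congr rfl this, ← Finset.sum_mul]
    ring
  rw [h0]
  have h1 := E1B_harm x hx
  have h2 : 0 ≤ ∑ k ∈ Icc 1 ⌊x⌋₊, 1 / (k : ℝ) := Finset.sum_nonneg fun k _ => by positivity
  exact pow_le_pow_left₀ h2 h1 3

theorem e1_tau (p : Prm) (hp : p.Bas) (s : ℝ) (hs : 0 < s)
    (TP : ℝ → ℝ → ℕ → ℕ → ℕ → Prop) (hTP : ∀ x N r u v, TP x N r u v → TriB p s x N r u v)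
    (c : ℕ) (h : E1 p.ν TP c ClOne) : E1 p.ν TP c (ClTau c) := by
  intro A
  obtain ⟨C1, hC1⟩ := trivD (c + 1)
  obtain ⟨B1, hB1⟩ : ∃ B1 : ℕ, B1 = A + C1 + 3 := ⟨_, rfl⟩
  obtain ⟨B, C, x0, hE⟩ := h (A + (B1 + 1) * c)
  refine ⟨B, max C 0 + C1 * 2 ^ (C1 + 3), max x0 16, ?_⟩
  intro x hx M N hS a b α β hα hβ hcα hcβ S hAdm
  have hx0 : x0 ≤ x := (le_max_left _ _).trans hx
  have hx16 : (16 : ℝ) ≤ x := (le_max_right _ _).trans hx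
  have hxp : (0 : ℝ) < x := by linarith
  have hx1 : (1 : ℝ) ≤ x := by linarith
  obtain ⟨l, hl⟩ : ∃ l : ℝ, l = Real.log x := ⟨_, rfl⟩
  have hl1 : 1 ≤ l := by
    rw [hl, Real.le_log_iff_exp_le hxp]
    have := Real.exp_one_lt_d9
    linarith
  have hl0 : 0 < l := by linarith
  obtain ⟨hcβ1, hcβ2⟩ := hcβ
  have hN : 0 < N := lt_of_lt_of_le (by positivity) hS.1
  have hM : 0 < M := by
    have h1 : 0 < M * N := lt_of_lt_of_le (by positivity) hS.2.2.1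
    exact (pos_iff_pos_of_mul_pos h1).mpr hN
  have hα0 : α 0 = 0 := by
    by_contra h0
    have := (hα 0 h0).1
    simp at this
    linarith
  have hβ0 : β 0 = 0 := by
    by_contra h0
    have := (hβ 0 h0).1
    simp at this
    linarith
  -- the two parts of `β`
  classical
  obtain ⟨β1, hβ1⟩ : ∃ β1 : ℕ → ℝ, β1 = fun n =>
    if ((n.divisors.card : ℝ)) ≤ l ^ B1 then β n / l ^ ((B1 + 1) * c) else 0 := ⟨_, rfl⟩
  obtain ⟨β2, hβ2⟩ : ∃ β2 : ℕ → ℝ, β2 = fun n =>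
    if ((n.divisors.card : ℝ)) ≤ l ^ B1 then 0 else β n := ⟨_, rfl⟩
  have hsplit : β = fun n => l ^ ((B1 + 1) * c) * β1 n + β2 n := by
    funext n
    rw [hβ1, hβ2]
    by_cases hn : ((n.divisors.card : ℝ)) ≤ l ^ B1
    · simp only [hn, if_true, add_zero]
      field_simp
    · simp only [hn, if_false, mul_zero, zero_add]
  have hβ1one : β1 ∈ ClOne x N := by
    refine ⟨fun n => ?_, fun n hn => ?_⟩
    · rw [hβ1]
      show |if ((n.divisors.card : ℝ)) ≤ l ^ B1 then β n / l ^ ((B1 + 1) * c) else 0| ≤ 1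
      by_cases hn : ((n.divisors.card : ℝ)) ≤ l ^ B1
      · rw [if_pos hn]
        rw [abs_div, abs_of_pos (show 0 < l ^ ((B1 + 1) * c) by positivity),
          div_le_one (by positivity)]
        refine (hcβ1 n).trans ?_
        rw [← hl, pow_mul]
        refine pow_le_pow_left₀ (mul_nonneg (Nat.cast_nonneg _) hl0.le) ?_ c
        rw [pow_succ]
        exact mul_le_mul_of_nonneg_right hn hl0.le
      · rw [if_neg hn, abs_zero]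
        norm_num
    · apply hβ n
      intro h0
      apply hn
      rw [hβ1]
      show (if ((n.divisors.card : ℝ)) ≤ l ^ B1 then β n / l ^ ((B1 + 1) * c) else 0) = 0
      rw [h0, zero_div, ite_self]
  have hβ2b : ∀ n, |β2 n| ≤ (1 / l ^ B1) * ((n.divisors.card : ℝ) * Real.log x) ^ (c + 1) := by
    intro n
    rw [hβ2, ← hl]
    show |if ((n.divisors.card : ℝ)) ≤ l ^ B1 then 0 else β n| ≤ _
    by_cases hn : ((n.divisors.card : ℝ)) ≤ l ^ B1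
    · rw [if_pos hn, abs_zero]
      exact mul_nonneg (by positivity) (pow_nonneg (mul_nonneg (Nat.cast_nonneg _) hl0.le) _)
    · rw [if_neg hn]
      push Not at hn
      have h1 := hcβ1 n
      rw [← hl] at h1
      refine h1.trans ?_
      rw [pow_succ, one_div, inv_mul_eq_div, le_div_iff₀ (by positivity)]
      refine mul_le_mul_of_nonneg_left ?_
        (pow_nonneg (mul_nonneg (Nat.cast_nonneg _) hl0.le) _)
      nlinarith [show (0 : ℝ) < l ^ B1 by positivity]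
  have hcα' : CB x (c + 1) α := by
    intro n
    rcases Nat.eq_zero_or_pos n with h0 | h0
    · subst h0
      rw [hα0]
      simp
    · have h1 : (1 : ℝ) ≤ (n.divisors.card : ℝ) := by
        exact_mod_cast Finset.card_pos.mpr (Nat.nonempty_divisors.mpr h0.ne')
      have h2 : 1 ≤ (n.divisors.card : ℝ) * Real.log x := by rw [← hl]; nlinarith
      exact (hcα n).trans (pow_le_pow_right₀ h2 (by omega))
  have hmain := hE x hx0 M N hS a b α β1 hα hβ1one.2 hcα hβ1one S hAdm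
  -- the second part
  have hbas : ∀ t ∈ S, 1 ≤ t.1 ∧ 1 ≤ t.2.1 ∧ 1 ≤ t.2.2 ∧
      ((t.1 * (t.2.1 * t.2.2) : ℕ) : ℝ) ≤ x ^ (3 / 4 : ℝ) ∧ Nat.Coprime t.1 (t.2.1 * t.2.2) := by
    intro t ht
    have hb := hTP _ _ _ _ _ (hAdm.tri t ht)
    have hne := hb.sqf.ne_zero
    have h1 : t.1 ≠ 0 := left_ne_zero_of_mul hne
    have h2 : t.2.1 ≠ 0 := left_ne_zero_of_mul (right_ne_zero_of_mul hne)
    have h3 : t.2.2 ≠ 0 := right_ne_zero_of_mul (right_ne_zero_of_mul hne)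
    refine ⟨by omega, by omega, by omega, ?_, (Nat.squarefree_mul_iff.mp hb.sqf).1⟩
    refine hb.qhi.trans (Real.rpow_le_rpow_of_exponent_le hx1 ?_)
    have := hp.hw2
    linarith
  have hx34 : x ^ (3 / 4 : ℝ) ≤ x := by
    calc x ^ (3 / 4 : ℝ) ≤ x ^ (1 : ℝ) := Real.rpow_le_rpow_of_exponent_le hx1 (by norm_num)
      _ = x := Real.rpow_one x
  have h2 : ∀ t ∈ S, |Dif ⌊4 * M⌋₊ ⌊4 * N⌋₊ α β2 t.1 (t.2.1 * t.2.2) a b| ≤
      (1 / l ^ B1) * (C1 * (1 + l) ^ C1 * x) * (1 / ((t.1 : ℝ) * ((t.2.1 * t.2.2 : ℕ) : ℝ))) := by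
    intro t ht
    obtain ⟨g1, g2, g3, g4, g5⟩ := hbas t ht
    have hca := hAdm.cpa t ht
    rw [Nat.cast_mul] at hca
    have hca1 : IsCoprime a (t.1 : ℤ) := (IsCoprime.of_mul_left_left hca).symm
    have hca2 : IsCoprime a ((t.2.1 * t.2.2 : ℕ) : ℤ) := (IsCoprime.of_mul_left_right hca).symm
    have hcb := (hAdm.cpb t ht).symm
    have h3 := hC1 x (by linarith) M N hN hS.2.2.1 hS.2.2.2 t.1 (t.2.1 * t.2.2) g1
      (Nat.mul_pos g2 g3) g5 g4 a b hca1 hca2 hcb (1 / l ^ B1) α β2 (by positivity) hcα' hβ2b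
    refine h3.trans (le_of_eq ?_)
    rw [← hl]
    ring
  have h3 : ∑ t ∈ S, |Dif ⌊4 * M⌋₊ ⌊4 * N⌋₊ α β2 t.1 (t.2.1 * t.2.2) a b| ≤
      (1 / l ^ B1) * (C1 * (1 + l) ^ C1 * x) * (1 + l) ^ 3 := by
    refine (Finset.sum_le_sum h2).trans ?_
    rw [← Finset.mul_sum]
    refine mul_le_mul_of_nonneg_left ?_ (by positivity)
    rw [hl]
    refine E1B_triples x hx1 S fun t ht => ?_
    obtain ⟨g1, g2, g3, g4, -⟩ := hbas t ht
    exact ⟨g1, g2, g3, g4.trans hx34⟩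
  have h4 : (1 / l ^ B1) * (C1 * (1 + l) ^ C1 * x) * (1 + l) ^ 3 ≤
      C1 * 2 ^ (C1 + 3) * x / l ^ A := by
    have e1 : (1 + l) ^ C1 * (1 + l) ^ 3 ≤ (2 * l) ^ (C1 + 3) := by
      rw [← pow_add]
      exact pow_le_pow_left₀ (by linarith) (by linarith) _
    calc (1 / l ^ B1) * (C1 * (1 + l) ^ C1 * x) * (1 + l) ^ 3 =
          (C1 * x / l ^ B1) * ((1 + l) ^ C1 * (1 + l) ^ 3) := by ring
      _ ≤ (C1 * x / l ^ B1) * (2 * l) ^ (C1 + 3) :=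
          mul_le_mul_of_nonneg_left e1 (by positivity)
      _ = C1 * 2 ^ (C1 + 3) * x / l ^ A := by
          rw [hB1, mul_pow, show A + C1 + 3 = A + (C1 + 3) by ring, pow_add l A (C1 + 3)]
          field_simp
  -- the first part
  have h5 : ∑ t ∈ S, |Dif ⌊4 * M⌋₊ ⌊4 * N⌋₊ α (fun n => l ^ ((B1 + 1) * c) * β1 n) t.1
      (t.2.1 * t.2.2) a b| ≤ max C 0 * x / l ^ A := by
    have e1 : ∀ t ∈ S, |Dif ⌊4 * M⌋₊ ⌊4 * N⌋₊ α (fun n => l ^ ((B1 + 1) * c) * β1 n) t.1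
        (t.2.1 * t.2.2) a b| = l ^ ((B1 + 1) * c) *
        |Dif ⌊4 * M⌋₊ ⌊4 * N⌋₊ α β1 t.1 (t.2.1 * t.2.2) a b| := by
      intro t _
      rw [E1B_smul, abs_mul, abs_of_pos (show 0 < l ^ ((B1 + 1) * c) by positivity)]
    rw [Finset.sum_congr rfl e1, ← Finset.mul_sum]
    have e2 : C * x / Real.log x ^ (A + (B1 + 1) * c) ≤
        max C 0 * x / l ^ (A + (B1 + 1) * c) := by
      rw [← hl]
      refine div_le_div_of_nonneg_right ?_ (by positivity)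
      exact mul_le_mul_of_nonneg_right (le_max_left _ _) hxp.le
    have e3 := mul_le_mul_of_nonneg_left (hmain.trans e2)
      (show 0 ≤ l ^ ((B1 + 1) * c) by positivity)
    refine e3.trans (le_of_eq ?_)
    rw [pow_add]
    field_simp
  have h6 : ∀ t ∈ S, |Dif ⌊4 * M⌋₊ ⌊4 * N⌋₊ α β t.1 (t.2.1 * t.2.2) a b| ≤
      |Dif ⌊4 * M⌋₊ ⌊4 * N⌋₊ α (fun n => l ^ ((B1 + 1) * c) * β1 n) t.1 (t.2.1 * t.2.2) a b| +
      |Dif ⌊4 * M⌋₊ ⌊4 * N⌋₊ α β2 t.1 (t.2.1 * t.2.2) a b| := by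
    intro t _
    conv_lhs => rw [hsplit]
    rw [E1B_add]
    exact abs_add_le _ _
  calc ∑ t ∈ S, |Dif ⌊4 * M⌋₊ ⌊4 * N⌋₊ α β t.1 (t.2.1 * t.2.2) a b| ≤
        max C 0 * x / l ^ A + C1 * 2 ^ (C1 + 3) * x / l ^ A := by
        refine (Finset.sum_le_sum h6).trans ?_
        rw [Finset.sum_add_distrib]
        exact add_le_add h5 (h3.trans h4)
    _ = (max C 0 + C1 * 2 ^ (C1 + 3)) * x / Real.log x ^ A := by rw [← hl]; ring

end Pool.Agent.Disp
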