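import Pool.Agent.Disp.L8Core
import Pool.Agent.Disp.L9E1
import Pool.Agent.Disp.L10Asm

/-!
# DISP: the final theorems of part B
-/

set_option autoImplicit false

namespace Pool.Agent.Disp

open Finset Pool.Agent.BGG Pool.Agent.BCore

theorem Prm.Ok.bas {p : Prm} (hp : p.Ok) : p.Bas := by
  obtain ⟨h1, h2, h3, h4, h5, h6, h7, h8, h9, h10, h11⟩ := hp
  constructor <;> linarith

theorem E1.mono {ν : ℝ} {TP : ℝ → ℝ → ℕ → ℕ → ℕ → Prop} {c : ℕ} {B1 B2 : ℝ → ℝ → Set (ℕ → ℝ)}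
    (h : E1 ν TP c B2) (h12 : ∀ x N, B1 x N ⊆ B2 x N) : E1 ν TP c B1 := by
  intro A
  obtain ⟨B, C, x0, H⟩ := h A
  exact ⟨B, C, x0, fun x hx M N hs a b α β h1 h2 h3 h4 => H x hx M N hs a b α β h1 h2 h3 (h12 x N h4)⟩

/-- General bilinear estimate. -/
theorem bil_general (p : Prm) (hp : p.Ok) (s : ℝ) (hs : 0 < s) (hs2 : 10 * s ≤ p.e) (c : ℕ)
    (K : ℕ → ℝ) (D : ℝ → Finset ℕ)
    (hD : ∀ x : ℝ, 2 ≤ x → ∀ q ∈ D x, 1 ≤ q ∧ Squarefree q ∧ (q : ℝ) ≤ x ^ (1 / 2 + 2 * p.w) ∧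
      ((q : ℝ) ≤ x ^ (1 / 2 - s) ∨ FacP p x q)) :
    BILc p.ν c (ClSW c K) D := by
  have he := hp.he
  obtain ⟨η, hη, hc⟩ := core_general p hp s hs hs2
  have hTP : ∀ x N r u v, TriP p s x N r u v → TriB p s x N r u v := fun _ _ _ _ _ h => h.toTriB
  have h1 := e1_core p hp.bas s η hs hs2 hη (TriP p s) hTP ClOne (fun _ _ => subset_rfl) hc c
  have h2 := e1_tau p hp.bas s hs (TriP p s) hTP c h1
  have h3 : E1 p.ν (TriP p s) c (ClSW c K) := h2.mono (fun x N β hβ => ⟨hβ.1, hβ.2.1⟩)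
  exact asm p hp.bas s hs (by linarith) c K (TriP p s) hTP (ClSW c K) (fun _ _ => subset_rfl) h3 D
    (fact_DT p hp s hs (by linarith) D hD)

/-- Bilinear estimate for intervals, from any core for `ClInt`. -/
theorem bil_interval (p : Prm) (hp : p.Bas) (s η : ℝ) (hs : 0 < s) (hs2 : 10 * s ≤ p.e)
    (hη : 0 < η) (c : ℕ) (K : ℕ → ℝ) (TP : ℝ → ℝ → ℕ → ℕ → ℕ → Prop)
    (hTP : ∀ x N r u v, TP x N r u v → TriB p s x N r u v) (hc : CoreOK p.ν s η TP ClInt)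
    (D : ℝ → Finset ℕ) (hD : DT p s TP D) :
    BILc p.ν c (fun x N => ClInt x N ∩ ClSW c K x N) D := by
  have he := hp.he
  have hsub : ∀ x N, ClInt x N ⊆ ClOne x N := by
    rintro x N β ⟨y, z, hy, hz, hβ⟩
    constructor
    · intro n
      rw [hβ]
      split_ifs <;> simp
    · intro n hn
      rw [hβ] at hn
      have h1 : y < n ∧ n ≤ z := by
        by_contra h
        rw [if_neg h] at hn
        exact hn rfl
      refine ⟨lt_of_le_of_lt hy (by exact_mod_cast h1.1), le_trans ?_ hz⟩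
      exact_mod_cast h1.2
  have h1 := e1_core p hp s η hs hs2 hη TP hTP ClInt hsub hc c
  exact asm p hp s hs (by linarith) c K TP hTP _ (fun _ _ => Set.inter_subset_right)
    (h1.mono fun _ _ => Set.inter_subset_left) D hD

end Pool.Agent.Disp
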