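import Pool.Agent.BGG.Defs
import Pool.Agent.BCore.Defs

/-!
# MP_3509fd_nt, last step of part B: definitions

`X = ⌊4M⌋`, `Y = ⌊4N⌋` throughout; `L = log x`.
-/

set_option autoImplicit false

namespace Pool.Agent.Disp

open Finset Pool.Agent.BGG Pool.Agent.BCore

/-- Coefficients bounded by `(tau log x)^c`. -/
def CB (x : ℝ) (c : ℕ) (f : ℕ → ℝ) : Prop :=
  ∀ n, |f n| ≤ ((n.divisors.card : ℝ) * Real.log x) ^ c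

/-- Sizes of the two variables. -/
def Siz (ν x M N : ℝ) : Prop :=
  x ^ ν / 4 ≤ N ∧ N ≤ 4 * x ^ (1 / 2 : ℝ) ∧ x / 4 ≤ M * N ∧ M * N ≤ 4 * x

/-- Support in `(M, 4M]`. -/
def Sup (M : ℝ) (f : ℕ → ℝ) : Prop := ∀ m, f m ≠ 0 → M < (m : ℝ) ∧ (m : ℝ) ≤ 4 * M

/-- The discrepancy of `α * β` in the class `a` modulo `q`, with the extra condition
`(mn, s) = 1`. -/
noncomputable def Dsc2s (X Y : ℕ) (α β : ℕ → ℝ) (q : ℕ) (a : ℤ) (s : ℕ) : ℝ :=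
  (∑ m ∈ Icc 1 X, ∑ n ∈ Icc 1 Y,
      if (q : ℤ) ∣ ((m * n : ℕ) : ℤ) - a ∧ Nat.Coprime (m * n) s then α m * β n else 0)
    - (∑ m ∈ Icc 1 X, ∑ n ∈ Icc 1 Y, if Nat.Coprime (m * n) (q * s) then α m * β n else 0)
        / (q.totient : ℝ)

/-- The difference of the sums over the two classes `(a mod r, a mod d)` and
`(a mod r, b mod d)`. -/
noncomputable def Dif (X Y : ℕ) (α β : ℕ → ℝ) (r d : ℕ) (a b : ℤ) : ℝ :=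
  ∑ m ∈ Icc 1 X, ∑ n ∈ Icc 1 Y, α m * β n *
    ((if (r : ℤ) ∣ ((m * n : ℕ) : ℤ) - a ∧ (d : ℤ) ∣ ((m * n : ℕ) : ℤ) - a then 1 else 0) -
      (if (r : ℤ) ∣ ((m * n : ℕ) : ℤ) - a ∧ (d : ℤ) ∣ ((m * n : ℕ) : ℤ) - b then 1 else 0))

/-- All prime factors of `n` are larger than `y`. -/
def Rough (y : ℝ) (n : ℕ) : Prop := ∀ p : ℕ, p.Prime → p ∣ n → y < (p : ℝ)

open Classical in
/-- The product of the primes `p ≤ y` dividing `n`. -/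
noncomputable def smp (y : ℝ) (n : ℕ) : ℕ :=
  ∏ p ∈ n.primeFactors.filter (fun p : ℕ => (p : ℝ) ≤ y), p

/-- Parameters: moduli up to `x^(1/2+2w)`, `N ≥ x^ν/4`, windows up to `x^κ`, `r` in a window of
width `x^δ`, divisors of `r u` in windows of width `x^δ1`, small `e`, size `x^V0` of `v`. -/
structure Prm where
  w : ℝ
  ν : ℝ
  κ : ℝ
  δ : ℝ
  δ1 : ℝ
  e : ℝ
  V0 : ℝ

/-- Basic conditions on the parameters. -/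
structure Prm.Bas (p : Prm) : Prop where
  hw : 0 ≤ p.w
  hw2 : p.w ≤ 1 / 16
  hν : 0 < p.ν
  hν2 : p.ν ≤ 1 / 2
  hδ : 0 ≤ p.δ
  he : 0 < p.e
  b1 : 1 / 2 + 2 * p.w + 3 * p.e + p.δ < 2 * p.ν
  b2 : 5 * p.w + p.e < p.ν

/-- Conditions on the parameters for the general core. -/
structure Prm.Ok (p : Prm) : Prop where
  hw : 0 ≤ p.w
  hν : 0 < p.ν
  hν2 : p.ν ≤ 1 / 2
  hδ : 0 ≤ p.δ
  hδ1 : 0 ≤ p.δ1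
  he : 0 < p.e
  hV0 : p.V0 = 2 * p.w + p.δ / 2 + 3 * p.e
  h1 : 1 + 56 * p.w + 18 * p.δ + 3 / 2 * p.δ1 + 80 * p.e < 4 * p.ν
  h2 : 1 + 8 * p.w + 6 * p.δ + 12 * p.e - p.ν ≤ 3 * p.κ
  h3 : 12 * p.w + 11 * p.δ + 20 * p.e < 1 / 6
  h4 : 98 / 3 * p.w + 10 * p.δ + 40 * p.e < 1 / 6 + p.ν / 3

/-- The basic properties of the triples `(r, u, v)`, `q = r u v`; `s` is a very small exponent. -/
structure TriB (p : Prm) (s x N : ℝ) (r u v : ℕ) : Prop where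
  sqf : Squarefree (r * (u * v))
  qlo : x ^ (1 / 2 - s) ≤ ((r * (u * v) : ℕ) : ℝ)
  qhi : ((r * (u * v) : ℕ) : ℝ) ≤ x ^ (1 / 2 + 2 * p.w)
  rlo : N * x ^ (-(3 * p.e + p.δ)) ≤ (r : ℝ)
  rhi : (r : ℝ) ≤ N * x ^ (-(3 * p.e) + s)
  r2 : 2 ≤ r
  v2 : 2 ≤ v

/-- All properties of the triples for the general core: windows in `r u`. -/
structure TriP (p : Prm) (s x N : ℝ) (r u v : ℕ) : Prop extends TriB p s x N r u v where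
  vlo : x ^ (p.V0 - s) ≤ (v : ℝ) ∨ u = 1
  vhi : (v : ℝ) ≤ x ^ (p.V0 + 2 * p.δ)
  win : ∀ t : ℝ, 1 ≤ t → t ≤ x ^ p.κ →
    ∃ r1 : ℕ, r1 ∣ r * u ∧ (r1 : ℝ) ≤ t ∧ t ≤ x ^ p.δ1 * r1

/-- The number of frequencies. -/
noncomputable def Hx (s x : ℝ) (X R U V : ℕ) : ℕ := ⌈32 * x ^ s * (R * ((U : ℝ) * V) ^ 2) / X⌉₊

/-- A function on the naturals as a function on the integers. -/
noncomputable def ext (f : ℕ → ℝ) (n : ℤ) : ℂ := if 0 ≤ n then ((f n.toNat : ℝ) : ℂ) else 0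

/-- What the core delivers in one box, for the sequences `β` in the class `Bc x N` and the triples
with the property `TP x N r u v`. -/
def CoreOK (ν s η : ℝ) (TP : ℝ → ℝ → ℕ → ℕ → ℕ → Prop) (Bc : ℝ → ℝ → Set (ℕ → ℝ)) : Prop :=
  ∃ x0 : ℝ, ∀ x : ℝ, x0 ≤ x → ∀ M N : ℝ, Siz ν x M N → ∀ R U V : ℕ, 1 ≤ R → 1 ≤ U → 1 ≤ V →
    ∀ a b1 b2 : ℤ, ∀ β ∈ Bc x N, ∀ w : ℕ → ℤ → ℕ → ℕ → ℕ → ℕ → ℤ → ℂ,
      (∀ r l u1 v1 u2 v2 h, ‖w r l u1 v1 u2 v2 h‖ ≤ 1) →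
      (∀ r l u1 v1 u2 v2 h, w r l u1 v1 u2 v2 h ≠ 0 →
        (r ∈ Ioc R (2 * R) ∧ u1 ∈ Icc U (2 * U) ∧ v1 ∈ Ioc V (2 * V) ∧
          u2 ∈ Icc U (2 * U) ∧ v2 ∈ Ioc V (2 * V)) ∧
        TP x N r u1 v1 ∧ TP x N r u2 v2 ∧ Good a b1 b2 r u1 v1 u2 v2) →
      ‖Tot ⌊4 * N⌋₊ R U V (Hx s x ⌊4 * M⌋₊ R U V) (ext β) a b1 b2 w‖ ≤
        N ^ 2 * ((U : ℝ) * V) ^ 2 * x ^ (-η)

/-- The admissible sets of triples. -/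
structure Adm (TP : ℝ → ℝ → ℕ → ℕ → ℕ → Prop) (x N y : ℝ) (a b : ℤ)
    (S : Finset (ℕ × ℕ × ℕ)) : Prop where
  tri : ∀ t ∈ S, TP x N t.1 t.2.1 t.2.2
  cpa : ∀ t ∈ S, IsCoprime ((t.1 * (t.2.1 * t.2.2) : ℕ) : ℤ) a
  cpb : ∀ t ∈ S, IsCoprime ((t.2.1 * t.2.2 : ℕ) : ℤ) b
  rgh : ∀ t ∈ S, Rough y (t.2.1 * t.2.2)

/-- The estimate for the differences of two classes, for all `β` in the class `Bc x N`. -/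
def E1 (ν : ℝ) (TP : ℝ → ℝ → ℕ → ℕ → ℕ → Prop) (c : ℕ) (Bc : ℝ → ℝ → Set (ℕ → ℝ)) : Prop :=
  ∀ A : ℕ, ∃ (B : ℕ) (C x0 : ℝ), ∀ x : ℝ, x0 ≤ x → ∀ M N : ℝ, Siz ν x M N → ∀ a b : ℤ,
    ∀ α β : ℕ → ℝ, Sup M α → Sup N β → CB x c α → β ∈ Bc x N →
    ∀ S : Finset (ℕ × ℕ × ℕ), Adm TP x N (Real.log x ^ B) a b S →
      ∑ t ∈ S, |Dif ⌊4 * M⌋₊ ⌊4 * N⌋₊ α β t.1 (t.2.1 * t.2.2) a b| ≤ C * x / (Real.log x) ^ A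

/-- The bilinear estimate for the moduli `D x`, with parameters: `N ≥ x^ν/4`, coefficients of
`α` bounded by `(tau log x)^c`, `β` in the class `Bc x N`. -/
def BILc (ν : ℝ) (c : ℕ) (Bc : ℝ → ℝ → Set (ℕ → ℝ)) (D : ℝ → Finset ℕ) : Prop :=
  ∀ A : ℕ, ∃ C : ℝ, ∀ x : ℝ, 2 ≤ x → ∀ a : ℤ, ∀ M N : ℝ, Siz ν x M N →
    ∀ α β : ℕ → ℝ, Sup M α → Sup N β → CB x c α → β ∈ Bc x N →
      ∑ q ∈ D x, (if IsCoprime a (q : ℤ) then |Dsc2 ⌊4 * M⌋₊ ⌊4 * N⌋₊ α β q a| else 0)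
        ≤ C * x / (Real.log x) ^ A

/-- Class 1: bounded by 1, support as in `Sup`. -/
def ClOne : ℝ → ℝ → Set (ℕ → ℝ) := fun _ N => {β | (∀ n, |β n| ≤ 1) ∧ Sup N β}

/-- Class 2: bounded by `(tau log x)^c`, support as in `Sup`. -/
def ClTau (c : ℕ) : ℝ → ℝ → Set (ℕ → ℝ) := fun x N => {β | CB x c β ∧ Sup N β}

/-- Class 3: `(tau log x)^c` and Siegel–Walfisz. -/
def ClSW (c : ℕ) (K : ℕ → ℝ) : ℝ → ℝ → Set (ℕ → ℝ) :=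
  fun x N => {β | CB x c β ∧ Sup N β ∧ SW K x N β}

/-- Class 4: indicator functions of intervals `(y, z]` inside `(N, 4N]`. -/
def ClInt : ℝ → ℝ → Set (ℕ → ℝ) := fun _ N =>
  {β | ∃ y z : ℕ, N ≤ (y : ℝ) ∧ (z : ℝ) ≤ 4 * N ∧ ∀ n, β n = if y < n ∧ n ≤ z then 1 else 0}

/-- The moduli for the general core: squarefree, with a triple for every size of `N`. -/
def FacP (p : Prm) (x : ℝ) (q : ℕ) : Prop :=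
  Squarefree q ∧ ∀ N : ℝ, x ^ p.ν / 4 ≤ N → N ≤ 4 * x ^ (1 / 2 : ℝ) →
    ∃ r u v : ℕ, r * (u * v) = q ∧ N * x ^ (-(3 * p.e + p.δ)) ≤ (r : ℝ) ∧
      (r : ℝ) ≤ N * x ^ (-(3 * p.e)) ∧ (x ^ p.V0 ≤ (v : ℝ) ∨ u = 1) ∧
      (v : ℝ) ≤ x ^ (p.V0 + 2 * p.δ) ∧
      ∀ t : ℝ, 1 ≤ t → t ≤ x ^ p.κ →
        ∃ r1 : ℕ, r1 ∣ r * u ∧ (r1 : ℝ) ≤ t ∧ t ≤ x ^ p.δ1 * r1

/-- The hypothesis on the sets of moduli used in the assembly: every modulus of `D x` is squarefree,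
`≤ x^(1/2+2w)`, and for `x` large it is small, or it has a large smooth part, or it has a triple
with the property `TP` whose `u v` is rough. -/
def DT (p : Prm) (s : ℝ) (TP : ℝ → ℝ → ℕ → ℕ → ℕ → Prop) (D : ℝ → Finset ℕ) : Prop :=
  (∀ x : ℝ, 2 ≤ x → ∀ q ∈ D x, 1 ≤ q ∧ Squarefree q ∧ (q : ℝ) ≤ x ^ (1 / 2 + 2 * p.w)) ∧
  ∀ B : ℕ, ∃ x0 : ℝ, ∀ x : ℝ, x0 ≤ x → ∀ N : ℝ, x ^ p.ν / 4 ≤ N → N ≤ 4 * x ^ (1 / 2 : ℝ) →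
    ∀ q ∈ D x, (q : ℝ) ≤ x ^ (1 / 2 - s) ∨ x ^ s < (smp (Real.log x ^ B) q : ℝ) ∨
      ∃ r u v : ℕ, r * (u * v) = q ∧ TP x N r u v ∧ Rough (Real.log x ^ B) (u * v)

end Pool.Agent.Disp
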