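import Pool.Agent.Disp.L0
import Pool.Agent.BV.TauB

/-!
# DISP module TRIV: trivial bounds in residue classes

triv1: from `Pool.Agent.BV.tau_ap` with `m = 4` (take a natural number `c` with `c = a (q)`,
`c` coprime to `q`; `X = 0`), `(64 x)^(1/4) ≤ 3 x^(1/4) ≤ 3 x / q` for `q ≤ x^(3/4)`.
triv2: `tau(m)^j tau(n)^j ≤ tau(m n)^(2 j)` (both divide `m n`: `tau m ≤ tau (m n)`), the number of
`(m, n)` with `m n = k` is at most `tau k`, and `k ≤ 16 M N ≤ 64 x`: `triv1` with `2 j + 1`.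
trivD: `|Dif| ≤` the two sums of `|α m| |β n| ≤ (tau m)^c (tau n)^c' L^(c+c')`, the class
`(a mod r, b mod d)` is a class modulo `r d` by CRT (`r, d` coprime).
trivDsc: the same for `Dsc2` (the second sum is the average of all classes; or: sum over all `k`,
use triv1 with `q = 1` for `q ≤ x^0`.. : sum of `tau^j` over `k ≤ 64 x` is `≤ C (1+log x)^C x`,
and `1/φ(q) ≤ tau(q)/q` by `Pool.Agent.BV.div_totient_le`).
-/

set_option autoImplicit false

namespace Pool.Agent.Disp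

open Finset Pool.Agent.BGG Pool.Agent.BCore

private theorem TRIV_class (q : ℕ) (hq : 1 ≤ q) (a : ℤ) (ha : IsCoprime a (q : ℤ)) :
    ∃ c : ℕ, c.Coprime q ∧ ∀ n : ℕ, ((q : ℤ) ∣ (n : ℤ) - a ↔ n ≡ c [MOD q]) := by
  have hqz : (0 : ℤ) < q := by exact_mod_cast hq
  have hnn : 0 ≤ a % (q : ℤ) := Int.emod_nonneg _ hqz.ne'
  refine ⟨(a % q).toNat, ?_, fun n => ?_⟩
  · rw [← Nat.isCoprime_iff_coprime, Int.toNat_of_nonneg hnn, Int.emod_def]
    have : a - (q : ℤ) * (a / q) = a + (q : ℤ) * (-(a / q)) := by ring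
    rw [this]
    exact IsCoprime.add_mul_left_left ha _
  · rw [← Int.natCast_modEq_iff, Int.toNat_of_nonneg hnn]
    have e1 : ((n : ℤ) ≡ a % q [ZMOD q]) ↔ ((n : ℤ) ≡ a [ZMOD q]) := by
      constructor
      · intro h; exact h.trans (Int.mod_modEq _ _)
      · intro h; exact h.trans (Int.mod_modEq _ _).symm
    rw [e1, Int.modEq_iff_dvd, ← dvd_neg]
    simp

theorem triv1 (j : ℕ) : ∃ C : ℕ, ∀ x : ℝ, 2 ≤ x → ∀ Y : ℕ, (Y : ℝ) ≤ 64 * x →
    ∀ q : ℕ, 1 ≤ q → (q : ℝ) ≤ x ^ (3 / 4 : ℝ) → ∀ a : ℤ, IsCoprime a (q : ℤ) →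
      ∑ k ∈ Icc 1 Y, (if (q : ℤ) ∣ (k : ℤ) - a then ((k.divisors.card : ℝ)) ^ j else 0) ≤
        C * (1 + Real.log x) ^ C * x / q := by
  obtain ⟨K, hK⟩ := Pool.Agent.BV.tau_ap j 4 (by norm_num)
  refine ⟨67 * K * 6 ^ K + K, ?_⟩
  intro x hx Y hY q hq hqx a ha
  have hx0 : 0 < x := by linarith
  have hlog : 0 ≤ Real.log x := Real.log_nonneg (by linarith)
  have hq0 : (0 : ℝ) < q := by exact_mod_cast hq
  set C : ℕ := 67 * K * 6 ^ K + K with hC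
  have hRHS : 0 ≤ (C : ℝ) * (1 + Real.log x) ^ C * x / q := by positivity
  rcases Nat.eq_zero_or_pos Y with h0 | h0
  · subst h0
    simpa using hRHS
  obtain ⟨c, hc, hc2⟩ := TRIV_class q hq a ha
  have h1 := hK 0 Y q c (Nat.zero_le _) h0 hq hc
  have hI : Icc 1 Y = Ioc 0 Y := by ext n; simp [Nat.succ_le_iff]
  have h2 : ∑ k ∈ Icc 1 Y, (if (q : ℤ) ∣ (k : ℤ) - a then ((k.divisors.card : ℝ)) ^ j else 0) =
      ∑ n ∈ Ioc 0 Y, (if n ≡ c [MOD q] then Pool.Agent.BV.tau n ^ j else 0) := by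
    rw [hI]
    apply Finset.sum_congr rfl
    intro n _
    by_cases h : (q : ℤ) ∣ (n : ℤ) - a
    · rw [if_pos h, if_pos ((hc2 n).mp h)]
      rfl
    · rw [if_neg h, if_neg (fun h' => h ((hc2 n).mpr h'))]
  rw [h2]
  refine h1.trans ?_
  have hY1 : (1 : ℝ) ≤ Y := by exact_mod_cast h0
  have hlogY : 1 + Real.log Y ≤ 6 * (1 + Real.log x) := by
    have h3 := Real.log_le_log (by linarith) hY
    rw [Real.log_mul (by norm_num) hx0.ne'] at h3
    have h4 : Real.log 64 ≤ 5 := by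
      rw [show (64 : ℝ) = 2 ^ (6 : ℕ) by norm_num, Real.log_pow]
      have := Real.log_two_lt_d9
      norm_num
      linarith
    linarith
  have hlogY0 : 0 ≤ 1 + Real.log Y := by
    have := Real.log_nonneg hY1
    linarith
  have hY4 : (Y : ℝ) ^ (1 / ((4 : ℕ) : ℝ)) ≤ 3 * (x / q) := by
    have h3 : (Y : ℝ) ^ (1 / ((4 : ℕ) : ℝ)) ≤ (64 * x) ^ (1 / 4 : ℝ) := by
      norm_num
      exact Real.rpow_le_rpow (by linarith) hY (by norm_num)
    have h4 : (64 * x) ^ (1 / 4 : ℝ) ≤ 3 * x ^ (1 / 4 : ℝ) := by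
      rw [Real.mul_rpow (by norm_num) hx0.le]
      apply mul_le_mul_of_nonneg_right _ (by positivity)
      have h5 : (64 : ℝ) ^ (1 / 4 : ℝ) ≤ (81 : ℝ) ^ (1 / 4 : ℝ) :=
        Real.rpow_le_rpow (by norm_num) (by norm_num) (by norm_num)
      have h6 : (81 : ℝ) ^ (1 / 4 : ℝ) = 3 := by
        rw [show (81 : ℝ) = 3 ^ (4 : ℝ) by norm_num, ← Real.rpow_mul (by norm_num)]
        norm_num
      linarith
    have h5 : x ^ (1 / 4 : ℝ) ≤ x / q := by
      rw [le_div_iff₀ hq0]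
      calc x ^ (1 / 4 : ℝ) * q ≤ x ^ (1 / 4 : ℝ) * x ^ (3 / 4 : ℝ) := by gcongr
        _ = x := by rw [← Real.rpow_add hx0]; norm_num
    linarith
  have hYq : ((Y : ℝ) - ((0 : ℕ) : ℝ)) / q ≤ 64 * (x / q) := by
    rw [Nat.cast_zero, sub_zero]
    calc (Y : ℝ) / q ≤ (64 * x) / q := by gcongr
      _ = _ := by ring
  have hxq : 0 ≤ x / q := by positivity
  have hKC : K ≤ C := by rw [hC]; exact Nat.le_add_left _ _
  have hKC2 : (67 * K * 6 ^ K : ℝ) ≤ C := by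
    have : 67 * K * 6 ^ K ≤ C := by rw [hC]; exact Nat.le_add_right _ _
    exact_mod_cast this
  calc (K : ℝ) * (1 + Real.log Y) ^ K * (((Y : ℝ) - ((0 : ℕ) : ℝ)) / q +
        (Y : ℝ) ^ (1 / ((4 : ℕ) : ℝ)))
      ≤ (K : ℝ) * (6 * (1 + Real.log x)) ^ K * (67 * (x / q)) := by
        have h5 : ((Y : ℝ) - ((0 : ℕ) : ℝ)) / q + (Y : ℝ) ^ (1 / ((4 : ℕ) : ℝ)) ≤
            67 * (x / q) := by linarith
        have h6 : (1 + Real.log Y) ^ K ≤ (6 * (1 + Real.log x)) ^ K :=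
          pow_le_pow_left₀ hlogY0 hlogY K
        have h7 : 0 ≤ ((Y : ℝ) - ((0 : ℕ) : ℝ)) / q + (Y : ℝ) ^ (1 / ((4 : ℕ) : ℝ)) := by
          rw [Nat.cast_zero, sub_zero]
          positivity
        gcongr
    _ = (67 * K * 6 ^ K : ℝ) * (1 + Real.log x) ^ K * (x / q) := by
        rw [mul_pow]; ring
    _ ≤ (C : ℝ) * (1 + Real.log x) ^ C * (x / q) := by
        have h5 : (1 + Real.log x) ^ K ≤ (1 + Real.log x) ^ C :=
          pow_le_pow_right₀ (by linarith) hKC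
        gcongr
    _ = _ := by ring

private theorem TRIV_tau_le (m k : ℕ) (hk : k ≠ 0) (h : m ∣ k) :
    ((m.divisors.card : ℝ)) ≤ (k.divisors.card : ℝ) := by
  exact_mod_cast Finset.card_le_card (Nat.divisors_subset_of_dvd hk h)

theorem triv2 (j : ℕ) : ∃ C : ℕ, ∀ x : ℝ, 2 ≤ x → ∀ M N : ℝ, 0 < N → x / 4 ≤ M * N →
    M * N ≤ 4 * x → ∀ q : ℕ, 1 ≤ q → (q : ℝ) ≤ x ^ (3 / 4 : ℝ) → ∀ a : ℤ, IsCoprime a (q : ℤ) →
      ∑ m ∈ Icc 1 ⌊4 * M⌋₊, ∑ n ∈ Icc 1 ⌊4 * N⌋₊, (if (q : ℤ) ∣ ((m * n : ℕ) : ℤ) - a then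
        ((m.divisors.card : ℝ)) ^ j * ((n.divisors.card : ℝ)) ^ j else 0) ≤
        C * (1 + Real.log x) ^ C * x / q := by
  obtain ⟨C, hC⟩ := triv1 (2 * j + 1)
  refine ⟨C, ?_⟩
  intro x hx M N hN hMN1 hMN2 q hq hqx a ha
  have hM : 0 < M := by
    by_contra h
    push Not at h
    nlinarith
  have hY : ((⌊4 * M⌋₊ * ⌊4 * N⌋₊ : ℕ) : ℝ) ≤ 64 * x := by
    push_cast
    have h1 : (⌊4 * M⌋₊ : ℝ) ≤ 4 * M := Nat.floor_le (by positivity)
    have h2 : (⌊4 * N⌋₊ : ℝ) ≤ 4 * N := Nat.floor_le (by positivity)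
    have h3 := mul_le_mul h1 h2 (Nat.cast_nonneg _) (by positivity)
    linarith
  refine le_trans ?_ (hC x hx _ hY q hq hqx a ha)
  set X := ⌊4 * M⌋₊
  set Z := ⌊4 * N⌋₊
  rw [← Finset.sum_product']
  have hmaps : ∀ p ∈ Icc 1 X ×ˢ Icc 1 Z, p.1 * p.2 ∈ Icc 1 (X * Z) := by
    intro p hp
    rw [mem_product, mem_Icc, mem_Icc] at hp
    rw [mem_Icc]
    exact ⟨Nat.mul_pos hp.1.1 hp.2.1, Nat.mul_le_mul hp.1.2 hp.2.2⟩
  rw [← Finset.sum_fiberwise_of_maps_to hmaps]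
  apply Finset.sum_le_sum
  intro k hk
  rw [mem_Icc] at hk
  have hk0 : k ≠ 0 := by omega
  have h1 : ∑ p ∈ (Icc 1 X ×ˢ Icc 1 Z).filter (fun p => p.1 * p.2 = k),
      (if (q : ℤ) ∣ ((p.1 * p.2 : ℕ) : ℤ) - a then
        ((p.1.divisors.card : ℝ)) ^ j * ((p.2.divisors.card : ℝ)) ^ j else 0) ≤
      ∑ p ∈ (Icc 1 X ×ˢ Icc 1 Z).filter (fun p => p.1 * p.2 = k),
        (if (q : ℤ) ∣ (k : ℤ) - a then ((k.divisors.card : ℝ)) ^ (2 * j) else 0) := by
    apply Finset.sum_le_sum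
    intro p hp
    rw [mem_filter] at hp
    rw [hp.2]
    split_ifs
    · have h2 := TRIV_tau_le p.1 k hk0 (Dvd.intro _ hp.2)
      have h3 := TRIV_tau_le p.2 k hk0 (Dvd.intro_left _ hp.2)
      calc ((p.1.divisors.card : ℝ)) ^ j * ((p.2.divisors.card : ℝ)) ^ j
          ≤ ((k.divisors.card : ℝ)) ^ j * ((k.divisors.card : ℝ)) ^ j := by gcongr
        _ = _ := by rw [← pow_add, two_mul]
    · exact le_rfl
  refine h1.trans ?_
  rw [Finset.sum_const, nsmul_eq_mul]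
  have h2 : ((Icc 1 X ×ˢ Icc 1 Z).filter (fun p => p.1 * p.2 = k)).card ≤ k.divisors.card := by
    apply Finset.card_le_card_of_injOn (fun p => p.1)
    · intro p hp
      rw [Finset.mem_coe, mem_filter] at hp
      rw [Finset.mem_coe, Nat.mem_divisors]
      exact ⟨Dvd.intro _ hp.2, hk0⟩
    · intro p hp p' hp' h
      rw [Finset.mem_coe, mem_filter, mem_product, mem_Icc, mem_Icc] at hp hp'
      have h3 : p.1 = p'.1 := h
      have h4 : p.1 * p.2 = p.1 * p'.2 := by rw [hp.2, h3, hp'.2]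
      have h5 : p.2 = p'.2 := Nat.eq_of_mul_eq_mul_left hp.1.1.1 h4
      exact Prod.ext h3 h5
  have h3 : (((Icc 1 X ×ˢ Icc 1 Z).filter (fun p => p.1 * p.2 = k)).card : ℝ) ≤
      (k.divisors.card : ℝ) := by exact_mod_cast h2
  split_ifs
  · calc _ ≤ (k.divisors.card : ℝ) * ((k.divisors.card : ℝ)) ^ (2 * j) := by gcongr
      _ = _ := by ring
  · simp

private theorem TRIV_sum (c : ℕ) (L t : ℝ) (hL : 0 ≤ L) (ht : 0 ≤ t) (X Y : ℕ) (α β : ℕ → ℝ)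
    (hα : ∀ n, |α n| ≤ ((n.divisors.card : ℝ) * L) ^ c)
    (hβ : ∀ n, |β n| ≤ t * ((n.divisors.card : ℝ) * L) ^ c) (m n : ℕ) :
    |α m * β n| ≤ t * L ^ (2 * c) * ((m.divisors.card : ℝ) ^ c * (n.divisors.card : ℝ) ^ c) := by
  rw [abs_mul]
  calc |α m| * |β n| ≤ ((m.divisors.card : ℝ) * L) ^ c * (t * ((n.divisors.card : ℝ) * L) ^ c) :=
        mul_le_mul (hα m) (hβ n) (abs_nonneg _) (by positivity)
    _ = _ := by rw [mul_pow, mul_pow, two_mul, pow_add]; ring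

/-- Here `α`, `β` are arbitrary functions with the stated bounds (no supports). -/
theorem trivD (c : ℕ) : ∃ C : ℕ, ∀ x : ℝ, 2 ≤ x → ∀ M N : ℝ, 0 < N → x / 4 ≤ M * N →
    M * N ≤ 4 * x → ∀ r d : ℕ, 1 ≤ r → 1 ≤ d → Nat.Coprime r d →
    ((r * d : ℕ) : ℝ) ≤ x ^ (3 / 4 : ℝ) → ∀ a b : ℤ, IsCoprime a (r : ℤ) → IsCoprime a (d : ℤ) →
    IsCoprime b (d : ℤ) → ∀ (t : ℝ) (α β : ℕ → ℝ), 0 ≤ t → CB x c α →
      (∀ n, |β n| ≤ t * ((n.divisors.card : ℝ) * Real.log x) ^ c) →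
      |Dif ⌊4 * M⌋₊ ⌊4 * N⌋₊ α β r d a b| ≤ t * (C * (1 + Real.log x) ^ C * x / (r * d)) := by
  obtain ⟨C, hC⟩ := triv2 c
  refine ⟨2 * C + 2 * c, ?_⟩
  intro x hx M N hN hMN1 hMN2 r d hr hd hrd hq a b har had hbd t α β ht hα hβ
  have hx0 : 0 < x := by linarith
  have hlog : 0 ≤ Real.log x := Real.log_nonneg (by linarith)
  have hrd0 : 1 ≤ r * d := Nat.mul_pos hr hd
  have hco : IsCoprime (r : ℤ) (d : ℤ) := Nat.isCoprime_iff_coprime.mpr hrd
  -- the class (a, b)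
  obtain ⟨u, v, huv⟩ := hco
  have hcl : ∀ b' : ℤ, IsCoprime b' (d : ℤ) → ∃ e : ℤ, IsCoprime e ((r * d : ℕ) : ℤ) ∧
      ∀ k : ℤ, ((r : ℤ) ∣ k - a ∧ (d : ℤ) ∣ k - b') ↔ ((r * d : ℕ) : ℤ) ∣ k - e := by
    intro b' hb'
    refine ⟨a + (b' - a) * (u * r), ?_, ?_⟩
    · push_cast
      apply IsCoprime.mul_right
      · have : a + (b' - a) * (u * r) = a + r * ((b' - a) * u) := by ring
        rw [this]
        exact har.add_mul_left_left _
      · have : a + (b' - a) * (u * r) = b' + d * ((a - b') * v) := by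
          have : u * r = 1 - v * d := by linarith
          rw [this]; ring
        rw [this]
        exact hb'.add_mul_left_left _
    · intro k
      push_cast
      have e1 : k - (a + (b' - a) * (u * r)) = (k - a) - r * ((b' - a) * u) := by ring
      have e2 : k - (a + (b' - a) * (u * r)) = (k - b') - d * ((a - b') * v) := by
        have : u * r = 1 - v * d := by linarith
        rw [this]; ring
      constructor
      · rintro ⟨h1, h2⟩
        apply IsCoprime.mul_dvd ⟨u, v, huv⟩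
        · rw [e1]; exact dvd_sub h1 (dvd_mul_right _ _)
        · rw [e2]; exact dvd_sub h2 (dvd_mul_right _ _)
      · intro h
        have h1 : (r : ℤ) ∣ k - (a + (b' - a) * (u * r)) := (dvd_mul_right _ _).trans h
        have h2 : (d : ℤ) ∣ k - (a + (b' - a) * (u * r)) := (dvd_mul_left _ _).trans h
        rw [e1] at h1
        rw [e2] at h2
        exact ⟨(dvd_sub_left (dvd_mul_right _ _)).mp h1, (dvd_sub_left (dvd_mul_right _ _)).mp h2⟩
  have hpart : ∀ b' : ℤ, IsCoprime b' (d : ℤ) →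
      |∑ m ∈ Icc 1 ⌊4 * M⌋₊, ∑ n ∈ Icc 1 ⌊4 * N⌋₊, α m * β n *
        (if (r : ℤ) ∣ ((m * n : ℕ) : ℤ) - a ∧ (d : ℤ) ∣ ((m * n : ℕ) : ℤ) - b' then 1 else 0)| ≤
      t * Real.log x ^ (2 * c) * (C * (1 + Real.log x) ^ C * x / (r * d : ℕ)) := by
    intro b' hb'
    obtain ⟨e, he, he2⟩ := hcl b' hb'
    have h1 := hC x hx M N hN hMN1 hMN2 (r * d) hrd0 hq e he
    refine le_trans ?_ (mul_le_mul_of_nonneg_left h1 (by positivity))
    rw [Finset.mul_sum]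
    refine (Finset.abs_sum_le_sum_abs _ _).trans (Finset.sum_le_sum fun m _ => ?_)
    rw [Finset.mul_sum]
    refine (Finset.abs_sum_le_sum_abs _ _).trans (Finset.sum_le_sum fun n _ => ?_)
    have h2 := TRIV_sum c (Real.log x) t hlog ht ⌊4 * M⌋₊ ⌊4 * N⌋₊ α β hα hβ m n
    by_cases h3 : (r : ℤ) ∣ ((m * n : ℕ) : ℤ) - a ∧ (d : ℤ) ∣ ((m * n : ℕ) : ℤ) - b'
    · rw [if_pos h3, if_pos ((he2 _).mp h3), mul_one]
      exact h2
    · rw [if_neg h3, if_neg (fun h4 => h3 ((he2 _).mpr h4)), mul_zero, mul_zero, abs_zero]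
  have hD : Dif ⌊4 * M⌋₊ ⌊4 * N⌋₊ α β r d a b =
      (∑ m ∈ Icc 1 ⌊4 * M⌋₊, ∑ n ∈ Icc 1 ⌊4 * N⌋₊, α m * β n *
        (if (r : ℤ) ∣ ((m * n : ℕ) : ℤ) - a ∧ (d : ℤ) ∣ ((m * n : ℕ) : ℤ) - a then 1 else 0)) -
      ∑ m ∈ Icc 1 ⌊4 * M⌋₊, ∑ n ∈ Icc 1 ⌊4 * N⌋₊, α m * β n *
        (if (r : ℤ) ∣ ((m * n : ℕ) : ℤ) - a ∧ (d : ℤ) ∣ ((m * n : ℕ) : ℤ) - b then 1 else 0) := by
    unfold Dif
    rw [← Finset.sum_sub_distrib]
    apply Finset.sum_congr rfl
    intro m _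
    rw [← Finset.sum_sub_distrib]
    apply Finset.sum_congr rfl
    intro n _
    ring
  rw [hD]
  refine (abs_sub _ _).trans ((add_le_add (hpart a had) (hpart b hbd)).trans ?_)
  have hl1 : Real.log x ^ (2 * c) ≤ (1 + Real.log x) ^ (2 * c) :=
    pow_le_pow_left₀ hlog (by linarith) _
  have hl2 : (1 + Real.log x) ^ (C + 2 * c) ≤ (1 + Real.log x) ^ (2 * C + 2 * c) :=
    pow_le_pow_right₀ (by linarith) (by omega)
  have hrdp : (0 : ℝ) < (r : ℝ) * d := by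
    have h1 : (0 : ℝ) < r := by exact_mod_cast hr
    have h2 : (0 : ℝ) < d := by exact_mod_cast hd
    positivity
  push_cast
  calc t * Real.log x ^ (2 * c) * (C * (1 + Real.log x) ^ C * x / (r * d)) +
        t * Real.log x ^ (2 * c) * (C * (1 + Real.log x) ^ C * x / (r * d))
      = t * (2 * C * (Real.log x ^ (2 * c) * (1 + Real.log x) ^ C) * x / (r * d)) := by ring
    _ ≤ t * (2 * C * ((1 + Real.log x) ^ (2 * c) * (1 + Real.log x) ^ C) * x / (r * d)) := by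
        gcongr
    _ = t * (2 * C * (1 + Real.log x) ^ (C + 2 * c) * x / (r * d)) := by
        rw [pow_add]; ring
    _ ≤ t * ((2 * C + 2 * c) * (1 + Real.log x) ^ (2 * C + 2 * c) * x / (r * d)) := by
        have : (0 : ℝ) ≤ 2 * c := by positivity
        gcongr
        linarith

theorem trivDsc (c : ℕ) : ∃ C : ℕ, ∀ x : ℝ, 2 ≤ x → ∀ M N : ℝ, 0 < N → x / 4 ≤ M * N →
    M * N ≤ 4 * x → ∀ q : ℕ, 1 ≤ q → (q : ℝ) ≤ x ^ (3 / 4 : ℝ) → ∀ a : ℤ, IsCoprime a (q : ℤ) →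
    ∀ α β : ℕ → ℝ, CB x c α → CB x c β →
      |Dsc2 ⌊4 * M⌋₊ ⌊4 * N⌋₊ α β q a| ≤
        (q.divisors.card : ℝ) * (C * (1 + Real.log x) ^ C * x / q) := by
  obtain ⟨C, hC⟩ := triv2 c
  refine ⟨2 * C + 2 * c, ?_⟩
  intro x hx M N hN hMN1 hMN2 q hq hqx a ha α β hα hβ
  have hx0 : 0 < x := by linarith
  have hx1 : 1 ≤ x := by linarith
  have hlog : 0 ≤ Real.log x := Real.log_nonneg (by linarith)
  have hq0 : (0 : ℝ) < q := by exact_mod_cast hq
  have hφ : (0 : ℝ) < (q.totient : ℝ) := by exact_mod_cast Nat.totient_pos.mpr hq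
  have hτ : (1 : ℝ) ≤ (q.divisors.card : ℝ) := by
    have : 0 < q.divisors.card := Finset.card_pos.mpr (Nat.nonempty_divisors.mpr (by omega))
    exact_mod_cast this
  have hβ' : ∀ n, |β n| ≤ 1 * ((n.divisors.card : ℝ) * Real.log x) ^ c := fun n => by
    rw [one_mul]; exact hβ n
  have h1 : |∑ m ∈ Icc 1 ⌊4 * M⌋₊, ∑ n ∈ Icc 1 ⌊4 * N⌋₊,
      if (q : ℤ) ∣ ((m * n : ℕ) : ℤ) - a then α m * β n else 0| ≤
      Real.log x ^ (2 * c) * (C * (1 + Real.log x) ^ C * x / q) := by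
    refine le_trans ?_ (mul_le_mul_of_nonneg_left (hC x hx M N hN hMN1 hMN2 q hq hqx a ha)
      (by positivity))
    rw [Finset.mul_sum]
    refine (Finset.abs_sum_le_sum_abs _ _).trans (Finset.sum_le_sum fun m _ => ?_)
    rw [Finset.mul_sum]
    refine (Finset.abs_sum_le_sum_abs _ _).trans (Finset.sum_le_sum fun n _ => ?_)
    have h2 := TRIV_sum c (Real.log x) 1 hlog (by norm_num) ⌊4 * M⌋₊ ⌊4 * N⌋₊ α β hα hβ' m n
    rw [one_mul] at h2
    split_ifs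
    · exact h2
    · simp
  have h3 : |∑ m ∈ Icc 1 ⌊4 * M⌋₊, ∑ n ∈ Icc 1 ⌊4 * N⌋₊,
      if Nat.Coprime (m * n) q then α m * β n else 0| ≤
      Real.log x ^ (2 * c) * (C * (1 + Real.log x) ^ C * x / (1 : ℕ)) := by
    have hc1 : ((1 : ℕ) : ℝ) ≤ x ^ (3 / 4 : ℝ) := by
      rw [Nat.cast_one]
      exact Real.one_le_rpow hx1 (by norm_num)
    refine le_trans ?_ (mul_le_mul_of_nonneg_left (hC x hx M N hN hMN1 hMN2 1 le_rfl hc1 0
      (by simpa using isCoprime_zero_left.mpr isUnit_one)) (by positivity))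
    rw [Finset.mul_sum]
    refine (Finset.abs_sum_le_sum_abs _ _).trans (Finset.sum_le_sum fun m _ => ?_)
    rw [Finset.mul_sum]
    refine (Finset.abs_sum_le_sum_abs _ _).trans (Finset.sum_le_sum fun n _ => ?_)
    have h2 := TRIV_sum c (Real.log x) 1 hlog (by norm_num) ⌊4 * M⌋₊ ⌊4 * N⌋₊ α β hα hβ' m n
    rw [one_mul] at h2
    rw [if_pos (show (((1 : ℕ)) : ℤ) ∣ ((m * n : ℕ) : ℤ) - 0 by simp)]
    split_ifs
    · exact h2
    · rw [abs_zero]; positivity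
  have h4 : (1 : ℝ) / q.totient ≤ (q.divisors.card : ℝ) / q := by
    have h5 : (q : ℝ) / (q.totient : ℝ) ≤ (q.divisors.card : ℝ) :=
      Pool.Agent.BV.div_totient_le q (by omega)
    rw [div_le_div_iff₀ hφ hq0, one_mul]
    rwa [div_le_iff₀ hφ] at h5
  unfold Dsc2
  refine (abs_sub _ _).trans ?_
  rw [abs_div, abs_of_pos hφ]
  have hl1 : Real.log x ^ (2 * c) ≤ (1 + Real.log x) ^ (2 * c) :=
    pow_le_pow_left₀ hlog (by linarith) _
  have hl2 : (1 + Real.log x) ^ (C + 2 * c) ≤ (1 + Real.log x) ^ (2 * C + 2 * c) :=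
    pow_le_pow_right₀ (by linarith) (by omega)
  set P : ℝ := Real.log x ^ (2 * c) * (C * (1 + Real.log x) ^ C * x) with hP
  have hP0 : 0 ≤ P := by positivity
  have hP1 : P ≤ C * (1 + Real.log x) ^ (2 * C + 2 * c) * x := by
    calc P = C * (Real.log x ^ (2 * c) * (1 + Real.log x) ^ C) * x := by rw [hP]; ring
      _ ≤ C * ((1 + Real.log x) ^ (2 * c) * (1 + Real.log x) ^ C) * x := by gcongr
      _ = C * (1 + Real.log x) ^ (C + 2 * c) * x := by rw [pow_add]; ring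
      _ ≤ _ := by gcongr
  have e1 : Real.log x ^ (2 * c) * (C * (1 + Real.log x) ^ C * x / q) = P / q := by
    rw [hP]; ring
  have e2 : Real.log x ^ (2 * c) * (C * (1 + Real.log x) ^ C * x / (1 : ℕ)) = P := by
    rw [hP, Nat.cast_one, div_one]
  rw [e1] at h1
  rw [e2] at h3
  calc _ ≤ P / q + P / q.totient := add_le_add h1 (by gcongr)
    _ = P * (1 / q) + P * (1 / q.totient) := by ring
    _ ≤ P * ((q.divisors.card : ℝ) / q) + P * ((q.divisors.card : ℝ) / q) := by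
        have : (1 : ℝ) / q ≤ (q.divisors.card : ℝ) / q := by gcongr
        gcongr
    _ = (q.divisors.card : ℝ) * (2 * P / q) := by ring
    _ ≤ (q.divisors.card : ℝ) * (2 * (C * (1 + Real.log x) ^ (2 * C + 2 * c) * x) / q) := by
        gcongr
    _ = (q.divisors.card : ℝ) * ((2 * C) * (1 + Real.log x) ^ (2 * C + 2 * c) * x / q) := by ring
    _ ≤ _ := by
        push_cast
        have : (0 : ℝ) ≤ 2 * c := by positivity
        gcongr
        linarith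

end Pool.Agent.Disp
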