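import Pool.Agent.Disp.L2Triv
import Pool.Agent.Disp.L6Fact

/-!
# DISP module SMTH: moduli with a large smooth part

Proof. `trivDsc` gives `|Dsc2| ≤ C (1+L)^C x tau(q)/q`. With `q = a b`, `a = smp y q`, `b` the rest,
`tau q / q ≤ (tau a / a) (tau b / b)`, the sum over `b ≤ x` of `tau b / b` is `≤ (1 + log x)^2`
(`Pool.Agent.BV.tau_pow_sum_div`). Rankin: for `y = L^B`, `σ = 1 / (2 (B + 1))`,
`sum over squarefree y-smooth a > x^s of tau(a)^2 / a ≤ x^(-s σ) ∏_(p ≤ y) (1 + 4 p^σ / p)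
 ≤ exp (- s σ log x) exp (4 y^σ (1 + log y))`, `y^σ ≤ L^(1/2)`.
-/

set_option autoImplicit false

namespace Pool.Agent.Disp

open Finset Pool.Agent.BGG Pool.Agent.BCore

private theorem SMTH_one (σ : ℝ) (a : ℕ) (ha : Squarefree a) :
    (a.divisors.card : ℝ) ^ 2 * (a : ℝ) ^ (σ - 1) ≤
      ∏ p ∈ a.primeFactors, (4 * (p : ℝ) ^ (σ - 1)) := by
  have h1 : a.divisors.card ≤ ∏ p ∈ a.primeFactors, 2 := by
    rw [Nat.card_divisors ha.ne_zero]
    refine Finset.prod_le_prod' fun p _ => ?_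
    have := ha.natFactorization_le_one p
    omega
  have h2 : (a.divisors.card : ℝ) ^ 2 ≤ ∏ p ∈ a.primeFactors, (4 : ℝ) := by
    have h3 : (a.divisors.card : ℝ) ≤ ∏ p ∈ a.primeFactors, (2 : ℝ) := by exact_mod_cast h1
    calc (a.divisors.card : ℝ) ^ 2 ≤ (∏ p ∈ a.primeFactors, (2 : ℝ)) ^ 2 :=
          pow_le_pow_left₀ (Nat.cast_nonneg _) h3 2
      _ = ∏ p ∈ a.primeFactors, (4 : ℝ) := by
          rw [← Finset.prod_pow]
          norm_num
  have h4 : (a : ℝ) ^ (σ - 1) = ∏ p ∈ a.primeFactors, (p : ℝ) ^ (σ - 1) := by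
    rw [Real.finsetProd_rpow _ _ (fun p _ => Nat.cast_nonneg _)]
    congr 1
    conv_lhs => rw [← Nat.prod_primeFactors_of_squarefree ha]
    push_cast
    rfl
  rw [h4, Finset.prod_mul_distrib]
  exact mul_le_mul_of_nonneg_right h2 (Finset.prod_nonneg fun p _ => by positivity)

/-- the Euler product -/
private theorem SMTH_euler (y σ : ℝ) (hy : 1 ≤ y) (hσ : 0 ≤ σ) (X : ℕ) :
    ∑ a ∈ (Icc 1 X).filter (fun a : ℕ => Squarefree a ∧ ∀ p ∈ a.primeFactors, (p : ℝ) ≤ y),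
      (a.divisors.card : ℝ) ^ 2 * (a : ℝ) ^ (σ - 1) ≤
        Real.exp (4 * (y ^ σ * (1 + Real.log y))) := by
  classical
  set S := (Icc 1 X).filter (fun a : ℕ => Squarefree a ∧ ∀ p ∈ a.primeFactors, (p : ℝ) ≤ y)
    with hS
  have hinj : Set.InjOn (fun a : ℕ => a.primeFactors) (S : Set ℕ) := by
    intro a ha b hb hab
    have h1 := (Finset.mem_filter.1 (Finset.mem_coe.1 ha)).2.1
    have h2 := (Finset.mem_filter.1 (Finset.mem_coe.1 hb)).2.1
    rw [← Nat.prod_primeFactors_of_squarefree h1, ← Nat.prod_primeFactors_of_squarefree h2]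
    simp only at hab
    rw [hab]
  calc ∑ a ∈ S, (a.divisors.card : ℝ) ^ 2 * (a : ℝ) ^ (σ - 1)
      ≤ ∑ a ∈ S, ∏ p ∈ a.primeFactors, (4 * (p : ℝ) ^ (σ - 1)) :=
        Finset.sum_le_sum fun a ha => SMTH_one σ a (Finset.mem_filter.1 ha).2.1
    _ = ∑ T ∈ S.image (fun a : ℕ => a.primeFactors), ∏ p ∈ T, (4 * (p : ℝ) ^ (σ - 1)) := by
        rw [Finset.sum_image hinj]
    _ ≤ ∑ T ∈ (Icc 1 ⌊y⌋₊).powerset, ∏ p ∈ T, (4 * (p : ℝ) ^ (σ - 1)) := by
        refine Finset.sum_le_sum_of_subset_of_nonneg ?_ fun T _ _ =>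
          Finset.prod_nonneg fun p _ => by positivity
        intro T hT
        obtain ⟨a, ha, rfl⟩ := Finset.mem_image.1 hT
        rw [Finset.mem_powerset]
        intro p hp
        rw [Finset.mem_Icc]
        exact ⟨(Nat.prime_of_mem_primeFactors hp).one_lt.le,
          Nat.le_floor ((Finset.mem_filter.1 ha).2.2 p hp)⟩
    _ = ∏ n ∈ Icc 1 ⌊y⌋₊, (1 + 4 * (n : ℝ) ^ (σ - 1)) := by
        rw [Finset.prod_one_add]
    _ ≤ ∏ n ∈ Icc 1 ⌊y⌋₊, Real.exp (4 * (n : ℝ) ^ (σ - 1)) := by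
        refine Finset.prod_le_prod (fun n _ => by positivity) fun n _ => ?_
        have := Real.add_one_le_exp (4 * (n : ℝ) ^ (σ - 1))
        linarith
    _ = Real.exp (∑ n ∈ Icc 1 ⌊y⌋₊, 4 * (n : ℝ) ^ (σ - 1)) := by
        rw [Real.exp_sum]
    _ ≤ Real.exp (4 * (y ^ σ * (1 + Real.log y))) := by
        rw [Real.exp_le_exp, ← Finset.mul_sum]
        refine mul_le_mul_of_nonneg_left ?_ (by norm_num)
        calc ∑ n ∈ Icc 1 ⌊y⌋₊, (n : ℝ) ^ (σ - 1)
            ≤ ∑ n ∈ Icc 1 ⌊y⌋₊, y ^ σ * (BV.tau n ^ 0 / (n : ℝ)) := by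
              refine Finset.sum_le_sum fun n hn => ?_
              rw [Finset.mem_Icc] at hn
              have hn0 : (0 : ℝ) < n := by exact_mod_cast hn.1
              have hny : (n : ℝ) ≤ y := (Nat.le_floor_iff (by linarith)).1 hn.2
              rw [Real.rpow_sub hn0, Real.rpow_one, pow_zero, mul_one_div]
              exact div_le_div_of_nonneg_right (Real.rpow_le_rpow hn0.le hny hσ) hn0.le
          _ = y ^ σ * ∑ n ∈ Icc 1 ⌊y⌋₊, BV.tau n ^ 0 / (n : ℝ) := by rw [Finset.mul_sum]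
          _ ≤ y ^ σ * (1 + Real.log y) := by
              refine mul_le_mul_of_nonneg_left ?_ (by positivity)
              have h1 := BV.tau_pow_sum_div 0 ⌊y⌋₊
              rw [pow_zero, pow_one] at h1
              refine h1.trans ?_
              have h2 : (1 : ℝ) ≤ (⌊y⌋₊ : ℝ) := by exact_mod_cast Nat.le_floor (by simpa using hy)
              have h3 : Real.log (⌊y⌋₊ : ℝ) ≤ Real.log y :=
                Real.log_le_log (by linarith) (Nat.floor_le (by linarith))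
              linarith

/-- Rankin's bound, explicit form -/
private theorem SMTH_rankin0 (x y s σ : ℝ) (hx : 1 ≤ x) (hy : 1 ≤ y) (hσ : 0 ≤ σ) :
    ∑ q ∈ (Icc 1 ⌊x⌋₊).filter (fun q : ℕ => Squarefree q ∧ x ^ s < (smp y q : ℝ)),
      (q.divisors.card : ℝ) ^ 2 / q ≤
      x ^ (-(s * σ)) * (Real.exp (4 * (y ^ σ * (1 + Real.log y))) * (1 + Real.log x) ^ 4) := by
  classical
  have hx0 : 0 < x := by linarith
  set Q := (Icc 1 ⌊x⌋₊).filter (fun q : ℕ => Squarefree q ∧ x ^ s < (smp y q : ℝ)) with hQ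
  set S := (Icc 1 ⌊x⌋₊).filter
    (fun a : ℕ => Squarefree a ∧ ∀ p ∈ a.primeFactors, (p : ℝ) ≤ y) with hS
  set φ : ℕ → ℕ × ℕ := fun q => (smp y q, q / smp y q) with hφ
  set G : ℕ × ℕ → ℝ := fun z => ((z.1.divisors.card : ℝ) ^ 2 * (z.1 : ℝ) ^ (σ - 1)) *
    (BV.tau z.2 ^ 2 / (z.2 : ℝ)) with hG
  have hG0 : ∀ z, 0 ≤ G z := fun z => by
    rw [hG]
    have : 0 ≤ BV.tau z.2 := Nat.cast_nonneg _
    positivity
  have hmulq : ∀ q ∈ Q, smp y q * (q / smp y q) = q ∧ smp y q ∣ q := by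
    intro q hq
    obtain ⟨m', h1, -⟩ := FACT_split y q (Finset.mem_filter.1 hq).2.1
    have h2 : smp y q ∣ q := Dvd.intro _ h1
    exact ⟨Nat.mul_div_cancel' h2, h2⟩
  have hinj : Set.InjOn φ (Q : Set ℕ) := by
    intro a ha b hb hab
    rw [hφ] at hab
    simp only [Prod.mk.injEq] at hab
    rw [← (hmulq a (Finset.mem_coe.1 ha)).1, ← (hmulq b (Finset.mem_coe.1 hb)).1, hab.1]
    rw [hab.1] at hab
    rw [hab.2]
  have hsub : Q.image φ ⊆ S ×ˢ Icc 1 ⌊x⌋₊ := by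
    intro z hz
    obtain ⟨q, hq, rfl⟩ := Finset.mem_image.1 hz
    obtain ⟨h1, h2⟩ := hmulq q hq
    have hq' := Finset.mem_filter.1 hq
    have hq1 := Finset.mem_Icc.1 hq'.1
    have hs1 : 1 ≤ smp y q := FACT_smp_pos y q
    have hsle : smp y q ≤ q := Nat.le_of_dvd (by omega) h2
    have hdiv1 : 1 ≤ q / smp y q := (Nat.one_le_div_iff (by omega)).2 hsle
    have hdiv2 : q / smp y q ≤ q := Nat.div_le_self _ _
    rw [Finset.mem_product]
    refine ⟨Finset.mem_filter.2 ⟨Finset.mem_Icc.2 ⟨hs1, hsle.trans hq1.2⟩,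
      hq'.2.1.squarefree_of_dvd h2, fun p hp => ?_⟩, Finset.mem_Icc.2 ⟨hdiv1, hdiv2.trans hq1.2⟩⟩
    have hpp := Nat.prime_of_mem_primeFactors hp
    have hpd := Nat.dvd_of_mem_primeFactors hp
    rw [hφ] at hpd
    simp only [smp] at hpd
    rw [Prime.dvd_finsetProd_iff hpp.prime] at hpd
    obtain ⟨l, hl, hpl⟩ := hpd
    rw [Finset.mem_filter] at hl
    rw [(Nat.prime_dvd_prime_iff_eq hpp (Nat.prime_of_mem_primeFactors hl.1)).1 hpl]
    exact hl.2
  have hterm : ∀ q ∈ Q, (q.divisors.card : ℝ) ^ 2 / q ≤ x ^ (-(s * σ)) * G (φ q) := by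
    intro q hq
    obtain ⟨h1, h2⟩ := hmulq q hq
    have hq' := Finset.mem_filter.1 hq
    have hq1 := Finset.mem_Icc.1 hq'.1
    set a := smp y q with ha
    set b := q / smp y q with hb
    have ha1 : 1 ≤ a := FACT_smp_pos y q
    have hb1 : 1 ≤ b := by
      rcases Nat.eq_zero_or_pos b with h0 | h0
      · rw [h0, mul_zero] at h1; omega
      · exact h0
    have ha0 : (0 : ℝ) < a := by exact_mod_cast ha1
    have hb0 : (0 : ℝ) < b := by exact_mod_cast hb1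
    have htau : (q.divisors.card : ℝ) ≤ (a.divisors.card : ℝ) * BV.tau b := by
      have h3 := BV.tau_mul_le a b (by omega) (by omega)
      rw [h1] at h3
      exact h3
    have hq0 : (q : ℝ) = a * b := by rw [← h1]; push_cast; rfl
    have hxa : x ^ s ≤ (a : ℝ) := hq'.2.2.le
    have h4 : (a : ℝ)⁻¹ ≤ x ^ (-(s * σ)) * (a : ℝ) ^ (σ - 1) := by
      have h5 : x ^ (s * σ) ≤ (a : ℝ) ^ σ := by
        rw [Real.rpow_mul hx0.le]
        exact Real.rpow_le_rpow (by positivity) hxa hσ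
      rw [Real.rpow_neg hx0.le, Real.rpow_sub ha0, Real.rpow_one, inv_mul_eq_div,
        le_div_iff₀ (by positivity), inv_mul_eq_div]
      exact div_le_div_of_nonneg_right h5 ha0.le
    have hta : (0 : ℝ) ≤ a.divisors.card := Nat.cast_nonneg _
    have htb : 0 ≤ BV.tau b := Nat.cast_nonneg _
    calc (q.divisors.card : ℝ) ^ 2 / q
        ≤ ((a.divisors.card : ℝ) * BV.tau b) ^ 2 / q := by gcongr
      _ = ((a.divisors.card : ℝ) ^ 2 * (a : ℝ)⁻¹) * (BV.tau b ^ 2 / (b : ℝ)) := by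
          rw [hq0]
          field_simp
      _ ≤ ((a.divisors.card : ℝ) ^ 2 * (x ^ (-(s * σ)) * (a : ℝ) ^ (σ - 1))) *
            (BV.tau b ^ 2 / (b : ℝ)) := by gcongr
      _ = x ^ (-(s * σ)) * G (φ q) := by
          rw [hG, hφ]
          simp only
          ring
  calc ∑ q ∈ Q, (q.divisors.card : ℝ) ^ 2 / q
      ≤ ∑ q ∈ Q, x ^ (-(s * σ)) * G (φ q) := Finset.sum_le_sum hterm
    _ = x ^ (-(s * σ)) * ∑ q ∈ Q, G (φ q) := by rw [Finset.mul_sum]
    _ = x ^ (-(s * σ)) * ∑ z ∈ Q.image φ, G z := by rw [Finset.sum_image hinj]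
    _ ≤ x ^ (-(s * σ)) * ∑ z ∈ S ×ˢ Icc 1 ⌊x⌋₊, G z := by
        refine mul_le_mul_of_nonneg_left ?_ (by positivity)
        exact Finset.sum_le_sum_of_subset_of_nonneg hsub fun z _ _ => hG0 z
    _ = x ^ (-(s * σ)) * ((∑ a ∈ S, (a.divisors.card : ℝ) ^ 2 * (a : ℝ) ^ (σ - 1)) *
          ∑ b ∈ Icc 1 ⌊x⌋₊, BV.tau b ^ 2 / (b : ℝ)) := by
        rw [Finset.sum_mul_sum, Finset.sum_product]
    _ ≤ x ^ (-(s * σ)) * (Real.exp (4 * (y ^ σ * (1 + Real.log y))) *
          (1 + Real.log x) ^ 4) := by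
        refine mul_le_mul_of_nonneg_left ?_ (by positivity)
        refine mul_le_mul (SMTH_euler y σ hy hσ _) ?_ ?_ (Real.exp_pos _).le
        · have h1 := BV.tau_pow_sum_div 2 ⌊x⌋₊
          have h2 : (1 : ℝ) ≤ (⌊x⌋₊ : ℝ) := by exact_mod_cast Nat.le_floor (by simpa using hx)
          have h3 : Real.log (⌊x⌋₊ : ℝ) ≤ Real.log x :=
            Real.log_le_log (by linarith) (Nat.floor_le (by linarith))
          have h4 : 0 ≤ Real.log (⌊x⌋₊ : ℝ) := Real.log_nonneg h2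
          refine h1.trans ?_
          norm_num
          exact pow_le_pow_left₀ (by linarith) (by linarith) 4
        · exact Finset.sum_nonneg fun b _ => by
            have : 0 ≤ BV.tau b := Nat.cast_nonneg _
            positivity

/-- the final estimate in `L = log x` -/
private theorem SMTH_large (κ : ℝ) (hκ : 0 < κ) (A B : ℕ) : ∀ᶠ L : ℝ in Filter.atTop,
    Real.exp (-(κ * L)) * (Real.exp (4 * (L ^ (1 / 2 : ℝ) * (1 + B * Real.log L))) *
      (1 + L) ^ 4) * L ^ A ≤ 1 := by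
  have e1 : ∀ᶠ L : ℝ in Filter.atTop, 16 / κ ≤ L ^ (1 / 2 : ℝ) :=
    (tendsto_rpow_atTop (by norm_num)).eventually_ge_atTop _
  have e2 : ∀ᶠ L : ℝ in Filter.atTop, ‖Real.log L‖ ≤ (κ / (16 * (B + 1))) * ‖L ^ (1 / 2 : ℝ)‖ :=
    (isLittleO_log_rpow_atTop (by norm_num : (0 : ℝ) < 1 / 2)).bound (by positivity)
  have e3 : ∀ᶠ L : ℝ in Filter.atTop, ‖L ^ (A + 4)‖ ≤ (1 / 16) * ‖Real.exp (κ / 2 * L)‖ :=
    (isLittleO_pow_exp_pos_mul_atTop (A + 4) (by positivity : 0 < κ / 2)).bound (by norm_num)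
  filter_upwards [e1, e2, e3, Filter.eventually_ge_atTop 1] with L h1 h2 h3 h4
  have hL0 : 0 < L := by linarith
  have hlog : 0 ≤ Real.log L := Real.log_nonneg h4
  have hsq : 0 < L ^ (1 / 2 : ℝ) := by positivity
  rw [Real.norm_of_nonneg hlog, Real.norm_of_nonneg hsq.le] at h2
  rw [Real.norm_of_nonneg (by positivity), Real.norm_of_nonneg (Real.exp_pos _).le] at h3
  have h5 : (B : ℝ) * Real.log L ≤ κ / 16 * L ^ (1 / 2 : ℝ) := by
    have hB : (0 : ℝ) ≤ B := Nat.cast_nonneg _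
    have hB1 : (0 : ℝ) < B + 1 := by positivity
    calc (B : ℝ) * Real.log L ≤ (B + 1) * Real.log L := by nlinarith
      _ ≤ (B + 1) * ((κ / (16 * (B + 1))) * L ^ (1 / 2 : ℝ)) :=
          mul_le_mul_of_nonneg_left h2 hB1.le
      _ = κ / 16 * L ^ (1 / 2 : ℝ) := by field_simp
  have h6 : (1 : ℝ) ≤ κ / 16 * L ^ (1 / 2 : ℝ) := by
    rw [div_le_iff₀ hκ] at h1
    linarith
  have h7 : L ^ (1 / 2 : ℝ) * L ^ (1 / 2 : ℝ) = L := by
    rw [← Real.rpow_add hL0]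
    norm_num
  have h8 : 4 * (L ^ (1 / 2 : ℝ) * (1 + B * Real.log L)) ≤ κ / 2 * L := by
    calc 4 * (L ^ (1 / 2 : ℝ) * (1 + B * Real.log L))
        ≤ 4 * (L ^ (1 / 2 : ℝ) * (κ / 8 * L ^ (1 / 2 : ℝ))) := by
          have : 1 + B * Real.log L ≤ κ / 8 * L ^ (1 / 2 : ℝ) := by linarith
          gcongr
      _ = κ / 2 * (L ^ (1 / 2 : ℝ) * L ^ (1 / 2 : ℝ)) := by ring
      _ = κ / 2 * L := by rw [h7]
  have h9 : (1 + L) ^ 4 * L ^ A ≤ Real.exp (κ / 2 * L) := by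
    calc (1 + L) ^ 4 * L ^ A ≤ (2 * L) ^ 4 * L ^ A := by gcongr; linarith
      _ = 16 * L ^ (A + 4) := by ring
      _ ≤ Real.exp (κ / 2 * L) := by linarith
  calc Real.exp (-(κ * L)) * (Real.exp (4 * (L ^ (1 / 2 : ℝ) * (1 + B * Real.log L))) *
      (1 + L) ^ 4) * L ^ A
      = Real.exp (-(κ * L)) * Real.exp (4 * (L ^ (1 / 2 : ℝ) * (1 + B * Real.log L))) *
        ((1 + L) ^ 4 * L ^ A) := by ring
    _ ≤ Real.exp (-(κ * L)) * Real.exp (κ / 2 * L) * Real.exp (κ / 2 * L) := by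
        gcongr
    _ = 1 := by
        rw [← Real.exp_add, ← Real.exp_add, ← Real.exp_zero]
        congr 1
        ring

/-- Rankin's bound for the smooth parts. -/
theorem rankin (s : ℝ) (hs : 0 < s) (A B : ℕ) : ∃ C : ℝ, ∀ x : ℝ, 2 ≤ x →
    ∑ q ∈ (Icc 1 ⌊x⌋₊).filter
        (fun q : ℕ => Squarefree q ∧ x ^ s < (smp (Real.log x ^ B) q : ℝ)),
      (q.divisors.card : ℝ) ^ 2 / q ≤ C / (Real.log x) ^ A := by
  set σ : ℝ := 1 / (2 * (B + 1)) with hσ
  have hσ0 : 0 < σ := by positivity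
  have e1 := Real.tendsto_log_atTop.eventually
    ((SMTH_large (s * σ) (by positivity) A B).and (Filter.eventually_ge_atTop (1 : ℝ)))
  obtain ⟨x0, hx0⟩ := Filter.eventually_atTop.1 e1
  set X0 : ℝ := max x0 2 with hX0
  set K0 : ℝ := ∑ q ∈ Icc 1 ⌊X0⌋₊, (q.divisors.card : ℝ) ^ 2 / q with hK0
  have hK0n : 0 ≤ K0 := Finset.sum_nonneg fun q _ => by positivity
  have hX02 : 2 ≤ X0 := le_max_right _ _
  refine ⟨1 + K0 * Real.log X0 ^ A, fun x hx => ?_⟩
  have hxpos : 0 < x := by linarith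
  have hLpos : 0 < Real.log x := Real.log_pos (by linarith)
  have hLX : 0 < Real.log X0 := Real.log_pos (by linarith)
  rw [le_div_iff₀ (by positivity)]
  rcases le_total X0 x with hcase | hcase
  · obtain ⟨h1, h2⟩ := hx0 x ((le_max_left _ _).trans hcase)
    have hy1 : 1 ≤ Real.log x ^ B := one_le_pow₀ h2
    have h3 := SMTH_rankin0 x (Real.log x ^ B) s σ (by linarith) hy1 hσ0.le
    have h4 : x ^ (-(s * σ)) = Real.exp (-(s * σ * Real.log x)) := by
      rw [Real.rpow_def_of_pos hxpos]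
      congr 1
      ring
    have h5 : (Real.log x ^ B) ^ σ ≤ Real.log x ^ (1 / 2 : ℝ) := by
      rw [← Real.rpow_natCast, ← Real.rpow_mul hLpos.le]
      refine Real.rpow_le_rpow_of_exponent_le h2 ?_
      rw [hσ]
      have hB : (0 : ℝ) ≤ B := Nat.cast_nonneg _
      rw [mul_one_div, div_le_div_iff₀ (by positivity) (by norm_num)]
      linarith
    have h6 : Real.log (Real.log x ^ B) = B * Real.log (Real.log x) := Real.log_pow _ _
    rw [h4, h6] at h3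
    have h7 : 0 ≤ Real.log (Real.log x) := Real.log_nonneg h2
    calc (∑ q ∈ (Icc 1 ⌊x⌋₊).filter
        (fun q : ℕ => Squarefree q ∧ x ^ s < (smp (Real.log x ^ B) q : ℝ)),
          (q.divisors.card : ℝ) ^ 2 / q) * Real.log x ^ A
        ≤ Real.exp (-(s * σ * Real.log x)) *
          (Real.exp (4 * ((Real.log x ^ B) ^ σ * (1 + B * Real.log (Real.log x)))) *
            (1 + Real.log x) ^ 4) * Real.log x ^ A :=
          mul_le_mul_of_nonneg_right h3 (by positivity)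
      _ ≤ Real.exp (-(s * σ * Real.log x)) *
          (Real.exp (4 * (Real.log x ^ (1 / 2 : ℝ) * (1 + B * Real.log (Real.log x)))) *
            (1 + Real.log x) ^ 4) * Real.log x ^ A := by
          gcongr
      _ ≤ 1 := h1
      _ ≤ 1 + K0 * Real.log X0 ^ A :=
          le_add_of_nonneg_right (mul_nonneg hK0n (pow_nonneg hLX.le A))
  · have h1 : ∑ q ∈ (Icc 1 ⌊x⌋₊).filter
        (fun q : ℕ => Squarefree q ∧ x ^ s < (smp (Real.log x ^ B) q : ℝ)),
          (q.divisors.card : ℝ) ^ 2 / q ≤ K0 := by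
      refine Finset.sum_le_sum_of_subset_of_nonneg ?_ fun q _ _ => by positivity
      intro q hq
      have h2 := Finset.mem_Icc.1 (Finset.mem_filter.1 hq).1
      exact Finset.mem_Icc.2 ⟨h2.1, h2.2.trans (Nat.floor_le_floor hcase)⟩
    have h2 : Real.log x ^ A ≤ Real.log X0 ^ A :=
      pow_le_pow_left₀ hLpos.le (Real.log_le_log hxpos hcase) A
    exact (mul_le_mul h1 h2 (pow_nonneg hLpos.le A) hK0n).trans
      (le_add_of_nonneg_left zero_le_one)

theorem smth (ν s : ℝ) (hν : 0 < ν) (hs : 0 < s) (c A B : ℕ) : ∃ C : ℝ, ∀ x : ℝ, 2 ≤ x →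
    ∀ M N : ℝ, Siz ν x M N → ∀ a : ℤ, ∀ α β : ℕ → ℝ, CB x c α → CB x c β →
      ∑ q ∈ (Icc 1 ⌊x ^ (3 / 4 : ℝ)⌋₊).filter
        (fun q : ℕ => Squarefree q ∧ x ^ s < (smp (Real.log x ^ B) q : ℝ) ∧ IsCoprime a (q : ℤ)),
        |Dsc2 ⌊4 * M⌋₊ ⌊4 * N⌋₊ α β q a| ≤ C * x / (Real.log x) ^ A := by
  obtain ⟨C0, hC0⟩ := trivDsc c
  obtain ⟨C1, hC1⟩ := rankin s hs (A + C0) B
  have hl2 : 0 < Real.log 2 := Real.log_pos (by norm_num)
  refine ⟨C0 * (1 + 1 / Real.log 2) ^ C0 * C1, fun x hx M N hMN a α β hα hβ => ?_⟩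
  have hxpos : 0 < x := by linarith
  have hx1 : 1 ≤ x := by linarith
  have hLpos : 0 < Real.log x := Real.log_pos (by linarith)
  have hL2 : Real.log 2 ≤ Real.log x := Real.log_le_log (by norm_num) hx
  have hN0 : 0 < N := lt_of_lt_of_le (by positivity) hMN.1
  have h34 : x ^ (3 / 4 : ℝ) ≤ x := by
    calc x ^ (3 / 4 : ℝ) ≤ x ^ (1 : ℝ) := Real.rpow_le_rpow_of_exponent_le hx1 (by norm_num)
      _ = x := Real.rpow_one x
  have hL1 : 1 + Real.log x ≤ (1 + 1 / Real.log 2) * Real.log x := by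
    have h1 : 1 ≤ 1 / Real.log 2 * Real.log x := by
      rw [one_div, inv_mul_eq_div, le_div_iff₀ hl2, one_mul]
      exact hL2
    linarith
  set K : ℝ := C0 * (1 + Real.log x) ^ C0 * x with hK
  have hK0 : 0 ≤ K := by positivity
  calc ∑ q ∈ (Icc 1 ⌊x ^ (3 / 4 : ℝ)⌋₊).filter
        (fun q : ℕ => Squarefree q ∧ x ^ s < (smp (Real.log x ^ B) q : ℝ) ∧ IsCoprime a (q : ℤ)),
        |Dsc2 ⌊4 * M⌋₊ ⌊4 * N⌋₊ α β q a|
      ≤ ∑ q ∈ (Icc 1 ⌊x ^ (3 / 4 : ℝ)⌋₊).filter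
        (fun q : ℕ => Squarefree q ∧ x ^ s < (smp (Real.log x ^ B) q : ℝ) ∧ IsCoprime a (q : ℤ)),
          K * ((q.divisors.card : ℝ) ^ 2 / q) := by
        refine Finset.sum_le_sum fun q hq => ?_
        rw [Finset.mem_filter, Finset.mem_Icc] at hq
        obtain ⟨⟨hq1, hq2⟩, -, -, hcop⟩ := hq
        have hqx : (q : ℝ) ≤ x ^ (3 / 4 : ℝ) := (Nat.le_floor_iff (by positivity)).1 hq2
        have hq0 : (0 : ℝ) < q := by exact_mod_cast hq1
        have h1 := hC0 x hx M N hN0 hMN.2.2.1 hMN.2.2.2 q hq1 hqx a hcop α β hα hβ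
        have h2 : (1 : ℝ) ≤ q.divisors.card := by
          exact_mod_cast Finset.card_pos.2 ⟨1, Nat.one_mem_divisors.2 (by omega)⟩
        calc |Dsc2 ⌊4 * M⌋₊ ⌊4 * N⌋₊ α β q a|
            ≤ (q.divisors.card : ℝ) * (C0 * (1 + Real.log x) ^ C0 * x / q) := h1
          _ ≤ (q.divisors.card : ℝ) ^ 2 * (C0 * (1 + Real.log x) ^ C0 * x / q) := by
              refine mul_le_mul_of_nonneg_right ?_ (by positivity)
              nlinarith
          _ = K * ((q.divisors.card : ℝ) ^ 2 / q) := by rw [hK]; ring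
    _ = K * ∑ q ∈ (Icc 1 ⌊x ^ (3 / 4 : ℝ)⌋₊).filter
        (fun q : ℕ => Squarefree q ∧ x ^ s < (smp (Real.log x ^ B) q : ℝ) ∧ IsCoprime a (q : ℤ)),
          ((q.divisors.card : ℝ) ^ 2 / q) := by rw [Finset.mul_sum]
    _ ≤ K * ∑ q ∈ (Icc 1 ⌊x⌋₊).filter
        (fun q : ℕ => Squarefree q ∧ x ^ s < (smp (Real.log x ^ B) q : ℝ)),
          ((q.divisors.card : ℝ) ^ 2 / q) := by
        refine mul_le_mul_of_nonneg_left ?_ hK0
        refine Finset.sum_le_sum_of_subset_of_nonneg ?_ fun q _ _ => by positivity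
        intro q hq
        rw [Finset.mem_filter, Finset.mem_Icc] at hq ⊢
        exact ⟨⟨hq.1.1, hq.1.2.trans (Nat.floor_le_floor h34)⟩, hq.2.1, hq.2.2.1⟩
    _ ≤ K * (C1 / (Real.log x) ^ (A + C0)) := mul_le_mul_of_nonneg_left (hC1 x hx) hK0
    _ ≤ C0 * (1 + 1 / Real.log 2) ^ C0 * C1 * x / (Real.log x) ^ A := by
        have hC1n : 0 ≤ C1 := by
          have h1 := hC1 x hx
          have h2 : 0 ≤ C1 / (Real.log x) ^ (A + C0) :=
            le_trans (Finset.sum_nonneg fun q _ => by positivity) h1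
          by_contra hneg
          push Not at hneg
          have : C1 / (Real.log x) ^ (A + C0) < 0 := div_neg_of_neg_of_pos hneg (by positivity)
          linarith
        have h3 : (1 + Real.log x) ^ C0 ≤ (1 + 1 / Real.log 2) ^ C0 * Real.log x ^ C0 := by
          rw [← mul_pow]
          exact pow_le_pow_left₀ (by positivity) hL1 C0
        calc K * (C1 / (Real.log x) ^ (A + C0))
            = C0 * C1 * x * (1 + Real.log x) ^ C0 / (Real.log x) ^ (A + C0) := by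
              rw [hK]; ring
          _ ≤ C0 * C1 * x * ((1 + 1 / Real.log 2) ^ C0 * Real.log x ^ C0) /
                (Real.log x) ^ (A + C0) := by gcongr
          _ = C0 * (1 + 1 / Real.log 2) ^ C0 * C1 * x / (Real.log x) ^ A := by
              rw [pow_add]
              field_simp

end Pool.Agent.Disp
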