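import Pool.Agent.Disp.Exp5

/-!
# DISP: the explicit inequality (helper87)

The dispersion estimate: a bilinear sum with the difference of two residue classes is bounded by
the core sums `Tot`. The definitions `chi`, `BS` are in `Exp.lean`.
-/

set_option autoImplicit false

namespace Pool.Agent.Disp

open Finset Pool.Agent.BCore

theorem disp : ∃ C : ℝ, 0 < C ∧ ∀ (M N R U V H D0 : ℕ) (Z T Bd : ℝ) (a b b' : ℤ)
    (α β : ℤ → ℂ) (c : ℕ → ℕ → ℕ → ℂ),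
    1 ≤ M → 1 ≤ R → 1 ≤ U → 1 ≤ V → 1 ≤ D0 → 1 ≤ Z → 1 ≤ T → 4 * U * V ≤ N →
    32 * Z * (R * ((U : ℝ) * V) ^ 2) ≤ H * M →
    (∀ m : ℕ, 1 ≤ m → (m : ℝ) ≤ M * N * Z → (tau m : ℝ) ≤ T) → 1 + Real.log N ≤ T →
    (∀ n, ‖β n‖ ≤ 1) → (∀ n, β n ≠ 0 → 1 ≤ n ∧ n ≤ N) → (∀ r u v, ‖c r u v‖ ≤ 1) →
    (∀ r u v, c r u v ≠ 0 → Squarefree (r * (u * v)) ∧ IsCoprime (r : ℤ) a ∧
      IsCoprime ((u * v : ℕ) : ℤ) b ∧ IsCoprime ((u * v : ℕ) : ℤ) b' ∧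
      ∀ p : ℕ, p.Prime → p ∣ u * v → D0 < p) →
    (∀ b1 ∈ ({b, b'} : Set ℤ), ∀ b2 ∈ ({b, b'} : Set ℤ),
      ∀ w : ℕ → ℤ → ℕ → ℕ → ℕ → ℕ → ℤ → ℂ,
      (∀ r l u1 v1 u2 v2 h, ‖w r l u1 v1 u2 v2 h‖ ≤ 1) →
      (∀ r l u1 v1 u2 v2 h, w r l u1 v1 u2 v2 h ≠ 0 →
        (r ∈ Ioc R (2 * R) ∧ u1 ∈ Icc U (2 * U) ∧ v1 ∈ Ioc V (2 * V) ∧
          u2 ∈ Icc U (2 * U) ∧ v2 ∈ Ioc V (2 * V)) ∧ c r u1 v1 ≠ 0 ∧ c r u2 v2 ≠ 0) →
      ‖Tot N R U V H β a b1 b2 w‖ ≤ Bd) →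
    ‖BS M N R U V α β a b b' c‖ ^ 2 ≤ C * (∑ m ∈ Icc (1 : ℤ) M, ‖α m‖ ^ 2) * R *
      (T ^ 4 * Z * (M * N) + T * R * ((U : ℝ) * V) ^ 2 +
        M * (N : ℝ) ^ 2 / R * (∑ g ∈ Ioc D0 (4 * U * V), (tau g : ℝ) ^ 2 / (g : ℝ) ^ 2) +
        M / (R * ((U : ℝ) * V) ^ 2) * Bd +
        Real.exp (-Z) * (M * N * R * ((U : ℝ) * V) ^ 2) ^ 2) := by
  have htC := tailC_pos
  refine ⟨Real.exp Real.pi * (256 + 1552 * tailC), by positivity, ?_⟩
  intro M N R U V H D0 Z T Bd a b b' α β c hM hR hU hV hD0 hZ hT hUV hH htau hlog hβ hβs hc hcs hcore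
  have h : Hyp M N R U V H D0 Z T a b b' β c :=
    ⟨hM, hR, hU, hV, hD0, hZ, hT, hUV, hH, htau, hlog, hβ, hβs, hc, hcs⟩
  have hN := hN_of_hyp h
  have hR1 : (1 : ℝ) ≤ R := by exact_mod_cast hR
  have hU1 : (1 : ℝ) ≤ U := by exact_mod_cast hU
  have hV1 : (1 : ℝ) ≤ V := by exact_mod_cast hV
  have hM1 : (1 : ℝ) ≤ M := by exact_mod_cast hM
  have hN1 : (1 : ℝ) ≤ N := by exact_mod_cast hN
  have hBd : 0 ≤ Bd := by
    have := hcore b (Set.mem_insert _ _) b (Set.mem_insert _ _) (fun _ _ _ _ _ _ _ => 0)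
      (fun _ _ _ _ _ _ _ => by simp) (fun _ _ _ _ _ _ _ hne => absurd rfl hne)
    exact le_trans (norm_nonneg _) this
  have hcore' : ∀ b1 ∈ ({b, b'} : Set ℤ), ∀ b2 ∈ ({b, b'} : Set ℤ),
      ‖Tot N R U V H β a b1 b2 (wt M R U V c)‖ ≤ Bd := by
    intro b1 hb1 b2 hb2
    exact hcore b1 hb1 b2 hb2 (wt M R U V c)
      (fun r l u1 v1 u2 v2 h => wt_norm hc hR hU hV r l u1 v1 u2 v2 h)
      (fun r l u1 v1 u2 v2 h hw => wt_supp hw)
  set S := ∑ g ∈ Ioc D0 (4 * U * V), (tau g : ℝ) ^ 2 / (g : ℝ) ^ 2 with hS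
  have hS0 : 0 ≤ S := sum_nonneg fun g _ => by positivity
  -- the sum of the quadratic forms
  have hV : (∑ r ∈ Ioc R (2 * R), Vr M N U V β a b b' c r) ≤
      (128 * (T ^ 4 * Z * (M * N)) + 32 * (T * R * ((U : ℝ) * V) ^ 2) +
        16 * (tailC * (Real.exp (-Z) * (R * ((U : ℝ) * V) ^ 2 * N * M ^ 2)))) +
      256 * (M * (N : ℝ) ^ 2 / R * S) + 4 * (M / (R * ((U : ℝ) * V) ^ 2) * Bd) +
      1536 * (tailC * (Real.exp (-Z) * ((N : ℝ) ^ 2 * (R * ((U : ℝ) * V) ^ 2) ^ 2))) := by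
    have hsum : ((∑ r ∈ Ioc R (2 * R), Vr M N U V β a b b' c r : ℝ) : ℂ) =
        (∑ r ∈ Ioc R (2 * R), ∑ t1 ∈ TT U V, ∑ t2 ∈ TT U V,
          zz c r t1 * (starRingEnd ℂ) (zz c r t2) *
            Dg M N β a (cl b b' t1.2) (cl b b' t2.2) r (t1.1.1 * t1.1.2) (t2.1.1 * t2.1.2)) +
        (∑ r ∈ Ioc R (2 * R), ∑ t1 ∈ TT U V, ∑ t2 ∈ TT U V,
          zz c r t1 * (starRingEnd ℂ) (zz c r t2) *
            Zs M N β a (cl b b' t1.2) (cl b b' t2.2) r (t1.1.1 * t1.1.2) (t2.1.1 * t2.1.2)) +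
        (∑ r ∈ Ioc R (2 * R), ∑ t1 ∈ TT U V, ∑ t2 ∈ TT U V,
          zz c r t1 * (starRingEnd ℂ) (zz c r t2) *
            Cs M N H β a (cl b b' t1.2) (cl b b' t2.2) r (t1.1.1 * t1.1.2) (t2.1.1 * t2.1.2)) +
        (∑ r ∈ Ioc R (2 * R), ∑ t1 ∈ TT U V, ∑ t2 ∈ TT U V,
          zz c r t1 * (starRingEnd ℂ) (zz c r t2) *
        (Qf M N β a (cl b b' t1.2) (cl b b' t2.2) r (t1.1.1 * t1.1.2) (t2.1.1 * t2.1.2) -
        Dg M N β a (cl b b' t1.2) (cl b b' t2.2) r (t1.1.1 * t1.1.2) (t2.1.1 * t2.1.2) -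
        Zs M N β a (cl b b' t1.2) (cl b b' t2.2) r (t1.1.1 * t1.1.2) (t2.1.1 * t2.1.2) -
        Cs M N H β a (cl b b' t1.2) (cl b b' t2.2) r (t1.1.1 * t1.1.2)
          (t2.1.1 * t2.1.2))) := by
      push_cast
      rw [← sum_add_distrib, ← sum_add_distrib, ← sum_add_distrib]
      refine sum_congr rfl fun r _ => ?_
      rw [Vr_eq hM, ← sum_add_distrib, ← sum_add_distrib, ← sum_add_distrib]
      refine sum_congr rfl fun t1 _ => ?_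
      rw [← sum_add_distrib, ← sum_add_distrib, ← sum_add_distrib]
      refine sum_congr rfl fun t2 _ => ?_
      ring
    have hle : (∑ r ∈ Ioc R (2 * R), Vr M N U V β a b b' c r) ≤
        ‖((∑ r ∈ Ioc R (2 * R), Vr M N U V β a b b' c r : ℝ) : ℂ)‖ := by
      rw [Complex.norm_real]
      exact le_abs_self _
    refine hle.trans ?_
    rw [hsum]
    refine (norm_add_le _ _).trans ?_
    refine add_le_add ((norm_add_le _ _).trans (add_le_add ((norm_add_le _ _).trans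
      (add_le_add (sum_Dg h) (sum_Zs h))) (sum_Cs h hcore'))) (sum_Er h)
  have hcau := cauchy hM N R U V α β a b b' c
  set A2 := ∑ m ∈ Icc (1 : ℤ) M, ‖α m‖ ^ 2 with hA2
  have hA0 : 0 ≤ A2 := sum_nonneg fun m _ => by positivity
  set Dd : ℝ := R * ((U : ℝ) * V) ^ 2 with hDd
  have hUV1 : (1 : ℝ) ≤ (U : ℝ) * V := by
    calc (1 : ℝ) = 1 * 1 := by ring
      _ ≤ (U : ℝ) * V := mul_le_mul hU1 hV1 zero_le_one (by positivity)
  have hDd1 : 1 ≤ Dd := by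
    calc (1 : ℝ) = 1 * 1 := by ring
      _ ≤ (R : ℝ) * ((U : ℝ) * V) ^ 2 :=
        mul_le_mul hR1 (one_le_pow₀ hUV1) zero_le_one (by positivity)
  have hexp := Real.exp_pos (-Z)
  have hT0 : 0 < T := lt_of_lt_of_le one_pos hT
  have hZ0 : 0 < Z := lt_of_lt_of_le one_pos hZ
  -- the two exponentially small terms
  have hx1 : Dd * N * (M : ℝ) ^ 2 ≤ (M * N * Dd) ^ 2 := by
    have e1 : (M * N * Dd) ^ 2 = (Dd * N * (M : ℝ) ^ 2) * (Dd * N) := by ring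
    rw [e1]
    refine le_mul_of_one_le_right (by positivity) ?_
    calc (1 : ℝ) = 1 * 1 := by ring
      _ ≤ Dd * N := mul_le_mul hDd1 hN1 zero_le_one (by positivity)
  have hx2 : (N : ℝ) ^ 2 * Dd ^ 2 ≤ (M * N * Dd) ^ 2 := by
    have e1 : (M * N * Dd) ^ 2 = ((N : ℝ) ^ 2 * Dd ^ 2) * (M : ℝ) ^ 2 := by ring
    rw [e1]
    exact le_mul_of_one_le_right (by positivity) (one_le_pow₀ hM1)
  have hx3 : (M : ℝ) * N * R * ((U : ℝ) * V) ^ 2 = M * N * Dd := by rw [hDd]; ring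
  rw [hx3]
  have hbig : (∑ r ∈ Ioc R (2 * R), Vr M N U V β a b b' c r) ≤ (256 + 1552 * tailC) *
      (T ^ 4 * Z * (M * N) + T * R * ((U : ℝ) * V) ^ 2 + M * (N : ℝ) ^ 2 / R * S +
        M / Dd * Bd + Real.exp (-Z) * (M * N * Dd) ^ 2) := by
    refine hV.trans ?_
    have t1 : 0 ≤ T ^ 4 * Z * (M * N) := by positivity
    have t2 : 0 ≤ T * R * ((U : ℝ) * V) ^ 2 := by positivity
    have t3 : 0 ≤ M * (N : ℝ) ^ 2 / R * S := by positivity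
    have t4 : 0 ≤ M / Dd * Bd := by positivity
    have t5 : 0 ≤ Real.exp (-Z) * (M * N * Dd) ^ 2 := by positivity
    have u1 : tailC * (Real.exp (-Z) * (Dd * N * (M : ℝ) ^ 2)) ≤
        tailC * (Real.exp (-Z) * (M * N * Dd) ^ 2) := by
      have := mul_le_mul_of_nonneg_left hx1 hexp.le
      exact mul_le_mul_of_nonneg_left this htC.le
    have u2 : tailC * (Real.exp (-Z) * ((N : ℝ) ^ 2 * Dd ^ 2)) ≤
        tailC * (Real.exp (-Z) * (M * N * Dd) ^ 2) := by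
      have := mul_le_mul_of_nonneg_left hx2 hexp.le
      exact mul_le_mul_of_nonneg_left this htC.le
    have v1 : 0 ≤ tailC * (T ^ 4 * Z * (M * N)) := by positivity
    have v2 : 0 ≤ tailC * (T * R * ((U : ℝ) * V) ^ 2) := by positivity
    have v3 : 0 ≤ tailC * (M * (N : ℝ) ^ 2 / R * S) := by positivity
    have v4 : 0 ≤ tailC * (M / Dd * Bd) := by positivity
    have v5 : 0 ≤ tailC * (Real.exp (-Z) * (M * N * Dd) ^ 2) := by positivity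
    have e : (256 + 1552 * tailC) *
      (T ^ 4 * Z * (M * N) + T * R * ((U : ℝ) * V) ^ 2 + M * (N : ℝ) ^ 2 / R * S +
        M / Dd * Bd + Real.exp (-Z) * (M * N * Dd) ^ 2) =
      256 * (T ^ 4 * Z * (M * N)) + 256 * (T * R * ((U : ℝ) * V) ^ 2) +
        256 * (M * (N : ℝ) ^ 2 / R * S) + 256 * (M / Dd * Bd) +
        256 * (Real.exp (-Z) * (M * N * Dd) ^ 2) +
        1552 * (tailC * (T ^ 4 * Z * (M * N))) +
        1552 * (tailC * (T * R * ((U : ℝ) * V) ^ 2)) +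
        1552 * (tailC * (M * (N : ℝ) ^ 2 / R * S)) + 1552 * (tailC * (M / Dd * Bd)) +
        1552 * (tailC * (Real.exp (-Z) * (M * N * Dd) ^ 2)) := by ring
    rw [e]
    linarith
  calc _ ≤ A2 * R * (Real.exp Real.pi * ∑ r ∈ Ioc R (2 * R), Vr M N U V β a b b' c r) := hcau
    _ ≤ A2 * R * (Real.exp Real.pi * ((256 + 1552 * tailC) *
      (T ^ 4 * Z * (M * N) + T * R * ((U : ℝ) * V) ^ 2 + M * (N : ℝ) ^ 2 / R * S +
        M / Dd * Bd + Real.exp (-Z) * (M * N * Dd) ^ 2))) := by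
        refine mul_le_mul_of_nonneg_left ?_ (by positivity)
        exact mul_le_mul_of_nonneg_left hbig (Real.exp_pos _).le
    _ = _ := by ring

end Pool.Agent.Disp

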