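import Pool.Agent.Disp.L0
import Pool.Agent.Disp.L1Tau
import Pool.Agent.Disp.Main
import Pool.Agent.BV.TauA

/-!
# DISP module BOX: one dyadic box, from the explicit inequality `disp`

Proof. `disp` with `M := ⌊4M⌋`, `N := ⌊4N⌋`, `b := a`, `b' := b`, `Z := x^s`, `H := Hx ..`,
`D0 := ⌊L^B⌋`, `T := x^(s/10)` (`tau_sup`), `α := ext α`, `β := ext β`, `c r u v :=` sign of
`Dif .. r (u v)` if `(r, u, v) ∈ S` and `0` otherwise; the left side of `disp` is then the sum of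
the `|Dif|`. `Bd = N^2 (UV)^2 x^(-η)`. With `Σ α^2 ≤ 4 M (1+L)^C` (`CB`, `tau_pow_sum`) the square
of the sum is at most `C (MN)^2 (1+L)^C ( x^(5s) R/N + x^(s) R^2 (UV)^2/(M N^2) + L^(-B/2)
+ x^(-η) + exp(-x^s) x^30 )`, `R ≤ N x^(-3e+s)`, `R U V ≤ x^(1/2+2w)`; `4 U V ≤ ⌊4N⌋` by `b1`.
If `S` is empty nothing to do.
-/

set_option autoImplicit false

namespace Pool.Agent.Disp

open Finset Pool.Agent.BGG Pool.Agent.BCore

namespace Box

theorem sum_Icc_int (X : ℕ) (f : ℤ → ℂ) :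
    ∑ m ∈ Icc (1 : ℤ) X, f m = ∑ m ∈ Icc 1 X, f (m : ℤ) := by
  refine Finset.sum_nbij' (fun m => m.toNat) (fun m => (m : ℤ)) ?_ ?_ ?_ ?_ ?_
  · intro m hm
    rw [mem_Icc] at hm ⊢
    omega
  · intro m hm
    rw [mem_Icc] at hm ⊢
    omega
  · intro m hm
    rw [mem_Icc] at hm
    exact Int.toNat_of_nonneg (by omega)
  · intro m _
    exact Int.toNat_natCast m
  · intro m hm
    rw [mem_Icc] at hm
    rw [Int.toNat_of_nonneg (by omega)]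

theorem ext_nat (f : ℕ → ℝ) (m : ℕ) : ext f (m : ℤ) = ((f m : ℝ) : ℂ) := by
  rw [ext, if_pos (Int.natCast_nonneg m), Int.toNat_natCast]

theorem inner_eq (X Y : ℕ) (α β : ℕ → ℝ) (a b : ℤ) (r d : ℕ) :
    ∑ m ∈ Icc (1 : ℤ) X, ∑ n ∈ Icc (1 : ℤ) Y, ext α m * ext β n *
      (chi a a r d (m * n) - chi a b r d (m * n)) = ((Dif X Y α β r d a b : ℝ) : ℂ) := by
  rw [sum_Icc_int, Dif, Complex.ofReal_sum]
  refine Finset.sum_congr rfl (fun m _ => ?_)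
  rw [sum_Icc_int, Complex.ofReal_sum]
  refine Finset.sum_congr rfl (fun n _ => ?_)
  rw [ext_nat, ext_nat, chi, chi]
  have h : ((m : ℤ) * (n : ℤ)) = ((m * n : ℕ) : ℤ) := by push_cast; rfl
  rw [h]
  split_ifs <;> simp

open Classical in
/-- the signs -/
noncomputable def sgBx (X Y : ℕ) (α β : ℕ → ℝ) (a b : ℤ) (S : Finset (ℕ × ℕ × ℕ))
    (r u v : ℕ) : ℂ :=
  if (r, u, v) ∈ S then (if 0 ≤ Dif X Y α β r (u * v) a b then 1 else -1) else 0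

theorem norm_sg (X Y : ℕ) (α β : ℕ → ℝ) (a b : ℤ) (S : Finset (ℕ × ℕ × ℕ)) (r u v : ℕ) :
    ‖sgBx X Y α β a b S r u v‖ ≤ 1 := by
  rw [sgBx]
  split_ifs <;> simp

theorem sgBx_ne (X Y : ℕ) (α β : ℕ → ℝ) (a b : ℤ) (S : Finset (ℕ × ℕ × ℕ)) (r u v : ℕ)
    (h : sgBx X Y α β a b S r u v ≠ 0) : (r, u, v) ∈ S := by
  by_contra hn
  exact h (if_neg hn)

theorem BS_eqBx (X Y R U V : ℕ) (α β : ℕ → ℝ) (a b : ℤ) (S : Finset (ℕ × ℕ × ℕ))
    (hS : ∀ t ∈ S, t.1 ∈ Ioc R (2 * R) ∧ t.2.1 ∈ Icc U (2 * U) ∧ t.2.2 ∈ Ioc V (2 * V)) :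
    BS X Y R U V (ext α) (ext β) a a b (sgBx X Y α β a b S) =
      ((∑ t ∈ S, |Dif X Y α β t.1 (t.2.1 * t.2.2) a b| : ℝ) : ℂ) := by
  classical
  rw [BS]
  have h1 : ∀ r u v : ℕ, sgBx X Y α β a b S r u v *
      ∑ m ∈ Icc (1 : ℤ) X, ∑ n ∈ Icc (1 : ℤ) Y, ext α m * ext β n *
        (chi a a r (u * v) (m * n) - chi a b r (u * v) (m * n)) =
      if (r, u, v) ∈ S then ((|Dif X Y α β r (u * v) a b| : ℝ) : ℂ) else 0 := by
    intro r u v
    rw [inner_eq, sgBx]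
    split_ifs with h2 h3
    · rw [abs_of_nonneg h3, one_mul]
    · rw [abs_of_neg (not_le.1 h3)]
      push_cast
      ring
    · rw [zero_mul]
  simp only [h1]
  have h2 : ∑ r ∈ Ioc R (2 * R), ∑ u ∈ Icc U (2 * U), ∑ v ∈ Ioc V (2 * V),
      (if (r, u, v) ∈ S then ((|Dif X Y α β r (u * v) a b| : ℝ) : ℂ) else 0) =
      ∑ t ∈ Ioc R (2 * R) ×ˢ (Icc U (2 * U) ×ˢ Ioc V (2 * V)),
        (if t ∈ S then ((|Dif X Y α β t.1 (t.2.1 * t.2.2) a b| : ℝ) : ℂ) else 0) := by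
    rw [Finset.sum_product]
    refine Finset.sum_congr rfl (fun r _ => ?_)
    rw [Finset.sum_product]
  have h3 : ∑ t ∈ S, (if t ∈ S then ((|Dif X Y α β t.1 (t.2.1 * t.2.2) a b| : ℝ) : ℂ) else 0) =
      ∑ t ∈ Ioc R (2 * R) ×ˢ (Icc U (2 * U) ×ˢ Ioc V (2 * V)),
        (if t ∈ S then ((|Dif X Y α β t.1 (t.2.1 * t.2.2) a b| : ℝ) : ℂ) else 0) := by
    apply Finset.sum_subset
    · intro t ht
      obtain ⟨h3, h4, h5⟩ := hS t ht
      rw [mem_product, mem_product]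
      exact ⟨h3, h4, h5⟩
    · intro t _ ht
      rw [if_neg ht]
  rw [h2, ← h3, Complex.ofReal_sum]
  refine Finset.sum_congr rfl (fun t ht => ?_)
  rw [if_pos ht]

/-- the second moment of `α` -/
theorem sum_sq (c X : ℕ) (x : ℝ) (hx : 1 ≤ Real.log x) (hX : (X : ℝ) ≤ x) (α : ℕ → ℝ)
    (hα : CB x c α) :
    ∑ m ∈ Icc (1 : ℤ) X, ‖ext α m‖ ^ 2 ≤
      (X : ℝ) * (2 : ℝ) ^ (2 ^ (2 * c)) * Real.log x ^ (2 * c + 2 ^ (2 * c)) := by
  have h0 : ∑ m ∈ Icc (1 : ℤ) X, ‖ext α m‖ ^ 2 = ∑ m ∈ Icc 1 X, |α m| ^ 2 := by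
    refine Finset.sum_nbij' (fun m => m.toNat) (fun m => (m : ℤ)) ?_ ?_ ?_ ?_ ?_
    · intro m hm
      rw [mem_Icc] at hm ⊢
      omega
    · intro m hm
      rw [mem_Icc] at hm ⊢
      omega
    · intro m hm
      rw [mem_Icc] at hm
      exact Int.toNat_of_nonneg (by omega)
    · intro m _
      exact Int.toNat_natCast m
    · intro m hm
      rw [mem_Icc] at hm
      rw [ext, if_pos (by omega), Complex.norm_real, Real.norm_eq_abs]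
  rw [h0]
  have hL0 : 0 ≤ Real.log x := by linarith
  have h1 : ∀ m ∈ Icc 1 X, |α m| ^ 2 ≤ Real.log x ^ (2 * c) * Pool.Agent.BV.tau m ^ (2 * c) := by
    intro m _
    have h2 := hα m
    calc |α m| ^ 2 ≤ (((m.divisors.card : ℝ) * Real.log x) ^ c) ^ 2 :=
          pow_le_pow_left₀ (abs_nonneg _) h2 2
      _ = Real.log x ^ (2 * c) * Pool.Agent.BV.tau m ^ (2 * c) := by
          rw [← pow_mul, mul_pow, mul_comm c 2, mul_comm]
          rfl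
  refine (Finset.sum_le_sum h1).trans ?_
  rw [← Finset.mul_sum]
  have h2 := Pool.Agent.BV.tau_pow_sum (2 * c) X
  have h3 : (1 + Real.log X) ^ (2 ^ (2 * c)) ≤ (2 * Real.log x) ^ (2 ^ (2 * c)) := by
    apply pow_le_pow_left₀
    · have : 0 ≤ Real.log X := Real.log_natCast_nonneg X
      linarith
    · rcases Nat.eq_zero_or_pos X with h | h
      · subst h
        rw [Nat.cast_zero, Real.log_zero]
        linarith
      · have h4 : Real.log X ≤ Real.log x := Real.log_le_log (by exact_mod_cast h) hX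
        linarith
  calc Real.log x ^ (2 * c) * ∑ m ∈ Icc 1 X, Pool.Agent.BV.tau m ^ (2 * c)
      ≤ Real.log x ^ (2 * c) * ((X : ℝ) * (1 + Real.log X) ^ (2 ^ (2 * c))) :=
        mul_le_mul_of_nonneg_left h2 (pow_nonneg hL0 _)
    _ ≤ Real.log x ^ (2 * c) * ((X : ℝ) * (2 * Real.log x) ^ (2 ^ (2 * c))) :=
        mul_le_mul_of_nonneg_left (mul_le_mul_of_nonneg_left h3 (Nat.cast_nonneg _))
          (pow_nonneg hL0 _)
    _ = (X : ℝ) * (2 : ℝ) ^ (2 ^ (2 * c)) * Real.log x ^ (2 * c + 2 ^ (2 * c)) := by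
        rw [mul_pow, pow_add]
        ring

/-- logarithms against powers -/
theorem ev_log (K : ℕ) {δ : ℝ} (hδ : 0 < δ) :
    ∀ᶠ x : ℝ in Filter.atTop, Real.log x ^ K ≤ x ^ δ := by
  have h := (isLittleO_log_rpow_rpow_atTop (K : ℝ) hδ).bound (c := 1) one_pos
  filter_upwards [h, Filter.eventually_ge_atTop (1 : ℝ)] with x hx hx1
  rw [one_mul, Real.rpow_natCast] at hx
  have h0 : 0 ≤ Real.log x := Real.log_nonneg hx1
  rw [Real.norm_of_nonneg (pow_nonneg h0 _),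
    Real.norm_of_nonneg (Real.rpow_nonneg (by linarith) _)] at hx
  exact hx

theorem ev_const (c : ℝ) {δ : ℝ} (hδ : 0 < δ) : ∀ᶠ x : ℝ in Filter.atTop, c ≤ x ^ δ :=
  (tendsto_rpow_atTop hδ).eventually_ge_atTop c

theorem ev_exp (K : ℕ) {s : ℝ} (hs : 0 < s) :
    ∀ᶠ x : ℝ in Filter.atTop, x ^ (10 : ℕ) * Real.log x ^ K * Real.exp (-x ^ s) ≤ 1 := by
  have h1 : Filter.Tendsto (fun x : ℝ => (x ^ s) ^ (11 / s) * Real.exp (-1 * x ^ s))
      Filter.atTop (nhds 0) :=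
    (tendsto_rpow_mul_exp_neg_mul_atTop_nhds_zero (11 / s) 1 one_pos).comp
      (tendsto_rpow_atTop hs)
  have h2 := h1.eventually (ge_mem_nhds (show (0 : ℝ) < 1 by norm_num))
  filter_upwards [h2, ev_log K one_pos, Filter.eventually_ge_atTop (1 : ℝ)] with x hx hL hx1
  have hx0 : 0 ≤ x := by linarith
  rw [← Real.rpow_mul hx0, mul_div_cancel₀ _ hs.ne'] at hx
  rw [Real.rpow_one] at hL
  have h3 : x ^ (11 : ℝ) = x ^ (10 : ℕ) * x := by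
    rw [show (11 : ℝ) = ((11 : ℕ) : ℝ) by norm_num, Real.rpow_natCast]
    ring
  rw [h3, neg_one_mul] at hx
  calc x ^ (10 : ℕ) * Real.log x ^ K * Real.exp (-x ^ s)
      ≤ x ^ (10 : ℕ) * x * Real.exp (-x ^ s) := by
        apply mul_le_mul_of_nonneg_right _ (Real.exp_nonneg _)
        exact mul_le_mul_of_nonneg_left hL (pow_nonneg hx0 _)
    _ ≤ 1 := hx

theorem floor_half {y : ℝ} (hy : 1 ≤ y) : y / 2 ≤ (⌊y⌋₊ : ℝ) := by
  have h1 : y < (⌊y⌋₊ : ℝ) + 1 := Nat.lt_floor_add_one y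
  have h2 : 1 ≤ ⌊y⌋₊ := Nat.le_floor (by exact_mod_cast hy)
  have h3 : (1 : ℝ) ≤ (⌊y⌋₊ : ℝ) := by exact_mod_cast h2
  linarith

theorem uv_le (w ν e δ x N R UV : ℝ) (hx : 0 < x) (hN : 0 < N) (hN1 : x ^ ν / 4 ≤ N)
    (hUV : 0 < UV) (hRlo : N * x ^ (-(3 * e + δ)) ≤ 2 * R)
    (hRUV : R * UV ≤ x ^ (1 / 2 + 2 * w))
    (h32 : 32 ≤ x ^ (2 * ν - (1 / 2 + 2 * w + 3 * e + δ))) : UV ≤ N := by
  have h2 : UV * (N * x ^ (-(3 * e + δ))) ≤ 2 * x ^ (1 / 2 + 2 * w) := by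
    calc UV * (N * x ^ (-(3 * e + δ))) ≤ UV * (2 * R) :=
          mul_le_mul_of_nonneg_left hRlo hUV.le
      _ = 2 * (R * UV) := by ring
      _ ≤ 2 * x ^ (1 / 2 + 2 * w) := by linarith
  have h3 : UV * N ≤ 2 * x ^ (1 / 2 + 2 * w + 3 * e + δ) := by
    have h4 : x ^ (1 / 2 + 2 * w + 3 * e + δ) =
        x ^ (1 / 2 + 2 * w) * x ^ (3 * e + δ) := by
      rw [← Real.rpow_add hx]
      congr 1
      ring
    have h5 : x ^ (-(3 * e + δ)) * x ^ (3 * e + δ) = 1 := by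
      rw [← Real.rpow_add hx]
      simp
    have h6 : 0 ≤ x ^ (3 * e + δ) := by positivity
    calc UV * N = UV * (N * x ^ (-(3 * e + δ))) * x ^ (3 * e + δ) := by
          rw [mul_assoc, mul_assoc, h5, mul_one]
      _ ≤ 2 * x ^ (1 / 2 + 2 * w) * x ^ (3 * e + δ) :=
          mul_le_mul_of_nonneg_right h2 h6
      _ = 2 * x ^ (1 / 2 + 2 * w + 3 * e + δ) := by rw [h4]; ring
  have h7 : 32 * x ^ (1 / 2 + 2 * w + 3 * e + δ) ≤ x ^ (2 * ν) := by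
    have h8 : x ^ (2 * ν) = x ^ (2 * ν - (1 / 2 + 2 * w + 3 * e + δ)) *
        x ^ (1 / 2 + 2 * w + 3 * e + δ) := by
      rw [← Real.rpow_add hx]
      congr 1
      ring
    rw [h8]
    exact mul_le_mul_of_nonneg_right h32 (by positivity)
  have h9 : x ^ (2 * ν) ≤ 16 * (N * N) := by
    have h10 : x ^ (2 * ν) = x ^ ν * x ^ ν := by
      rw [← Real.rpow_add hx]
      congr 1
      ring
    rw [h10]
    have h11 : 0 ≤ x ^ ν := by positivity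
    have h12 : x ^ ν ≤ 4 * N := by linarith only [hN1]
    have h13 := mul_self_le_mul_self h11 h12
    linarith only [h13]
  have h12 : UV * N ≤ N * N := by linarith
  exact le_of_mul_le_mul_right h12 hN

theorem num_est (w ν e s η x M N R UV X Y G Ct LJ : ℝ) (hs : 0 < s) (hs2 : 10 * s ≤ e)
    (he : 0 < e) (hw : 0 ≤ w) (hw2 : w ≤ 1 / 16) (hb2 : 5 * w + e < ν)
    (hx : 256 ≤ x) (hM : 0 < M) (hN : 0 < N) (hN1 : x ^ ν / 4 ≤ N)
    (hMN2 : M * N ≤ 4 * x) (hR : 1 ≤ R) (hUV : 1 ≤ UV) (hRN : R ≤ N * x ^ (-(3 * e) + s))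
    (hRUV : R * UV ≤ x ^ (1 / 2 + 2 * w)) (hX0 : 0 ≤ X) (hX : X ≤ 4 * M) (hY0 : 0 ≤ Y)
    (hY : Y ≤ 4 * N) (hLJ0 : 0 < LJ) (hLe : LJ ≤ x ^ (e / 2)) (hLη : LJ ≤ x ^ η)
    (hexp : x ^ (10 : ℕ) * LJ * Real.exp (-x ^ s) ≤ 1) (hG0 : 0 ≤ G) (hG : G * LJ ≤ 2 * Ct) :
    M * R * ((x ^ (s / 10)) ^ 4 * x ^ s * (X * Y) + x ^ (s / 10) * R * UV ^ 2 +
      X * Y ^ 2 / R * G + X / (R * UV ^ 2) * (N ^ 2 * UV ^ 2 * x ^ (-η)) +
      Real.exp (-x ^ s) * (X * Y * R * UV ^ 2) ^ 2) * LJ ≤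
      (256 + 16 + 2048 * Ct + 64 + 1) * x ^ 2 := by
  have hxp : 0 < x := by linarith
  have hx1 : 1 ≤ x := by linarith
  have hRp : 0 < R := by linarith
  have hUVp : 0 < UV := by linarith
  have hMN0 : 0 < M * N := mul_pos hM hN
  have hMNsq : (M * N) ^ 2 ≤ 16 * x ^ 2 := by
    calc (M * N) ^ 2 ≤ (4 * x) ^ 2 := pow_le_pow_left₀ hMN0.le hMN2 2
      _ = 16 * x ^ 2 := by ring
  have hXY : X * Y ≤ 64 * x := by
    calc X * Y ≤ (4 * M) * (4 * N) := mul_le_mul hX hY hY0 (by positivity)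
      _ = 16 * (M * N) := by ring
      _ ≤ 64 * x := by linarith
  have hXY0 : 0 ≤ X * Y := mul_nonneg hX0 hY0
  have hMR : M * R ≤ 4 * x * x ^ (-(3 * e) + s) := by
    calc M * R ≤ M * (N * x ^ (-(3 * e) + s)) := mul_le_mul_of_nonneg_left hRN hM.le
      _ = M * N * x ^ (-(3 * e) + s) := by ring
      _ ≤ 4 * x * x ^ (-(3 * e) + s) := mul_le_mul_of_nonneg_right hMN2 (by positivity)
  have hMR0 : 0 ≤ M * R := by positivity
  have hRUV0 : 0 ≤ R * UV := by positivity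
  have hRUV2 : (R * UV) ^ 2 ≤ x ^ (1 + 4 * w) := by
    calc (R * UV) ^ 2 ≤ (x ^ (1 / 2 + 2 * w)) ^ 2 := pow_le_pow_left₀ hRUV0 hRUV 2
      _ = x ^ (1 + 4 * w) := by
          rw [← Real.rpow_natCast, ← Real.rpow_mul hxp.le]
          congr 1
          push_cast
          ring
  have hMle : M ≤ 16 * x ^ (1 - ν) := by
    have h1 : M * (x ^ ν / 4) ≤ 4 * x := (mul_le_mul_of_nonneg_left hN1 hM.le).trans hMN2
    have h2 : x ^ (1 - ν) * x ^ ν = x := by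
      rw [← Real.rpow_add hxp]
      simp
    have h3 : 0 < x ^ ν := by positivity
    have h4 : M * x ^ ν ≤ 16 * x ^ (1 - ν) * x ^ ν := by
      rw [mul_assoc, h2]
      linarith
    exact le_of_mul_le_mul_right h4 h3
  -- term 1
  have t1 : M * R * ((x ^ (s / 10)) ^ 4 * x ^ s * (X * Y)) * LJ ≤ 256 * x ^ 2 := by
    have e1 : (x ^ (s / 10)) ^ 4 * x ^ s = x ^ (4 * (s / 10) + s) := by
      rw [← Real.rpow_natCast, ← Real.rpow_mul hxp.le, ← Real.rpow_add hxp]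
      congr 1
      push_cast
      ring
    rw [e1]
    have e2 : x ^ (-(3 * e) + s) * x ^ (4 * (s / 10) + s) * x ^ (e / 2) ≤ 1 := by
      rw [← Real.rpow_add hxp, ← Real.rpow_add hxp]
      apply Real.rpow_le_one_of_one_le_of_nonpos hx1
      linarith
    calc M * R * (x ^ (4 * (s / 10) + s) * (X * Y)) * LJ
        ≤ (4 * x * x ^ (-(3 * e) + s)) * (x ^ (4 * (s / 10) + s) * (64 * x)) * x ^ (e / 2) := by
          gcongr
      _ = 256 * x ^ 2 * (x ^ (-(3 * e) + s) * x ^ (4 * (s / 10) + s) * x ^ (e / 2)) := by ring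
      _ ≤ 256 * x ^ 2 * 1 := mul_le_mul_of_nonneg_left e2 (by positivity)
      _ = 256 * x ^ 2 := mul_one _
  -- term 2
  have t2 : M * R * (x ^ (s / 10) * R * UV ^ 2) * LJ ≤ 16 * x ^ 2 := by
    have e1 : x ^ (1 - ν) * x ^ (1 + 4 * w) * x ^ (s / 10) * x ^ (e / 2) ≤ x ^ 2 := by
      rw [← Real.rpow_add hxp, ← Real.rpow_add hxp, ← Real.rpow_add hxp, ← Real.rpow_natCast]
      apply Real.rpow_le_rpow_of_exponent_le hx1
      push_cast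
      linarith
    calc M * R * (x ^ (s / 10) * R * UV ^ 2) * LJ
        = M * (R * UV) ^ 2 * x ^ (s / 10) * LJ := by ring
      _ ≤ (16 * x ^ (1 - ν)) * x ^ (1 + 4 * w) * x ^ (s / 10) * x ^ (e / 2) := by
          gcongr
      _ = 16 * (x ^ (1 - ν) * x ^ (1 + 4 * w) * x ^ (s / 10) * x ^ (e / 2)) := by ring
      _ ≤ 16 * x ^ 2 := by linarith
  -- term 3
  have t3 : M * R * (X * Y ^ 2 / R * G) * LJ ≤ 2048 * Ct * x ^ 2 := by
    have hCt : 0 ≤ Ct := by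
      have : 0 ≤ G * LJ := by positivity
      linarith
    calc M * R * (X * Y ^ 2 / R * G) * LJ = M * X * Y ^ 2 * (G * LJ) := by
          field_simp
      _ ≤ M * (4 * M) * (4 * N) ^ 2 * (2 * Ct) := by
          gcongr
      _ = 128 * Ct * (M * N) ^ 2 := by ring
      _ ≤ 128 * Ct * (16 * x ^ 2) := mul_le_mul_of_nonneg_left hMNsq (by positivity)
      _ = 2048 * Ct * x ^ 2 := by ring
  -- term 4
  have t4 : M * R * (X / (R * UV ^ 2) * (N ^ 2 * UV ^ 2 * x ^ (-η))) * LJ ≤ 64 * x ^ 2 := by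
    have e1 : x ^ (-η) * LJ ≤ 1 := by
      calc x ^ (-η) * LJ ≤ x ^ (-η) * x ^ η := mul_le_mul_of_nonneg_left hLη (by positivity)
        _ = 1 := by rw [← Real.rpow_add hxp]; simp
    have e0 : 0 ≤ x ^ (-η) * LJ := by positivity
    calc M * R * (X / (R * UV ^ 2) * (N ^ 2 * UV ^ 2 * x ^ (-η))) * LJ
        = M * X * N ^ 2 * (x ^ (-η) * LJ) := by
          field_simp
      _ ≤ M * (4 * M) * N ^ 2 * 1 := by gcongr
      _ = 4 * (M * N) ^ 2 := by ring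
      _ ≤ 64 * x ^ 2 := by linarith
  -- term 5
  have t5 : M * R * (Real.exp (-x ^ s) * (X * Y * R * UV ^ 2) ^ 2) * LJ ≤ 1 * x ^ 2 := by
    have e1 : M * R ≤ x ^ 2 := by
      have : x ^ (-(3 * e) + s) ≤ 1 := by
        apply Real.rpow_le_one_of_one_le_of_nonpos hx1
        linarith
      have e5 := mul_le_mul_of_nonneg_left this (show (0 : ℝ) ≤ 4 * x by linarith only [hx1])
      have e6 : 4 * x * 1 ≤ x ^ 2 := by nlinarith only [hx]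
      exact hMR.trans (e5.trans e6)
    have e2 : X * Y ≤ x ^ 2 := by
      have e6 : 64 * x ≤ x ^ 2 := by nlinarith only [hx]
      exact hXY.trans e6
    have e3 : R * UV ^ 2 ≤ x ^ 2 := by
      calc R * UV ^ 2 ≤ R * (R * UV ^ 2) := by
            have h1 : 0 ≤ R * UV ^ 2 := by positivity
            exact le_mul_of_one_le_left h1 hR
        _ = (R * UV) ^ 2 := by ring
        _ ≤ x ^ (1 + 4 * w) := hRUV2
        _ ≤ x ^ (2 : ℝ) := Real.rpow_le_rpow_of_exponent_le hx1 (by linarith)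
        _ = x ^ 2 := by
            rw [show (2 : ℝ) = ((2 : ℕ) : ℝ) by norm_num, Real.rpow_natCast]
    have e4 : X * Y * R * UV ^ 2 ≤ x ^ 4 := by
      calc X * Y * R * UV ^ 2 = (X * Y) * (R * UV ^ 2) := by ring
        _ ≤ x ^ 2 * x ^ 2 := mul_le_mul e2 e3 (by positivity) (by positivity)
        _ = x ^ 4 := by ring
    have e5 : 0 ≤ X * Y * R * UV ^ 2 := by positivity
    calc M * R * (Real.exp (-x ^ s) * (X * Y * R * UV ^ 2) ^ 2) * LJ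
        ≤ x ^ 2 * (Real.exp (-x ^ s) * (x ^ 4) ^ 2) * LJ := by
          gcongr
      _ = x ^ (10 : ℕ) * LJ * Real.exp (-x ^ s) := by ring
      _ ≤ 1 := hexp
      _ ≤ 1 * x ^ 2 := by
          rw [one_mul]
          exact one_le_pow₀ hx1
  calc M * R * ((x ^ (s / 10)) ^ 4 * x ^ s * (X * Y) + x ^ (s / 10) * R * UV ^ 2 +
      X * Y ^ 2 / R * G + X / (R * UV ^ 2) * (N ^ 2 * UV ^ 2 * x ^ (-η)) +
      Real.exp (-x ^ s) * (X * Y * R * UV ^ 2) ^ 2) * LJ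
      = M * R * ((x ^ (s / 10)) ^ 4 * x ^ s * (X * Y)) * LJ +
        M * R * (x ^ (s / 10) * R * UV ^ 2) * LJ + M * R * (X * Y ^ 2 / R * G) * LJ +
        M * R * (X / (R * UV ^ 2) * (N ^ 2 * UV ^ 2 * x ^ (-η))) * LJ +
        M * R * (Real.exp (-x ^ s) * (X * Y * R * UV ^ 2) ^ 2) * LJ := by ring
    _ ≤ 256 * x ^ 2 + 16 * x ^ 2 + 2048 * Ct * x ^ 2 + 64 * x ^ 2 + 1 * x ^ 2 := by
        gcongr
    _ = (256 + 16 + 2048 * Ct + 64 + 1) * x ^ 2 := by ring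

/-- conclusion -/
theorem fin_est {S C0 C1 C2 A2 M R Q L x : ℝ} {K A : ℕ} (hS : 0 ≤ S) (hx : 0 ≤ x) (hL : 1 ≤ L)
    (hC0 : 0 < C0) (hC1 : 0 < C1) (hR : 0 ≤ R) (hQ : 0 ≤ Q)
    (hmain : S ^ 2 ≤ C0 * A2 * R * Q) (hA2 : A2 ≤ C1 * M * L ^ K)
    (hnum : M * R * Q * L ^ (K + 2 * A) ≤ C2 * x ^ 2) :
    S ≤ Real.sqrt (C0 * C1 * C2) * x / L ^ A := by
  have hL0 : 0 < L := by linarith
  have hLA : 0 < L ^ A := by positivity
  have hLK : 0 < L ^ K := by positivity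
  rw [le_div_iff₀ hLA]
  have h1 : S ^ 2 ≤ C0 * C1 * (M * R * Q) * L ^ K := by
    calc S ^ 2 ≤ C0 * A2 * R * Q := hmain
      _ ≤ C0 * (C1 * M * L ^ K) * R * Q := by gcongr
      _ = C0 * C1 * (M * R * Q) * L ^ K := by ring
  have h2 : (S * L ^ A) ^ 2 ≤ C0 * C1 * C2 * x ^ 2 := by
    calc (S * L ^ A) ^ 2 = S ^ 2 * L ^ (2 * A) := by ring
      _ ≤ C0 * C1 * (M * R * Q) * L ^ K * L ^ (2 * A) := by gcongr
      _ = C0 * C1 * (M * R * Q * L ^ (K + 2 * A)) := by rw [pow_add]; ring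
      _ ≤ C0 * C1 * (C2 * x ^ 2) := by gcongr
      _ = C0 * C1 * C2 * x ^ 2 := by ring
  have h3 : S * L ^ A ≤ Real.sqrt (C0 * C1 * C2 * x ^ 2) := Real.le_sqrt_of_sq_le h2
  rwa [Real.sqrt_mul' _ (by positivity), Real.sqrt_sq hx] at h3

theorem tail_est {G Ct L : ℝ} {J : ℕ} (hCt : 0 < Ct) (hL : 1 ≤ L)
    (hG : G ≤ Ct / Real.sqrt (⌊L ^ (2 * J)⌋₊ : ℝ)) : G * L ^ J ≤ 2 * Ct := by
  have hL0 : 0 < L := by linarith
  have hLJ : 0 < L ^ J := by positivity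
  have h1 : 1 ≤ L ^ (2 * J) := one_le_pow₀ hL
  have h2 := floor_half h1
  have h3 : L ^ J / 2 ≤ Real.sqrt (⌊L ^ (2 * J)⌋₊ : ℝ) := by
    apply Real.le_sqrt_of_sq_le
    refine le_trans ?_ h2
    have : (L ^ J / 2) ^ 2 = L ^ (2 * J) / 4 := by ring
    rw [this]
    linarith
  have h4 : 0 < Real.sqrt (⌊L ^ (2 * J)⌋₊ : ℝ) := by
    refine lt_of_lt_of_le ?_ h3
    positivity
  have h5 : Ct / Real.sqrt (⌊L ^ (2 * J)⌋₊ : ℝ) ≤ Ct / (L ^ J / 2) :=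
    div_le_div_of_nonneg_left hCt.le (by positivity) h3
  calc G * L ^ J ≤ Ct / (L ^ J / 2) * L ^ J := mul_le_mul_of_nonneg_right (hG.trans h5) hLJ.le
    _ = 2 * Ct := by field_simp

end Box

open Box in
theorem box1 (p : Prm) (hp : p.Bas) (s η : ℝ) (hs : 0 < s) (hs2 : 10 * s ≤ p.e) (hη : 0 < η)
    (TP : ℝ → ℝ → ℕ → ℕ → ℕ → Prop) (hTP : ∀ x N r u v, TP x N r u v → TriB p s x N r u v)
    (Bc : ℝ → ℝ → Set (ℕ → ℝ)) (hBc : ∀ x N, Bc x N ⊆ ClOne x N)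
    (hc : CoreOK p.ν s η TP Bc) (c A : ℕ) :
    ∃ (B : ℕ) (C x0 : ℝ), ∀ x : ℝ, x0 ≤ x → ∀ M N : ℝ, Siz p.ν x M N → ∀ a b : ℤ,
      ∀ α β : ℕ → ℝ, Sup M α → Sup N β → CB x c α → β ∈ Bc x N →
      ∀ R U V : ℕ, 1 ≤ R → 1 ≤ U → 1 ≤ V →
      ∀ S : Finset (ℕ × ℕ × ℕ), Adm TP x N (Real.log x ^ B) a b S →
        (∀ t ∈ S, t.1 ∈ Ioc R (2 * R) ∧ t.2.1 ∈ Icc U (2 * U) ∧ t.2.2 ∈ Ioc V (2 * V)) →
        ∑ t ∈ S, |Dif ⌊4 * M⌋₊ ⌊4 * N⌋₊ α β t.1 (t.2.1 * t.2.2) a b| ≤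
          C * x / (Real.log x) ^ A := by
  obtain ⟨C0, hC0, hdisp⟩ := disp
  obtain ⟨Ct, hCt, htail⟩ := tau_sq_tail
  obtain ⟨xt, hxt2, htau⟩ := tau_sup (s / 10) (by positivity)
  obtain ⟨xc, hcore⟩ := hc
  obtain ⟨hw, hw2, hν, hν2, hδ, he, b1, b2⟩ := hp
  set K : ℕ := 2 * c + 2 ^ (2 * c) with hK
  set C1 : ℝ := 4 * (2 : ℝ) ^ (2 ^ (2 * c)) with hC1
  have hC1pos : 0 < C1 := by positivity
  set J : ℕ := K + 2 * A with hJ
  set C2 : ℝ := 256 + 16 + 2048 * Ct + 64 + 1 with hC2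
  have hC2pos : 0 < C2 := by positivity
  have hev : ∀ᶠ x : ℝ in Filter.atTop, (256 ≤ x ∧ xt ≤ x ∧ xc ≤ x) ∧
      (1 ≤ Real.log x ∧ Real.log x ^ J ≤ x ^ (p.e / 2) ∧ Real.log x ^ J ≤ x ^ η) ∧
      (x ^ (10 : ℕ) * Real.log x ^ J * Real.exp (-x ^ s) ≤ 1) ∧ (64 ≤ x ^ p.ν) ∧
      (32 ≤ x ^ (2 * p.ν - (1 / 2 + 2 * p.w + 3 * p.e + p.δ))) := by
    filter_upwards [Filter.eventually_ge_atTop (256 : ℝ), Filter.eventually_ge_atTop xt,
      Filter.eventually_ge_atTop xc, Real.tendsto_log_atTop.eventually_ge_atTop 1,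
      ev_log J (show 0 < p.e / 2 by positivity), ev_log J hη, ev_exp J hs, ev_const 64 hν,
      ev_const 32 (show 0 < 2 * p.ν - (1 / 2 + 2 * p.w + 3 * p.e + p.δ) by linarith)]
      with x h1 h2 h3 h4 h5 h6 h7 h8 h9
    exact ⟨⟨h1, h2, h3⟩, ⟨h4, h5, h6⟩, h7, h8, h9⟩
  obtain ⟨x0, hx0⟩ := Filter.eventually_atTop.1 hev
  refine ⟨2 * J, Real.sqrt (C0 * C1 * C2), x0, ?_⟩
  intro x hx M N hSiz a b α β hMα hNβ hα hβ R U V hR hU hV S hS hbox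
  obtain ⟨⟨hx256, hxt, hxc⟩, ⟨hL1, hLe, hLη⟩, hexp, h64, h32⟩ := hx0 x hx
  obtain ⟨hN1, hN2, hMN1, hMN2⟩ := hSiz
  have hxpos : 0 < x := by linarith
  have hL0 : 0 < Real.log x := by linarith
  have hRHS : 0 ≤ Real.sqrt (C0 * C1 * C2) * x / Real.log x ^ A := by positivity
  rcases S.eq_empty_or_nonempty with hemp | ⟨t0, ht0⟩
  · rw [hemp, Finset.sum_empty]
    exact hRHS
  have hNpos : 0 < N := lt_of_lt_of_le (by positivity) hN1
  have hMpos : 0 < M := by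
    by_contra hcon
    have : M * N ≤ 0 := mul_nonpos_of_nonpos_of_nonneg (not_lt.1 hcon) hNpos.le
    linarith
  -- sizes
  have hTri := hTP _ _ _ _ _ (hS.tri t0 ht0)
  obtain ⟨hb1, hb2, hb3⟩ := hbox t0 ht0
  rw [mem_Ioc] at hb1 hb3
  rw [mem_Icc] at hb2
  have hRr : (R : ℝ) ≤ t0.1 := by exact_mod_cast hb1.1.le
  have hr2R : (t0.1 : ℝ) ≤ 2 * R := by exact_mod_cast hb1.2
  have hR1 : (1 : ℝ) ≤ R := by exact_mod_cast hR
  have hU1 : (1 : ℝ) ≤ U := by exact_mod_cast hU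
  have hV1 : (1 : ℝ) ≤ V := by exact_mod_cast hV
  have hRN : (R : ℝ) ≤ N * x ^ (-(3 * p.e) + s) := hRr.trans hTri.rhi
  have hRlo : N * x ^ (-(3 * p.e + p.δ)) ≤ 2 * R := hTri.rlo.trans hr2R
  have hRUV : (R : ℝ) * ((U : ℝ) * V) ≤ x ^ (1 / 2 + 2 * p.w) := by
    refine le_trans ?_ hTri.qhi
    have h1 : R * (U * V) ≤ t0.1 * (t0.2.1 * t0.2.2) :=
      Nat.mul_le_mul hb1.1.le (Nat.mul_le_mul hb2.1 hb3.1.le)
    exact_mod_cast h1
  set UV : ℝ := (U : ℝ) * V with hUV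
  have hUV1 : 1 ≤ UV := by
    rw [hUV]
    exact one_le_mul_of_one_le_of_one_le hU1 hV1
  have hUVpos : 0 < UV := by linarith
  have hRpos : (0 : ℝ) < R := by linarith
  -- `M`, `N`
  have hx1 : 1 ≤ x := by linarith
  have hxhalf : 16 ≤ x ^ (1 / 2 : ℝ) := by
    have h1 : (256 : ℝ) ^ (1 / 2 : ℝ) ≤ x ^ (1 / 2 : ℝ) :=
      Real.rpow_le_rpow (by norm_num) hx256 (by norm_num)
    have h2 : (256 : ℝ) ^ (1 / 2 : ℝ) = 16 := by
      rw [show (256 : ℝ) = 16 ^ (2 : ℝ) by norm_num, ← Real.rpow_mul (by norm_num)]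
      norm_num
    rwa [h2] at h1
  have hM1 : 1 ≤ 4 * M := by
    -- M * N ≥ x / 4, N ≤ 4 x^(1/2)
    have h1 : x / 4 ≤ M * (4 * x ^ (1 / 2 : ℝ)) :=
      hMN1.trans (mul_le_mul_of_nonneg_left hN2 hMpos.le)
    have h2 : x ^ (1 / 2 : ℝ) * x ^ (1 / 2 : ℝ) = x := by
      rw [← Real.rpow_add hxpos]
      norm_num
    by_contra hc
    push Not at hc
    have h0 : 0 ≤ x ^ (1 / 2 : ℝ) := le_trans (by norm_num) hxhalf
    have h3 := mul_le_mul_of_nonneg_right hc.le h0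
    have h4 := mul_le_mul_of_nonneg_right hxhalf h0
    linarith only [h1, h2, h3, h4, hxhalf]
  have hMx : 4 * M ≤ x := by
    -- M * (x^ν/4) ≤ M N ≤ 4 x, 64 ≤ x^ν
    have h1 : M * (x ^ p.ν / 4) ≤ 4 * x := (mul_le_mul_of_nonneg_left hN1 hMpos.le).trans hMN2
    have h2 := mul_le_mul_of_nonneg_left h64 hMpos.le
    linarith only [h1, h2]
  set X : ℕ := ⌊4 * M⌋₊ with hX
  set Y : ℕ := ⌊4 * N⌋₊ with hY
  have hX1 : 1 ≤ X := Nat.le_floor (by exact_mod_cast hM1)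
  have hXM : (X : ℝ) ≤ 4 * M := Nat.floor_le (by positivity)
  have hYN : (Y : ℝ) ≤ 4 * N := Nat.floor_le (by positivity)
  have hXpos : (0 : ℝ) < X := by exact_mod_cast hX1
  have hY0 : (0 : ℝ) ≤ Y := Nat.cast_nonneg _
  have hXx : (X : ℝ) ≤ x := hXM.trans hMx
  have hUVY : 4 * U * V ≤ Y := by
    apply Nat.le_floor
    push_cast
    have h1 : UV ≤ N := uv_le p.w p.ν p.e p.δ x N R UV hxpos hNpos hN1 hUVpos hRlo hRUV h32
    calc (4 : ℝ) * U * V = 4 * UV := by rw [hUV]; ring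
      _ ≤ 4 * N := by linarith
  -- the parameters of `disp`
  set Z : ℝ := x ^ s with hZ
  set T : ℝ := x ^ (s / 10) with hT
  have hZ1 : 1 ≤ Z := Real.one_le_rpow hx1 hs.le
  have hT1 : 1 ≤ T := Real.one_le_rpow hx1 (by positivity)
  set D0 : ℕ := ⌊Real.log x ^ (2 * J)⌋₊ with hD0
  have hLJ : 1 ≤ Real.log x ^ (2 * J) := one_le_pow₀ hL1
  have hD01 : 1 ≤ D0 := Nat.le_floor (by exact_mod_cast hLJ)
  have hXY : (X : ℝ) * Y ≤ 64 * x := by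
    calc (X : ℝ) * Y ≤ (4 * M) * (4 * N) := mul_le_mul hXM hYN hY0 (by positivity)
      _ = 16 * (M * N) := by ring
      _ ≤ 64 * x := by linarith
  have hs1 : s ≤ 1 := by linarith
  have hZx : Z ≤ x := by
    calc Z ≤ x ^ (1 : ℝ) := Real.rpow_le_rpow_of_exponent_le hx1 hs1
      _ = x := Real.rpow_one x
  have hx20 : 64 * x * x ≤ x ^ (20 : ℕ) := by
    have h1 : (64 : ℝ) ≤ x ^ (18 : ℕ) := by
      calc (64 : ℝ) ≤ x := by linarith
        _ = x ^ (1 : ℕ) := (pow_one x).symm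
        _ ≤ x ^ (18 : ℕ) := pow_le_pow_right₀ hx1 (by norm_num)
    calc 64 * x * x ≤ x ^ (18 : ℕ) * x * x := by
          apply mul_le_mul_of_nonneg_right _ hxpos.le
          exact mul_le_mul_of_nonneg_right h1 hxpos.le
      _ = x ^ (20 : ℕ) := by ring
  have htauT : ∀ m : ℕ, 1 ≤ m → (m : ℝ) ≤ X * Y * Z → (Pool.Agent.BCore.tau m : ℝ) ≤ T := by
    intro m hm1 hm2
    refine (htau x hxt).1 m hm1 (hm2.trans ?_)
    calc (X : ℝ) * Y * Z ≤ 64 * x * x := mul_le_mul hXY hZx (by linarith) (by linarith)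
      _ ≤ x ^ (20 : ℕ) := hx20
  have hlogT : 1 + Real.log Y ≤ T := by
    refine le_trans ?_ (htau x hxt).2
    have h1 : Real.log Y ≤ Real.log (x ^ (20 : ℕ)) := by
      have hY1 : 1 ≤ Y := by
        have : 1 ≤ 4 * U * V := Nat.mul_pos (Nat.mul_pos (by norm_num) hU) hV
        exact this.trans hUVY
      apply Real.log_le_log (by exact_mod_cast hY1)
      have h2 : (Y : ℝ) ≤ X * Y := by
        have h3 : (1 : ℝ) ≤ X := by exact_mod_cast hX1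
        exact le_mul_of_one_le_left (Nat.cast_nonneg _) h3
      calc (Y : ℝ) ≤ X * Y := h2
        _ ≤ 64 * x := hXY
        _ ≤ 64 * x * x := le_mul_of_one_le_right (by linarith only [hx1]) hx1
        _ ≤ x ^ (20 : ℕ) := hx20
    linarith
  have hH : 32 * Z * (R * ((U : ℝ) * V) ^ 2) ≤ (Hx s x X R U V : ℕ) * (X : ℝ) := by
    rw [Hx]
    have h1 := Nat.le_ceil (32 * x ^ s * (R * ((U : ℝ) * V) ^ 2) / X)
    rw [div_le_iff₀ hXpos] at h1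
    exact h1
  have hβ1 := hBc x N hβ
  have hcoreB : ∀ b1 ∈ ({a, b} : Set ℤ), ∀ b2 ∈ ({a, b} : Set ℤ),
      ∀ w : ℕ → ℤ → ℕ → ℕ → ℕ → ℕ → ℤ → ℂ,
      (∀ r l u1 v1 u2 v2 h, ‖w r l u1 v1 u2 v2 h‖ ≤ 1) →
      (∀ r l u1 v1 u2 v2 h, w r l u1 v1 u2 v2 h ≠ 0 →
        (r ∈ Ioc R (2 * R) ∧ u1 ∈ Icc U (2 * U) ∧ v1 ∈ Ioc V (2 * V) ∧
          u2 ∈ Icc U (2 * U) ∧ v2 ∈ Ioc V (2 * V)) ∧ sgBx X Y α β a b S r u1 v1 ≠ 0 ∧
          sgBx X Y α β a b S r u2 v2 ≠ 0) →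
      ‖Tot Y R U V (Hx s x X R U V) (ext β) a b1 b2 w‖ ≤ N ^ 2 * UV ^ 2 * x ^ (-η) := by
    intro c1 hc1 c2 hc2 w hw1 hw2'
    refine hcore x hxc M N ⟨hN1, hN2, hMN1, hMN2⟩ R U V hR hU hV a c1 c2 β hβ w hw1 ?_
    intro r l u1 v1 u2 v2 h hne
    obtain ⟨h1, h2, h3⟩ := hw2' r l u1 v1 u2 v2 h hne
    have h4 := sgBx_ne _ _ _ _ _ _ _ _ _ _ h2
    have h5 := sgBx_ne _ _ _ _ _ _ _ _ _ _ h3
    have t1 := hS.tri _ h4
    have t2 := hS.tri _ h5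
    have ca1 := hS.cpa _ h4
    have ca2 := hS.cpa _ h5
    have cb1 := hS.cpb _ h4
    have cb2 := hS.cpb _ h5
    simp only at t1 t2 ca1 ca2 cb1 cb2
    have hra : IsCoprime (r : ℤ) a := by
      push_cast at ca1
      exact ca1.of_mul_left_left
    have hu1 : IsCoprime ((u1 * v1 : ℕ) : ℤ) a := by
      push_cast at ca1 ⊢
      exact ca1.of_mul_left_right
    have hu2 : IsCoprime ((u2 * v2 : ℕ) : ℤ) a := by
      push_cast at ca2 ⊢
      exact ca2.of_mul_left_right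
    have e1 : ∀ z ∈ ({a, b} : Set ℤ), IsCoprime ((u1 * v1 : ℕ) : ℤ) z ∧
        IsCoprime ((u2 * v2 : ℕ) : ℤ) z := by
      intro z hz
      rcases hz with rfl | hz
      · exact ⟨hu1, hu2⟩
      · rw [Set.mem_singleton_iff] at hz
        subst hz
        exact ⟨cb1, cb2⟩
    exact ⟨h1, t1, t2, (hTP _ _ _ _ _ t1).sqf, (hTP _ _ _ _ _ t2).sqf, hra, (e1 c1 hc1).1,
      (e1 c2 hc2).1, (e1 c1 hc1).2, (e1 c2 hc2).2⟩
  have hmain := hdisp X Y R U V (Hx s x X R U V) D0 Z T (N ^ 2 * UV ^ 2 * x ^ (-η)) a a b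
    (ext α) (ext β) (sgBx X Y α β a b S) hX1 hR hU hV hD01 hZ1 hT1 hUVY hH htauT hlogT
    (by
      intro n
      rw [ext]
      split_ifs
      · rw [Complex.norm_real, Real.norm_eq_abs]
        exact hβ1.1 _
      · simp)
    (by
      intro n hn
      rw [ext] at hn
      split_ifs at hn with h1
      · have h2 : β n.toNat ≠ 0 := by
          intro h3
          rw [h3] at hn
          exact hn (by simp)
        obtain ⟨h3, h4⟩ := hNβ _ h2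
        have h5 : ((n.toNat : ℕ) : ℤ) = n := Int.toNat_of_nonneg h1
        have h6 : n.toNat ≤ Y := Nat.le_floor h4
        have h7 : (0 : ℝ) < (n.toNat : ℝ) := hNpos.trans h3
        have h8 : 0 < n.toNat := by exact_mod_cast h7
        constructor <;> omega
      · exact absurd rfl hn)
    (norm_sg X Y α β a b S)
    (by
      intro r u v hne
      have h4 := sgBx_ne _ _ _ _ _ _ _ _ _ _ hne
      have t1 := hS.tri _ h4
      have ca1 := hS.cpa _ h4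
      have cb1 := hS.cpb _ h4
      have rg := hS.rgh _ h4
      simp only at t1 ca1 cb1 rg
      refine ⟨(hTP _ _ _ _ _ t1).sqf, ?_, ?_, cb1, ?_⟩
      · push_cast at ca1
        exact ca1.of_mul_left_left
      · push_cast at ca1 ⊢
        exact ca1.of_mul_left_right
      · intro q hq hqd
        have h5 := rg q hq hqd
        exact (Nat.floor_lt (by positivity)).2 h5)
    hcoreB
  rw [BS_eqBx X Y R U V α β a b S hbox, Complex.norm_real, Real.norm_eq_abs, sq_abs] at hmain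
  -- the numbers
  have hA2 := sum_sq c X x hL1 hXx α hα
  have hA3 : ∑ m ∈ Icc (1 : ℤ) X, ‖ext α m‖ ^ 2 ≤ C1 * M * Real.log x ^ K := by
    refine hA2.trans ?_
    calc (X : ℝ) * (2 : ℝ) ^ (2 ^ (2 * c)) * Real.log x ^ K
        ≤ (4 * M) * (2 : ℝ) ^ (2 ^ (2 * c)) * Real.log x ^ K := by gcongr
      _ = C1 * M * Real.log x ^ K := by rw [hC1]; ring
  have hGt : (∑ g ∈ Ioc D0 (4 * U * V), (Pool.Agent.BCore.tau g : ℝ) ^ 2 / (g : ℝ) ^ 2) *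
      Real.log x ^ J ≤ 2 * Ct := tail_est hCt hL1 (htail D0 (4 * U * V) hD01)
  have hG0 : 0 ≤ ∑ g ∈ Ioc D0 (4 * U * V), (Pool.Agent.BCore.tau g : ℝ) ^ 2 / (g : ℝ) ^ 2 :=
    Finset.sum_nonneg (fun g _ => by positivity)
  have hLJ0 : 0 < Real.log x ^ J := by positivity
  have hnum := num_est p.w p.ν p.e s η x M N R UV X Y
    (∑ g ∈ Ioc D0 (4 * U * V), (Pool.Agent.BCore.tau g : ℝ) ^ 2 / (g : ℝ) ^ 2) Ct
    (Real.log x ^ J) hs hs2 he hw hw2 b2 hx256 hMpos hNpos hN1 hMN2 hR1 hUV1 hRN hRUV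
    hXpos.le hXM hY0 hYN hLJ0 hLe hLη hexp hG0 hGt
  refine fin_est (Finset.sum_nonneg fun t _ => abs_nonneg _) hxpos.le hL1 hC0 hC1pos hRpos.le
    ?_ hmain hA3 hnum
  positivity

end Pool.Agent.Disp
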