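import Pool.Agent.Disp.L0
import Pool.Agent.Disp.L1Tau
import Pool.Agent.BCoreK.MainK

/-!
# DISP module CORE: exponents (from `bcoreK`, the form with windows in `r u`)

Proof. If `w = 0` everywhere nothing to do; otherwise there is a triple in the box, which gives
(all up to constants, absorbed by `x^s` for large `x`)
`x^(1/2-s)/8 ≤ R U V ≤ x^(1/2+2w)`, `N x^(-3e-δ)/2 ≤ R ≤ N x^(-3e+s)`, `V ≤ x^(V0+2δ)`,
(`V ≥ x^(V0-s)/2` or `U = 1`). `H ≤ 1 + 33 x^s R (UV)^2 / M`, so
`H ≤ x^(4w+δ+3e+3s)` and `1 ≤ H`. `K = (R U^2 V^4)^(1/3)`: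
`K ≤ x^((1+8w+6δ+9e-ν)/3 + s)`, `K ≥ x^(1/6 - s)`; so `K ≤ x^κ`, `K ≤ N`, `16 H V^4 ≤ K`
(`h2`, `h1`, `h3`), and `Win H V K B (r u)` holds with `B = x^(δ1/2)`.
`E = x^(-e)`: `H / V^2 ≤ x^(-3e+6s)` (if `U = 1`: `H ≤ 1 + 33 x^s R V^2/M`, `R / M ≤ x^(-3e+2s)`,
`V ≥ q/(8R) ≥ x^(3e-3s)`). `Y = E^2 / (bound for H)^2`: `K B ≤ Y^2 N` is `h1` and
`K ≤ Y^4 R U V` is `h4`. `T = x^s'` by `tau_sup`, `η = e / 2`, `s' = e / (4 c0 + 4)`.
Everything is done with the logarithms of the quantities (linear inequalities).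
-/

set_option autoImplicit false

namespace Pool.Agent.Disp

open Finset Pool.Agent.BGG Pool.Agent.BCore

theorem core_general (p : Prm) (hp : p.Ok) (s : ℝ) (hs : 0 < s) (hs2 : 10 * s ≤ p.e) :
    ∃ η : ℝ, 0 < η ∧ CoreOK p.ν s η (TriP p s) ClOne := by
  obtain ⟨C, c0, hC, hcore⟩ := Pool.Agent.BCoreK.bcoreK
  have he := hp.he
  have hε : 0 < p.e / (4 * c0 + 4) := by positivity
  obtain ⟨x1, hx1, htau⟩ := tau_sup (p.e / (4 * c0 + 4)) hε
  refine ⟨p.e / 2, by positivity, max x1 (Real.exp ((1000 + 8 * |Real.log C|) / p.e)), ?_⟩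
  intro x hx M N hsiz R U V hR hU hV a b1 b2 β hβ w hw1 hw
  by_cases hz : ∀ r l u1 v1 u2 v2 h, w r l u1 v1 u2 v2 h = 0
  · have h0 : Tot ⌊4 * N⌋₊ R U V (Hx s x ⌊4 * M⌋₊ R U V) (ext β) a b1 b2 w = 0 := by
      unfold Tot
      simp [hz]
    rw [h0, norm_zero]
    have hx0 : 0 ≤ x := by
      have := (le_max_left x1 _).trans hx
      linarith
    positivity
  push Not at hz
  obtain ⟨r, l, u1, v1, u2, v2, h, hne⟩ := hz
  obtain ⟨⟨hr, hu1, hv1, hu2, hv2⟩, ht1, ht2, hgood⟩ := hw _ _ _ _ _ _ _ hne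
  rw [mem_Ioc] at hr hv1 hv2
  rw [mem_Icc] at hu1 hu2
  obtain ⟨hN1, hN2, hMN1, hMN2⟩ := hsiz
  have hx1' : x1 ≤ x := (le_max_left _ _).trans hx
  have hx2 : Real.exp ((1000 + 8 * |Real.log C|) / p.e) ≤ x := (le_max_right _ _).trans hx
  have hx0 : 0 < x := by linarith only [hx1, hx1']
  obtain ⟨htau1, htau2⟩ := htau x hx1'
  set L := Real.log x with hL
  have hLe : 1000 + 8 * |Real.log C| ≤ p.e * L := by
    have h1 : (1000 + 8 * |Real.log C|) / p.e ≤ L := by
      rw [hL, Real.le_log_iff_exp_le hx0]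
      exact hx2
    rw [div_le_iff₀ he] at h1
    linarith only [h1]
  have hE1000 : 1000 ≤ p.e * L := by
    have := abs_nonneg (Real.log C)
    linarith only [hLe, this]
  have hL0 : 0 < L := by
    by_contra hcon
    push Not at hcon
    have : p.e * L ≤ 0 := mul_nonpos_of_nonneg_of_nonpos he.le hcon
    linarith only [hE1000, this]
  have hrp : ∀ t : ℝ, x ^ t = Real.exp (t * L) := by
    intro t
    rw [Real.rpow_def_of_pos hx0, mul_comm]
  -- positivity
  have hN0 : 0 < N := by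
    have : 0 < x ^ p.ν := Real.rpow_pos_of_pos hx0 _
    linarith only [hN1, this]
  have hM0 : 0 < M := by
    have : 0 < M * N := by linarith only [hx1, hMN1, hx1']
    exact (mul_pos_iff_of_pos_right hN0).mp this
  have hR0 : (0 : ℝ) < R := by exact_mod_cast hR
  have hU0 : (0 : ℝ) < U := by exact_mod_cast hU
  have hV0 : (0 : ℝ) < V := by exact_mod_cast hV
  have l2 : Real.log 2 < 0.7 := by
    have := Real.log_two_lt_d9
    linarith only [this]
  have l2p : 0 < Real.log 2 := Real.log_pos (by norm_num)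
  have l4 : Real.log 4 = 2 * Real.log 2 := by
    rw [show (4 : ℝ) = 2 ^ (2 : ℕ) by norm_num, Real.log_pow]
    norm_num
  have l8 : Real.log 8 = 3 * Real.log 2 := by
    rw [show (8 : ℝ) = 2 ^ (3 : ℕ) by norm_num, Real.log_pow]
    norm_num
  set lN := Real.log N with hlN
  set lM := Real.log M with hlM
  set lR := Real.log R with hlR
  set lU := Real.log U with hlU
  set lV := Real.log V with hlV
  have eN' : Real.exp lN = N := Real.exp_log hN0
  have eM' : Real.exp lM = M := Real.exp_log hM0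
  have eR' : Real.exp lR = R := Real.exp_log hR0
  have eU' : Real.exp lU = U := Real.exp_log hU0
  have eV' : Real.exp lV = V := Real.exp_log hV0
  have e2' : Real.exp (Real.log 2) = 2 := Real.exp_log (by norm_num)
  have e4' : Real.exp (2 * Real.log 2) = 4 := by rw [← l4]; exact Real.exp_log (by norm_num)
  have e8' : Real.exp (3 * Real.log 2) = 8 := by rw [← l8]; exact Real.exp_log (by norm_num)
  have lU0 : 0 ≤ lU := Real.log_nonneg (by exact_mod_cast hU)
  have lV0 : 0 ≤ lV := Real.log_nonneg (by exact_mod_cast hV)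
  have lR0 : 0 ≤ lR := Real.log_nonneg (by exact_mod_cast hR)
  -- (a)
  have fa : p.ν * L ≤ 2 * Real.log 2 + lN := by
    rw [← Real.exp_le_exp, Real.exp_add, e4', eN', ← hrp]
    linarith only [hN1]
  have fb : lN ≤ 2 * Real.log 2 + 1 / 2 * L := by
    rw [← Real.exp_le_exp, Real.exp_add, e4', eN', ← hrp]
    exact hN2
  have exL : Real.exp L = x := Real.exp_log hx0
  have fc : L ≤ 2 * Real.log 2 + lM + lN := by
    rw [← Real.exp_le_exp, Real.exp_add, Real.exp_add, e4', eN', eM', exL]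
    linarith only [hMN1]
  have fd : lM + lN ≤ 2 * Real.log 2 + L := by
    rw [← Real.exp_le_exp, Real.exp_add, Real.exp_add, e4', eN', eM', exL]
    exact hMN2
  have hru : ((r * (u1 * v1) : ℕ) : ℝ) = (r : ℝ) * (u1 * v1) := by push_cast; ring
  have hr1 : (R : ℝ) ≤ r := by exact_mod_cast hr.1.le
  have hr2 : (r : ℝ) ≤ 2 * R := by exact_mod_cast hr.2
  have hu11 : (U : ℝ) ≤ u1 := by exact_mod_cast hu1.1
  have hu12 : (u1 : ℝ) ≤ 2 * U := by exact_mod_cast hu1.2
  have hv11 : (V : ℝ) ≤ v1 := by exact_mod_cast hv1.1.le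
  have hv12 : (v1 : ℝ) ≤ 2 * V := by exact_mod_cast hv1.2
  have fe : (1 / 2 - s) * L ≤ 3 * Real.log 2 + lR + lU + lV := by
    rw [← Real.exp_le_exp, Real.exp_add, Real.exp_add, Real.exp_add, e8', eR', eU', eV', ← hrp]
    refine ht1.qlo.trans ?_
    rw [hru]
    calc (r : ℝ) * (u1 * v1) ≤ (2 * R) * ((2 * U) * (2 * V)) := by gcongr
      _ = 8 * R * U * V := by ring
  have ff : lR + lU + lV ≤ (1 / 2 + 2 * p.w) * L := by
    rw [← Real.exp_le_exp, Real.exp_add, Real.exp_add, eR', eU', eV', ← hrp]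
    refine le_trans ?_ ht1.qhi
    rw [hru, mul_assoc]
    gcongr
  have fg : lN + (-(3 * p.e + p.δ)) * L ≤ Real.log 2 + lR := by
    rw [← Real.exp_le_exp, Real.exp_add, Real.exp_add, e2', eN', eR', ← hrp]
    exact ht1.rlo.trans hr2
  have fh : lR ≤ lN + (-(3 * p.e) + s) * L := by
    rw [← Real.exp_le_exp, Real.exp_add, eN', eR', ← hrp]
    exact hr1.trans ht1.rhi
  have fi : lV ≤ (p.V0 + 2 * p.δ) * L := by
    rw [← Real.exp_le_exp, eV', ← hrp]
    exact hv11.trans ht1.vhi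
  have fj : (p.V0 - s) * L ≤ Real.log 2 + lV ∨ lU = 0 := by
    rcases ht1.vlo with hv | hu
    · left
      rw [← Real.exp_le_exp, Real.exp_add, e2', eV', ← hrp]
      exact hv.trans hv12
    · right
      have hU1 : U = 1 := by omega
      rw [hlU, hU1]
      simp
  -- the parameters, multiplied by `L`
  have g1 := mul_lt_mul_of_pos_right hp.h1 hL0
  have g2 := mul_le_mul_of_nonneg_right hp.h2 hL0.le
  have g3 := mul_lt_mul_of_pos_right hp.h3 hL0
  have g4 := mul_lt_mul_of_pos_right hp.h4 hL0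
  have g5 := mul_le_mul_of_nonneg_right hp.hν2 hL0.le
  have g6 := mul_nonneg hp.hw hL0.le
  have g7 := mul_nonneg hp.hδ hL0.le
  have g8 := mul_nonneg hp.hδ1 hL0.le
  have g9 : 10 * (s * L) ≤ p.e * L := by
    have := mul_le_mul_of_nonneg_right hs2 hL0.le
    linarith only [this]
  have g10 : 0 < s * L := by positivity
  have hV0' := hp.hV0
  rw [hV0'] at fi fj
  -- bound for `H`
  set X := ⌊4 * M⌋₊ with hX
  set N' := ⌊4 * N⌋₊ with hN'
  set H := Hx s x X R U V with hH
  have hLbig : 80000 ≤ L := by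
    have he1 : p.e ≤ 1 / 80 := by linarith only [hp.h3, hp.hw, hp.hδ]
    have he2 := mul_le_mul_of_nonneg_right he1 hL0.le
    linarith only [he2, hE1000]
  have lM1 : 0 < lM := by linarith only [hE1000, l2, l2p, fb, fc, g3, g6, g7]
  have lN1 : 0 < lN := by linarith only [hE1000, l2, l2p, fa, g1, g4, g6, g7, g8]
  have hM1 : 1 ≤ M := by
    rw [← eM']
    exact Real.one_le_exp lM1.le
  have hN1' : 1 ≤ N := by
    rw [← eN']
    exact Real.one_le_exp lN1.le
  have hX1 : 2 * M ≤ X := by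
    have := Nat.lt_floor_add_one (4 * M)
    rw [← hX] at this
    linarith only [l2, l2p, hM1, this]
  have hN'1 : N ≤ N' := by
    have := Nat.lt_floor_add_one (4 * N)
    rw [← hN'] at this
    linarith only [l2, l2p, hN1', this]
  have hN'2 : (N' : ℝ) ≤ 4 * N := Nat.floor_le (by positivity)
  have hX0 : (0 : ℝ) < X := by linarith only [l2, l2p, hM1, hX1]
  set T1 : ℝ := 32 * x ^ s * (R * ((U : ℝ) * V) ^ 2) / X with hT1
  have hT10 : 0 < T1 := by
    have : 0 < x ^ s := Real.rpow_pos_of_pos hx0 _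
    positivity
  have hHT : (H : ℝ) ≤ T1 + 1 := by
    rw [hH]
    unfold Hx
    exact (Nat.ceil_lt_add_one hT10.le).le
  have hH1 : 1 ≤ H := by
    rw [hH]
    unfold Hx
    exact Nat.one_le_ceil_iff.mpr hT10
  have hT1le : T1 ≤ Real.exp (4 * Real.log 2 + s * L + lR + 2 * lU + 2 * lV - lM) := by
    have h1 : Real.exp (4 * Real.log 2 + s * L + lR + 2 * lU + 2 * lV - lM) =
        16 * x ^ s * (R * ((U : ℝ) * V) ^ 2) / M := by
      rw [Real.exp_sub, Real.exp_add, Real.exp_add, Real.exp_add, Real.exp_add, eM', eR', ← hrp,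
        show 4 * Real.log 2 = 2 * Real.log 2 + 2 * Real.log 2 by ring, Real.exp_add, e4',
        show 2 * lU = lU + lU by ring, show 2 * lV = lV + lV by ring, Real.exp_add, Real.exp_add,
        eU', eV']
      ring
    rw [h1, hT1, div_le_div_iff₀ hX0 hM0]
    have h2 : 0 < x ^ s := Real.rpow_pos_of_pos hx0 _
    calc 32 * x ^ s * (R * ((U : ℝ) * V) ^ 2) * M
        = 16 * x ^ s * (R * ((U : ℝ) * V) ^ 2) * (2 * M) := by ring
      _ ≤ 16 * x ^ s * (R * ((U : ℝ) * V) ^ 2) * X := by gcongr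
  set lH : ℝ := 3 * (s * L) + 2 * (lR + lU + lV) - L + 3 * (p.e * L) + p.δ * L + 12 with hlH
  have hHle : (H : ℝ) ≤ Real.exp lH := by
    have h1 : T1 ≤ Real.exp (lH - Real.log 2) := by
      refine hT1le.trans (Real.exp_le_exp.mpr ?_)
      rw [hlH]
      linarith only [l2, l2p, fc, fg, g10]
    have h2 : (1 : ℝ) ≤ Real.exp (lH - Real.log 2) := by
      apply Real.one_le_exp
      rw [hlH]
      linarith only [hE1000, l2, l2p, fe, g7, g10]
    have h3 : Real.exp lH = 2 * Real.exp (lH - Real.log 2) := by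
      rw [Real.exp_sub, e2']
      ring
    rw [h3]
    linarith only [hHT, h1, h2]
  set lK : ℝ := (lR + 2 * lU + 4 * lV) / 3 with hlK
  have kup : 3 * lK ≤ L + 8 * (p.w * L) + 6 * (p.δ * L) + 9 * (p.e * L) - lN + Real.log 2 := by
    rw [hlK]
    linarith only [ff, fg, fi]
  have klo : 1 / 2 * L - s * L - 3 * Real.log 2 ≤ 3 * lK := by
    rw [hlK]
    linarith only [lU0, lV0, fe]
  set K : ℝ := Real.exp lK with hK
  set B : ℝ := Real.exp (p.δ1 * L / 2) with hB
  set E : ℝ := Real.exp (-(p.e * L)) with hE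
  set lY : ℝ := -(2 * (p.e * L)) - 2 * lH with hlY
  set Y : ℝ := Real.exp lY with hY
  set T : ℝ := x ^ (p.e / (4 * c0 + 4)) with hT
  have hHN : H ≤ N' := by
    have h1 : (H : ℝ) ≤ N' := by
      refine hHle.trans (le_trans ?_ hN'1)
      rw [← eN']
      apply Real.exp_le_exp.mpr
      rw [hlH]
      linarith only [hE1000, l2, l2p, fa, ff, g1, g4, g6, g7, g8, g9]
    exact_mod_cast h1
  have hKN : K ≤ N' := by
    refine le_trans ?_ hN'1
    rw [← eN', hK]
    apply Real.exp_le_exp.mpr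
    linarith only [hE1000, l2, l2p, fa, ff, fg, fi, g1, g6, g7, g8, hlK]
  have hK3 : K ^ 3 = R * U ^ 2 * V ^ 4 := by
    rw [hK, ← Real.exp_nat_mul, hlK, ← eR', ← eU', ← eV', ← Real.exp_nat_mul, ← Real.exp_nat_mul,
      ← Real.exp_add, ← Real.exp_add]
    congr 1
    push_cast
    ring
  have hB1 : 1 ≤ B := by
    rw [hB]
    apply Real.one_le_exp
    linarith only [g8]
  have hYa : K * B ≤ Y ^ 2 * N' := by
    calc K * B = Real.exp (lK + p.δ1 * L / 2) := by rw [Real.exp_add]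
      _ ≤ Real.exp (2 * lY + lN) := by
          apply Real.exp_le_exp.mpr
          rw [hlY, hlH]
          linarith only [hE1000, l2, l2p, fa, ff, fg, fi, g1, g9, hlK]
      _ = Y ^ 2 * N := by
          rw [Real.exp_add, eN', hY, ← Real.exp_nat_mul]
          norm_num
      _ ≤ Y ^ 2 * N' := by gcongr
  have hYb : K ≤ Y ^ 4 * (R * U * V) := by
    calc K ≤ Real.exp (4 * lY + (lR + lU + lV)) := by
          apply Real.exp_le_exp.mpr
          rw [hlY, hlH]
          linarith only [hE1000, l2, l2p, fa, ff, fg, fi, g4, g9, hlK]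
      _ = Y ^ 4 * (R * U * V) := by
          rw [Real.exp_add, Real.exp_add, Real.exp_add, eR', eU', eV', hY, ← Real.exp_nat_mul]
          norm_num
  have hEV : E ^ 2 * V ^ 2 = Real.exp (-(2 * (p.e * L)) + 2 * lV) := by
    rw [hE, ← eV', ← Real.exp_nat_mul, ← Real.exp_nat_mul, ← Real.exp_add]
    congr 1
    push_cast
    ring
  have hEa : (H : ℝ) ≤ E ^ 2 * V ^ 2 := by
    rw [hEV]
    rcases fj with fj | fj
    · refine hHle.trans (Real.exp_le_exp.mpr ?_)
      rw [hlH]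
      linarith only [hE1000, l2, l2p, ff, g9, fj]
    · have h3 : Real.exp (-(2 * (p.e * L)) + 2 * lV) =
          2 * Real.exp (-(2 * (p.e * L)) + 2 * lV - Real.log 2) := by
        rw [Real.exp_sub, e2']
        ring
      have h1 : T1 ≤ Real.exp (-(2 * (p.e * L)) + 2 * lV - Real.log 2) := by
        refine hT1le.trans (Real.exp_le_exp.mpr ?_)
        linarith only [hE1000, l2, l2p, fb, fc, fh, g9, fj]
      have h2 : (1 : ℝ) ≤ Real.exp (-(2 * (p.e * L)) + 2 * lV - Real.log 2) := by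
        apply Real.one_le_exp
        linarith only [hE1000, l2, l2p, fb, fe, fh, g9, fj]
      rw [h3]
      linarith only [hHT, h1, h2]
  have hEb : (H : ℝ) ^ 2 * Y ≤ E ^ 2 := by
    calc (H : ℝ) ^ 2 * Y ≤ Real.exp lH ^ 2 * Y := by gcongr
      _ = E ^ 2 := by
          rw [hY, hE, ← Real.exp_nat_mul, ← Real.exp_nat_mul, ← Real.exp_add, hlY]
          congr 1
          push_cast
          ring
  set Z : ℕ := 2 ^ 10 * R * U ^ 2 * V ^ 4 * H * N' with hZ
  have hZx : (Z : ℝ) ≤ x ^ (20 : ℕ) := by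
    have h1 : (Z : ℝ) = 2 ^ 10 * K ^ 3 * H * N' := by
      rw [hZ, hK3]
      push_cast
      ring
    rw [h1]
    calc 2 ^ 10 * K ^ 3 * H * N' ≤ 2 ^ 10 * K ^ 3 * Real.exp lH * (4 * N) := by gcongr
      _ = Real.exp (12 * Real.log 2 + 3 * lK + lH + lN) := by
          rw [Real.exp_add (12 * Real.log 2 + 3 * lK + lH) lN,
            Real.exp_add (12 * Real.log 2 + 3 * lK) lH, Real.exp_add (12 * Real.log 2) (3 * lK),
            eN', hK, ← Real.exp_nat_mul,
            show Real.exp (12 * Real.log 2) = 2 ^ 12 by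
              rw [show (12 : ℝ) * Real.log 2 = ((12 : ℕ) : ℝ) * Real.log 2 by norm_num,
                Real.exp_nat_mul, e2']]
          push_cast
          ring
      _ ≤ Real.exp (((20 : ℕ) : ℝ) * L) := by
          apply Real.exp_le_exp.mpr
          rw [hlH]
          push_cast
          linarith only [hE1000, l2, l2p, ff, fg, fi, g3, g6, g7, g9, hlK]
      _ = x ^ (20 : ℕ) := by rw [Real.exp_nat_mul, exL]
  have hZ0 : (0 : ℝ) < Z := by
    have : 0 < Z := by
      rw [hZ]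
      have : 0 < N' := lt_of_lt_of_le (Nat.lt_of_lt_of_le Nat.zero_lt_one hH1) hHN
      positivity
    exact_mod_cast this
  have hTt : ∀ m : ℕ, 1 ≤ m → m ≤ Z → (tau m : ℝ) ≤ T := by
    intro m hm1 hm2
    apply htau1 m hm1
    refine le_trans ?_ hZx
    exact_mod_cast hm2
  have hTl : 1 + Real.log Z ≤ T := by
    refine le_trans ?_ htau2
    have := Real.log_le_log hZ0 hZx
    linarith only [this]
  have hβ1 : ∀ n, ‖ext β n‖ ≤ 1 := by
    intro n
    unfold ext
    split_ifs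
    · rw [Complex.norm_real]
      exact hβ.1 _
    · simp
  have hwin : ∀ r l u1 v1 u2 v2 h, w r l u1 v1 u2 v2 h ≠ 0 →
      Good a b1 b2 r u1 v1 u2 v2 ∧ Win H V K B (r * u1) := by
    intro r l u1 v1 u2 v2 h hne
    obtain ⟨-, ht1, -, hg⟩ := hw _ _ _ _ _ _ _ hne
    refine ⟨hg, ?_⟩
    intro t ht htK
    have ht1' : 1 ≤ t := by
      have h1 : 16 * (H : ℝ) * V ^ 4 ≤ K := by
        calc 16 * (H : ℝ) * V ^ 4 ≤ 16 * Real.exp lH * V ^ 4 := by gcongr
          _ = Real.exp (4 * Real.log 2 + lH + 4 * lV) := by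
              rw [Real.exp_add (4 * Real.log 2 + lH) (4 * lV), Real.exp_add (4 * Real.log 2) lH,
                ← eV', ← Real.exp_nat_mul,
                show Real.exp (4 * Real.log 2) = 16 by
                  rw [show (4 : ℝ) * Real.log 2 = ((4 : ℕ) : ℝ) * Real.log 2 by norm_num,
                    Real.exp_nat_mul, e2']
                  norm_num]
              norm_num
          _ ≤ K := by
              apply Real.exp_le_exp.mpr
              rw [hlH]
              linarith only [hE1000, l2, l2p, lU0, ff, fi, g3, g6, g7, g9, hlK]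
      by_contra hcon
      push Not at hcon
      have h2 : 0 < 16 * (H : ℝ) * V ^ 4 := by
        have : (0 : ℝ) < H := by exact_mod_cast hH1
        positivity
      have h3 : 16 * (H : ℝ) * V ^ 4 * t < 16 * (H : ℝ) * V ^ 4 * 1 :=
        mul_lt_mul_of_pos_left hcon h2
      linarith only [ht, h1, h3]
    have htκ : t ≤ x ^ p.κ := by
      refine htK.trans ?_
      rw [hrp, hK]
      apply Real.exp_le_exp.mpr
      linarith only [hE1000, l2, l2p, fa, ff, fg, fi, g2, hlK]
    obtain ⟨r1, hr1, hr2, hr3⟩ := ht1.win t ht1' htκ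
    refine ⟨r1, hr1, hr2, hr3.trans_eq ?_⟩
    rw [hrp, hB, ← Real.exp_nat_mul]
    congr 2
    push_cast
    ring
  have hfin := hcore N' R U V H Z K B Y E T a b1 b2 (ext β) w hR hU hV hH1 hHN (Real.exp_pos _) hKN
    hK3 hB1 (Real.exp_pos _).le hYa hYb (Real.exp_pos _).le hEa hEb (by rw [hZ]) hTt hTl hβ1 hw1 hwin
  refine hfin.trans ?_
  have hT0 : 0 < T := Real.rpow_pos_of_pos hx0 _
  have hCT : C * T ^ c0 * 16 * E ≤ x ^ (-(p.e / 2)) := by
    have h1 : C * T ^ c0 * 16 * E = Real.exp (Real.log C + c0 * ((p.e / (4 * c0 + 4)) * L) +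
        4 * Real.log 2 + -(p.e * L)) := by
      rw [Real.exp_add, Real.exp_add, Real.exp_add, Real.exp_log hC, Real.exp_nat_mul, ← hrp,
        show Real.exp (4 * Real.log 2) = 16 by
          rw [show (4 : ℝ) * Real.log 2 = ((4 : ℕ) : ℝ) * Real.log 2 by norm_num,
            Real.exp_nat_mul, e2']
          norm_num]
    rw [h1, hrp]
    apply Real.exp_le_exp.mpr
    have h2 : (c0 : ℝ) * ((p.e / (4 * c0 + 4)) * L) ≤ p.e * L / 4 := by
      have h3 : (c0 : ℝ) * ((p.e / (4 * c0 + 4)) * L) = (c0 / (4 * c0 + 4)) * (p.e * L) := by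
        field_simp
      have h4 : (c0 : ℝ) / (4 * c0 + 4) ≤ 1 / 4 := by
        rw [div_le_div_iff₀ (by positivity) (by norm_num)]
        linarith only [l2, l2p]
      rw [h3]
      have h5 := mul_le_mul_of_nonneg_right h4 (show 0 ≤ p.e * L by linarith only [hE1000, l2, l2p])
      linarith only [h5]
    have h6 := le_abs_self (Real.log C)
    have h7 := abs_nonneg (Real.log C)
    linarith only [hLe, hE1000, l2, l2p, h2, h6]
  calc C * T ^ c0 * (N' : ℝ) ^ 2 * (U : ℝ) ^ 2 * (V : ℝ) ^ 2 * E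
      ≤ C * T ^ c0 * (4 * N) ^ 2 * (U : ℝ) ^ 2 * (V : ℝ) ^ 2 * E := by gcongr
    _ = (C * T ^ c0 * 16 * E) * (N ^ 2 * ((U : ℝ) * V) ^ 2) := by ring
    _ ≤ x ^ (-(p.e / 2)) * (N ^ 2 * ((U : ℝ) * V) ^ 2) := by gcongr
    _ = N ^ 2 * ((U : ℝ) * V) ^ 2 * x ^ (-(p.e / 2)) := by ring

end Pool.Agent.Disp
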