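import Pool.Agent.Disp.L7Box

/-!
# DISP module E1A: all dyadic boxes

e1_core: from `box1`: `S` is the disjoint union of its parts in the boxes `r ∈ (2^i, 2^(i+1)]`,
`u ∈ [2^k, 2^(k+1))` (a subset of `Icc (2^k) (2 * 2^k)`), `v ∈ (2^j, 2^(j+1)]`; all are `≤ x`
(`r u v ≤ x`), so there are at most `(3 log x)^3` boxes; `box1` with `A + 3`.
-/

set_option autoImplicit false

namespace Pool.Agent.Disp

open Finset Pool.Agent.BGG Pool.Agent.BCore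

theorem E1A_log (x : ℝ) (hx : 16 ≤ x) : 1 ≤ Real.log x ∧
    ((Nat.log 2 ⌊x⌋₊ + 1 : ℕ) : ℝ) ≤ 3 * Real.log x := by
  have hx0 : 0 < x := by linarith
  have h5 : 1 ≤ Real.log x := by
    rw [Real.le_log_iff_exp_le hx0]
    have := Real.exp_one_lt_d9
    linarith
  have h0 : ⌊x⌋₊ ≠ 0 := by
    have : 1 ≤ ⌊x⌋₊ := Nat.le_floor (by push_cast; linarith)
    omega
  have h1 : 2 ^ Nat.log 2 ⌊x⌋₊ ≤ ⌊x⌋₊ := Nat.pow_log_le_self 2 h0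
  have h2 : ((2 : ℝ) ^ Nat.log 2 ⌊x⌋₊) ≤ x := by
    calc ((2 : ℝ) ^ Nat.log 2 ⌊x⌋₊) = ((2 ^ Nat.log 2 ⌊x⌋₊ : ℕ) : ℝ) := by push_cast; rfl
      _ ≤ (⌊x⌋₊ : ℝ) := by exact_mod_cast h1
      _ ≤ x := Nat.floor_le (by linarith)
  have h3 : (Nat.log 2 ⌊x⌋₊ : ℝ) * Real.log 2 ≤ Real.log x := by
    rw [← Real.log_pow]
    exact Real.log_le_log (by positivity) h2
  have h4 := Real.log_two_gt_d9
  have h6 : (0 : ℝ) ≤ (Nat.log 2 ⌊x⌋₊ : ℝ) := Nat.cast_nonneg _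
  refine ⟨h5, ?_⟩
  push_cast
  nlinarith

/-- the dyadic cell of `(r, u, v)` -/
def E1A_cell (t : ℕ × ℕ × ℕ) : ℕ × ℕ × ℕ :=
  (Nat.log 2 (t.1 - 1), Nat.log 2 t.2.1, Nat.log 2 (t.2.2 - 1))

theorem E1A_Ioc {r i : ℕ} (hr : 2 ≤ r) (hi : Nat.log 2 (r - 1) = i) :
    r ∈ Ioc (2 ^ i) (2 * 2 ^ i) := by
  have h1 : 2 ^ Nat.log 2 (r - 1) ≤ r - 1 := Nat.pow_log_le_self 2 (by omega)
  have h2 : r - 1 < 2 ^ (Nat.log 2 (r - 1) + 1) := Nat.lt_pow_succ_log_self (by norm_num) _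
  rw [hi] at h1 h2
  rw [pow_succ] at h2
  rw [mem_Ioc]
  omega

theorem E1A_Icc {u k : ℕ} (hu : 1 ≤ u) (hk : Nat.log 2 u = k) :
    u ∈ Icc (2 ^ k) (2 * 2 ^ k) := by
  have h1 : 2 ^ Nat.log 2 u ≤ u := Nat.pow_log_le_self 2 (by omega)
  have h2 : u < 2 ^ (Nat.log 2 u + 1) := Nat.lt_pow_succ_log_self (by norm_num) _
  rw [hk] at h1 h2
  rw [pow_succ] at h2
  rw [mem_Icc]
  omega

theorem e1_core (p : Prm) (hp : p.Bas) (s η : ℝ) (hs : 0 < s) (hs2 : 10 * s ≤ p.e) (hη : 0 < η)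
    (TP : ℝ → ℝ → ℕ → ℕ → ℕ → Prop) (hTP : ∀ x N r u v, TP x N r u v → TriB p s x N r u v)
    (Bc : ℝ → ℝ → Set (ℕ → ℝ)) (hBc : ∀ x N, Bc x N ⊆ ClOne x N)
    (hc : CoreOK p.ν s η TP Bc) (c : ℕ) : E1 p.ν TP c Bc := by
  intro A
  obtain ⟨B, C, x0, hbox⟩ := box1 p hp s η hs hs2 hη TP hTP Bc hBc hc c (A + 3)
  refine ⟨B, 27 * |C|, max x0 16, ?_⟩
  intro x hx M N hSiz a b α β hMα hNβ hα hβ S hS
  have hx0 : x0 ≤ x := (le_max_left _ _).trans hx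
  have hx16 : 16 ≤ x := (le_max_right _ _).trans hx
  have hxp : 0 < x := by linarith
  have hx1 : 1 ≤ x := by linarith
  obtain ⟨hL1, hcard⟩ := E1A_log x hx16
  have hL0 : 0 < Real.log x := by linarith
  set n : ℕ := Nat.log 2 ⌊x⌋₊ + 1 with hn
  set Q : Finset (ℕ × ℕ × ℕ) := range n ×ˢ (range n ×ˢ range n) with hQ
  have hsz : ∀ t ∈ S, 2 ≤ t.1 ∧ 1 ≤ t.2.1 ∧ 2 ≤ t.2.2 ∧ t.1 ≤ ⌊x⌋₊ ∧ t.2.1 ≤ ⌊x⌋₊ ∧
      t.2.2 ≤ ⌊x⌋₊ := by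
    intro t ht
    have hT := hTP _ _ _ _ _ (hS.tri t ht)
    have h0 : t.1 * (t.2.1 * t.2.2) ≠ 0 := hT.sqf.ne_zero
    have hr := hT.r2
    have hv := hT.v2
    have hu : 1 ≤ t.2.1 := by
      rcases Nat.eq_zero_or_pos t.2.1 with h | h
      · rw [h] at h0
        simp at h0
      · exact h
    have hle : ((t.1 * (t.2.1 * t.2.2) : ℕ) : ℝ) ≤ x := by
      refine hT.qhi.trans ?_
      calc x ^ (1 / 2 + 2 * p.w) ≤ x ^ (1 : ℝ) :=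
            Real.rpow_le_rpow_of_exponent_le hx1 (by linarith [hp.hw2])
        _ = x := Real.rpow_one x
    have h5 : t.1 * (t.2.1 * t.2.2) ≤ ⌊x⌋₊ := Nat.le_floor hle
    have h6 : 1 ≤ t.2.1 * t.2.2 := Nat.mul_pos hu (by omega)
    have h7 : t.1 ≤ t.1 * (t.2.1 * t.2.2) := Nat.le_mul_of_pos_right _ h6
    have h8 : t.2.1 * t.2.2 ≤ t.1 * (t.2.1 * t.2.2) := Nat.le_mul_of_pos_left _ (by omega)
    have h9 : t.2.1 ≤ t.2.1 * t.2.2 := Nat.le_mul_of_pos_right _ (by omega)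
    have h10 : t.2.2 ≤ t.2.1 * t.2.2 := Nat.le_mul_of_pos_left _ hu
    refine ⟨hr, hu, hv, ?_, ?_, ?_⟩ <;> omega
  have hmaps : ∀ t ∈ S, E1A_cell t ∈ Q := by
    intro t ht
    obtain ⟨_, _, _, h4, h5, h6⟩ := hsz t ht
    rw [hQ, E1A_cell, mem_product, mem_product, mem_range, mem_range, mem_range, hn]
    have g4 : Nat.log 2 (t.1 - 1) ≤ Nat.log 2 ⌊x⌋₊ :=
      Nat.log_mono_right ((Nat.sub_le _ _).trans h4)
    have g5 : Nat.log 2 t.2.1 ≤ Nat.log 2 ⌊x⌋₊ := Nat.log_mono_right h5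
    have g6 : Nat.log 2 (t.2.2 - 1) ≤ Nat.log 2 ⌊x⌋₊ :=
      Nat.log_mono_right ((Nat.sub_le _ _).trans h6)
    exact ⟨Nat.lt_succ_of_le g4, Nat.lt_succ_of_le g5, Nat.lt_succ_of_le g6⟩
  rw [← Finset.sum_fiberwise_of_maps_to hmaps]
  have hcell : ∀ q ∈ Q, ∑ t ∈ S with E1A_cell t = q,
      |Dif ⌊4 * M⌋₊ ⌊4 * N⌋₊ α β t.1 (t.2.1 * t.2.2) a b| ≤ |C| * x / Real.log x ^ (A + 3) := by
    intro q _
    have h1 : Adm TP x N (Real.log x ^ B) a b (S.filter (fun t => E1A_cell t = q)) :=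
      ⟨fun t ht => hS.tri t (mem_filter.1 ht).1, fun t ht => hS.cpa t (mem_filter.1 ht).1,
        fun t ht => hS.cpb t (mem_filter.1 ht).1, fun t ht => hS.rgh t (mem_filter.1 ht).1⟩
    have h2 := hbox x hx0 M N hSiz a b α β hMα hNβ hα hβ (2 ^ q.1) (2 ^ q.2.1) (2 ^ q.2.2)
      Nat.one_le_two_pow Nat.one_le_two_pow Nat.one_le_two_pow _ h1 (by
        intro t ht
        obtain ⟨h3, h4⟩ := mem_filter.1 ht
        obtain ⟨g1, g2, g3, _, _, _⟩ := hsz t h3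
        rw [E1A_cell] at h4
        refine ⟨E1A_Ioc g1 (by rw [← h4]), E1A_Icc g2 (by rw [← h4]), E1A_Ioc g3 (by rw [← h4])⟩)
    refine h2.trans ?_
    have h3 : C * x ≤ |C| * x := mul_le_mul_of_nonneg_right (le_abs_self C) hxp.le
    exact div_le_div_of_nonneg_right h3 (by positivity)
  refine (Finset.sum_le_sum hcell).trans ?_
  rw [Finset.sum_const, nsmul_eq_mul, hQ, card_product, card_product, card_range]
  push_cast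
  have hn3 : (n : ℝ) * ((n : ℝ) * n) ≤ 27 * Real.log x ^ 3 := by
    calc (n : ℝ) * ((n : ℝ) * n) = (n : ℝ) ^ 3 := by ring
      _ ≤ (3 * Real.log x) ^ 3 := pow_le_pow_left₀ (Nat.cast_nonneg _) hcard 3
      _ = 27 * Real.log x ^ 3 := by ring
  calc (n : ℝ) * ((n : ℝ) * n) * (|C| * x / Real.log x ^ (A + 3))
      ≤ 27 * Real.log x ^ 3 * (|C| * x / Real.log x ^ (A + 3)) :=
        mul_le_mul_of_nonneg_right hn3 (by positivity)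
    _ = 27 * |C| * x / Real.log x ^ A := by
        rw [pow_add]
        field_simp

end Pool.Agent.Disp
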