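import Pool.Agent.Disp.Tail
import Pool.Agent.BCore.Basic

/-!
# The sum over `m` for fixed `n` and fixed moduli
-/

namespace Pool.Agent.Disp

open Finset Pool.Agent.BCore

open Classical in
/-- Indicator of `Cls`. -/
noncomputable def ci (a b1 b2 : ℤ) (r : ℕ) (l : ℤ) (d1 d2 : ℕ) (n m : ℤ) : ℂ :=
  if Cls a b1 b2 r l d1 d2 n m then 1 else 0

/-- The Gaussian sum over the class. -/
noncomputable def Gs (M : ℕ) (a b1 b2 : ℤ) (r : ℕ) (l : ℤ) (d1 d2 : ℕ) (n : ℤ) : ℂ :=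
  ∑' m : ℤ, ((gau M m : ℝ) : ℂ) * ci a b1 b2 r l d1 d2 n m

lemma ci_norm_le (a b1 b2 : ℤ) (r : ℕ) (l : ℤ) (d1 d2 : ℕ) (n m : ℤ) :
    ‖ci a b1 b2 r l d1 d2 n m‖ ≤ 1 := by
  unfold ci
  split_ifs <;> simp

lemma ci_periodic (a b1 b2 : ℤ) (r : ℕ) (l : ℤ) (d1 d2 : ℕ) (n m : ℤ) :
    ci a b1 b2 r l d1 d2 n (m + (Pm r d1 d2 : ℕ)) = ci a b1 b2 r l d1 d2 n m := by
  unfold ci
  have : Cls a b1 b2 r l d1 d2 n (m + (Pm r d1 d2 : ℕ)) ↔ Cls a b1 b2 r l d1 d2 n m := by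
    constructor
    · intro h
      refine cls_congr h ?_
      rw [show m - (m + ((Pm r d1 d2 : ℕ) : ℤ)) = -((Pm r d1 d2 : ℕ) : ℤ) by ring]
      exact (dvd_refl _).neg_right
    · intro h
      refine cls_congr h ?_
      rw [show (m + ((Pm r d1 d2 : ℕ) : ℤ)) - m = ((Pm r d1 d2 : ℕ) : ℤ) by ring]
  by_cases h : Cls a b1 b2 r l d1 d2 n m
  · rw [if_pos h, if_pos (this.mpr h)]
  · rw [if_neg h, if_neg (fun h' => h (this.mp h'))]

lemma ee_eq_eN (P : ℕ) (X : ℤ) : ee ((X : ℝ) / P) = eN P X := by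
  unfold ee eN
  congr 1
  push_cast
  ring

theorem off_poisson {M : ℕ} (hM : 0 < M) (a b1 b2 : ℤ) (r : ℕ) (l : ℤ) (d1 d2 : ℕ) (n : ℤ)
    (hP : 0 < Pm r d1 d2) :
    Gs M a b1 b2 r l d1 d2 n = (((M : ℝ) / (Pm r d1 d2 : ℕ) : ℝ) : ℂ) *
      ∑' h : ℤ, ((gau ((Pm r d1 d2 : ℕ) / M) h : ℝ) : ℂ) * W a b1 b2 r l d1 d2 h n := by
  unfold Gs
  rw [poisson_periodic (M : ℝ) (by exact_mod_cast hM) (Pm r d1 d2) hP
    (fun m => ci a b1 b2 r l d1 d2 n m) (fun m => ci_periodic a b1 b2 r l d1 d2 n m)]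
  congr 1
  refine tsum_congr fun h => ?_
  congr 1
  unfold W ci
  refine sum_congr rfl fun c _ => ?_
  rw [← ee_eq_eN]
  push_cast
  split_ifs
  · rw [one_mul]
  · rw [zero_mul]

theorem off_split {M H g : ℕ} {Z : ℝ} (hM : 0 < M) (a b1 b2 : ℤ) (r : ℕ) (l : ℤ) (d1 d2 : ℕ) (n : ℤ)
    (hsq : Squarefree (Pm r d1 d2))
    (ha : IsCoprime (r : ℤ) a) (h1 : IsCoprime (d1 : ℤ) b1) (h2 : IsCoprime (d2 : ℤ) b2)
    (hZ : 1 ≤ Z) (hg : 1 ≤ g) (hH : Z * ((Pm r d1 d2 : ℕ) * g) ≤ H * M) :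
    ‖Gs M a b1 b2 r l d1 d2 n - (((M : ℝ) / (Pm r d1 d2 : ℕ) : ℝ) : ℂ) *
      (W a b1 b2 r l d1 d2 0 n + ∑ h ∈ Hr H g,
        ((gau ((Pm r d1 d2 : ℕ) / M) h : ℝ) : ℂ) * W a b1 b2 r l d1 d2 h n)‖ ≤
      tailC * Real.exp (-Z) * ((Pm r d1 d2 : ℕ) / M) := by
  classical
  have hP : 0 < Pm r d1 d2 := Nat.pos_of_ne_zero hsq.ne_zero
  have hPr : (0 : ℝ) < (Pm r d1 d2 : ℕ) := by exact_mod_cast hP
  have hMr : (0 : ℝ) < (M : ℝ) := by exact_mod_cast hM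
  have hgr : (0 : ℝ) < (g : ℝ) := by exact_mod_cast hg
  set Y : ℝ := (Pm r d1 d2 : ℕ) / M with hY
  have hY0 : 0 < Y := by positivity
  rw [off_poisson hM a b1 b2 r l d1 d2 n hP, ← mul_sub, norm_mul]
  have hW : ∀ h, ‖W a b1 b2 r l d1 d2 h n‖ ≤ 1 := fun h => W_norm_le hsq ha h1 h2 h
  set F : ℤ → ℂ := fun h => ((gau Y h : ℝ) : ℂ) * W a b1 b2 r l d1 d2 h n with hF
  have hFn : ∀ h, ‖F h‖ ≤ gau Y h := by
    intro h
    rw [hF, norm_mul, Complex.norm_real, Real.norm_of_nonneg (gau_pos _ _).le]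
    calc gau Y h * ‖W a b1 b2 r l d1 d2 h n‖ ≤ gau Y h * 1 :=
          mul_le_mul_of_nonneg_left (hW h) (gau_pos _ _).le
      _ = gau Y h := mul_one _
  have hFs : Summable F := Summable.of_norm_bounded (summable_gau Y hY0) hFn
  -- the finite part
  set Sf : Finset ℤ := insert 0 (Hr H g) with hSf
  have h0 : (0 : ℤ) ∉ Hr H g := by
    unfold Hr
    simp
  have hfin : W a b1 b2 r l d1 d2 0 n + ∑ h ∈ Hr H g, F h = ∑ h ∈ Sf, F h := by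
    rw [hSf, sum_insert h0]
    congr 1
    rw [hF]
    simp [gau]
  rw [hfin]
  have hsplit : (∑' h : ℤ, F h) - ∑ h ∈ Sf, F h =
      ∑' h : ℤ, (if h ∈ ({h : ℤ | h ∉ Sf} : Set ℤ) then F h else 0) := by
    have e1 : ∑' h : ℤ, (if h ∈ Sf then F h else 0) = ∑ h ∈ Sf, F h := by
      rw [tsum_eq_sum (s := Sf) (fun h hh => if_neg hh)]
      exact sum_congr rfl fun h hh => if_pos hh
    have hs1 : Summable fun h : ℤ => (if h ∈ Sf then F h else 0) :=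
      summable_of_ne_finset_zero (s := Sf) (fun h hh => if_neg hh)
    rw [← e1, ← hFs.tsum_sub hs1]
    refine tsum_congr fun h => ?_
    by_cases hh : h ∈ Sf
    · simp [hh]
    · simp [hh]
  rw [hsplit]
  have hS : ∀ h ∈ ({h : ℤ | h ∉ Sf} : Set ℤ), Z * Y ≤ |((h : ℤ) : ℝ)| := by
    intro h hh
    have hh' : h ∉ Sf := hh
    rw [hSf, mem_insert, not_or] at hh'
    obtain ⟨hne, hnH⟩ := hh'
    have hlt : (H : ℤ) < |h| * g := by
      by_contra hcon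
      apply hnH
      unfold Hr
      rw [mem_filter, mem_Icc]
      push Not at hcon
      have h3 : |h| ≤ |h| * g := by
        have : (1 : ℤ) ≤ g := by exact_mod_cast hg
        nlinarith [abs_nonneg h]
      have h4 := abs_le.mp (h3.trans hcon)
      exact ⟨⟨h4.1, h4.2⟩, hne, hcon⟩
    have hlt' : (H : ℝ) < |(h : ℝ)| * g := by
      have : ((H : ℤ) : ℝ) < ((|h| * g : ℤ) : ℝ) := by exact_mod_cast hlt
      simpa using this
    rw [hY, mul_div_assoc', div_le_iff₀ hMr]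
    have h5 : Z * ((Pm r d1 d2 : ℕ) : ℝ) * g ≤ |(h : ℝ)| * g * M := by
      calc Z * ((Pm r d1 d2 : ℕ) : ℝ) * g = Z * (((Pm r d1 d2 : ℕ) : ℝ) * g) := by ring
        _ ≤ H * M := hH
        _ ≤ |(h : ℝ)| * g * M := mul_le_mul_of_nonneg_right hlt'.le hMr.le
    have h6 : (Z * ((Pm r d1 d2 : ℕ) : ℝ)) * g ≤ (|(h : ℝ)| * M) * g := by
      calc (Z * ((Pm r d1 d2 : ℕ) : ℝ)) * g = Z * ((Pm r d1 d2 : ℕ) : ℝ) * g := by ring
        _ ≤ |(h : ℝ)| * g * M := h5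
        _ = (|(h : ℝ)| * M) * g := by ring
    exact le_of_mul_le_mul_right h6 hgr
  have htail := tail_bound hY0 hZ _ hS
  have hnorm : ‖∑' h : ℤ, (if h ∈ ({h : ℤ | h ∉ Sf} : Set ℤ) then F h else 0)‖ ≤
      tailC * Real.exp (-Z) * Y ^ 2 := by
    refine (tsum_of_norm_bounded (summable_ind_gau hY0 ({h : ℤ | h ∉ Sf} : Set ℤ)).hasSum
      fun h => ?_).trans htail
    split_ifs with hh
    · exact hFn h
    · rw [norm_zero]
  rw [Complex.norm_real, Real.norm_of_nonneg (by positivity)]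
  calc (M : ℝ) / (Pm r d1 d2 : ℕ) * ‖∑' h : ℤ, (if h ∈ ({h : ℤ | h ∉ Sf} : Set ℤ) then F h else 0)‖
      ≤ (M : ℝ) / (Pm r d1 d2 : ℕ) * (tailC * Real.exp (-Z) * Y ^ 2) :=
        mul_le_mul_of_nonneg_left hnorm (by positivity)
    _ = tailC * Real.exp (-Z) * Y := by
        have hYM : (M : ℝ) / (Pm r d1 d2 : ℕ) * Y = 1 := by
          rw [hY]; field_simp
        calc (M : ℝ) / (Pm r d1 d2 : ℕ) * (tailC * Real.exp (-Z) * Y ^ 2)
            = tailC * Real.exp (-Z) * Y * ((M : ℝ) / (Pm r d1 d2 : ℕ) * Y) := by ring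
          _ = _ := by rw [hYM, mul_one]

end Pool.Agent.Disp
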