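import Mathlib

/-!
# Poisson summation for a Gaussian weight and a periodic coefficient
-/

open scoped BigOperators

namespace Pool.Agent.Disp

/-- The Gaussian `exp (-π (x / Y)^2)`. -/
noncomputable def gau (Y x : ℝ) : ℝ := Real.exp (-Real.pi * (x / Y) ^ 2)

lemma gau_pos (Y x : ℝ) : 0 < gau Y x := Real.exp_pos _

lemma gau_le_one (Y x : ℝ) : gau Y x ≤ 1 := by
  unfold gau
  rw [Real.exp_le_one_iff]
  have := Real.pi_pos
  nlinarith [sq_nonneg (x / Y)]

lemma gau_neg (Y x : ℝ) : gau Y (-x) = gau Y x := by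
  unfold gau; congr 2; ring

/-- The additive character `e(x) = exp (2 π i x)`. -/
noncomputable def ee (x : ℝ) : ℂ := Complex.exp (2 * Real.pi * Complex.I * x)

lemma norm_ee (x : ℝ) : ‖ee x‖ = 1 := by
  unfold ee
  rw [show (2 * (Real.pi : ℂ) * Complex.I * x) = ((2 * Real.pi * x : ℝ) : ℂ) * Complex.I by
    push_cast; ring]
  exact Complex.norm_exp_ofReal_mul_I _

lemma ee_zero : ee 0 = 1 := by simp [ee]

/-- Poisson summation for one residue class. -/
theorem poisson_class (Y : ℝ) (hY : 0 < Y) (P : ℕ) (hP : 0 < P) (c : ℤ) :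
    ∑' j : ℤ, ((gau Y ((c : ℝ) + P * j) : ℝ) : ℂ) =
      ((Y / P : ℝ) : ℂ) * ∑' h : ℤ, ((gau (P / Y) h : ℝ) : ℂ) * ee (h * c / P) := by
  have hPr : (0 : ℝ) < P := by exact_mod_cast hP
  have hYc : (Y : ℂ) ≠ 0 := by exact_mod_cast hY.ne'
  have hPc : (P : ℂ) ≠ 0 := by exact_mod_cast hPr.ne'
  have ha : 0 < (((Y / P) ^ 2 : ℝ) : ℂ).re := by
    rw [Complex.ofReal_re]; positivity
  have key := Complex.tsum_exp_neg_quadratic ha (Complex.I * ((c / P : ℝ) : ℂ))
  have hroot : ((((Y / P) ^ 2 : ℝ) : ℂ)) ^ (1 / 2 : ℂ) = ((Y / P : ℝ) : ℂ) := by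
    have : ((1 / 2 : ℂ)) = (((1 / 2 : ℝ)) : ℂ) := by push_cast; ring
    rw [this, ← Complex.ofReal_cpow (by positivity), ← Real.sqrt_eq_rpow,
      Real.sqrt_sq (by positivity)]
  rw [hroot] at key
  have hYP : ((Y / P : ℝ) : ℂ) ≠ 0 := by
    rw [Complex.ofReal_ne_zero]; positivity
  have h1 : (∑' h : ℤ, ((gau (P / Y) h : ℝ) : ℂ) * ee (h * c / P)) =
      ∑' n : ℤ, Complex.exp (-Real.pi * ((((Y / P) ^ 2 : ℝ)) : ℂ) * (n : ℂ) ^ 2 +
        2 * Real.pi * (Complex.I * ((c / P : ℝ) : ℂ)) * n) := by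
    refine tsum_congr fun h => ?_
    unfold gau ee
    rw [Complex.ofReal_exp, ← Complex.exp_add]
    congr 1
    push_cast
    field_simp
  have h2 : (∑' n : ℤ, Complex.exp (-Real.pi / ((((Y / P) ^ 2 : ℝ)) : ℂ) *
        ((n : ℂ) + Complex.I * (Complex.I * ((c / P : ℝ) : ℂ))) ^ 2)) =
      ∑' j : ℤ, ((gau Y ((c : ℝ) + P * j) : ℝ) : ℂ) := by
    rw [← (Equiv.neg ℤ).tsum_eq]
    refine tsum_congr fun j => ?_
    unfold gau
    rw [Complex.ofReal_exp]
    congr 1
    have hI : Complex.I * (Complex.I * ((c / P : ℝ) : ℂ)) = -((c / P : ℝ) : ℂ) := by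
      rw [← mul_assoc, Complex.I_mul_I]; ring
    rw [hI]
    simp only [Equiv.neg_apply]
    push_cast
    field_simp
    ring
  rw [h1, key, h2, ← mul_assoc, mul_one_div, div_self hYP, one_mul]

lemma summable_gau (Y : ℝ) (hY : 0 < Y) : Summable fun m : ℤ => gau Y m := by
  have h := summable_pow_mul_jacobiTheta₂_term_bound 0 (T := 1 / Y ^ 2) (by positivity) 0
  refine h.congr fun m => ?_
  unfold gau
  rw [pow_zero, one_mul]
  congr 1
  field_simp
  ring

lemma exists_bound_of_periodic (P : ℕ) (hP : 0 < P) (f : ℤ → ℂ)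
    (hper : ∀ (j : ℤ) (m : ℤ), f (m + P * j) = f m) : ∃ C : ℝ, ∀ m, ‖f m‖ ≤ C := by
  refine ⟨∑ c ∈ Finset.range P, ‖f c‖, fun m => ?_⟩
  have h0 : 0 ≤ m % (P : ℤ) := Int.emod_nonneg _ (by exact_mod_cast hP.ne')
  have h1 : m % (P : ℤ) < P := Int.emod_lt_of_pos _ (by exact_mod_cast hP)
  have hm : f m = f ((m % P).toNat : ℤ) := by
    rw [Int.toNat_of_nonneg h0]
    conv_lhs => rw [← Int.emod_add_mul_ediv m P]
    exact hper _ _
  rw [hm]
  refine Finset.single_le_sum (f := fun c : ℕ => ‖f c‖) (fun i _ => norm_nonneg _) ?_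
  rw [Finset.mem_range]
  omega

lemma periodic_mul (P : ℕ) (f : ℤ → ℂ) (hf : ∀ m : ℤ, f (m + P) = f m) :
    ∀ (j : ℤ) (m : ℤ), f (m + P * j) = f m := by
  intro j
  induction j using Int.induction_on with
  | zero => intro m; simp
  | succ i ih =>
    intro m
    rw [show m + (P : ℤ) * ((i : ℤ) + 1) = (m + P * i) + P by ring, hf, ih]
  | pred i ih =>
    intro m
    have := hf (m + (P : ℤ) * (-(i : ℤ) - 1))
    rw [← this, show m + (P : ℤ) * (-(i : ℤ) - 1) + P = m + P * (-(i : ℤ)) by ring, ih]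

/-- Splitting a sum over `ℤ` into residue classes mod `P`. -/
theorem tsum_residues (P : ℕ) (hP : 0 < P) (F : ℤ → ℂ) (hF : Summable F) :
    ∑' m : ℤ, F m = ∑ c ∈ Finset.range P, ∑' j : ℤ, F ((c : ℤ) + P * j) := by
  have : NeZero P := ⟨hP.ne'⟩
  have e : Fin P × ℤ ≃ ℤ := (Equiv.prodComm (Fin P) ℤ).trans (Int.divModEquiv P).symm
  have hval : ∀ x : Fin P × ℤ,
      ((Equiv.prodComm (Fin P) ℤ).trans (Int.divModEquiv P).symm x : ℤ) =
        ((x.1 : ℕ) : ℤ) + P * x.2 := by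
    rintro ⟨c, j⟩
    simp only [Equiv.trans_apply, Equiv.prodComm_apply, Prod.swap_prod_mk,
      Int.divModEquiv_symm_apply]
    ring
  rw [← ((Equiv.prodComm (Fin P) ℤ).trans (Int.divModEquiv P).symm).tsum_eq]
  simp only [hval]
  have hs : Summable fun x : Fin P × ℤ => F (((x.1 : ℕ) : ℤ) + P * x.2) := by
    have := ((Equiv.prodComm (Fin P) ℤ).trans (Int.divModEquiv P).symm).summable_iff.mpr hF
    refine this.congr fun x => ?_
    rw [Function.comp_apply, hval]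
  rw [Summable.tsum_prod' hs (fun c => hs.prod_factor c), tsum_fintype,
    Finset.sum_range fun c : ℕ => ∑' j : ℤ, F ((c : ℤ) + P * j)]

/-- Poisson summation for a `P`-periodic coefficient. -/
theorem poisson_periodic (Y : ℝ) (hY : 0 < Y) (P : ℕ) (hP : 0 < P) (f : ℤ → ℂ)
    (hf : ∀ m : ℤ, f (m + P) = f m) :
    ∑' m : ℤ, ((gau Y m : ℝ) : ℂ) * f m =
      ((Y / P : ℝ) : ℂ) * ∑' h : ℤ, ((gau (P / Y) h : ℝ) : ℂ) *
        ∑ c ∈ Finset.range P, f c * ee (h * c / P) := by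
  have hPr : (0 : ℝ) < P := by exact_mod_cast hP
  have hper := periodic_mul P f hf
  obtain ⟨C, hC⟩ := exists_bound_of_periodic P hP f hper
  have hsum : Summable fun m : ℤ => ((gau Y m : ℝ) : ℂ) * f m := by
    refine Summable.of_norm_bounded ((summable_gau Y hY).mul_right C) fun m => ?_
    rw [norm_mul, Complex.norm_real, Real.norm_of_nonneg (gau_pos _ _).le]
    exact mul_le_mul_of_nonneg_left (hC m) (gau_pos _ _).le
  rw [tsum_residues P hP _ hsum]
  have hterm : ∀ c ∈ Finset.range P, (∑' j : ℤ,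
      ((gau Y (((c : ℤ) + P * j : ℤ) : ℝ) : ℝ) : ℂ) * f ((c : ℤ) + P * j)) =
      ((Y / P : ℝ) : ℂ) *
        ∑' h : ℤ, ((gau (P / Y) h : ℝ) : ℂ) * (f c * ee (h * c / P)) := by
    intro c _
    have h1 := poisson_class Y hY P hP (c : ℤ)
    calc (∑' j : ℤ, ((gau Y (((c : ℤ) + P * j : ℤ) : ℝ) : ℝ) : ℂ) * f ((c : ℤ) + P * j))
        = (∑' j : ℤ, ((gau Y (((c : ℤ) : ℝ) + P * j) : ℝ) : ℂ)) * f c := by
          rw [← tsum_mul_right]
          refine tsum_congr fun j => ?_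
          rw [hper]
          push_cast
          ring
      _ = _ := by
          rw [h1, mul_assoc, ← tsum_mul_right]
          congr 1
          refine tsum_congr fun h => ?_
          rw [Int.cast_natCast]
          ring
  rw [Finset.sum_congr rfl hterm, ← Finset.mul_sum]
  congr 1
  have hsummand : ∀ c : ℕ, Summable fun h : ℤ =>
      ((gau (P / Y) h : ℝ) : ℂ) * (f c * ee (h * c / P)) := by
    intro c
    refine Summable.of_norm_bounded ((summable_gau (P / Y) (by positivity)).mul_right ‖f c‖)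
      fun h => ?_
    rw [norm_mul, norm_mul, norm_ee, mul_one, Complex.norm_real,
      Real.norm_of_nonneg (gau_pos _ _).le]
  rw [← Summable.tsum_finsetSum fun c _ => hsummand c]
  refine tsum_congr fun h => ?_
  rw [Finset.mul_sum]

end Pool.Agent.Disp
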