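import Pool.Agent.Disp.Poisson

/-!
# Gaussian tails
-/

namespace Pool.Agent.Disp

lemma tail_term {Y Z : ℝ} (hY : 0 < Y) (hZ : 1 ≤ Z) (h : ℤ) (hh : Z * Y ≤ |(h : ℝ)|) :
    gau Y h ≤ Real.exp (-Z) * Y ^ 2 * (1 / (h : ℝ) ^ 2) := by
  have hpi := Real.pi_gt_three
  have habs : 0 < |(h : ℝ)| := lt_of_lt_of_le (by positivity) hh
  have hne : (h : ℝ) ≠ 0 := abs_pos.mp habs
  have hsq : Z ^ 2 * Y ^ 2 ≤ (h : ℝ) ^ 2 := by
    rw [← sq_abs (h : ℝ), ← mul_pow]
    exact pow_le_pow_left₀ (by positivity) hh 2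
  set s : ℝ := (h / Y) ^ 2 with hs
  have hs1 : Z ^ 2 ≤ s := by
    rw [hs, div_pow, le_div_iff₀ (by positivity)]
    exact hsq
  have hs0 : 0 < s := lt_of_lt_of_le (by positivity) hs1
  unfold gau
  have h1 : -Real.pi * (h / Y : ℝ) ^ 2 ≤ -Z + -s := by
    rw [← hs]
    nlinarith
  refine (Real.exp_le_exp.mpr h1).trans ?_
  rw [Real.exp_add, mul_assoc]
  refine mul_le_mul_of_nonneg_left ?_ (Real.exp_pos _).le
  have h2 : Real.exp (-s) ≤ 1 / s := by
    rw [Real.exp_neg, ← one_div]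
    exact one_div_le_one_div_of_le hs0 ((Real.add_one_le_exp s).trans' (by linarith))
  refine h2.trans (le_of_eq ?_)
  rw [hs]
  field_simp

/-- The constant of the tail bound. -/
noncomputable def tailC : ℝ := ∑' h : ℤ, 1 / (h : ℝ) ^ 2

lemma summable_inv_sq : Summable fun h : ℤ => 1 / (h : ℝ) ^ 2 :=
  Real.summable_one_div_int_pow.mpr one_lt_two

lemma tailC_pos : 0 < tailC := by
  unfold tailC
  refine lt_of_lt_of_le (show (0 : ℝ) < 1 / ((1 : ℤ) : ℝ) ^ 2 by norm_num) ?_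
  exact summable_inv_sq.le_tsum 1 fun j _ => by positivity


theorem tail_bound {Y Z : ℝ} (hY : 0 < Y) (hZ : 1 ≤ Z) (S : Set ℤ) [DecidablePred (· ∈ S)]
    (hS : ∀ h ∈ S, Z * Y ≤ |((h : ℤ) : ℝ)|) :
    ∑' h : ℤ, (if h ∈ S then gau Y h else 0) ≤ tailC * Real.exp (-Z) * Y ^ 2 := by
  have hle : ∀ h : ℤ, (if h ∈ S then gau Y h else 0) ≤
      Real.exp (-Z) * Y ^ 2 * (1 / (h : ℝ) ^ 2) := by
    intro h
    split_ifs with h1
    · exact tail_term hY hZ h (hS h h1)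
    · positivity
  have hs1 : Summable fun h : ℤ => Real.exp (-Z) * Y ^ 2 * (1 / (h : ℝ) ^ 2) :=
    summable_inv_sq.mul_left _
  have hs0 : Summable fun h : ℤ => (if h ∈ S then gau Y h else 0) :=
    Summable.of_nonneg_of_le (fun h => by split_ifs <;> first | exact (gau_pos _ _).le | rfl)
      hle hs1
  refine (hs0.tsum_le_tsum hle hs1).trans (le_of_eq ?_)
  rw [tsum_mul_left]
  unfold tailC
  ring


lemma summable_ind_gau {Y : ℝ} (hY : 0 < Y) (S : Set ℤ) [DecidablePred (· ∈ S)] :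
    Summable fun h : ℤ => (if h ∈ S then gau Y h else 0) :=
  Summable.of_nonneg_of_le (fun h => by split_ifs <;> first | exact (gau_pos _ _).le | rfl)
    (fun h => by split_ifs; exacts [le_rfl, (gau_pos _ _).le]) (summable_gau Y hY)

end Pool.Agent.Disp
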